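import Pool.Agent.Lib.S5.T9B
import Pool.Agent.Lib.NV6.C_All

/-! Project S5, step nine: all negative moments are finite. -/

open scoped Classical Topology ENNReal ComplexConjugate
open Set MeasureTheory Complex Metric Filter MvPolynomial

noncomputable section

namespace Pool.Agent.Lib.S5

open Pool.Agent.Lib.NV6 Pool.Agent.Lib.S3K

variable {ι κ : Type} [Fintype ι] [Fintype κ] {Z : Set (ι × κ → ℂ)}

theorem pos_pow (hS : St_SEC) {q : ℕ} {f : Sph Z → ℝ} (hf : Pos Z q 0 f) (k : ℕ) :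
    Pos Z ((k + 1) * q) 0 fun p => f p ^ (k + 1) := by
  induction k with
  | zero => simpa only [zero_add, one_mul, pow_one] using hf
  | succ k ih =>
    obtain ⟨r, S, h1, h2⟩ := ih
    obtain ⟨r', S', h3, h4⟩ := hf
    rw [Nat.succ_mul (k + 1)]
    refine CADM.pos_of (T := Fin r × Fin r') (fun l x => S l.1 x * S' l.2 x)
      (fun l => hS.mul (h1 l.1) (h3 l.2)) fun p => ?_
    have h5 : f p ^ (k + 1) = _ := h2 p
    rw [pow_succ, h5, h4 p, Finset.sum_mul_sum, Fintype.sum_prod_type]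
    simp only [map_mul]

theorem rp {g z t : ℝ} {k : ℕ} (hk : 0 < k) (hg : 0 < g) (hz : 0 < z) :
    Real.exp (-(t / k * Real.log g)) = g ^ (-(t / k)) ∧ (z ^ k) ^ (-(t / k)) = z ^ (-t) := by
  have : (k : ℝ) ≠ 0 := by positivity
  refine ⟨by rw [Real.rpow_def_of_pos hg, mul_neg, mul_comm], ?_⟩
  rw [← Real.rpow_natCast, ← Real.rpow_mul hz.le, mul_neg, mul_div_cancel₀ _ this]

theorem tTHV (hSE : St_SEC) (hS : St_SPH) (hA : St_ADM) (hPW : St_POW) (hTH : St_THC)
    (hNO : St_NOV) (hLM : St_LMV) : St_THV := by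
  intro ι κ _ _ Z K x ε ν e₀ V hZ hx hε hV hG
  have := hS.cpt hZ.cone
  obtain ⟨N, hN, r, S, h1, h2⟩ := hNO ι κ Z ν V hZ.cone hV
  obtain ⟨f, hf⟩ : ∃ f : Sph Z → ℝ, f = fun p : Sph Z => ∑ l, normSq (S l p.1) := ⟨_, rfl⟩
  have fe : ∀ p : Sph Z, ∑ l, normSq (S l p.1) = f p := fun p => by rw [hf]
  have fp : Pos Z N 0 f := ⟨r, S, fun l => hV.sec N hN _ (h1 l), fun p => (fe p).symm⟩
  obtain ⟨cf, f0⟩ := hA.cont fp
  obtain ⟨B, B0, B1⟩ := bdd cf
  have N0 : (0 : ℝ) < 2 * N := by positivity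
  simp only [fe] at h2 ⊢
  have key : ∀ j : ℕ, ¬ Blow f (j / (2 * N)) (ν : Measure (Sph Z)) := by
    intro j
    induction j with
    | zero =>
      intro h
      obtain ⟨η, -, h3⟩ := h 2
      simp at h3
    | succ j ih =>
      intro hB
      simp only [Blow, not_forall, not_exists, not_and, not_le] at ih
      obtain ⟨R, hR⟩ := ih
      obtain ⟨t, ht⟩ : ∃ t : ℝ, t = ((j + 1 : ℕ) : ℝ) / (2 * N) := ⟨_, rfl⟩
      rw [← ht] at hB
      have t0 : 0 < t := by rw [ht]; positivity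
      obtain ⟨k, hk⟩ := exists_nat_gt (t * e₀ / ε)
      have k0 : (0 : ℝ) < ((k + 1 : ℕ) : ℝ) := by positivity
      have s0 : 0 ≤ t / ((k + 1 : ℕ) : ℝ) := (div_pos t0 k0).le
      obtain ⟨M, hM⟩ := hA.gen (q := (k + 1) * N) hZ (Or.inr le_rfl)
      have cM := (hA.cont hM.1).1
      obtain ⟨D, D0, D1⟩ := bdd cM
      obtain ⟨b, b0, b1⟩ := bdd (cM.inv₀ fun p => (hM.2 p).ne')
      choose η η0 η1 using fun i : ℕ => hB i
      obtain ⟨ξ, ξ0, ξ1, ξ2⟩ : ∃ ξ : ℕ → ℝ, (∀ i, 0 < ξ i) ∧ (∀ i, ξ i ≤ 1) ∧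
          ∀ i, ξ i * D ≤ η i ^ (k + 1) :=
        ⟨fun i => min 1 (η i ^ (k + 1) / D),
          fun i => lt_min one_pos (div_pos (pow_pos (η0 i) _) D0), fun i => min_le_left _ _,
          fun i => (le_div_iff₀ D0).1 (min_le_right _ _)⟩
      have g0 : ∀ i p, 0 < f p ^ (k + 1) + ξ i * M p := fun i p =>
        add_pos_of_nonneg_of_pos (pow_nonneg (f0 p) _) (mul_pos (ξ0 i) (hM.2 p))
      have ad : ∀ i, Adm Z _ _ fun p => t / ((k + 1 : ℕ) : ℝ) *
          Real.log (f p ^ (k + 1) + ξ i * M p) := fun i => hA.log s0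
        ⟨hA.add (hA.up (Nat.zero_le e₀) (pos_pow hSE fp k)) (hA.smul (ξ0 i).le hM.1), g0 i⟩
      have cW : ∀ i, Continuous fun p => Real.exp (-(t / ((k + 1 : ℕ) : ℝ) *
          Real.log (f p ^ (k + 1) + ξ i * M p))) := fun i =>
        Real.continuous_exp.comp (hA.cadm (ad i)).1.neg
      refine (hLM ι κ Z K x ε _ _ (t / ((k + 1 : ℕ) : ℝ) * Real.log (B ^ (k + 1) + D))
        ν V _ hV hG ad (fun i p => mul_le_mul_of_nonneg_left (Real.log_le_log (g0 i p)
          (add_le_add (pow_le_pow_left₀ (f0 p) (B1 p) _)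
            ((mul_le_of_le_one_left (hM.2 p).le (ξ1 i)).trans (D1 p)))) s0)
        (fun i => (η1 i).trans (integral_mono (intc (pw_cont cf f0 t (η0 i)) _) (intc (cW i) _)
          fun p => ?_)) fun n hn F hF => ?_).elim fun ν' h3 => ?_
      rotate_right
      · refine hTH ι κ Z K _ _ ν' e₀ hZ (add_nonneg hx (by positivity)) (sub_pos.2 ?_) h3
        rw [div_mul_eq_mul_div, div_lt_iff₀ k0]
        rw [div_lt_iff₀ hε] at hk
        push_cast
        nlinarith
      · obtain ⟨g1, g2⟩ := rp (t := t) k.succ_pos (g0 i p)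
          (add_pos_of_nonneg_of_pos (f0 p) (η0 i))
        refine le_of_le_of_eq (g2.symm.trans_le ?_) g1.symm
        exact Real.rpow_le_rpow_of_nonpos (g0 i p) ((add_le_add le_rfl
          ((mul_le_mul_of_nonneg_left (D1 p) (ξ0 i).le).trans (ξ2 i))).trans
          (pow_add_pow_le (f0 p) (η0 i).le k.succ_ne_zero)) (neg_nonpos.2 s0)
      · obtain ⟨C, C0, hC⟩ := h2 n hn F hF
        refine ⟨C * 2 ^ t * R, fun i => ?_⟩
        obtain ⟨ζ, ζ0, ζ1⟩ : ∃ ζ > (0 : ℝ), ζ ^ (k + 1) = ξ i * b⁻¹ :=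
          ⟨_, Real.rpow_pos_of_pos (mul_pos (ξ0 i) (inv_pos.2 b0)) _,
            Real.rpow_inv_natCast_pow (mul_pos (ξ0 i) (inv_pos.2 b0)).le k.succ_ne_zero⟩
        refine le_trans ?_ (mul_le_mul_of_nonneg_left (hR ζ ζ0).le (by positivity))
        rw [← integral_const_mul]
        refine integral_mono (intc ((hS.cont (hV.sec n hn F hF)).norm.mul (cW i)) _)
          (intc (continuous_const.mul (pw_cont cf f0 _ ζ0)) _) fun p => ?_
        have z0 := add_pos_of_nonneg_of_pos (f0 p) ζ0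
        obtain ⟨g1, g2⟩ := rp (t := t) k.succ_pos (g0 i p) (half_pos z0)
        have g3 : ((f p + ζ) / 2) ^ (k + 1) ≤ f p ^ (k + 1) + ξ i * M p := by
          refine le_trans ?_ (add_le_add le_rfl (ζ1.trans_le (mul_le_mul_of_nonneg_left
            (inv_le_of_inv_le₀ (hM.2 p) (b1 p)) (ξ0 i).le)))
          rcases le_total (f p) ζ with h | h
          · exact (pow_le_pow_left₀ (half_pos z0).le (by linarith) _).trans
              (le_add_of_nonneg_left (pow_nonneg (f0 p) _))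
          · exact (pow_le_pow_left₀ (half_pos z0).le (by linarith) _).trans
              (le_add_of_nonneg_right (pow_nonneg ζ0.le _))
        have g4 := (g1.trans_le (Real.rpow_le_rpow_of_nonpos (pow_pos (half_pos z0) _) g3
          (neg_nonpos.2 s0))).trans_eq g2
        have g5 : ‖F p.1‖ ≤ C * (f p + ζ) ^ (2 * (N : ℝ))⁻¹ := (hC p).trans
          (mul_le_mul_of_nonneg_left (Real.rpow_le_rpow (f0 p) (by linarith) (by positivity)) C0)
        refine (mul_le_mul g5 g4 (Real.exp_pos _).le (by positivity)).trans_eq ?_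
        have g6 : -((j : ℝ) / (2 * N)) = (2 * (N : ℝ))⁻¹ + -t := by
          rw [ht]
          push_cast
          ring
        change _ = C * 2 ^ t * (f p + ζ) ^ (-((j : ℝ) / (2 * N)))
        rw [g6, Real.rpow_add z0, Real.div_rpow z0.le zero_le_two, Real.rpow_neg zero_le_two,
          div_inv_eq_mul]
        ring
  have k2 : ∀ j : ℕ, (∀ᵐ p ∂(ν : Measure (Sph Z)), 0 < f p) ∧
      Integrable (fun p => f p ^ (-(((j + 1 : ℕ) : ℝ) / (2 * N)))) (ν : Measure (Sph Z)) := by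
    intro j
    have h := key (j + 1)
    simp only [Blow, not_forall, not_exists, not_and, not_le] at h
    obtain ⟨R, hR⟩ := h
    obtain ⟨g1, g2, -⟩ := hPW _ (ν : Measure (Sph Z)) f _ R B cf.measurable
      (fun p => ⟨f0 p, B1 p⟩) (by positivity) fun η hη => (hR η hη).le
    exact ⟨g1, g2.1⟩
  refine ⟨N, hN, r, S, h1, by simpa only [fe] using (k2 0).1, fun t ht => ?_⟩
  simp only [fe]
  obtain ⟨j, hj⟩ := exists_nat_gt (t * (2 * N))
  have g1 : t ≤ ((j + 1 : ℕ) : ℝ) / (2 * N) := by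
    rw [le_div_iff₀ N0]
    push_cast
    linarith
  refine ((k2 j).2.add (integrable_const 1)).mono'
    (cf.measurable.pow_const _).aestronglyMeasurable ((k2 j).1.mono fun p hp => ?_)
  rw [Real.norm_of_nonneg (Real.rpow_nonneg hp.le _)]
  rcases le_total (f p) 1 with h | h
  · exact (Real.rpow_le_rpow_of_exponent_ge hp h (neg_le_neg g1)).trans
      (le_add_of_nonneg_right zero_le_one)
  · exact (Real.rpow_le_one_of_one_le_of_nonpos h (neg_nonpos.2 ht.le)).trans
      (le_add_of_nonneg_left (Real.rpow_nonneg hp.le _))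

theorem st_THV : St_THV :=
  tTHV st_SEC st_SPH st_ADM cPOW st_THC (tNOV st_SPH) (tLMV st_SPH st_ADM tFDV)

end Pool.Agent.Lib.S5
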