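import Pool.Agent.Lib.NV6.CBlue

/-! Project S5, step nine: the estimate with a holomorphic part. Objects. -/

open scoped Classical Topology ENNReal ComplexConjugate
open Set MeasureTheory Complex Metric Filter MvPolynomial

set_option linter.unusedVariables false

noncomputable section

namespace Pool.Agent.Lib.S5

open Pool.Agent.Lib.NV6

variable {ι κ : Type} [Fintype ι] [Fintype κ]

/-- The test function. -/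
def uu {Z : Set (ι × κ → ℂ)} (s s' : Fn ι κ) (γ : Sph Z → ℝ) (p : Sph Z) : ℂ :=
  s' p.1 * conj (s p.1) / ((normSq (s p.1) + Real.exp (γ p) : ℝ) : ℂ)

/-- The weight. -/
def ww {Z : Set (ι × κ → ℂ)} (s : Fn ι κ) (γ β : Sph Z → ℝ) (θ : ℝ) (p : Sph Z) : ℝ :=
  (normSq (s p.1) + Real.exp (γ p)) ^ (-θ) * Real.exp (-β p)

/-- The estimate that follows from the theorem of Hörmander, with a holomorphic part. -/
def GoodV (Z : Set (ι × κ → ℂ)) (K : ℝ) (ν : Measure (Sph Z)) (x ε : ℝ) (V : ℕ → Set (Fn ι κ)) :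
    Prop :=
  ∀ (q n e : ℕ) (θ c : ℝ) (s s' : Fn ι κ) (γ β : Sph Z → ℝ), 0 < n → 0 < θ →
    Sec Z q e s → Sec Z (q + n) e s' → Adm Z q e γ → Adm Z (n - x - θ * q) c β → c + θ * e ≤ ε →
    ∃ F ∈ V n, ∫ p, normSq (uu s s' γ p - F p.1) * ww s γ β θ p ∂ν ≤
      K / θ * ∫ p, Real.exp (γ p) * den s s' γ β θ p ∂ν

/-- A family of spaces of sections. -/
structure Vs (Z : Set (ι × κ → ℂ)) (ν : Measure (Sph Z)) (V : ℕ → Set (Fn ι κ)) : Prop where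
  sec : ∀ n, 0 < n → ∀ F ∈ V n, Sec Z n 0 F
  pow : ∀ n m, 0 < n → 0 < m → ∀ F ∈ V n, (fun x => F x ^ m) ∈ V (m * n)
  fin : ∀ n, 0 < n → ∃ (r : ℕ) (B : Fin r → Fn ι κ), (∀ l, B l ∈ V n) ∧
    ∀ F ∈ V n, ∃ c : Fin r → ℂ, ∀ᵐ p ∂ν, F p.1 = ∑ l, c l * B l p.1

/-- Sections whose sum of squares has all negative moments. -/
def St_THV : Prop := ∀ (ι κ : Type) [Fintype ι] [Fintype κ] (Z : Set (ι × κ → ℂ)) (K x ε : ℝ)
  (ν : ProbabilityMeasure (Sph Z)) (e₀ : ℕ) (V : ℕ → Set (Fn ι κ)), Mdl Z e₀ → 0 ≤ x → 0 < ε →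
  Vs Z ν V → GoodV Z K ν x ε V →
  ∃ N > 0, ∃ (r : ℕ) (S : Fin r → Fn ι κ), (∀ l, S l ∈ V N) ∧
    (∀ᵐ p ∂(ν : Measure (Sph Z)), 0 < ∑ l, normSq (S l p.1)) ∧
    ∀ t > (0 : ℝ), Integrable (fun p : Sph Z => (∑ l, normSq (S l p.1)) ^ (-t))
      (ν : Measure (Sph Z))

/-- Finitely many sections dominate all the others. -/
def St_NOV : Prop := ∀ (ι κ : Type) [Fintype ι] [Fintype κ] (Z : Set (ι × κ → ℂ))
  (ν : Measure (Sph Z)) (V : ℕ → Set (Fn ι κ)), Cone Z → Vs Z ν V →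
  ∃ N > 0, ∃ (r : ℕ) (S : Fin r → Fn ι κ), (∀ l, S l ∈ V N) ∧ ∀ n, 0 < n → ∀ F ∈ V n,
    ∃ C ≥ (0 : ℝ), ∀ p : Sph Z, ‖F p.1‖ ≤ C * (∑ l, normSq (S l p.1)) ^ (2 * (N : ℝ))⁻¹

/-- Coefficients are bounded by the mean. -/
def St_FDV : Prop := ∀ (Ω : Type) [MetricSpace Ω] [CompactSpace Ω] [MeasurableSpace Ω]
  [BorelSpace Ω] (ν : Measure Ω) [IsFiniteMeasure ν] (r : ℕ) (B : Fin r → Ω → ℂ),
  (∀ l, Continuous (B l)) → ∃ C ≥ (0 : ℝ), ∀ c : Fin r → ℂ, ∃ c' : Fin r → ℂ,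
    (∀ᵐ p ∂ν, ∑ l, c l * B l p = ∑ l, c' l * B l p) ∧
      ∀ l, ‖c' l‖ ≤ C * ∫ p, ‖∑ l, c l * B l p‖ ∂ν

/-- A limit of tilted measures is good. -/
def St_LMV : Prop := ∀ (ι κ : Type) [Fintype ι] [Fintype κ] (Z : Set (ι × κ → ℂ))
  [CompactSpace (Sph Z)] (K x ε y c B : ℝ) (ν : ProbabilityMeasure (Sph Z))
  (V : ℕ → Set (Fn ι κ)) (β : ℕ → Sph Z → ℝ), Vs Z ν V → GoodV Z K ν x ε V →
  (∀ k, Adm Z y c (β k)) → (∀ k p, β k p ≤ B) →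
  (∀ k : ℕ, (k : ℝ) ≤ ∫ p, Real.exp (-β k p) ∂(ν : Measure (Sph Z))) →
  (∀ n, 0 < n → ∀ F ∈ V n, ∃ C, ∀ k,
    ∫ p, ‖F p.1‖ * Real.exp (-β k p) ∂(ν : Measure (Sph Z)) ≤ C) →
  ∃ ν' : ProbabilityMeasure (Sph Z), Good Z K ν' (x + y) (ε - c)

end Pool.Agent.Lib.S5
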