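import Pool.Agent.Lib.NV5.A_WR
import Pool.Agent.Lib.NV5.A_CNT
import Pool.Agent.Lib.NV5.A_FIB
import Pool.Agent.Lib.NV5.A_BIG
import Pool.Agent.Lib.NV5.A_MUL
import Pool.Agent.Lib.NV5.A_PRE
import Pool.Agent.Lib.NV5.A_KT

/-! Project S5: the algebraic part. Bounded rank on the generic fibre. -/

open Filter WithZero

noncomputable section

namespace Pool.Agent.Lib.S5

open Pool.Agent.Lib.NV5

variable {n : ℕ} {F : Type} [Field F] [Algebra ℂ F] (V : VF n F)

/-- Many sections of `k L + M` with dominated ratios. -/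
def Qu (L A M : V.P → ℤ) (e : ℕ) : Prop := ∃ c : ℕ, ∀ N : ℕ, ∃ k ≥ N, ∃ (s : ℕ) (u : Fin s → F),
  LinearIndependent ℂ u ∧ (k + 1) ^ e ≤ c * s ∧ (∀ i, V.Sec (k • L + M) (u i)) ∧
    ∀ i i', V.Dom1 L A (u i / u i')

/-- The growth is at most `j ^ e`. -/
def Gw (L A : V.P → ℤ) (e : ℕ) : Prop :=
  ∀ b : ℕ, ∃ C : ℕ, ∀ j : ℕ, V.h0 (j • L + b • A) ≤ C * (j + 1) ^ e

/-- The sections of `i a L + b A` have coefficients with bounded poles in a fixed family. -/
def Sv (L A : V.P → ℤ) (k : IntermediateField ℂ F) (a b : ℕ) (τ : F) : Prop :=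
  ∃ (r c₁ b₁ : ℕ) (y : Fin r → F) (η : F), η ≠ 0 ∧ V.Sec (c₁ • L + b₁ • A) η ∧
    ∀ (i : ℕ) u, V.Sec ((i * a) • L + b • A) u → ∃ g : Fin r → F,
      (∀ l, g l ∈ k ∧ V.Sec ((i * a + c₁) • L + b₁ • A) (g l * τ ^ i * η)) ∧
      u = ∑ l, g l * τ ^ i * y l

variable {V} {L A M : V.P → ℤ} {d : ℕ} {z : Fin d → F} {k : IntermediateField ℂ F} {a c b : ℕ}
  {τ : F}

namespace A35

theorem more (hP : V.Pre L A M d z k a c b τ) {u : F} (hD : V.Dom1 L A u) (hu : u ∉ k) :
    ∃ z' k' c' b', V.Pre L A M (d + 1) z' k' a c' b' τ := by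
  let z' : Fin (d + 1) → F := Fin.cons u z
  let K' := IntermediateField.adjoin ℂ (Set.range z')
  let k' : IntermediateField ℂ F := (algebraicClosure K' F).restrictScalars ℂ
  have hk' : ∀ x, x ∈ k' ↔ IsAlgebraic K' x := fun x => mem_algebraicClosure_iff
  have hle : IntermediateField.adjoin ℂ (Set.range z) ≤ K' :=
    IntermediateField.adjoin.mono _ _ _ (by rintro _ ⟨i, rfl⟩; exact ⟨i.succ, rfl⟩)
  have hkk : ∀ x ∈ k, x ∈ k' := fun x hx => (hk' x).2
    (IsAlgebraic.tower_top_of_subalgebra_le (A := (IntermediateField.adjoin ℂ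
      (Set.range z)).toSubalgebra) (B := K'.toSubalgebra) hle ((hP.alg x).1 hx))
  have hind : AlgebraicIndependent ℂ z' := by
    have h1 : Transcendental (Algebra.adjoin ℂ (Set.range z)) u :=
      IntermediateField.transcendental_adjoin_iff.1 fun h => hu ((hP.alg u).2 h)
    have h2 := ((hP.ind.option_iff_transcendental u).2 h1).comp (finSuccEquiv d)
      (finSuccEquiv d).injective
    have h3 : z' = (fun o : Option (Fin d) => o.elim u z) ∘ finSuccEquiv d := by
      funext i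
      refine Fin.cases ?_ (fun i => ?_) i <;> simp [z']
    rwa [h3]
  obtain ⟨c', b', h⟩ := aMUL n F V L A (d + 1) z' fun i => Fin.cases hD (fun i => ⟨c, b, fun j => by
    obtain ⟨w, w0, hw⟩ := hP.dom j
    refine ⟨w, w0, fun m hm => ?_⟩
    have h1 := hw (Pi.single i m) (by rwa [Finset.sum_pi_single', if_pos (Finset.mem_univ i)])
    rwa [Finset.prod_eq_single i (fun l _ hl => by rw [Pi.single_eq_of_ne hl, pow_zero])
      (fun h => absurd (Finset.mem_univ i) h), Pi.single_eq_same] at h1⟩) i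
  obtain ⟨t, t0, x, y, h1⟩ := hP.psf
  exact ⟨z', k', c', b', hind, hk', h, hP.a0, hP.τ0, fun p hp => hP.sec p fun x hx => hp x (hkk x hx),
    t, t0, x, y, h1.mono fun i hi => hi.imp fun g hg => ⟨hkk g hg.1, hg.2⟩⟩

end A35

/-- The maximal dominated field contains every dominated function. -/
theorem fib2 {S : Set ℕ} {f : ℕ → F} (hL : V.Fs L) (hI : V.Inp L A M S f) :
    ∃ d z k a c b τ, V.Pre L A M d z k a c b τ ∧ V.One L k ∧ ∀ g, V.Dom1 L A g → g ∈ k := by
  obtain ⟨d, z, k, a, c, b, τ, hP⟩ := aPRE aMUL n F V L A M S f hI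
  have key : ∀ (e d : ℕ) (z : Fin d → F) (k : IntermediateField ℂ F) (c b : ℕ), n - d < e →
      V.Pre L A M d z k a c b τ → ∃ d z k a c b τ, V.Pre L A M d z k a c b τ ∧ V.One L k ∧
        ∀ g, V.Dom1 L A g → g ∈ k := fun e => by
    induction e with
    | zero => exact fun d z k c b he => absurd he (Nat.not_lt_zero _)
    | succ e ih =>
      intro d z k c b he hP
      by_cases h : ∃ z' k' c' b', V.Pre L A M (d + 1) z' k' a c' b' τ
      · obtain ⟨z', k', c', b', hP'⟩ := h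
        have := FIB.le_dim V hP'.ind
        exact ih (d + 1) z' k' c' b' (by omega) hP'
      · exact ⟨d, z, k, a, c, b, τ, hP,
          by_contra fun h1 => h (aBIG aKT n F V L A M d z k a c b τ hL hP h1),
          fun g hg => by_contra fun h1 => h (A35.more hP hg h1)⟩
  exact key _ d z k c b (Nat.lt_succ_self _) hP

open CNT in
/-- The rank on the generic fibre is bounded. -/
theorem bnd {M' : V.P → ℤ} {e b₀ : ℕ} (hL : V.Fs L) (hFD : V.FD L A)
    (hP : V.Pre L A M d z k a c b τ) (hk : ∀ g, V.Dom1 L A g → g ∈ k) (hM : M' ≤ b₀ • A)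
    (hQ : Qu V L A M' e) (hG : Gw V L A e) (b' : ℕ) : ¬ V.Unb L A k a b' τ := by
  intro hU
  obtain ⟨c₀, hc₀⟩ := hQ
  obtain ⟨C, hC⟩ := hG (b' + b + b₀)
  obtain ⟨y, hy, hi⟩ := hU (c₀ * C * 2 ^ e + 1)
  choose m hm using hi
  set i := ∑ l, m l with hi
  have hei : ∀ l, m l ≤ i := fun l =>
    Finset.single_le_sum (fun _ _ => Nat.zero_le _) (Finset.mem_univ l)
  set u : V.P → Zm := fun p => max 1 (V.v p τ * exp (-(a • L p))) with hu
  obtain ⟨Q, c1, hQ, -, hK⟩ := aKT n F V d z k hP.ind hP.alg (fun p => u p ^ i) (by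
    filter_upwards [V.cof τ, hL] with p h1 h2
    simp [hu, h2, max_eq_left h1])
  obtain ⟨w, hw, hS⟩ := hP.dom c1
  have hq : MvPolynomial.aeval z Q ≠ 0 := fun h => hQ (hP.ind (by rw [h, map_zero]))
  have key : ∀ s ≤ i, V.Sec ((s * a) • L + ((c1 * c) • L + b • A))
      (τ ^ s * (w * MvPolynomial.aeval z Q)) := by
    intro s hs p
    rw [map_mul, map_pow, Pi.add_apply, exp_add, Pi.smul_apply, mul_nsmul', exp_nsmul]
    by_cases hp : V.Hz k p
    · refine mul_le_mul' (pow_le_pow_left' (hP.sec p hp) s) ?_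
      have h1 := hS 0 (by simp) p
      simp only [Pi.zero_apply, pow_zero, Finset.prod_const_one, mul_one] at h1
      rw [map_mul]
      exact mul_le_of_le_of_le_one h1 (hp _ (mem_aeval (mem_z hP.alg) Q))
    · have h1 := hK p hp w _ fun α hα => hS α hα p
      have h4 : V.v p τ ≤ exp (a • L p) * u p := by
        calc V.v p τ = exp (a • L p) * (V.v p τ * exp (-(a • L p))) := by
              rw [mul_left_comm, ← exp_add, add_neg_cancel, exp_zero, mul_one]
          _ ≤ _ := mul_le_mul' le_rfl (le_max_right _ _)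
      calc _ ≤ (exp (a • L p) * u p) ^ s * _ := mul_le_mul' (pow_le_pow_left' h4 s) le_rfl
        _ ≤ exp (a • L p) ^ s * (u p ^ i * _) := by
          rw [mul_pow, mul_assoc]
          exact mul_le_mul' le_rfl (mul_le_mul' (pow_le_pow_right' (le_max_left _ _) hs) le_rfl)
        _ ≤ _ := mul_le_mul' le_rfl h1
  obtain ⟨j, hj, s, f, f1, f2, f3, f4⟩ := hc₀ (i * a + c1 * c)
  have s0 : 0 < s := Nat.pos_of_ne_zero fun h => by
    rw [h, mul_zero] at f2
    exact absurd f2 (not_le.2 (by positivity))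
  have f0 := f1.ne_zero ⟨0, s0⟩
  set t := τ ^ i * (w * MvPolynomial.aeval z Q) * f ⟨0, s0⟩ with ht
  have t0 : t ≠ 0 := mul_ne_zero (mul_ne_zero (pow_ne_zero _ hP.τ0) (mul_ne_zero hw hq)) f0
  have l1 : LinearIndependent ℂ fun β : Fin s => (⟨f β / f ⟨0, s0⟩, hk _ (f4 _ _)⟩ : k) :=
    LinearIndependent.of_comp k.val.toLinearMap
      ((congrArg (fun g : Fin s → F => LinearIndependent ℂ g)
        (funext fun β => (div_eq_mul_inv _ _).symm)).mp
        (f1.map' (LinearMap.mulRight ℂ (f ⟨0, s0⟩)⁻¹)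
          (LinearMap.ker_eq_bot.mpr (mul_left_injective₀ (inv_ne_zero f0)))))
  have l2 := (linearIndependent_smul l1 hy).map' (LinearMap.mulLeft ℂ t)
    (LinearMap.ker_eq_bot.mpr (mul_right_injective₀ t0))
  have mem : ∀ q : Fin s × Fin (c₀ * C * 2 ^ e + 1), V.Sec ((i * a + c1 * c + j) • L +
      (b' + b + b₀) • A) (t * (f q.1 / f ⟨0, s0⟩ * y q.2)) := by
    intro q p
    have h1 := mul_le_mul' (mul_le_mul' (hm q.2 p) (key (i - m q.2) (Nat.sub_le _ _) p)) (f3 q.1 p)
    rw [← map_mul, ← exp_add, ← map_mul, ← exp_add] at h1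
    obtain ⟨x, hx⟩ := Nat.exists_eq_add_of_le (hei q.2)
    have e1 : i - m q.2 = x := by omega
    rw [e1] at h1
    refine le_of_eq_of_le (congrArg _ ?_) (h1.trans (exp_le_exp.2 ?_))
    · rw [ht, hx, pow_add]; field_simp
    · have h2 := hM p
      simp only [Pi.add_apply, Pi.smul_apply] at h2 ⊢
      simp only [nsmul_eq_mul] at h2 ⊢
      have : (i : ℤ) = m q.2 + x := by exact_mod_cast hx
      push_cast
      rw [this]
      linarith
  have := hFD (i * a + c1 * c + j) (b' + b + b₀)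
  have l3 : LinearIndependent ℂ fun q : Fin s × Fin (c₀ * C * 2 ^ e + 1) =>
      (⟨_, Submodule.subset_span (mem q)⟩ : Submodule.span ℂ
        {f | V.Sec ((i * a + c1 * c + j) • L + (b' + b + b₀) • A) f}) :=
    LinearIndependent.of_comp (Submodule.subtype _) l2
  have l4 := l3.fintype_card_le_finrank.trans (hC _)
  simp only [Fintype.card_prod, Fintype.card_fin] at l4
  have h2 := Nat.pow_le_pow_left (show i * a + c1 * c + j + 1 ≤ 2 * (j + 1) by omega) e
  rw [mul_pow] at h2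
  have h3 := l4.trans (Nat.mul_le_mul_left C (h2.trans (Nat.mul_le_mul_left _ f2)))
  nlinarith

open WR in
/-- The coefficients have bounded poles. -/
theorem wr2 (hA : 0 ≤ A) (hP : V.Pre L A M d z k a c b τ) {b' : ℕ} (hU : ¬ V.Unb L A k a b' τ) :
    Sv V L A k a b' τ := by
  classical
  simp only [VF.Unb, not_forall, not_exists, not_and] at hU
  obtain ⟨r, hr⟩ := hU
  obtain ⟨s, s1, s2⟩ := basis45 (K := k)
    {y | ∃ i : ℕ, V.Sec ((i * a) • L + b' • A) (y * τ ^ i)} r fun y hy h => by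
      obtain ⟨l, hl⟩ := hr y hy
      obtain ⟨i, hi⟩ := h l
      exact hl i hi
  have cf : ∀ {q : V.P → Prop}, (∀ᶠ p in cofinite, q p) →
      ∀ᶠ p : {p // ¬ V.Hz k p} in cofinite, q p := fun h =>
    Subtype.val_injective.tendsto_cofinite.eventually h
  obtain ⟨B, B1, B2⟩ := K3.wro_unit (C := ℂ) (k := k) (fun p : {p // ¬ V.Hz k p} => V.v p)
    (closed45 hP.alg) (fun p => V.cst p) (fun x => cf (V.cof x))
    (fun D => by
      obtain ⟨B, h1, h2⟩ := V.der D
      exact ⟨fun p => B p, cf h1, fun p => h2 p⟩)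
    (fun p => by
      obtain ⟨p, hp⟩ := p
      simp only [VF.Hz, not_forall, not_le] at hp
      obtain ⟨g, hg, h1⟩ := hp
      refine ⟨⟨g, hg⟩, fun h0 => ?_, h1.ne'⟩
      rw [show g = 0 from congrArg Subtype.val h0, map_zero] at h1
      exact not_lt_zero h1) _ s1
  obtain ⟨Q, c', Q0, -, hQ⟩ := aKT n F V d z k hP.ind hP.alg
    (fun p => if h : ¬ V.Hz k p then max 1 (B ⟨p, h⟩) else 1) (by
      refine eventually_cofinite.2
        (((eventually_cofinite.1 B1).image Subtype.val).subset fun p hp => ?_)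
      by_cases h : ¬ V.Hz k p
      · exact ⟨⟨p, h⟩, fun h1 => hp ((dif_pos h).trans_le (max_le le_rfl h1)), rfl⟩
      · exact (hp (dif_neg h).le).elim)
  obtain ⟨w, w0, hw⟩ := hP.dom c'
  have τ0 := hP.τ0
  have w1 := hw 0 (by simp)
  simp only [Pi.zero_apply, pow_zero, Finset.prod_const_one, mul_one] at w1
  have ex : ∀ (i : ℕ) p, exp (((i * a + c' * c) • L + (b + b') • A) p) =
      exp (((i * a) • L + b' • A) p) * exp (((c' * c) • L + b • A) p) := fun i p => by
    rw [← exp_add, ← Pi.add_apply, add_smul, add_smul, add_comm (b • A), add_add_add_comm]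
  have le : ∀ (i : ℕ) p, exp ((a • L) p) ^ i ≤ exp (((i * a) • L + b' • A) p) := fun i p => by
    rw [← exp_nsmul, exp_le_exp, Pi.add_apply, mul_smul]
    exact le_add_of_nonneg_right (nsmul_nonneg hA b' p)
  have key : ∀ (i : ℕ) (x : F), (∀ p, V.Hz k p → V.v p x ≤ exp (((i * a) • L + b' • A) p)) →
      (∀ p (h : ¬ V.Hz k p), V.v p x ≤ max 1 (B ⟨p, h⟩) * exp (((i * a) • L + b' • A) p)) →
      V.Sec ((i * a + c' * c) • L + (b + b') • A) (x * (w * MvPolynomial.aeval z Q)) := by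
    intro i x h1 h2 p
    rw [ex, map_mul]
    by_cases hp : V.Hz k p
    · rw [map_mul]
      exact mul_le_mul' (h1 p hp) (mul_le_of_le_of_le_one (w1 p) (hp _ (aeval45 hP.alg Q)))
    · have h3 := hQ p hp w _ fun α hα => hw α hα p
      rw [dif_pos hp] at h3
      refine (mul_le_mul' (h2 p hp) le_rfl).trans ?_
      rw [mul_comm (max _ _), mul_assoc]
      exact mul_le_mul' le_rfl h3
  let ε := s.equivFin.symm
  refine ⟨s.card, c' * c, b + b', fun l => ε l, w * MvPolynomial.aeval z Q,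
    mul_ne_zero w0 fun h => Q0 (hP.ind (h.trans (map_zero _).symm)), ?_, fun i u hu => ?_⟩
  · have h1 : ∀ p, V.v p 1 ≤ exp (((0 * a) • L + b' • A) p) := fun p =>
      (map_one _).trans_le ((pow_zero _).symm.trans_le (le 0 p))
    have h2 := key 0 1 (fun p _ => h1 p) fun p _ =>
      (h1 p).trans (le_mul_of_one_le_left' (le_max_left _ _))
    rwa [one_mul, zero_mul, zero_add] at h2
  · obtain ⟨g, hg⟩ := s2 (u / τ ^ i) ⟨i, by rwa [div_mul_cancel₀ u (pow_ne_zero _ τ0)]⟩
    refine ⟨fun l => g (ε l), fun l => ⟨(g _).2, key i _ (fun p hp => ?_) fun p hp => ?_⟩, ?_⟩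
    · rw [map_mul, map_pow]
      exact (mul_le_of_le_one_left' (hp _ (g _).2)).trans
        ((pow_le_pow_left' (hP.sec p hp) i).trans (le i p))
    · have h2 := B2 g (ε l) ⟨p, hp⟩
      rw [hg] at h2
      rw [map_mul]
      refine (mul_le_mul' h2 le_rfl).trans ?_
      rw [mul_assoc, ← map_mul, div_mul_cancel₀ u (pow_ne_zero _ τ0)]
      exact mul_le_mul' (le_max_right _ _) (hu p)
    · rw [← div_mul_cancel₀ u (pow_ne_zero i τ0), ← hg, Finset.sum_mul, ← ε.sum_comp]
      exact Finset.sum_congr rfl fun l _ => mul_right_comm _ _ _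

/-- The algebraic theorem. -/
theorem a35 {M' : V.P → ℤ} {e b₀ : ℕ} {S : Set ℕ} {f : ℕ → F} (hL : V.Fs L) (hA : 0 ≤ A)
    (hFD : V.FD L A) (hI : V.Inp L A M S f) (hM : M' ≤ b₀ • A) (hQ : Qu V L A M' e)
    (hG : Gw V L A e) : ∃ d z k a c b τ, V.Pre L A M d z k a c b τ ∧ V.One L k ∧
      ∀ b', Sv V L A k a b' τ := by
  obtain ⟨d, z, k, a, c, b, τ, hP, h1, h2⟩ := fib2 hL hI
  exact ⟨d, z, k, a, c, b, τ, hP, h1, fun b' => wr2 hA hP (bnd hL hFD hP h2 hM hQ hG b')⟩

end Pool.Agent.Lib.S5
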