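import Pool.Agent.Lib.NV5.Blue

/-! Project S5: many sections. Objects and blueprint of the steps one to five. -/

open scoped Classical Topology ContDiff ENNReal
open Set Complex Metric Filter

set_option linter.unusedVariables false

noncomputable section

namespace Pool.Agent.Lib.S5

open Pool.Agent.Lib.SV (E nsq)
open Pool.Agent.Lib.HS32 Pool.Agent.Lib.EX Pool.Agent.Lib.EXS Pool.Agent.Lib.ZL Pool.Agent.Lib.NV2
open Pool.Agent.Lib.ZQ (HqC)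
open Pool.Agent.Lib.NV5 (Rg FM VF Hg dv Tns DomH)

section alg

variable {n : ℕ} {F : Type} [Field F] [Algebra ℂ F] (V : VF n F)

/-- Large spaces of sections of `M + k L` whose ratios are dominated. -/
structure Inq (L A M : V.P → ℤ) (e C : ℕ) (S : Set ℕ) (U : ℕ → Submodule ℂ F) : Prop where
  inf : S.Infinite
  dim : ∀ k ∈ S, (k + 1) ^ e ≤ C * Module.finrank ℂ (U k)
  sec : ∀ k ∈ S, ∀ f ∈ U k, V.Sec (k • L + M) f
  dom : ∀ k₁ ∈ S, ∀ k₂ ∈ S, ∀ k₃ ∈ S, ∀ k₄ ∈ S, ∀ f₁ ∈ U k₁, ∀ f₂ ∈ U k₂, ∀ f₃ ∈ U k₃, ∀ f₄ ∈ U k₄,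
    f₃ ≠ 0 → f₄ ≠ 0 → ∀ x y : ℕ, x * k₁ + y * k₂ = x * k₃ + y * k₄ →
    V.Dom1 L A (f₁ ^ x * f₂ ^ y / (f₃ ^ x * f₄ ^ y))

/-- Many multiples of `τ ^ j t` by elements of `k` are sections of `j L + N`. -/
def Qps (L N : V.P → ℤ) (k : IntermediateField ℂ F) (τ : F) (e : ℕ) : Prop :=
  ∃ t ≠ 0, ∃ C : ℕ, {j : ℕ | ∃ (m : ℕ) (g : Fin m → F), (j + 1) ^ e ≤ C * m ∧
    LinearIndependent ℂ g ∧ ∀ s, g s ∈ k ∧ V.Sec (j • L + N) (τ ^ j * g s * t)}.Infinite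

/-- The growth is at most `j ^ e`. -/
def Slow (L A : V.P → ℤ) (e : ℕ) : Prop :=
  ∀ b : ℕ, ∃ C : ℕ, ∀ j : ℕ, V.h0 (j • L + b • A) ≤ C * (j + 1) ^ e

/-- The sections of `j L + N` have bounded rank over `k`, with coefficients in `j L + R`. -/
def Brk (L N R : V.P → ℤ) (k : IntermediateField ℂ F) (τ : F) : Prop :=
  ∃ (r : ℕ) (y : Fin r → F) (η : F), η ≠ 0 ∧ ∀ (j : ℕ) u, V.Sec (j • L + N) u →
    ∃ g : Fin r → F, u = ∑ l, g l * τ ^ j * y l ∧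
      ∀ l, g l ∈ k ∧ V.Sec (j • L + R) (τ ^ j * g l * η)

end alg

/-- A family of independent tensors. -/
def Fam {n : ℕ} {M : Mf n} {ι : Type} [Fintype ι] [DecidableEq ι] (D : Ad M ι) (q : ℕ) (Q : ι → ℤ)
    {m : ℕ} (b : Fin m → D.A → (Fin q → Fin n) → E n → ℂ) : Prop :=
  (∀ s, Tns D q Q (b s)) ∧ ∀ c : Fin m → ℂ, c ≠ 0 →
    ∃ d I, ∃ z ∈ B2 n, Off (D.c d) z ∧ ∑ s, c s * b s d I z ≠ 0

/-- Step one: the Euler characteristic bounds the number of tensors from below. -/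
def St_NVQ : Prop := ∀ (n : ℕ) (M : Mf n) [M.Cpt] (ι : Type) [Fintype ι] [DecidableEq ι]
  (D : Ad M ι) (X : Cx D) (r c : ℕ) (Q ν : ι → ℤ) (t : Fin r → M.X → ℂ),
  HqC 1 D X.μ → Kd D (fun i => X.e i) t → Imm D (fun i => X.e i) t →
  (∀ x ∈ off D, X.α x = lg t x) → Zo X Q ν → Gens D (fun i => ν i + c * X.e i) →
  ∀ (a : ℕ) (P : Polynomial ℚ),
    (∀ᶠ j : ℕ in atTop, (h0 D (fun i => Q i + a * ν i + j * X.e i) : ℚ) = P.eval (j : ℚ)) →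
    ∃ q ≤ r, ∃ (m : ℕ) (b : Fin m → D.A → (Fin q → Fin n) → E n → ℂ),
      |P.eval 0| ≤ (r + 1) * m ∧ Fam D q (fun i => Q i + a * ν i) b

/-- Step two: the rule of Cramer. -/
def St_INQ : Prop := ∀ (n : ℕ) (M : Mf n) [M.Cpt] (ι : Type) [Fintype ι] [DecidableEq ι]
  (D : Ad M ι) (F : Type) [Field F] [Algebra ℂ F] (Φ : FM D F) (V : VF n F) (m : ι → V.P → ℤ)
  (π : Hg D → V.P) (r : ℕ) (e : ι → ℕ) (t : Fin r → M.X → ℂ) (l : ι → ℤ) (q d C : ℕ),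
  (∀ i, 0 < e i) → Kd D (fun i => e i) t → Imm D (fun i => e i) t → Φ.Br V m π → DomH D l e →
  {a : ℕ | ∃ (s : ℕ) (b : Fin s → D.A → (Fin q → Fin n) → E n → ℂ),
    (a + 1) ^ d ≤ C * s ∧ Fam D q (fun i => a * l i) b}.Infinite →
  ∃ Q C' S U, Inq V (dv m l) (dv m fun i => e i) (dv m Q) d C' S U

/-- Step three: the maximal dominated field. -/
def St_FIQ : Prop := ∀ (n : ℕ) (F : Type) [Field F] [Algebra ℂ F] (V : VF n F) (L A M : V.P → ℤ)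
  (e C : ℕ) (S : Set ℕ) (U : ℕ → Submodule ℂ F), V.Fs L → Inq V L A M e C S U →
  ∃ d z k a c b τ, V.Pre L A M d z k a c b τ ∧ V.One L k ∧
    ∃ x : ℕ, Qps V (a • L) (x • L + M) k τ e

/-- Step four: the count. -/
def St_BND : Prop := ∀ (n : ℕ) (F : Type) [Field F] [Algebra ℂ F] (V : VF n F) (L A M : V.P → ℤ)
  (d : ℕ) (z : Fin d → F) (k : IntermediateField ℂ F) (a c b : ℕ) (τ : F) (e x b₀ : ℕ), V.Fs L →
  V.FD L A → V.Pre L A M d z k a c b τ → Qps V (a • L) (x • L + M) k τ e → M ≤ b₀ • A →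
  Slow V L A e → ∀ b', ¬ V.Unb L A k a b' τ

/-- Step five: the Wronskian. -/
def St_WR5 : Prop := ∀ (n : ℕ) (F : Type) [Field F] [Algebra ℂ F] (V : VF n F) (L A M : V.P → ℤ)
  (d : ℕ) (z : Fin d → F) (k : IntermediateField ℂ F) (a c b : ℕ) (τ : F) (b' : ℕ), 0 ≤ A →
  V.Pre L A M d z k a c b τ → ¬ V.Unb L A k a b' τ →
  ∃ x y : ℕ, Brk V (a • L) (b' • A) (x • L + y • A) k τ

end Pool.Agent.Lib.S5
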