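import Pool.Agent.Lib.S5.A35
import Pool.Agent.Lib.S5.ABlue

/-! Project S5: the steps three to five in the form of the blueprint. -/

open Filter WithZero

noncomputable section

namespace Pool.Agent.Lib.S5

open Pool.Agent.Lib.NV5

variable {n : ℕ} {F : Type} [Field F] [Algebra ℂ F] {V : VF n F} {L A M : V.P → ℤ} {e C : ℕ}
  {S : Set ℕ} {U : ℕ → Submodule ℂ F}

theorem Inq.basis (I : Inq V L A M e C S U) {k : ℕ} (hk : k ∈ S) : ∃ (s : ℕ) (u : Fin s → F),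
    0 < s ∧ LinearIndependent ℂ u ∧ (k + 1) ^ e ≤ C * s ∧ ∀ i, u i ∈ U k := by
  have h := I.dim k hk
  have h0 : 0 < Module.finrank ℂ (U k) := Nat.pos_of_ne_zero fun h1 => by
    rw [h1, mul_zero] at h
    exact absurd h (not_le.2 (by positivity))
  have := Module.finite_of_finrank_pos h0
  exact ⟨_, fun i => Module.finBasis ℂ (U k) i, h0, (Module.finBasis ℂ (U k)).linearIndependent.map'
    (U k).subtype (Submodule.ker_subtype _), h, fun i => Subtype.prop _⟩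

theorem Inq.inp (I : Inq V L A M e C S U) : ∃ f, (∀ k ∈ S, f k ∈ U k) ∧ V.Inp L A M S f := by
  have h : ∀ k ∈ S, ∃ f ∈ U k, f ≠ 0 := fun k hk =>
    let ⟨_, u, h0, h1, _, h2⟩ := I.basis hk
    ⟨u ⟨0, h0⟩, h2 _, h1.ne_zero _⟩
  choose! f f1 f2 using h
  exact ⟨f, f1, I.inf, f2, fun k hk => I.sec k hk _ (f1 k hk), fun k₁ h₁ k₂ h₂ k₃ h₃ k₄ h₄ =>
    I.dom k₁ h₁ k₂ h₂ k₃ h₃ k₄ h₄ _ (f1 _ h₁) _ (f1 _ h₂) _ (f1 _ h₃) _ (f1 _ h₄) (f2 _ h₃) (f2 _ h₄)⟩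

theorem Inq.qu (I : Inq V L A M e C S U) : Qu V L A M e := by
  refine ⟨C, fun N => ?_⟩
  obtain ⟨k, hk, hN⟩ := I.inf.exists_gt N
  obtain ⟨s, u, -, h1, h2, h3⟩ := I.basis hk
  refine ⟨k, hN.le, s, u, h1, h2, fun i => I.sec k hk _ (h3 i), fun i i' => ?_⟩
  simpa only [pow_one, pow_zero, mul_one] using I.dom k hk k hk k hk k hk _ (h3 i) _ (h3 i') _
    (h3 i') _ (h3 i') (h1.ne_zero _) (h1.ne_zero _) 1 0 rfl

/-- Step three, with the dominated functions. -/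
theorem fiq (hL : V.Fs L) (I : Inq V L A M e C S U) :
    ∃ d z k a c b τ, V.Pre L A M d z k a c b τ ∧ V.One L k ∧ (∀ g, V.Dom1 L A g → g ∈ k) ∧
      ∃ x : ℕ, Qps V (a • L) (x • L + M) k τ e := by
  obtain ⟨f, fU, hI⟩ := I.inp
  obtain ⟨d, z, k, -, c, b, -, ⟨p1, p2, p3, -⟩, h1, h2⟩ := fib2 hL hI
  obtain ⟨a0, ha0⟩ := I.inf.nonempty
  obtain ⟨a1, ha1, hlt⟩ := I.inf.exists_gt a0
  obtain ⟨a, rfl⟩ := Nat.exists_eq_add_of_le hlt.le
  have hap : 0 < a := by omega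
  obtain ⟨ρ, hρ⟩ : ∃ ρ : Fin a, {j : ℕ | ρ + j * a ∈ S}.Infinite := by
    by_contra hn
    refine I.inf ((Set.finite_iUnion fun ρ : Fin a => (Set.not_infinite.1 fun h => hn ⟨ρ, h⟩).image
      fun j => ρ + j * a).subset fun i h => Set.mem_iUnion.2 ⟨⟨i % a, Nat.mod_lt _ hap⟩, i / a, ?_, ?_⟩)
    · show i % a + i / a * a ∈ S
      rwa [Nat.mod_add_div']
    · exact Nat.mod_add_div' i a
  obtain ⟨j0, hj0⟩ := hρ.nonempty
  set x := ρ + j0 * a with hx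
  have hT : {j : ℕ | x + j * a ∈ S}.Infinite := Set.infinite_of_forall_exists_gt fun N => by
    obtain ⟨j, hj, hN⟩ := hρ.exists_gt (j0 + N)
    obtain ⟨i, rfl⟩ := Nat.exists_eq_add_of_le (show j0 ≤ j by omega)
    exact ⟨i, show x + i * a ∈ S by rwa [hx, add_assoc, ← add_mul], by omega⟩
  have n0 := hI.ne _ ha0
  have n1 := hI.ne _ ha1
  have n2 : f x ≠ 0 := hI.ne _ hj0
  set τ := f (a0 + a) / f a0 with hτ
  have τ0 : τ ≠ 0 := div_ne_zero n1 n0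
  have key : ∀ j, x + j * a ∈ S → ∀ u ∈ U (x + j * a), u / (τ ^ j * f x) ∈ k ∧
      V.Sec (j • a • L + (x • L + M)) (τ ^ j * (u / (τ ^ j * f x)) * f x) := fun j hj u hu => by
    refine ⟨h2 _ ?_, ?_⟩
    · have h3 := I.dom _ hj _ ha0 x hj0 _ ha1 _ hu _ (fU _ ha0) _ (fU _ hj0) _ (fU _ ha1) n2 n1 1 j
        (by ring)
      refine (congrArg _ ?_).mp h3
      rw [hτ, div_pow]
      field_simp
    · rw [mul_right_comm, mul_div_cancel₀ _ (mul_ne_zero (pow_ne_zero _ τ0) n2), ← mul_smul,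
        ← add_assoc, ← add_smul, add_comm (j * a)]
      exact I.sec _ hj u hu
  have k0 : ∀ j, x + j * a ∈ S → f (x + j * a) / (τ ^ j * f x) ≠ 0 := fun j hj =>
    div_ne_zero (hI.ne _ hj) (mul_ne_zero (pow_ne_zero _ τ0) n2)
  refine ⟨d, z, k, a, c, b, τ, ⟨p1, p2, p3, hap, τ0, fun p hp => ?_, f x, n2, x, 1,
    hT.mono fun j hj => ⟨_, (key j hj _ (fU _ hj)).1, k0 j hj, ?_⟩⟩, h1, h2, x, f x, n2, C,
    hT.mono fun j hj => ?_⟩
  · have v0 : V.v p τ ≠ 0 := (V.v p).ne_zero_iff.2 τ0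
    have v1 : V.v p (f x) ≠ 0 := (V.v p).ne_zero_iff.2 n2
    rw [← exp_log v0, exp_le_exp]
    refine PRE.slope hT (w := log (V.v p (f x))) (N := (x • L + M) p) fun i hi => ?_
    obtain ⟨g1, g2⟩ := key i hi _ (fU _ hi)
    have h4 : V.v p (f (x + i * a) / (τ ^ i * f x)) = 1 := by
      refine le_antisymm (hp _ g1) ?_
      have h5 := hp _ (k.inv_mem g1)
      rw [map_inv₀] at h5
      exact (inv_le_one₀ (zero_lt_iff.2 ((V.v p).ne_zero_iff.2 (k0 i hi)))).1 h5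
    have h3 := g2 p
    rw [map_mul, map_mul, h4, mul_one, map_pow, ← exp_log v0, ← exp_log v1, ← exp_nsmul, ← exp_add,
      exp_le_exp, Pi.add_apply, Pi.smul_apply, nsmul_eq_mul, nsmul_eq_mul] at h3
    exact h3
  · rw [one_smul, mul_smul]
    exact (key j hj _ (fU _ hj)).2
  · obtain ⟨s, u, -, u1, u2, u3⟩ := I.basis hj
    have t0 : (τ ^ j * f x)⁻¹ ≠ 0 := inv_ne_zero (mul_ne_zero (pow_ne_zero _ τ0) n2)
    refine ⟨s, fun i => u i / (τ ^ j * f x), (Nat.pow_le_pow_left ?_ e).trans u2,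
      (congrArg (fun g : Fin s → F => LinearIndependent ℂ g)
        (funext fun β => (div_eq_mul_inv _ _).symm)).mp (u1.map' (LinearMap.mulRight ℂ _)
          (LinearMap.ker_eq_bot.mpr (mul_left_injective₀ t0))), fun i => key j hj _ (u3 i)⟩
    have := Nat.le_mul_of_pos_right j hap
    omega

theorem aFIQ : St_FIQ := fun _ _ _ _ _ _ _ _ _ _ _ _ hL I =>
  let ⟨d, z, k, a, c, b, τ, h1, h2, _, h3⟩ := fiq hL I
  ⟨d, z, k, a, c, b, τ, h1, h2, h3⟩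

theorem aWR5 : St_WR5 := by
  intro n F _ _ V L A M d z k a c b τ b' hA hP hU
  obtain ⟨r, c₁, b₁, y, η, η0, -, h⟩ := wr2 hA hP hU
  refine ⟨c₁, b₁, r, y, η, η0, fun j u hu => ?_⟩
  obtain ⟨g, g1, g2⟩ := h j u (by rwa [mul_smul])
  refine ⟨g, g2, fun l => ⟨(g1 l).1, ?_⟩⟩
  rw [← mul_smul, ← add_assoc, ← add_smul, mul_comm (τ ^ j)]
  exact (g1 l).2

/-- The steps three to five at once. -/
theorem a35q {b₀ : ℕ} (hL : V.Fs L) (hA : 0 ≤ A) (hFD : V.FD L A) (I : Inq V L A M e C S U)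
    (hM : M ≤ b₀ • A) (hG : Slow V L A e) : ∃ d z k a c b τ, V.Pre L A M d z k a c b τ ∧
      V.One L k ∧ ∀ b' : ℕ, ∃ x y : ℕ, Brk V (a • L) (b' • A) (x • L + y • A) k τ := by
  obtain ⟨d, z, k, a, c, b, τ, h1, h2, h3, -⟩ := fiq hL I
  exact ⟨d, z, k, a, c, b, τ, h1, h2, fun b' => aWR5 n F V L A M d z k a c b τ b' hA h1
    (bnd hL hFD h1 h3 hM I.qu hG b')⟩

end Pool.Agent.Lib.S5
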