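import Pool.Agent.Lib.NV6.RBlue2

/-! Project S5: the lower bound for the reference metric. Objects. -/

open scoped Classical
open Set Complex

noncomputable section

namespace Pool.Agent.Lib.R6

open Pool.Agent.Lib.SV (nsq)
open Pool.Agent.Lib.HS32 Pool.Agent.Lib.EX Pool.Agent.Lib.EXS Pool.Agent.Lib.ZL
open Pool.Agent.Lib.ZQ (offz)
open Pool.Agent.Lib.NV5 (FM VF Hg dv)
open Pool.Agent.Lib.NV6.J (Md Rk)

section defs

variable {n : ℕ} {M : Mf n} {ι : Type} [Fintype ι] [DecidableEq ι]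

/-- Bounded rank with a fixed denominator. -/
def Wr {F : Type} [Field F] [Algebra ℂ F] (V : VF n F) (m : ι → V.P → ℤ)
    (k : IntermediateField ℂ F) (lam Q : ι → ℤ) (τ : F) : Prop :=
  ∃ (s : ℕ) (y : Fin s → F) (η : F) (Q' : V.P → ℤ), η ≠ 0 ∧ V.Fs Q' ∧ ∀ (i : ℕ) u,
    V.Sec (dv m fun l => i * lam l + Q l) u → ∃ g : Fin s → F, (∀ l, g l ∈ k ∧
      V.Sec (dv m (fun l' => i * lam l') + Q') (g l * τ ^ i * η)) ∧ u = ∑ l, g l * τ ^ i * y l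

/-- The powers of the reference metric are bounded below by the norm of one section. -/
def Lw (D : Ad M ι) (L : ι → ℤ) {I J : Type} [Fintype I] [Fintype J] (a : I → M.X → ℂ)
    (b : J → M.X → ℂ) : Prop := ∃ (R : ι → ℤ) (c : M.X → ℂ), Sp D R c ∧ c ≠ 0 ∧ ∀ j : ℕ, ∃ C : ℝ,
  0 ≤ C ∧ ∀ x ∈ off D, normSq (c x) * Real.exp (lw D (fun i => R i) x) * nsq (b · x) ^ j ≤
    C * (nsq (a · x) * Real.exp (lw D (fun i => L i) x)) ^ j

end defs

/-- The theorem of block R with the lower bound. -/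
def St_R5 : Prop := ∀ (n : ℕ) (M : Mf n) [M.Cpt] (ι : Type) [Fintype ι] [DecidableEq ι]
  (D : Ad M ι) (X : Cx D) (r : ℕ) (t : Fin r → M.X → ℂ) (F : Type) [Field F] [Algebra ℂ F]
  (Φ : FM D F) (V : VF n F) (m : ι → V.P → ℤ) (π : Hg D → V.P) (k : IntermediateField ℂ F)
  (a₀ : ℕ) (lam κ Q : ι → ℤ) (τ : F), Prj X t → Zw X a₀ lam κ → Φ.Br V m π → Fb V m k lam κ τ →
  Wr V m k lam Q τ → (∀ j : ℕ, Gens D fun i => j * lam i + Q i) →
  ∃ (N r₁ r₂ : ℕ) (P : ι → ℤ) (a : Fin (r₁ + 1) → M.X → ℂ) (b : Fin (r₂ + 1) → M.X → ℂ), 0 < N ∧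
    Ab D Φ k (τ ^ N) (fun i => N * lam i) P a b ∧ Lw D (fun i => N * lam i) a b ∧
    ∀ (r' : ℕ) (ε : Fin r' ≃ Fin (r₁ + 1) × Fin (r₂ + 1)), ∃ g e b₀,
      (∃ C, ∀ x ∈ offz D g,
        nsq (a · x) ≤ C * Real.exp (-lw D (fun i => (N * lam i : ℤ)) x) * nsq (b · x)) ∧
      Md X (N * a₀) e (fun i => N * lam i) κ g (fun i => N * lam i + 2 * P i)
        (fun β y => a (ε β).1 y * b (ε β).2 y) (fun β y => a (ε β).1 y ^ 2) b₀ ∧
      Rk X g (fun i => N * lam i + 2 * P i) (fun β y => a (ε β).1 y * b (ε β).2 y)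
        fun i => N * lam i + κ i

end Pool.Agent.Lib.R6
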