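import Pool.Agent.Lib.NV6.J_All
import Pool.Agent.Lib.S5.R5Defs
import Pool.Agent.Lib.ZL.B_GEN
import Pool.Agent.Lib.ZL.B_PK1

/-! Project S5, step ten: sections with all negative moments have no common zero. -/

open scoped Classical Topology ContDiff ENNReal
open Set MeasureTheory Complex Metric Filter

noncomputable section

namespace Pool.Agent.Lib.S5

open Pool.Agent.Lib.SV (E nsq nsq_nonneg)
open Pool.Agent.Lib.HS32 Pool.Agent.Lib.EX Pool.Agent.Lib.EXS Pool.Agent.Lib.ZL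
open Pool.Agent.Lib.ZQ (offz)

namespace E10

/-- A holomorphic function whose means on small balls decay faster than all powers vanishes. -/
theorem flat {n : ℕ} {h : E n → ℂ} {z : E n} {ρ : ℝ} (r1 : ρ ≤ 1)
    (hh : DifferentiableOn ℂ h (ball z (2 * ρ)))
    (H : ∀ t : ℕ, ∃ A ≥ (0 : ℝ), ∀ r > (0 : ℝ), r ≤ ρ →
      ∫⁻ y in ball z r, ENNReal.ofReal (normSq (h y)) ≤ ENNReal.ofReal (A * r ^ (2 * t)))
    {y : E n} (hy : y ∈ ball z ρ) : h y = 0 := by
  have ρ0 : 0 < ρ := pos_of_mem_ball hy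
  have v1 : ‖y - z‖ < ρ := mem_ball_iff_norm.1 hy
  have mem : ∀ s : ℂ, ‖s‖ ≤ 2 → ‖s • (y - z)‖ < 2 * ρ := fun s hs => by
    rw [norm_smul]
    nlinarith [norm_nonneg s, norm_nonneg (y - z)]
  have an : AnalyticOnNhd ℂ (fun s : ℂ => h (z + s • (y - z))) (ball 0 2) :=
    DifferentiableOn.analyticOnNhd (hh.comp (by fun_prop) fun s hs => by
      simpa using mem s (mem_ball_zero_iff.1 hs).le) isOpen_ball
  have a0 := an 0 (mem_ball_self two_pos)
  by_cases e0 : ∀ᶠ s in 𝓝 (0 : ℂ), h (z + s • (y - z)) = 0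
  · simpa using an.eqOn_zero_of_preconnected_of_eventuallyEq_zero
      (convex_ball _ _).isPreconnected (mem_ball_self two_pos) e0 (x := 1) (by simp)
  obtain ⟨k, g, g1, g2, g3⟩ := a0.exists_eventuallyEq_pow_smul_nonzero_iff.2 e0
  obtain ⟨A, A0, hA⟩ := H (n + k + 1)
  have e : Module.finrank ℝ (E n) = n * 2 := by
    simp [Module.finrank_pi_fintype, Complex.finrank_real_complex]
  have vt : volume (ball (0 : E n) 1) ≠ ⊤ := measure_ball_lt_top.ne
  set v := (volume (ball (0 : E n) 1)).toReal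
  have v0 : 0 < v := ENNReal.toReal_pos (measure_ball_pos _ _ one_pos).ne' vt
  have key : ∀ᶠ s in 𝓝[≠] (0 : ℂ), ‖g s‖ ^ 2 * v ≤ A * 2 ^ (2 * (n + k + 1)) * ‖s‖ ^ 2 := by
    filter_upwards [g3.filter_mono nhdsWithin_le_nhds, self_mem_nhdsWithin,
      mem_nhdsWithin_of_mem_nhds (ball_mem_nhds (0 : ℂ) (half_pos ρ0))] with s h1 h2 h3
    have s0 : 0 < ‖s‖ := norm_pos_iff.2 h2
    have s1 : ‖s‖ < ρ / 2 := mem_ball_zero_iff.1 h3
    have sub : ball (z + s • (y - z)) ‖s‖ ⊆ ball z (2 * ‖s‖) := ball_subset_ball' (by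
      rw [dist_self_add_left, norm_smul]
      nlinarith)
    have s2 := SV.stSUB (E n) volume h (z + s • (y - z)) ‖s‖ 2 s0 two_pos
      (hh.mono (sub.trans (ball_subset_ball (by linarith))))
    simp only [Real.rpow_two, ← normSq_eq_norm_sq] at s2
    rw [Measure.addHaar_ball_of_pos _ _ s0, e, ← ENNReal.ofReal_toReal vt,
      ← ENNReal.ofReal_mul (by positivity), ← ENNReal.ofReal_mul (normSq_nonneg _)] at s2
    have s3 := (ENNReal.ofReal_le_ofReal_iff (by positivity)).1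
      ((s2.trans (lintegral_mono_set sub)).trans (hA _ (by positivity) (by linarith)))
    rw [h1, sub_zero, smul_eq_mul, normSq_eq_norm_sq, norm_mul, norm_pow] at s3
    refine le_of_mul_le_mul_left (a := ‖s‖ ^ (2 * (n + k))) ?_ (by positivity)
    refine le_of_eq_of_le ?_ (s3.trans_eq ?_) <;> ring
  have t1 : Tendsto (fun s => ‖g s‖ ^ 2 * v) (𝓝[≠] (0 : ℂ)) (𝓝 (‖g 0‖ ^ 2 * v)) :=
    ((g1.continuousAt.norm.pow 2).mul_const v).mono_left nhdsWithin_le_nhds
  have t2 : Tendsto (fun s : ℂ => A * 2 ^ (2 * (n + k + 1)) * ‖s‖ ^ 2) (𝓝[≠] (0 : ℂ)) (𝓝 _) :=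
    (Continuous.tendsto (by fun_prop) 0).mono_left nhdsWithin_le_nhds
  have := le_of_tendsto_of_tendsto t1 t2 key
  have g4 := norm_pos_iff.2 g2
  simp only [norm_zero, ne_eq, OfNat.ofNat_ne_zero, not_false_eq_true, zero_pow, mul_zero] at this
  exact absurd this (not_le.2 (by positivity))

variable {n : ℕ} {M : Mf n} [M.Cpt] {ι : Type} [Fintype ι] [DecidableEq ι] {D : Ad M ι}

/-- Generation from the moments against one fixed section. -/
theorem gens (X : Cx D) {P G : ι → ℤ} {r : ℕ} {σ : Fin r → M.X → ℂ} {c g : M.X → ℂ}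
    (hσ : ∀ l, Mer D P (σ l)) (hc : Sp D G c) (c0 : c ≠ 0) (hg : HoO D g)
    (g0 : ∃ y ∈ off D, g y ≠ 0) (pos : ∀ y ∈ offz D g, 0 < nsq (σ · y))
    (H : ∀ t : ℕ, X.I (fun y => normSq (c y) /
      (nsq (σ · y) * Real.exp (lw D (fun i => P i) y)) ^ t *
        Real.exp (lw D ((fun i => (G i : ℝ)) - X.o) y)) ≠ ⊤) : Gens D P := by
  refine bGEN n M ι D P fun d z hz => ?_
  by_contra hn
  obtain ⟨-, -, -, -, -, -, -, -, ⟨C, -, cmp⟩, -⟩ :
    _ ∧ _ ∧ _ ∧ _ ∧ _ ∧ _ ∧ _ ∧ _ ∧ _ ∧ _ :=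
    let ⟨a, b, c, d, e, f, g, h, i, j⟩ := bPW n M ι D
    ⟨a, b, c, d, e, f, g, h, i (3 / 2) (by norm_num), j⟩
  obtain ⟨C₁, loc⟩ := (st_MU n M ι D X).2.2.2.2 (3 / 2) (by norm_num) (∑ i, |(G i : ℝ)|)
  obtain ⟨u1, -, -, -, -, u2, -⟩ := st_UPB n M ι D G
  obtain ⟨h1, h2⟩ := u2 (D.c d) _ (hc.1 d)
  have zB : z ∈ B2 n := mem_ball_zero_iff.2 (by linarith)
  choose s s1 s2 using fun l => hσ l d z zB
  have s0 : ∀ l, s l z = 0 := fun l => by
    by_contra k
    exact hn ⟨σ l, s l, hσ l, s1 l, k, s2 l⟩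
  choose K hK using fun l => (s1 l).self_of_nhds.isBigO_sub.bound
  obtain ⟨ρ, ρ0, hρ⟩ := Metric.eventually_nhds_iff_ball.1
    ((eventually_all.2 hK).and (eventually_all.2 s2))
  have sub : ∀ r ≤ (1 : ℝ) / 2, ball z r ⊆ closedBall (0 : E n) (3 / 2) := fun r hr =>
    ball_subset_closedBall.trans (closedBall_subset_closedBall' (by
      rw [dist_zero_right]
      linarith))
  have sub2 : closedBall (0 : E n) (3 / 2) ⊆ B2 n := closedBall_subset_ball (by norm_num)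
  have c1 : ∃ y ∈ off D, c y ≠ 0 := by
    by_contra k
    push Not at k
    exact c0 (funext fun y => if o : y ∈ off D then k y o else hc.2 y o)
  set ρ' := min ρ (1 / 4) with hρ'
  have ρ1 : 0 < ρ' := lt_min ρ0 (by norm_num)
  have ρ2 : ρ' ≤ 1 / 4 := min_le_right _ _
  have ae := ZQ.HO.ae_offz (oa_iff.1 hg) g0 d
  set K₁ := (∑ l, K l ^ 2) * Real.exp (C * ∑ i, |(P i : ℝ)|) with hK₁
  have K0 : 0 ≤ K₁ := by positivity
  have fl := fun y => flat (h := val (D.c d) G (D.rd c d)) (z := z) (ρ := ρ') (y := y)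
    (by linarith) (h1.mono ((sub _ (by linarith)).trans sub2)) fun t => ?_
  · obtain ⟨y, hy, k⟩ := Measure.exists_mem_of_measure_ne_zero_of_ae
      (measure_ball_pos volume z ρ1).ne' (ae_restrict_of_ae
        (ZQ.HO.ae_offz (oa_iff.1 (u1 c hc.1).1) c1 d))
    have yB := sub2 (sub _ (by linarith) hy)
    have o := (ZQ.off_symm D yB).1 (k yB).1
    have := fl y hy
    rw [h2 y yB o] at this
    exact mul_ne_zero (Finset.prod_ne_zero_iff.2 fun i _ => zpow_ne_zero _ (o i)) (k yB).2 this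
  have l1 := loc (fun i => G i) (fun y => normSq (c y) /
    (nsq (σ · y) * Real.exp (lw D (fun i => P i) y)) ^ t) d fun i =>
      Finset.single_le_sum (f := fun i => |(G i : ℝ)|) (fun _ _ => abs_nonneg _) (Finset.mem_univ i)
  have l2 := ENNReal.mul_ne_top (ENNReal.ofReal_ne_top (r := C₁)) (H t)
  generalize ENNReal.ofReal C₁ * _ = W at l1 l2
  refine ⟨K₁ ^ t * W.toReal, mul_nonneg (pow_nonneg K0 t) ENNReal.toReal_nonneg,
    fun r r0 r1 => ?_⟩
  rw [mul_right_comm, ENNReal.ofReal_mul (by positivity), ENNReal.ofReal_toReal l2]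
  refine le_trans ?_ (mul_le_mul_right ((lintegral_mono_set (sub r (by linarith))).trans l1) _)
  rw [← lintegral_const_mul' _ _ ENNReal.ofReal_ne_top]
  refine lintegral_mono_ae ((ae_restrict_iff' measurableSet_ball).2 (ae.mono fun y k hy => ?_))
  have y3 := sub r (by linarith) hy
  have yB := sub2 y3
  have o := (ZQ.off_symm D yB).1 (k yB).1
  obtain ⟨b1, b2⟩ := hρ y (ball_subset_ball (r1.trans (min_le_left _ _)) hy)
  have p1 := pos _ (k yB)
  have up : nsq (σ · ((D.e d).symm y)) * Real.exp (lw D (fun i => P i) ((D.e d).symm y)) ≤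
      K₁ * r ^ 2 := by
    have e1 : nsq (σ · ((D.e d).symm y)) * xr (D.c d) (fun i => P i) y ≤ (∑ l, K l ^ 2) * r ^ 2 := by
      rw [nsq, Finset.sum_mul, Finset.sum_mul]
      refine Finset.sum_le_sum fun l _ => ?_
      have b3 := b1 l
      have b4 : xm (D.c d) P y * σ l ((D.e d).symm y) = s l y := by
        rw [show σ l ((D.e d).symm y) = _ from b2 l o, ← mul_assoc, xm, xm,
          ← Finset.prod_mul_distrib, Finset.prod_eq_one fun i _ => by
            rw [Pi.neg_apply, zpow_neg, mul_inv_cancel₀ (zpow_ne_zero _ (o i))], one_mul]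
      rw [s0, sub_zero] at b3
      rw [← PK1.nsq_xm45, mul_comm, ← map_mul, b4, normSq_eq_norm_sq]
      refine (pow_le_pow_left₀ (norm_nonneg _) b3 2).trans ?_
      rw [mul_pow]
      exact mul_le_mul_of_nonneg_left (pow_le_pow_left₀ (norm_nonneg _)
        (mem_ball_iff_norm.1 hy).le 2) (sq_nonneg _)
    refine (mul_le_mul_of_nonneg_left (cmp (fun i => P i) d y (mem_closedBall_zero_iff.1 y3) o).2
      p1.le).trans ?_
    rw [mul_left_comm, hK₁, mul_comm (∑ l, K l ^ 2), mul_assoc]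
    exact mul_le_mul_of_nonneg_left e1 (Real.exp_pos _).le
  rw [← ENNReal.ofReal_mul (by positivity), h2 y yB o, map_mul, PK1.nsq_xm45]
  refine ENNReal.ofReal_le_ofReal ?_
  have p2 := pow_pos (mul_pos p1 (Real.exp_pos (lw D (fun i => P i) ((D.e d).symm y)))) t
  have p3 := pow_le_pow_left₀ (mul_pos p1 (Real.exp_pos _)).le up t
  rw [mul_pow K₁, ← pow_mul] at p3
  have p4 : 0 ≤ xr (D.c d) (fun i => G i) y := PK1.nsq_xm45 (D.c d) G y ▸ normSq_nonneg _
  change _ * normSq (c _) ≤ _ * (normSq (c _) / _ * _)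
  rw [div_mul_eq_mul_div, ← mul_div_assoc, le_div_iff₀ p2, mul_comm (xr _ _ _), mul_comm]
  exact mul_le_mul_of_nonneg_right p3 (mul_nonneg (normSq_nonneg _) p4)

theorem num {c T s C₀ C₁ : ℝ} {j : ℕ} (T0 : 0 < T) (s0 : 0 ≤ s) (sj : s ≤ j) (a0 : 0 ≤ C₀)
    (a1 : 0 ≤ C₁) (h0 : c ≤ C₀) (h1 : c ≤ C₁ * T ^ j) : c ≤ (C₀ + C₁) * T ^ s := by
  have p := Real.rpow_pos_of_pos T0 s
  rcases le_total 1 T with k | k
  · have := Real.one_le_rpow k s0
    nlinarith
  · have := Real.rpow_le_rpow_of_exponent_ge T0 k sj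
    rw [Real.rpow_natCast] at this
    nlinarith

/-- Generation from the moments and the lower bound. -/
theorem main (X : Cx D) {L R : ι → ℤ} {T : M.X → ℝ} {c g : M.X → ℂ} {N r : ℕ}
    {σ : Fin r → M.X → ℂ} {x : ℝ} {θ : ι → ℝ} (hc : Sp D R c) (c0 : c ≠ 0)
    (lo : ∀ j : ℕ, ∃ C : ℝ, ∀ y ∈ offz D g, normSq (c y) * Real.exp (lw D (fun i => R i) y) ≤
      C * (T y * Real.exp (lw D (fun i => L i) y)) ^ j)
    (hσ : ∀ l, Sp D (fun i => N * L i) (σ l)) (hg : HoO D g) (g0 : ∃ y ∈ off D, g y ≠ 0)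
    (x0 : 0 ≤ x) (pos : ∀ y ∈ offz D g, 0 < T y ∧ 0 < nsq (σ · y))
    (H : ∀ t : ℕ, X.I (fun y => Real.exp (lw D θ y) * T y ^ x * (T y ^ N / nsq (σ · y)) ^ t) ≠ ⊤) :
    Gens D fun i => N * L i := by
  obtain ⟨-, -, w1, -, w2, -, w3, -⟩ := bPW n M ι D
  obtain ⟨o1, o2, o3⟩ := NV6.J.ae_offz X hg g0
  obtain ⟨-, -, -, -, -, -, -, -, -, -, -, -, -, k, -⟩ := NV6.J.st_KIT n M ι D X _ o1 o2 o3
  obtain ⟨-, -, u1, -, u2, -⟩ := st_UPB n M ι D R
  obtain ⟨C₀, h0⟩ := u2 c hc.1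
  let Q : ι → ℤ := fun i => max 0 ⌈θ i - x * L i + X.o i⌉
  refine gens X (G := R + Q) (fun l => (hσ l).1)
    ⟨u1 _ c (le_add_of_nonneg_right fun i => le_max_left _ _) hc.1, hc.2⟩ c0 hg g0
    (fun y hy => (pos y hy).2) fun t => ?_
  obtain ⟨j, hj⟩ := exists_nat_ge (x + (N * t : ℕ))
  obtain ⟨C₁, h1⟩ := lo j
  refine (k _ _ (|C₀| + |C₁|) fun y hy => ?_).2 (H t)
  obtain ⟨pT, p3⟩ := pos y hy
  refine ⟨by positivity, ?_⟩
  have e1 := (h1 y hy).trans (mul_le_mul_of_nonneg_right (le_abs_self _) (by positivity))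
  have e0 : normSq (c y) * Real.exp (lw D (fun i => R i) y) ≤ |C₀| := by
    rw [← le_div_iff₀ (Real.exp_pos _), div_eq_mul_inv, ← Real.exp_neg]
    exact (h0 y hy.1).trans (mul_le_mul_of_nonneg_right (le_abs_self _) (Real.exp_pos _).le)
  have e2 := num (mul_pos pT (Real.exp_pos _)) (by positivity) hj (abs_nonneg _) (abs_nonneg _)
    e0 e1
  have e3 : lw D (((fun i => ((R + Q) i : ℝ)) - X.o) + x • fun i => (L i : ℝ)) y ≤
      lw D ((fun i => (R i : ℝ)) + θ) y := w3 _ _ (fun i => by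
    have : θ i - x * L i + X.o i ≤ Q i := (Int.le_ceil _).trans (Int.cast_le.2 (le_max_right _ _))
    simp only [Pi.add_apply, Pi.sub_apply, Pi.smul_apply, smul_eq_mul, Int.cast_add]
    linarith) y
  rw [w1, w1, w2] at e3
  rw [show (fun i => ((N * L i : ℤ) : ℝ)) = (N : ℝ) • fun i => (L i : ℝ) from
    funext fun i => by simp, w2]
  generalize T y = S at *
  generalize lw D (fun i => (L i : ℝ)) y = l at *
  generalize lw D (fun i => (R i : ℝ)) y = ρ at *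
  generalize lw D θ y = τ at *
  generalize lw D _ y = u at *
  have e4 : Real.exp u ≤ Real.exp ρ * (Real.exp τ * Real.exp (-(x * l))) := by
    rw [← Real.exp_add, ← Real.exp_add]
    exact Real.exp_le_exp.2 (by linarith)
  rw [Real.mul_rpow pT.le (Real.exp_pos _).le, Real.rpow_add pT, Real.rpow_natCast,
    ← Real.exp_mul] at e2
  rw [div_mul_eq_mul_div, div_le_iff₀ (by positivity)]
  refine (mul_le_mul_of_nonneg_left e4 (normSq_nonneg _)).trans ?_
  rw [← mul_assoc]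
  refine (mul_le_mul_of_nonneg_right e2 (by positivity)).trans_eq ?_
  rw [mul_add, Real.exp_add, Real.exp_neg, mul_comm l, mul_pow, ← Real.exp_nat_mul, div_pow,
    ← pow_mul, show (t : ℝ) * (N * l) = l * (N * t : ℕ) by push_cast; ring]
  field_simp

/-- The same for a quotient of two families. -/
theorem lwg (X : Cx D) {I J : Type} [Fintype I] [Fintype J] {a : I → M.X → ℂ} {b : J → M.X → ℂ}
    {L : ι → ℤ} {g : M.X → ℂ} {N r : ℕ} {σ : Fin r → M.X → ℂ} {x : ℝ} {θ : ι → ℝ}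
    (lo : R6.Lw D L a b) (hσ : ∀ l, Sp D (fun i => N * L i) (σ l)) (hg : HoO D g)
    (g0 : ∃ y ∈ off D, g y ≠ 0) (x0 : 0 ≤ x)
    (pos : ∀ y ∈ offz D g, 0 < nsq (a · y) ∧ 0 < nsq (b · y) ∧ 0 < nsq (σ · y))
    (H : ∀ t : ℕ, X.I (fun y => Real.exp (lw D θ y) * (nsq (a · y) / nsq (b · y)) ^ x *
      ((nsq (a · y) / nsq (b · y)) ^ N / nsq (σ · y)) ^ t) ≠ ⊤) : Gens D fun i => N * L i := by
  obtain ⟨R, c, hc, c0, lo⟩ := lo
  refine main X (T := fun y => nsq (a · y) / nsq (b · y)) hc c0 (fun j => (lo j).imp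
    fun C h y hy => ?_) hσ hg g0 x0 (fun y hy => ⟨div_pos (pos y hy).1 (pos y hy).2.1,
      (pos y hy).2.2⟩) H
  have e1 := h.2 y hy.1
  rwa [← le_div_iff₀ (pow_pos (pos y hy).2.1 j), mul_div_assoc, ← div_pow,
    mul_div_right_comm] at e1

end E10

end Pool.Agent.Lib.S5
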