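import Pool.Agent.Lib.NV6.GBlue

/-! Project S5: sections whose sum of squares is comparable with the reference metric. -/

open scoped Classical

noncomputable section

namespace Pool.Agent.Lib.S5

open Pool.Agent.Lib.SV (nsq)
open Pool.Agent.Lib.HS32 Pool.Agent.Lib.EX Pool.Agent.Lib.EXS Pool.Agent.Lib.ZL
open Pool.Agent.Lib.ZQ (offz)
open Pool.Agent.Lib.NV5 (Rg FM)
open Pool.Agent.Lib.NV6 (Dm)
open Pool.Agent.Lib.NV6.J (Md Rk)
open Pool.Agent.Lib.R6 (Prj Ab)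

/-- The sections `σ` of `N L` generate the reference metric in the sense of integrability. -/
structure Sig {n : ℕ} {M : Mf n} {ι : Type} [Fintype ι] [DecidableEq ι] {D : Ad M ι} (X : Cx D)
    (L κ : ι → ℤ) {I J : Type} [Fintype I] [Fintype J] (a : I → M.X → ℂ) (b : J → M.X → ℂ)
    (N : ℕ) {r : ℕ} (σ : Fin r → M.X → ℂ) (g : M.X → ℂ) (x : ℝ) (th : ι → ℝ) : Prop where
  N0 : 0 < N
  x0 : 0 ≤ x
  sp : ∀ l, Sp D (fun i => N * L i) (σ l)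
  rg : Rg D g
  hol : HoO D g
  ne : ∃ y ∈ off D, g y ≠ 0
  pos : ∀ y ∈ offz D g, 0 < nsq (a · y) ∧ 0 < nsq (b · y) ∧ 0 < nsq (σ · y)
  lo : ∀ i, x * L i ≤ th i + X.o i
  hi : ∀ i, th i + X.o i ≤ x * L i + κ i
  int : ∀ t : ℕ, X.I (fun y => Real.exp (lw D th y) * (nsq (a · y) / nsq (b · y)) ^ x *
    ((nsq (a · y) / nsq (b · y)) ^ N / nsq (σ · y)) ^ t) ≠ ⊤

/-- Base point freeness on the model, read on the manifold. -/
def St_SIG : Prop := ∀ (n : ℕ) (M : Mf n) [M.Cpt] (ι : Type) [Fintype ι] [DecidableEq ι]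
  (D : Ad M ι) (X : Cx D) (r : ℕ) (t : Fin r → M.X → ℂ) (F : Type) [Field F] [Algebra ℂ F]
  (Φ : FM D F) (k : IntermediateField ℂ F) (T : F) (N d e r' r₁ r₂ : ℕ) (lam κ P : ι → ℤ)
  (g b₀ : M.X → ℂ) (ε : Fin r' ≃ Fin (r₁ + 1) × Fin (r₂ + 1)) (a : Fin (r₁ + 1) → M.X → ℂ)
  (b : Fin (r₂ + 1) → M.X → ℂ), Prj X t → T ≠ 0 → 0 < N →
  Ab D Φ k T (fun i => N * lam i) P a b →
  (∃ C, ∀ x ∈ offz D g,
    nsq (a · x) ≤ C * Real.exp (-lw D (fun i => (N * lam i : ℤ)) x) * nsq (b · x)) →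
  Md X d e (fun i => N * lam i) κ g (fun i => N * lam i + 2 * P i)
    (fun β y => a (ε β).1 y * b (ε β).2 y) (fun β y => a (ε β).1 y ^ 2) b₀ →
  Rk X g (fun i => N * lam i + 2 * P i) (fun β y => a (ε β).1 y * b (ε β).2 y)
    (fun i => N * lam i + κ i) → Dm D Φ k lam →
  (∀ j : ℕ, 0 < j → ∀ s, Sp D (fun i => j * (N * lam i) + κ i) s →
    Sp D (fun i => j * (N * lam i)) s) →
  ∃ (N₁ r₀ : ℕ) (σ : Fin r₀ → M.X → ℂ) (g₁ : M.X → ℂ) (x : ℝ) (th : ι → ℝ),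
    Sig X (fun i => N * lam i) κ a b N₁ σ g₁ x th

end Pool.Agent.Lib.S5
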