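import Pool.Agent.Lib.S5.GBlue
import Pool.Agent.Lib.S5.SigDefs
import Pool.Agent.Lib.S5.E10

/-! Project S5, step ten. -/

namespace Pool.Agent.Lib.S5

open Pool.Agent.Lib.HS32 Pool.Agent.Lib.EX Pool.Agent.Lib.ZL

theorem bEND : St_END := by
  intro n M _ ι _ _ D X L R T c hc c0 lo ⟨N, r, σ, g, x, β, N0, x0, hσ, hg, g0, pos, H⟩
  exact ⟨N, N0, E10.main X hc c0 (fun j => (lo j).imp fun C h y hy => h y hy.1 (pos y hy).1) hσ hg
    g0 x0 pos H⟩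

theorem Sig.gens {n : ℕ} {M : Mf n} [M.Cpt] {ι : Type} [Fintype ι] [DecidableEq ι] {D : Ad M ι}
    {X : Cx D} {L κ : ι → ℤ} {I J : Type} [Fintype I] [Fintype J] {a : I → M.X → ℂ}
    {b : J → M.X → ℂ} {N r : ℕ} {σ : Fin r → M.X → ℂ} {g : M.X → ℂ} {x : ℝ} {th : ι → ℝ}
    (h : Sig X L κ a b N σ g x th) (lo : R6.Lw D L a b) : Gens D fun i => N * L i :=
  E10.lwg X lo h.sp h.hol h.ne h.x0 h.pos h.int

end Pool.Agent.Lib.S5
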