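import Pool.Agent.Lib.S5.GBlue
import Pool.Agent.Lib.NV5.B_KIT
import Pool.Agent.Lib.NV5.A_PRE

/-! Project S5: the fixed part does not contribute. -/

open scoped Classical
open Set WithZero

noncomputable section

namespace Pool.Agent.Lib.S5

open Pool.Agent.Lib.HS32 Pool.Agent.Lib.EX Pool.Agent.Lib.NV2
open Pool.Agent.Lib.NV5 (Rg FM VF Hg dv)

namespace FIX

theorem le_of_pow {x : WithZero (Multiplicative ℤ)} {l N : ℤ}
    (h : ∀ i : ℕ, x ^ i ≤ exp (i * l + N)) : x ≤ exp l := by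
  by_cases hx : x = 0
  · rw [hx]; exact zero_le
  · rw [← exp_log hx, exp_le_exp]
    refine NV5.PRE.slope (T := univ) (w := 0) (N := N) infinite_univ fun i _ => ?_
    have := h i
    rwa [← exp_log hx, ← exp_nsmul, exp_le_exp, nsmul_eq_mul, ← add_zero (_ * log x)] at this

end FIX

theorem bFIX : St_FIX := by
  intro n M _ ι _ _ D F _ _ Φ V m π e p ν br hZ j hj s hs
  obtain ⟨k1, k2, -, k4, -⟩ := NV5.bKIT n M ι D
  obtain ⟨a, ha⟩ := hZ.2 0
  have h1 : V.Sec (dv m fun i => j * p i) (Φ.ev s) :=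
    (br.sec _ _).2 ⟨s, k1 _ _ _ (fun i => by
      have h := hZ.1 i
      have h' : (1 : ℤ) ≤ j := by exact_mod_cast hj
      nlinarith [mul_nonneg (sub_nonneg.2 h') (sub_nonneg.2 h)]) hs, rfl⟩
  have h2 : V.Sec (dv m fun i => j * ν i) (Φ.ev s) := fun q => by
    refine FIX.le_of_pow (N := dv m a q) fun i => ?_
    obtain ⟨u, u1, u2⟩ := (br.sec (fun l => (i * j : ℕ) * p l + (0 : ℕ) * e l) (Φ.ev s ^ i)).1
      fun q => by
        rw [map_pow]
        refine (pow_le_pow_left' (h1 q) i).trans (le_of_eq ?_)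
        rw [← exp_nsmul]
        simp [NV5.dv, Finset.mul_sum, mul_assoc]
    have h3 := (br.sec _ _).2 ⟨u, ha _ _ u1, u2⟩ q
    rw [map_pow] at h3
    refine h3.trans (le_of_eq (congrArg exp ?_))
    simp [NV5.dv, Finset.mul_sum, mul_assoc, add_mul, Finset.sum_add_distrib]
  obtain ⟨u, u1, u2⟩ := (br.sec _ _).1 h2
  have r1 : Rg D ((-1 : ℂ) • s) := ⟨_, k4 _ _ _ hs⟩
  have h4 := Φ.inj (u + (-1 : ℂ) • s)
    ⟨fun i => max (j * ν i) (j * ν i + (p i - ν i)),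
      k2 _ _ _ (k1 _ _ _ (fun i => le_max_left _ _) u1)
        (k1 _ _ _ (fun i => le_max_right _ _) (k4 _ _ _ hs))⟩
    (by rw [Φ.add _ _ ⟨_, u1⟩ r1, Φ.smul _ _ ⟨_, hs⟩, u2, neg_one_smul, add_neg_cancel])
  rw [neg_one_smul, add_neg_eq_zero] at h4
  exact h4 ▸ u1

end Pool.Agent.Lib.S5
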