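import Pool.Agent.Lib.NV5.Blue

/-! Project S5: tensors that alternate in blocks. -/

open scoped Classical Topology
open Set Complex Metric Filter

set_option linter.unusedSectionVars false

noncomputable section

namespace Pool.Agent.Lib.S5

open Pool.Agent.Lib.SV (E)
open Pool.Agent.Lib.HS32 Pool.Agent.Lib.EX Pool.Agent.Lib.EXS Pool.Agent.Lib.ZL Pool.Agent.Lib.NV2
open Pool.Agent.Lib.NV5

/-- The tensor `v` is alternating in each fibre of `β`. -/
def Al {n N r : ℕ} (β : Fin N → Fin r) (v : (Fin N → Fin n) → ℂ) : Prop :=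
  ∀ I p p', p ≠ p' → β p = β p' → v (I ∘ Equiv.swap p p') = -v I

variable {n : ℕ} {M : Mf n} {ι : Type} [Fintype ι] [DecidableEq ι] (D : Ad M ι)

/-- The tensor field `b` is alternating in `r` blocks. -/
def Alt {N : ℕ} (r : ℕ) (b : D.A → (Fin N → Fin n) → E n → ℂ) : Prop :=
  ∃ β : Fin N → Fin r, OA D fun d z => Al β fun I => b d I z

/-- Ratios of tensors that alternate in blocks are dominated by `ν`. -/
def DomP (l ν : ι → ℤ) (e : ι → ℕ) : Prop :=
  ∀ (N r k : ℕ) (b₁ b₂ : D.A → (Fin N → Fin n) → E n → ℂ), Alt D r b₂ →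
  Tns D N (fun i => r * l i + k * ν i) b₁ → Tns D N (fun i => r * l i + k * ν i) b₂ →
  (∃ d I, ∃ z ∈ B2 n, Off (D.c d) z ∧ b₂ d I z ≠ 0) →
  (OA D fun d z => ∀ I J, b₁ d I z * b₂ d J z = b₁ d J z * b₂ d I z) →
  ∃ c a : ℕ, ∀ j : ℕ, ∃ w : ℕ → M.X → ℂ, w 0 ≠ 0 ∧
    (∀ i ≤ j, Sp D (fun s => j * c * ν s + a * e s) (w i)) ∧
    ∀ i < j, OA D fun d z => ∀ I, D.rd (w (i + 1)) d z * b₂ d I z = D.rd (w i) d z * b₁ d I z

section alg

variable {q q' r r' : ℕ}

theorem Al.mul {β : Fin q → Fin r} {β' : Fin q' → Fin r'} {v : (Fin q → Fin n) → ℂ}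
    {v' : (Fin q' → Fin n) → ℂ} (h : Al β v) (h' : Al β' v') :
    Al (Fin.append (Fin.castAdd r' ∘ β) (Fin.natAdd r ∘ β')) fun I =>
      v (fun p => I (Fin.castAdd q' p)) * v' fun p => I (Fin.natAdd q p) := by
  have ne : ∀ (a : Fin q) (b : Fin q'), Fin.castAdd q' a ≠ Fin.natAdd q b := fun a b e => by
    have := congrArg Fin.val e
    simp only [Fin.val_castAdd, Fin.val_natAdd] at this
    omega
  have ne' : ∀ (a : Fin r) (b : Fin r'), Fin.castAdd r' a ≠ Fin.natAdd r b := fun a b e => by
    have := congrArg Fin.val e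
    simp only [Fin.val_castAdd, Fin.val_natAdd] at this
    omega
  intro I p p' hp hb
  induction p using Fin.addCases with
  | left p =>
    induction p' using Fin.addCases with
    | left p' =>
      simp only [Fin.append_left, Function.comp] at hb
      have := h (fun a => I (Fin.castAdd q' a)) p p' (fun e => hp (e ▸ rfl))
        (Fin.castAdd_injective _ _ hb)
      simp only [Function.comp_def] at this ⊢
      simp only [← (Fin.castAdd_injective q q').map_swap, this,
        Equiv.swap_apply_of_ne_of_ne (ne p _).symm (ne p' _).symm, neg_mul]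
    | right p' => simp only [Fin.append_left, Fin.append_right] at hb; exact (ne' _ _ hb).elim
  | right p =>
    induction p' using Fin.addCases with
    | left p' => simp only [Fin.append_left, Fin.append_right] at hb; exact (ne' _ _ hb.symm).elim
    | right p' =>
      simp only [Fin.append_right, Function.comp] at hb
      have := h' (fun a => I (Fin.natAdd q a)) p p' (fun e => hp (e ▸ rfl))
        (Fin.natAdd_injective _ _ hb)
      simp only [Function.comp_def] at this ⊢
      simp only [← (Fin.natAdd_injective q' q).map_swap, this,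
        Equiv.swap_apply_of_ne_of_ne (ne _ p) (ne _ p'), mul_neg]

theorem Al.det {v : Fin r → (Fin q → Fin n) → ℂ} (h : ∀ a, Al (fun _ => (0 : Fin 1)) (v a)) :
    Al (fun p : Fin (r * q) => (finProdFinEquiv.symm p).1) fun I =>
      (Matrix.of fun a a' : Fin r => v a fun p => I (finProdFinEquiv (a', p))).det := by
  intro I p p' hp hb
  obtain ⟨⟨c, x⟩, rfl⟩ := finProdFinEquiv.surjective p
  obtain ⟨⟨c', x'⟩, rfl⟩ := finProdFinEquiv.surjective p'
  simp only [Equiv.symm_apply_apply] at hb
  subst hb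
  have hx : x ≠ x' := fun e => hp (e ▸ rfl)
  beta_reduce
  have k := Matrix.det_updateCol_smul
    (Matrix.of fun a a' : Fin r => v a fun p => I (finProdFinEquiv (a', p))) c (-1)
    fun a => v a fun p => I (finProdFinEquiv (c, p))
  rw [neg_one_mul, show (fun a => v a fun p => I (finProdFinEquiv (c, p))) = fun a => (Matrix.of
    fun a a' : Fin r => v a fun p => I (finProdFinEquiv (a', p))) a c from rfl,
    Matrix.updateCol_eq_self] at k
  rw [← k]
  refine congrArg Matrix.det (Matrix.ext fun a a' => ?_)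
  simp only [Matrix.of_apply, Function.comp, ← finProdFinEquiv.injective.map_swap]
  by_cases e : a' = c
  · subst e
    have := h a (fun p => I (finProdFinEquiv (a', p))) x x' hx rfl
    simp only [Matrix.updateCol_self, Pi.smul_apply, smul_eq_mul, neg_one_mul, ← this,
      Function.comp_def, ← (Prod.mk_right_injective a').map_swap]
  · rw [Matrix.updateCol_ne e]
    refine congrArg (v a) (funext fun p => ?_)
    rw [Equiv.swap_apply_of_ne_of_ne (fun k => e (congrArg Prod.fst k))
      fun k => e (congrArg Prod.fst k)]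

end alg

variable {D}

theorem Alt.ten {q : ℕ} {b : D.A → (Fin q → Fin n) → E n → ℂ}
    (h : OA D fun d z => ∀ I (σ : Equiv.Perm (Fin q)),
      b d (I ∘ σ) z = (Equiv.Perm.sign σ : ℤ) * b d I z) : Alt D 1 b :=
  ⟨fun _ => 0, fun d z hz ho I p p' hp _ => by
    simpa [Equiv.Perm.sign_swap hp] using h d z hz ho I (Equiv.swap p p')⟩

theorem Alt.mul {q q' r r' : ℕ} {b : D.A → (Fin q → Fin n) → E n → ℂ}
    {b' : D.A → (Fin q' → Fin n) → E n → ℂ} (h : Alt D r b) (h' : Alt D r' b') :
    Alt D (r + r') fun d I z =>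
      b d (fun p => I (Fin.castAdd q' p)) z * b' d (fun p => I (Fin.natAdd q p)) z :=
  let ⟨_, k⟩ := h
  let ⟨_, k'⟩ := h'
  ⟨_, fun d z hz ho => (k d z hz ho).mul (k' d z hz ho)⟩

theorem Alt.det {q r : ℕ} {b : Fin r → D.A → (Fin q → Fin n) → E n → ℂ}
    (h : ∀ a, Alt D 1 (b a)) : Alt D r fun d (I : Fin (r * q) → Fin n) z =>
      (Matrix.of fun a a' : Fin r => b a d (fun p => I (finProdFinEquiv (a', p))) z).det := by
  choose β k using h
  exact ⟨_, fun d z hz ho => Al.det (v := fun a I => b a d I z) fun a I p p' hp _ =>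
    k a d z hz ho I p p' hp (Subsingleton.elim _ _)⟩

theorem Alt.zero {b : D.A → (Fin 0 → Fin n) → E n → ℂ} : Alt D 0 b :=
  ⟨id, fun _ _ _ _ _ p => p.elim0⟩

end Pool.Agent.Lib.S5
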