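import Pool.Agent.Lib.S5.ABlue
import Pool.Agent.Lib.S5.PDefs
import Pool.Agent.Lib.S5.R5Defs
import Pool.Agent.Lib.NV6.GBlue

/-! Project S5: from the sections to the generation. Objects and blueprint. -/

open scoped Classical Topology ContDiff ENNReal
open Set MeasureTheory Complex Metric Filter

set_option linter.unusedVariables false

noncomputable section

namespace Pool.Agent.Lib.S5

open Pool.Agent.Lib.SV (E nsq)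
open Pool.Agent.Lib.HS32 Pool.Agent.Lib.EX Pool.Agent.Lib.EXS Pool.Agent.Lib.ZL Pool.Agent.Lib.NV2
open Pool.Agent.Lib.ZQ (HqC HqO offz)
open Pool.Agent.Lib.NV5 (Rg FM VF Hg dv Tns DomH Ctx4)
open Pool.Agent.Lib.NV6 (Dm Clo sg)
open Pool.Agent.Lib.NV6.J (Md Rk Nf Cb pv)
open Pool.Agent.Lib.R6 (Prj Zw Fb Ab Wr Lw)

section defs

variable {n : ℕ} {M : Mf n} {ι : Type} [Fintype ι] [DecidableEq ι]

/-- Domination for tensors of large level. -/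
def DomQ (D : Ad M ι) (l ν : ι → ℤ) (e : ι → ℕ) : Prop :=
  ∀ (N r k : ℕ) (b₁ b₂ : D.A → (Fin N → Fin n) → E n → ℂ), N ≤ k → Alt D r b₂ →
  Tns D N (fun i => r * l i + k * ν i) b₁ → Tns D N (fun i => r * l i + k * ν i) b₂ →
  (∃ d I, ∃ z ∈ B2 n, Off (D.c d) z ∧ b₂ d I z ≠ 0) →
  (OA D fun d z => ∀ I J, b₁ d I z * b₂ d J z = b₁ d J z * b₂ d I z) →
  ∃ c a : ℕ, ∀ j : ℕ, ∃ w : ℕ → M.X → ℂ, w 0 ≠ 0 ∧
    (∀ i ≤ j, Sp D (fun s => j * c * ν s + a * e s) (w i)) ∧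
    ∀ i < j, OA D fun d z => ∀ I, D.rd (w (i + 1)) d z * b₂ d I z = D.rd (w i) d z * b₁ d I z

/-- The divisor `p - ν` is effective and asymptotically fixed. -/
def Zr (D : Ad M ι) (p ν : ι → ℤ) (e : ι → ℕ) : Prop := (∀ i, ν i ≤ p i) ∧
  ∀ k : ℕ, ∃ a : ι → ℤ, ∀ (j : ℕ) U,
    Sp D (fun i => j * p i + k * e i) U → Sp D (fun i => j * ν i + a i) U

/-- Sections whose norm, relative to `T`, has all negative moments. -/
def Mom {D : Ad M ι} (X : Cx D) (L : ι → ℤ) (T : M.X → ℝ) : Prop :=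
  ∃ (N r : ℕ) (σ : Fin r → M.X → ℂ) (g : M.X → ℂ) (x : ℝ) (β : ι → ℝ), 0 < N ∧ 0 ≤ x ∧
    (∀ l, Sp D (fun i => N * L i) (σ l)) ∧ HoO D g ∧ (∃ y ∈ off D, g y ≠ 0) ∧
    (∀ y ∈ offz D g, 0 < T y ∧ 0 < nsq (σ · y)) ∧ ∀ t : ℕ,
      X.I (fun y => Real.exp (lw D β y) * T y ^ x * (T y ^ N / nsq (σ · y)) ^ t) ≠ ⊤

end defs

/-! ### The input -/

/-- Step one with the alternation. -/
def St_NVA : Prop := ∀ (n : ℕ) (M : Mf n) [M.Cpt] (ι : Type) [Fintype ι] [DecidableEq ι]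
  (D : Ad M ι) (X : Cx D) (r c : ℕ) (Q ν : ι → ℤ) (t : Fin r → M.X → ℂ),
  HqC 1 D X.μ → Kd D (fun i => X.e i) t → Imm D (fun i => X.e i) t →
  (∀ x ∈ off D, X.α x = lg t x) → Zo X Q ν → Gens D (fun i => ν i + c * X.e i) →
  ∀ (a : ℕ) (P : Polynomial ℚ),
    (∀ᶠ j : ℕ in atTop, (h0 D (fun i => Q i + a * ν i + j * X.e i) : ℚ) = P.eval (j : ℚ)) →
    ∃ q ≤ r, ∃ (m : ℕ) (b : Fin m → D.A → (Fin q → Fin n) → E n → ℂ),
      |P.eval 0| ≤ (r + 1) * m ∧ Fam D q (fun i => Q i + a * ν i) b ∧ ∀ s, Alt D 1 (b s)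

/-- Step two: the rule of Cramer. -/
def St_INA : Prop := ∀ (n : ℕ) (M : Mf n) [M.Cpt] (ι : Type) [Fintype ι] [DecidableEq ι]
  (D : Ad M ι) (F : Type) [Field F] [Algebra ℂ F] (Φ : FM D F) (V : VF n F) (m : ι → V.P → ℤ)
  (π : Hg D → V.P) (r : ℕ) (e : ι → ℕ) (t : Fin r → M.X → ℂ) (l ν : ι → ℤ) (q d C : ℕ),
  (∀ i, 0 < e i) → Kd D (fun i => e i) t → Imm D (fun i => e i) t → Φ.Br V m π → DomQ D l ν e →
  {a : ℕ | ∃ (s : ℕ) (b : Fin s → D.A → (Fin q → Fin n) → E n → ℂ), (a + 1) ^ d ≤ C * s ∧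
    Fam D q (fun i => l i + a * ν i) b ∧ ∀ s, Alt D 1 (b s)}.Infinite →
  ∃ Q C' S U, Inq V (dv m ν) (dv m fun i => e i) (dv m Q) d C' S U

/-- Domination without boundary. -/
def St_DQ0 : Prop := ∀ (n : ℕ) (M : Mf n) [M.Cpt] (ι : Type) [Fintype ι] [DecidableEq ι]
  (D : Ad M ι) (l ν : ι → ℤ) (e : ι → ℕ) (c : ℕ), (∀ i, 0 < e i) → 0 < c →
  Zr D (fun i => c * l i) ν e → DomH D l e → DomQ D l ν e

/-- Steps three to five on the manifold. -/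
def St_MID : Prop := ∀ (n : ℕ) (M : Mf n) [M.Cpt] (ι : Type) [Fintype ι] [DecidableEq ι]
  (D : Ad M ι) (F : Type) [Field F] [Algebra ℂ F] (Φ : FM D F) (V : VF n F) (m : ι → V.P → ℤ)
  (π : Hg D → V.P) (e : ι → ℕ) (p ν Q : ι → ℤ) (d C : ℕ) (S : Set ℕ) (U : ℕ → Submodule ℂ F),
  (∀ i, 0 < e i) → Φ.Br V m π → Zr D p ν e → Inq V (dv m ν) (dv m fun i => e i) (dv m Q) d C S U →
  ∃ (k : IntermediateField ℂ F) (a : ℕ) (τ : F), 0 < a ∧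
    Fb V m k (fun i => a * ν i) (fun i => p i - ν i) τ ∧ Dm D Φ k (fun i => a * ν i) ∧
    (∃ R, Qps V (dv m fun i => a * ν i) (dv m R) k τ d) ∧
    ((∀ b : ℕ, ∃ C : ℕ, ∀ j : ℕ, h0 D (fun i => j * ν i + b * e i) ≤ C * (j + 1) ^ d) →
      ∀ b : ℕ, Wr V m k (fun i => a * ν i) (fun i => b * e i) τ)

/-- The fixed part does not contribute. -/
def St_FIX : Prop := ∀ (n : ℕ) (M : Mf n) [M.Cpt] (ι : Type) [Fintype ι] [DecidableEq ι]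
  (D : Ad M ι) (F : Type) [Field F] [Algebra ℂ F] (Φ : FM D F) (V : VF n F) (m : ι → V.P → ℤ)
  (π : Hg D → V.P) (e : ι → ℕ) (p ν : ι → ℤ), Φ.Br V m π → Zr D p ν e → ∀ j : ℕ, 0 < j →
  ∀ s, Sp D (fun i => j * ν i + (p i - ν i)) s → Sp D (fun i => j * ν i) s

/-! ### The model -/

/-- Step seven: the theorem of block J with the sections. -/
def St_J5 : Prop := ∀ (n : ℕ) (M : Mf n) [M.Cpt] (ι : Type) [Fintype ι] [DecidableEq ι]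
  (D : Ad M ι) (X : Cx D) (r d k : ℕ) (g : M.X → ℂ) (L κ P : ι → ℤ) (h W : Fin r → M.X → ℂ)
  (b : M.X → ℂ), Md X d k L κ g P h W b → Rk X g P h (fun i => L i + κ i) → 0 ≤ κ →
  ∃ (m e : ℕ) (Q : Fin m → MvPolynomial (Fin r) ℂ) (g' : M.X → ℂ), 0 < m ∧
    (∀ i, (Q i).IsHomogeneous e) ∧ (∃ R, Sp D R g') ∧ (∃ x ∈ off D, g' x ≠ 0) ∧
    offz D g' ⊆ offz D g ∧ (∀ x ∈ offz D g', ∀ i, pv h (Q i) x ≠ 0) ∧
    (∀ (r' : ℕ) (ε : Fin r' ≃ Fin r × Fin m), Nf (D := D) (offz D g')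
      (fun β y => h (ε β).1 y * pv h (Q (ε β).2) y) fun β y => W (ε β).1 y * pv h (Q (ε β).2) y) ∧
    ∀ j : ℕ, 0 < j → ∀ s, Sp D (fun i => j * L i) s → ∀ α i,
      Cb (offz D g') h j (fun l => pv h (Q l))
        fun x => s x * pv h (Q i) x * h α x ^ (2 * j) / W α x ^ j

/-- Step seven: the section on the model. -/
def St_BR5 : Prop := ∀ (Y I K : Type) [Fintype I] [Fintype K] (r m j : ℕ) (O : Set Y)
  (e₀ : Fin r ≃ I × K) (a : I → Y → ℂ) (b : K → Y → ℂ) (Q : Fin m → Y → ℂ) (s : Y → ℂ), 0 < j →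
  Nonempty I → Nonempty K → 0 < m →
  (∀ x ∈ O, (∀ i, a i x ≠ 0) ∧ (∀ i, b i x ≠ 0) ∧ ∀ i, Q i x ≠ 0) →
  (∀ α i, Cb O (fun β y => a (e₀ β).1 y * b (e₀ β).2 y) j Q fun x =>
    s x * Q i x * (a (e₀ α).1 x * b (e₀ α).2 x) ^ (2 * j) / (a (e₀ α).1 x ^ 2) ^ j) →
  ∃ S, NV6.Sec (Clo fun x : O => sg (fun p : I × Fin m => a p.1 x * Q p.2 x,
    fun p : K × Fin m => b p.1 x * Q p.2 x)) j 0 S ∧ ∀ x ∈ O, s x =
      S (fun p : I × Fin m => a p.1 x * Q p.2 x, fun p : K × Fin m => b p.1 x * Q p.2 x)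

/-- The core: the sections with all negative moments. -/
def St_COR : Prop := ∀ (n : ℕ) (M : Mf n) [M.Cpt] (ι : Type) [Fintype ι] [DecidableEq ι]
  (D : Ad M ι) (X : Cx D) (r : ℕ) (t : Fin r → M.X → ℂ) (F : Type) [Field F] [Algebra ℂ F]
  (Φ : FM D F) (k : IntermediateField ℂ F) (a₀ N r₁ r₂ : ℕ) (lam κ P : ι → ℤ) (T : F)
  (a : Fin (r₁ + 1) → M.X → ℂ) (b : Fin (r₂ + 1) → M.X → ℂ), Prj X t → Dm D Φ k lam → 0 < N →
  T ≠ 0 → 0 ≤ κ →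
  (∀ j : ℕ, 0 < j → ∀ s, Sp D (fun i => j * lam i + κ i) s → Sp D (fun i => j * lam i) s) →
  Ab D Φ k T (fun i => N * lam i) P a b →
  (∀ (r' : ℕ) (ε : Fin r' ≃ Fin (r₁ + 1) × Fin (r₂ + 1)), ∃ g e b₀,
    (∃ C, ∀ x ∈ offz D g,
      nsq (a · x) ≤ C * Real.exp (-lw D (fun i => (N * lam i : ℤ)) x) * nsq (b · x)) ∧
    Md X (N * a₀) e (fun i => N * lam i) κ g (fun i => N * lam i + 2 * P i)
      (fun β y => a (ε β).1 y * b (ε β).2 y) (fun β y => a (ε β).1 y ^ 2) b₀ ∧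
    Rk X g (fun i => N * lam i + 2 * P i) (fun β y => a (ε β).1 y * b (ε β).2 y)
      fun i => N * lam i + κ i) →
  Mom X (fun i => N * lam i) fun y => nsq (a · y) / nsq (b · y)

/-- Step ten: no common zero. -/
def St_END : Prop := ∀ (n : ℕ) (M : Mf n) [M.Cpt] (ι : Type) [Fintype ι] [DecidableEq ι]
  (D : Ad M ι) (X : Cx D) (L R : ι → ℤ) (T : M.X → ℝ) (c : M.X → ℂ), Sp D R c → c ≠ 0 →
  (∀ j : ℕ, ∃ C : ℝ, ∀ y ∈ off D, 0 < T y → normSq (c y) * Real.exp (lw D (fun i => R i) y) ≤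
    C * (T y * Real.exp (lw D (fun i => L i) y)) ^ j) →
  Mom X L T → ∃ N : ℕ, 0 < N ∧ Gens D fun i => N * L i

end Pool.Agent.Lib.S5
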