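import Pool.Agent.Lib.S5.B_INQ
import Pool.Agent.Lib.S5.GBlue

/-! Project S5, row INA. -/

namespace Pool.Agent.Lib.S5

open Pool.Agent.Lib.NV5

theorem bINA (hT : Sb_TNS) (hK : Sb_KIT) (hF : Sb_FN) : St_INA := by
  intro n M _ ι _ _ D F _ _ Φ V m π r e t l ν q d C _ hKd hI hB hD h
  refine CR.inqG (q := q) (C := C) hT hK hF CR.cl_alt hKd hI hB hD (h.mono ?_)
  rintro a ⟨s, b, h1, h2, h3⟩
  exact ⟨s, b, h1, h3, h2⟩

end Pool.Agent.Lib.S5
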