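import Pool.Agent.Lib.S5.A35
import Pool.Agent.Lib.S5.R5Defs
import Pool.Agent.Lib.NV5.Exc4
import Pool.Agent.Lib.NV5.B_KIT
import Pool.Agent.Lib.NV6.R_OUT

/-! Project S5: bounded rank in the language of the manifold. -/

open scoped Classical
open Set

set_option linter.unusedSectionVars false

noncomputable section

namespace Pool.Agent.Lib.S5

open Pool.Agent.Lib.HS32 Pool.Agent.Lib.EX Pool.Agent.Lib.ZL
open Pool.Agent.Lib.NV5 (FM VF Hg dv)

variable {n : ℕ} {M : Mf n} {ι : Type} [Fintype ι] [DecidableEq ι] {D : Ad M ι}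
  {F : Type} [Field F] [Algebra ℂ F] {Φ : FM D F} {V : VF n F} {m : ι → V.P → ℤ} {π : Hg D → V.P}

theorem dv_two {P : Type} (m : ι → P → ℤ) (x y : ℕ) (l e : ι → ℤ) :
    x • dv m l + y • dv m e = dv m fun i => x * l i + y * e i := by
  funext p
  simp only [Pi.add_apply, Pi.smul_apply]
  simp only [NV5.dv, nsmul_eq_mul, Finset.mul_sum, ← Finset.sum_add_distrib]
  exact Finset.sum_congr rfl fun i _ => by ring

theorem dv_add {P : Type} (m : ι → P → ℤ) (l e : ι → ℤ) :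
    dv m l + dv m e = dv m fun i => l i + e i := by
  simpa using dv_two m 1 1 l e

theorem dv_mono (br : Φ.Br V m π) {P Q : ι → ℤ} (h : P ≤ Q) : dv m P ≤ dv m Q := fun p => by
  obtain ⟨x, rfl⟩ := br.sur p
  refine Finset.sum_le_sum fun i _ => mul_le_mul_of_nonneg_right (h i) ?_
  rcases ((br.vl x).mul i).1 with h1 | h1 <;> simp only [h1] <;> norm_num

theorem sec_mono (br : Φ.Br V m π) {P Q : ι → ℤ} (h : P ≤ Q) {f : F} (hf : V.Sec (dv m P) f) :
    V.Sec (dv m Q) f := fun p => (hf p).trans (WithZero.exp_le_exp.2 (dv_mono br h p))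

/-- The bridge for a Zariski decomposition `c l = ν + (c l - ν)`. -/
theorem wr_of (br : Φ.Br V m π) {l ν : ι → ℤ} {e : ι → ℕ} {c a b : ℕ}
    {k : IntermediateField ℂ F} {τ : F} (he : ∀ i, 0 < e i) (le : ∀ i, ν i ≤ c * l i)
    (zar : ∀ x : ℕ, ∃ R : ι → ℤ, ∀ (j : ℕ) U,
      Sp D (fun i => j * (c * l i) + x * e i) U → Sp D (fun i => j * ν i + R i) U)
    (h : Sv V (dv m l) (dv m fun i => e i) k a b τ) :
    R6.Wr V m k (fun i => a * ν i) (fun i => b * e i) (τ ^ c) := by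
  obtain ⟨r, c₁, b₁, y, η, η0, -, h⟩ := h
  obtain ⟨x, hx⟩ := R6.OUT.big e he (fun i => c₁ * l i + b₁ * e i) 0
  obtain ⟨R, hR⟩ := zar x
  refine ⟨r, y, η, dv m R, η0, br.fs _, fun i u hu => ?_⟩
  obtain ⟨g, g1, g2⟩ := h (c * i) u (by
    rw [dv_two]
    refine sec_mono br (fun s => ?_) hu
    have := mul_le_mul_of_nonneg_left (le s) (Int.natCast_nonneg (i * a))
    push_cast at this ⊢
    linarith)
  refine ⟨g, fun s => ⟨(g1 s).1, ?_⟩, by simpa only [pow_mul] using g2⟩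
  have h1 := (g1 s).2
  rw [dv_two, pow_mul] at h1
  obtain ⟨U, u1, u2⟩ := (br.sec _ _).1 (sec_mono br
    (Q := fun s => (i * a : ℕ) * (c * l s) + x * e s) (fun s => by
      have := (hx s).1
      push_cast
      linarith) h1)
  rw [dv_add]
  exact (br.sec _ _).2 ⟨U, by simpa only [Nat.cast_mul, mul_assoc] using hR _ U u1, u2⟩

theorem h0_mono (br : Φ.Br V m π) {P Q : ι → ℤ} (h : ∀ U, Sp D P U → Sp D Q U) :
    V.h0 (dv m P) ≤ NV2.h0 D Q := by
  have := (br.dim Q).1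
  rw [← (br.dim Q).2]
  refine Submodule.finrank_mono (Submodule.span_mono fun f hf => ?_)
  obtain ⟨s, s1, s2⟩ := (br.sec _ _).1 hf
  exact (br.sec _ _).2 ⟨s, h s s1, s2⟩

/-- The growth of the canonical class is the growth of its positive part. -/
theorem gw_of [M.Cpt] (br : Φ.Br V m π) {l ν : ι → ℤ} {e : ι → ℕ} {c d : ℕ} (he : ∀ i, 0 < e i)
    (c0 : 0 < c) (zar : ∀ x : ℕ, ∃ R : ι → ℤ, ∀ (j : ℕ) U,
      Sp D (fun i => j * (c * l i) + x * e i) U → Sp D (fun i => j * ν i + R i) U)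
    (h : ∀ b : ℕ, ∃ C : ℕ, ∀ j : ℕ, NV2.h0 D (fun i => j * ν i + b * e i) ≤ C * (j + 1) ^ d) :
    Gw V (dv m l) (dv m fun i => e i) d := by
  intro b
  obtain ⟨mono, -⟩ := NV5.bKIT n M ι D
  obtain ⟨x, hx⟩ := R6.OUT.big e he (fun i => c * |l i| + b * e i) 0
  obtain ⟨R, hR⟩ := zar x
  obtain ⟨y, hy⟩ := R6.OUT.big e he R 0
  obtain ⟨C, hC⟩ := h y
  refine ⟨C, fun j => ?_⟩
  rw [dv_two]
  refine (h0_mono br fun U hU => mono _ _ _ (fun i => add_le_add le_rfl (hy i).1)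
    (hR (j / c) U (mono _ _ _ (fun i => ?_) hU))).trans ((hC (j / c)).trans
      (Nat.mul_le_mul_left C (Nat.pow_le_pow_left (Nat.succ_le_succ (Nat.div_le_self j c)) d)))
  have h1 : (j : ℤ) = c * (j / c : ℕ) + (j % c : ℕ) := by exact_mod_cast (Nat.div_add_mod j c).symm
  have h2 : ((j % c : ℕ) : ℤ) ≤ c := by exact_mod_cast (Nat.mod_lt j c0).le
  have h3 := mul_le_mul_of_nonneg_left (le_abs_self (l i)) (Int.natCast_nonneg (j % c))
  have h4 := mul_le_mul_of_nonneg_right h2 (abs_nonneg (l i))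
  have h5 := (hx i).1
  show (j : ℤ) * l i + b * e i ≤ (j / c : ℕ) * (c * l i) + x * e i
  rw [h1]
  nlinarith

/-- Steps three to five on a resolution. -/
theorem b35 [M.Cpt] {X : Cx D} {r c' c d : ℕ} {t : Fin r → M.X → ℂ} {ν Q Q' : ι → ℤ} {S : Set ℕ}
    {f : ℕ → F} (C : NV5.Ctx4 X t c' c ν) (br : Φ.Br V m π)
    (hI : V.Inp (dv m X.l) (dv m fun i => X.e i) (dv m Q) S f)
    (hQ : Qu V (dv m X.l) (dv m fun i => X.e i) (dv m Q') d)
    (h : ∀ b : ℕ, ∃ C : ℕ, ∀ j : ℕ, NV2.h0 D (fun i => j * ν i + b * X.e i) ≤ C * (j + 1) ^ d) :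
    ∃ d z k a c₁ b τ, V.Pre (dv m X.l) (dv m fun i => X.e i) (dv m Q) d z k a c₁ b τ ∧
      V.One (dv m X.l) k ∧ R6.Wr V m k (fun i => a * ν i) (fun i => c' * X.e i) (τ ^ c) ∧
      ∀ j : ℕ, Gens D fun i => j * (a * ν i) + c' * X.e i := by
  obtain ⟨x, hx⟩ := R6.OUT.big X.e C.epos Q' 0
  obtain ⟨d, z, k, a, c₁, b, τ, hP, h1, h2⟩ := a35 (b₀ := x) (br.fs _)
    (by
      have := dv_mono br (P := 0) (Q := fun i => X.e i) fun i => Int.natCast_nonneg _
      exact fun p => le_of_eq_of_le (by simp [NV5.dv]) (this p))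
    (fun a b => by rw [dv_two]; exact (br.dim _).1) hI
    (by
      have e := dv_two m 0 x X.l fun i => X.e i
      rw [zero_smul, zero_add] at e
      rw [e]
      exact dv_mono br fun i => by simpa using (hx i).1) hQ (gw_of br C.epos C.cpos C.zar h)
  exact ⟨d, z, k, a, c₁, b, τ, hP, h1, wr_of br C.epos C.le C.zar (h2 c'), fun j => by
    simpa only [Nat.cast_mul, mul_assoc] using C.gen (j * a)⟩

end Pool.Agent.Lib.S5
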