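import Pool.Agent.Lib.S5.GBlue
import Pool.Agent.Lib.S5.A3Q
import Pool.Agent.Lib.S5.B_WR
import Pool.Agent.Lib.NV6.G_DOM
import Pool.Agent.Lib.NV5.B_FN

/-! Project S5, row MID: the steps three to five for a Zariski pair. -/

open scoped Classical
open Set

set_option linter.unusedSectionVars false

noncomputable section

namespace Pool.Agent.Lib.S5

open Pool.Agent.Lib.HS32 Pool.Agent.Lib.EX Pool.Agent.Lib.ZL
open Pool.Agent.Lib.NV5 (FM VF Hg dv)

namespace MID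

variable {n : ℕ} {M : Mf n} {ι : Type} [Fintype ι] [DecidableEq ι] {D : Ad M ι}
  {F : Type} [Field F] [Algebra ℂ F] {Φ : FM D F} {V : VF n F} {m : ι → V.P → ℤ} {π : Hg D → V.P}
  {p ν Q : ι → ℤ} {e : ι → ℕ}

theorem inq (br : Φ.Br V m π) (le : ν ≤ p) {A N : V.P → ℤ} {d C : ℕ} {S : Set ℕ}
    {U : ℕ → Submodule ℂ F} (I : Inq V (dv m ν) A N d C S U) : Inq V (dv m p) A N d C S U := by
  have h : ∀ (j : ℕ) (B : V.P → ℤ) f, V.Sec (j • dv m ν + B) f → V.Sec (j • dv m p + B) f :=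
    fun j B f hf q => (hf q).trans (WithZero.exp_le_exp.2
      (add_le_add (nsmul_le_nsmul_right (dv_mono br le q) j) le_rfl))
  refine ⟨I.inf, I.dim, fun k hk f hf => h _ _ _ (I.sec k hk f hf),
    fun k₁ h₁ k₂ h₂ k₃ h₃ k₄ h₄ f₁ g₁ f₂ g₂ f₃ g₃ f₄ g₄ n₃ n₄ x y hxy => ?_⟩
  obtain ⟨c, b, hc⟩ := I.dom k₁ h₁ k₂ h₂ k₃ h₃ k₄ h₄ f₁ g₁ f₂ g₂ f₃ g₃ f₄ g₄ n₃ n₄ x y hxy
  exact ⟨c, b, fun j => (hc j).imp fun w hw => ⟨hw.1, fun i hi => h _ _ _ (hw.2 i hi)⟩⟩

theorem zar (br : Φ.Br V m π) (he : ∀ i, 0 < e i) (Z : Zr D p ν e) (a x y : ℕ) : ∃ R : ι → ℤ,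
    ∀ (j : ℕ) f, V.Sec ((j * a) • dv m p + (x • dv m p + y • dv m Q)) f →
      V.Sec (dv m fun i => j * (a * ν i) + R i) f := by
  obtain ⟨w, hw⟩ := R6.OUT.big e he (fun i => x * p i + y * Q i) 0
  obtain ⟨R, hR⟩ := Z.2 w
  refine ⟨R, fun j f hf => ?_⟩
  rw [dv_two, ← one_smul ℕ (dv m fun i => x * p i + y * Q i), dv_two] at hf
  obtain ⟨U, u1, u2⟩ := (br.sec _ _).1 (sec_mono br
    (Q := fun i => (j * a : ℕ) * p i + w * e i) (fun i => by
      have := (hw i).1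
      push_cast at this ⊢
      linarith) hf)
  exact (br.sec _ _).2 ⟨U, by simpa only [Nat.cast_mul, mul_assoc] using hR _ U u1, u2⟩

end MID

open MID in
theorem bMID : St_MID := by
  intro n M _ ι _ _ D F _ _ Φ V m π e p ν Q d C S U he br Z I
  have J := inq br Z.1 I
  obtain ⟨d', z, k, a, c, b, τ, hP, hO, hk, x, t, t0, C₁, hQ⟩ := fiq (br.fs p) J
  have Z1 : ∀ x : ℕ, ∃ R : ι → ℤ, ∀ (j : ℕ) U,
      Sp D (fun i => j * ((1 : ℕ) * p i) + x * e i) U → Sp D (fun i => j * ν i + R i) U := by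
    simpa only [Nat.cast_one, one_mul] using Z.2
  refine ⟨k, a, τ, hP.a0, ⟨hP.τ0, ?_, fun j hj f hf => ?_⟩, fun T _ P h a₀ sp h0 hk => ?_, ?_,
    fun hG b' => ?_⟩
  · obtain ⟨s, hs, x, y, hi⟩ := hP.psf
    obtain ⟨R, hR⟩ := zar (Q := Q) br he Z a x y
    exact ⟨s, hs, R, hi.mono fun j hj => hj.imp fun g hg => ⟨hg.1, hg.2.1, hR j _ hg.2.2⟩⟩
  · refine hO (j * a) _ f (fun q hq => ?_) (fun q hq => (hf q hq).trans ?_) (pow_ne_zero _ hP.τ0)
    · rw [map_pow]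
      refine (pow_le_pow_left₀ zero_le (hP.sec q hq) _).trans_eq ?_
      rw [← WithZero.exp_nsmul, mul_smul j]
      rfl
    · have h0 := dv_two m (j * a) 0 p p
      rw [zero_smul, add_zero] at h0
      rw [h0]
      refine WithZero.exp_le_exp.2 (dv_mono br (fun i => ?_) q)
      have h1 : (1 : ℤ) ≤ j * a := by exact_mod_cast Nat.mul_pos hj hP.a0
      have h2 := mul_le_mul_of_nonneg_left (Z.1 i) (sub_nonneg.2 h1)
      push_cast
      linarith
  · have a0 : (a : ℝ) ≠ 0 := Nat.cast_ne_zero.2 hP.a0.ne'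
    obtain ⟨c', hc⟩ := NV6.gDOM NV5.bKIT (NV5.bFN NV5.bKIT) br hP
      (h := fun i => h ((Fintype.equivFin T).symm i)) (fun i => sp _) (Fintype.equivFin T a₀)
      (by rw [Equiv.symm_apply_apply]; exact h0)
      (fun i => by rw [Equiv.symm_apply_apply]; exact hk _)
    obtain ⟨R, hR⟩ := Z.2 b
    refine ⟨c' / a, fun i => c' * ν i, fun i => max (R i) 0, by positivity, fun i => ?_,
      fun i => le_max_right _ _, fun j => ?_⟩
    · push_cast
      field_simp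
    · obtain ⟨s, s1, s2, s3⟩ := hc j
      refine ⟨fun t => s (Fintype.equivFin T t), fun t => (NV5.bKIT n M ι D).1 _ _ _
        (fun i => add_le_add (by push_cast; rw [mul_assoc]) (le_max_left _ _))
        (hR (j * c') _ (by simpa only [Nat.cast_mul, mul_assoc] using s1 _)), s2, fun t x => ?_⟩
      have := s3 (Fintype.equivFin T t) x
      rwa [Equiv.symm_apply_apply, Equiv.symm_apply_apply] at this
  · obtain ⟨R, hR⟩ := zar (Q := Q) br he Z a x 1
    refine ⟨R, t, t0, C₁, hQ.mono fun j => ?_⟩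
    rintro ⟨s, g, h1, h2, h3⟩
    refine ⟨s, g, h1, h2, fun β => ⟨(h3 β).1, ?_⟩⟩
    rw [← one_smul ℕ (dv m R), dv_two]
    simpa only [Nat.cast_one, one_mul] using hR j _ (by rw [one_smul, mul_smul]; exact (h3 β).2)
  · obtain ⟨y, hy⟩ := R6.OUT.big e he Q 0
    have e0 := dv_two m 0 y p fun i => e i
    rw [zero_smul, zero_add] at e0
    have hA : 0 ≤ dv m fun i => (e i : ℤ) := fun q => le_of_eq_of_le (by simp [NV5.dv])
      (dv_mono br (P := 0) (Q := fun i => e i) (fun i => Int.natCast_nonneg _) q)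
    simpa only [pow_one] using wr_of (c := 1) br he (by simpa using Z.1) Z1 (wr2 hA hP
      (bnd (b₀ := y) (br.fs _) (fun a b => by rw [dv_two]; exact (br.dim _).1) hP hk
        (by rw [e0]; exact dv_mono br fun i => by simpa using (hy i).1) J.qu
        (gw_of br he one_pos Z1 hG) b'))

end Pool.Agent.Lib.S5
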