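import Pool.Agent.Lib.S5.B_NVQ
import Pool.Agent.Lib.S5.GBlue

/-! Project S5, row NVA. -/

namespace Pool.Agent.Lib.S5

theorem bNVA : St_NVA := fun _ _ _ _ _ _ _ X _ c Q ν t hq hK hI hα hZ hG a P hP =>
  nvqA X c Q ν t hq hK hI hα hZ hG a P hP

end Pool.Agent.Lib.S5
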