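import Pool.Agent.Lib.S5.G8
import Pool.Agent.Lib.NV6.G_RHO

/-! Project S5: the limit weight and the estimate on the model for a pair with boundary. -/

open scoped Classical Topology ContDiff ENNReal
open Set MeasureTheory Complex Metric Filter

set_option linter.unusedSectionVars false

noncomputable section

namespace Pool.Agent.Lib.S5.P

open Pool.Agent.Lib.SV (E nsq nsq_nonneg)
open Pool.Agent.Lib.HS32 Pool.Agent.Lib.EX Pool.Agent.Lib.EXS Pool.Agent.Lib.ZL Pool.Agent.Lib.NV6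
open Pool.Agent.Lib.EXS.K32
open Pool.Agent.Lib.ZQ (HqO offz)
open Pool.Agent.Lib.ZQ.Sg (aem cont_on)
open Pool.Agent.Lib.NV6.J (Ho Ps)
open Pool.Agent.Lib.S3K (sku)
open Pool.Agent.Lib.S3K.SKU (S)

theorem yng {s : ℝ} (s0 : 0 ≤ s) {k : ℕ} (k0 : 0 < k) (v w : ℝ) :
    (ENNReal.ofReal s)⁻¹ * ENNReal.ofReal (Real.exp (w + v)) ≤
      (ENNReal.ofReal (s ^ (k + 1)))⁻¹ * ENNReal.ofReal (Real.exp w) +
        ENNReal.ofReal (Real.exp (w + (1 + 1 / k) * v)) := by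
  rcases s0.eq_or_lt with rfl | s1
  · rw [zero_pow k.succ_ne_zero, ENNReal.ofReal_zero, ENNReal.inv_zero,
      ENNReal.top_mul (ENNReal.ofReal_pos.2 (Real.exp_pos w)).ne', top_add]
    exact le_top
  have k1 : (0 : ℝ) < k := Nat.cast_pos.2 k0
  rw [← ENNReal.ofReal_inv_of_pos s1, ← ENNReal.ofReal_inv_of_pos (pow_pos s1 _),
    ← ENNReal.ofReal_mul (by positivity), ← ENNReal.ofReal_mul (by positivity),
    ← Real.exp_log s1, ← Real.exp_nat_mul, ← Real.exp_neg, ← Real.exp_neg, ← Real.exp_add,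
    ← Real.exp_add]
  generalize Real.log s = u
  rcases le_total v (-(k * u)) with h | h
  · refine le_add_right (ENNReal.ofReal_le_ofReal (Real.exp_le_exp.2 ?_))
    push_cast
    linarith
  · refine le_add_left (ENNReal.ofReal_le_ofReal (Real.exp_le_exp.2 ?_))
    have : -u ≤ 1 / k * v := by
      rw [one_div, le_inv_mul_iff₀ k1]
      linarith
    linarith

section rho

variable {n : ℕ} {M : Mf n} [M.Cpt] {ι : Type} [Fintype ι] [DecidableEq ι] {D : Ad M ι}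
  {κ : Type} [Fintype κ]

/-- Uniform integrability against a weight with poles of order less than one. -/
theorem skb (X : Cx D) {β : ι → ℝ} (hβ : ∀ i, β i < X.o i + 1) {H : M.Fam (Mat n)} (hH : M.Met H)
    (A : ℝ) : ∃ a C : ℝ, 0 < a ∧
    ∀ (N t : ℝ) (P : ι → ℤ) (κ : Type) [Fintype κ] (F : κ → M.X → ℂ), 0 < N → 0 ≤ t →
      t * N ≤ a → (∀ i, |(P i : ℝ)| ≤ A * N) → (∀ b, Mer D P (F b)) →
      (∃ x ∈ off D, Real.exp (-N) ≤ S D P F x) → ∫⁻ x, (ENNReal.ofReal (S D P F x ^ t))⁻¹ *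
        ENNReal.ofReal (Real.exp (-lw D β x)) ∂X.μ ≤ ENNReal.ofReal C := by
  obtain ⟨a, C, a0, hC⟩ := sku bPW X hH A
  obtain ⟨-, -, la, -, ls, ln, -⟩ := bPW n M ι D
  obtain ⟨ae, hm, -, hI, -⟩ := bMU bPW n M ι D X
  obtain ⟨k, k0, hk⟩ : ∃ k : ℕ, 0 < k ∧ ∀ i, (1 + 1 / k : ℝ) * (β i - X.o i) < 1 := by
    have : ∀ᶠ k : ℕ in atTop, ∀ i, (1 + 1 / k : ℝ) * (β i - X.o i) < 1 :=
      eventually_all.2 fun i => ((tendsto_one_div_atTop_nhds_zero_nat.const_add 1).mul_const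
        (β i - X.o i)).eventually_lt_const (by linarith [hβ i])
    exact ((eventually_gt_atTop 0).and this).exists
  have fin := hI (-X.o + (1 + 1 / k : ℝ) • (X.o + -β)) fun i => by
    have := hk i
    simp only [Pi.add_apply, Pi.neg_apply, Pi.smul_apply, smul_eq_mul]
    linarith
  have cl : ∀ γ, ContinuousOn (lw D γ) (off D) := fun γ =>
    (bPW n M ι D).2.2.2.2.2.2.2.2.2.1 ℝ _ (PW.lw_sm D _)
  refine ⟨a / (k + 1), |C| + (X.I fun x =>
    Real.exp (lw D (-X.o + (1 + 1 / k : ℝ) • (X.o + -β)) x)).toReal, by positivity,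
    fun N t P κ _ F N0 t0 ht hP hF hx => ?_⟩
  have h1 := hC N (t * (k + 1 : ℕ)) P κ F N0 (by positivity) (by
    rw [le_div_iff₀ (by positivity)] at ht
    push_cast
    linarith) hP hF hx
  rw [ENNReal.ofReal_add (abs_nonneg C) ENNReal.toReal_nonneg, ENNReal.ofReal_toReal fin]
  refine le_trans ?_ (add_le_add (h1.trans (ENNReal.ofReal_le_ofReal (le_abs_self C))) le_rfl)
  rw [Cx.I, ← lintegral_add_right' _ (hm ℝ _ (cl _).rexp).ennreal_ofReal]
  refine lintegral_mono fun x => ?_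
  have := yng (Real.rpow_nonneg (S3K.SKU.S_nn D P F x) t) k0 (lw D X.o x + -lw D β x) (-lw D X.o x)
  rw [neg_add_cancel_left, ← Real.rpow_natCast, ← Real.rpow_mul (S3K.SKU.S_nn D P F x)] at this
  beta_reduce
  rw [la, ls, la, ln, ln]
  exact this

open NV6.RHO in
/-- The limit weight. -/
theorem gRHO (hK : J.St_KIT) (X : Cx D) {β : ι → ℝ} (hβ : ∀ i, β i < X.o i + 1)
    {H : M.Fam (Mat n)} (hH : M.Met H) {K : ℝ≥0∞}
    (K0 : K ≠ 0) (K1 : K ≠ ⊤) {O : Set M.X} (hO : IsOpen O) (hs : O ⊆ off D)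
    (ae : ∀ᵐ x ∂X.μ, x ∈ O) (hq : HqO K D X.μ O) {h : κ → M.X → ℂ} (hh : ∀ a, J.Ho D O (h a))
    (a₀ : κ) (h0 : ∀ x ∈ O, h a₀ x ≠ 0) {Λ B : ι → ℤ} (B0 : 0 ≤ B)
    (dom : ∀ j : ℕ, ∃ s : κ → M.X → ℂ, (∀ a, Sp D (fun i => j * Λ i + B i) (s a)) ∧ s a₀ ≠ 0 ∧
      ∀ a, ∀ x ∈ O, s a x * h a₀ x ^ j = s a₀ x * h a x ^ j) :
    ∃ θ₀ > (0 : ℝ), ∀ θ ∈ Ioc 0 θ₀, ∃ ρ : M.X → ℝ≥0∞, AEMeasurable ρ X.μ ∧
      HqO K D (X.μ.withDensity ρ) O ∧
      (∃ c > (0 : ℝ), ∀ x ∈ O, ENNReal.ofReal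
        (c * Real.exp (θ * lw D (fun i => Λ i) x) * nsq (h · x) ^ θ) ≤ ρ x) ∧
      ∫⁻ x, ρ x * ENNReal.ofReal (Real.exp (-(θ * lw D (fun i => Λ i) x)) / nsq (h · x) ^ θ *
        Real.exp (-lw D β x)) ∂X.μ ≠ ⊤ := by
  obtain ⟨-, -, la, -, ls, ln, lm, -⟩ := bPW n M ι D
  obtain ⟨-, k2, k3, k4, k5, -, k7, k8, -, k10, k11, k12, k13, -⟩ := hK n M ι D X O hO hs ae
  obtain ⟨θ₀, C, θ0, hC⟩ := skb X hβ hH (∑ i, (|(Λ i : ℝ)| + |(B i : ℝ)|))
  refine ⟨θ₀, θ0, fun θ hθ => ?_⟩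
  choose s s1 s2 s3 using dom
  choose c c1 c2 using fun j : ℕ => nrm (s1 (j + 1)) (s2 (j + 1)) (N := j + 1) (by positivity)
  have n0 : ∀ x ∈ O, 0 < normSq (h a₀ x) := fun x hx => normSq_pos.2 (h0 x hx)
  have n1 : ∀ x a, normSq (h a x) ≤ nsq (h · x) := fun x a =>
    Finset.single_le_sum (f := fun a => normSq (h a x)) (fun _ _ => normSq_nonneg _)
      (Finset.mem_univ a)
  have n2 : ∀ x ∈ O, 0 < nsq (h · x) := fun x hx => (n0 x hx).trans_le (n1 x a₀)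
  set G : ℕ → M.X → ℂ := fun j x => c j * s (j + 1) a₀ x / h a₀ x ^ (j + 1) with hG
  have eS : ∀ j, ∀ x ∈ O, S D (fun i => (j + 1 : ℕ) * Λ i + B i) (fun a => c j • s (j + 1) a) x =
      normSq (G j x) * (∑ a, normSq (h a x) ^ (j + 1)) *
        Real.exp ((j + 1) * lw D (fun i => Λ i) x + lw D (fun i => B i) x) := fun j x hx => by
    rw [S, nsq, Finset.mul_sum, ← smul_eq_mul, ← smul_eq_mul ((j : ℝ) + 1), smul_eq_mul,
      smul_eq_mul, ← ls, ← la]
    congr 1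
    · refine Finset.sum_congr rfl fun a _ => ?_
      rw [← map_pow, ← map_mul, hG]
      congr 1
      have := pow_ne_zero (j + 1) (h0 x hx)
      rw [div_mul_eq_mul_div, eq_div_iff this, Pi.smul_apply, smul_eq_mul, mul_assoc, mul_assoc,
        s3 _ a x hx]
    · congr 2
      funext i
      simp
  obtain ⟨C₁, C1, p1⟩ := bLWC bTRF n M ι D X (-fun i => θ * (|(Λ i : ℝ)| + |(B i : ℝ)|))
  obtain ⟨C₂, hC₂⟩ := X.αb
  have l0 : ∀ (a : ι → ℝ) x, 0 ≤ a → lw D a x ≤ 0 := fun a x h =>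
    (lm 0 a h x).trans_eq (by simp [lw])
  have hg : ∀ j, J.Ho D O (G j) := fun j => (k4 _ _ ((k4 _ _ (k3 _) (k2 _ _ (s1 _ _)).1).2.2.1)
    ((k4 _ _ (hh a₀) (hh a₀)).2.2.2.1 _)).2.2.2.2 fun x hx => pow_ne_zero _ (h0 x hx)
  have t0 : ∀ j : ℕ, 0 ≤ θ / (j + 1) := fun j => div_nonneg hθ.1.le (by positivity)
  have t1 : ∀ j : ℕ, θ / (j + 1) ≤ θ := fun j => div_le_self hθ.1.le (by simp)
  obtain ⟨r1, r2⟩ := ZQ.hqS K0 K1 hO hs X.eta
    (fun b z hz => ⟨(X.whol b z hz).continuousAt, X.wne b z hz⟩) ae hq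
    (σ := fun x => (C₁ * X.α x + lw D (-fun i => θ * (|(Λ i : ℝ)| + |(B i : ℝ)|)) x +
      θ * Real.log (normSq (1 / h a₀ x))) + C₁ * C₂)
    (k10 _ _ (k10 _ _ (k8 _ p1) (k11 _ _ hθ.1.le ((k7 _ ((k4 _ _ (k3 1) (hh a₀)).2.2.2.2 h0)).2
      fun x hx => one_div_ne_zero (h0 x hx))))
      fun d z _ _ => ⟨contDiffAt_const, fun v => (K32.lv_const _ v).ge⟩)
    hg t0 fun j x hx => by
      have a1 := c1 j x (hs hx)
      rw [eS j x hx] at a1
      refine (pw (normSq_nonneg _) (n0 x hx) hθ.1.le (le_trans (mul_le_mul_of_nonneg_right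
        (mul_le_mul_of_nonneg_left (Finset.single_le_sum (f := fun a => normSq (h a x) ^ (j + 1))
          (fun _ _ => pow_nonneg (normSq_nonneg _) _) (Finset.mem_univ a₀)) (normSq_nonneg _))
        (Real.exp_pos _).le) a1)).trans ?_
      rw [Real.rpow_def_of_pos (n0 x hx), ← Real.exp_sub, Real.exp_le_exp, map_div₀, map_one,
        one_div, Real.log_inv, ln]
      have a2 := lm (θ • (fun i => (Λ i : ℝ)) + (θ / (j + 1)) • fun i => (B i : ℝ))
        (fun i => θ * (|(Λ i : ℝ)| + |(B i : ℝ)|)) (fun i => by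
          have b1 := mul_le_mul_of_nonneg_left (le_abs_self (Λ i : ℝ)) hθ.1.le
          have b2 := mul_le_mul (t1 j) (le_abs_self (B i : ℝ)) (by exact_mod_cast B0 i) hθ.1.le
          simp only [Pi.add_apply, Pi.smul_apply, smul_eq_mul]
          linarith) x
      rw [la, ls, ls] at a2
      have a3 := (abs_le.1 (hC₂ x (hs hx))).1
      have a4 := l0 (fun i => X.e i) x fun i => Nat.cast_nonneg _
      have a5 : 0 ≤ C₁ * (X.α x + C₂) := mul_nonneg C1 (by linarith)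
      linarith
  have : Nonempty κ := ⟨a₀⟩
  have q1 : (1 : ℝ) ≤ Fintype.card κ := by exact_mod_cast Fintype.card_pos
  refine ⟨_, r1, r2, ⟨((Fintype.card κ : ℝ) ^ θ)⁻¹, by positivity, fun x hx => ?_⟩, ?_⟩
  · have lim : Tendsto (fun j : ℕ => ENNReal.ofReal ((nsq (h · x) / Fintype.card κ) ^ θ /
        Real.exp (-(θ * lw D (fun i => Λ i) x) - θ / (j + 1) * lw D (fun i => B i) x))) atTop
        (𝓝 (ENNReal.ofReal ((nsq (h · x) / Fintype.card κ) ^ θ /
          Real.exp (-(θ * lw D (fun i => Λ i) x) - 0 * lw D (fun i => B i) x)))) :=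
      ENNReal.tendsto_ofReal (tendsto_const_nhds.div (Real.continuous_exp.tendsto _ |>.comp
        (tendsto_const_nhds.sub ((tendsto_const_nhds.div_atTop (tendsto_atTop_add_const_right _ _
          tendsto_natCast_atTop_atTop)).mul_const _))) (Real.exp_pos _).ne')
    have v0 : 0 < nsq (h · x) / Fintype.card κ := div_pos (n2 x hx) (by linarith)
    refine le_trans (le_of_eq ?_) (lim.liminf_eq.ge.trans
      (liminf_le_liminf (Eventually.of_forall fun j => ?_)))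
    · rw [zero_mul, sub_zero, Real.exp_neg, Real.div_rpow (n2 x hx).le (by linarith)]
      congr 1
      field_simp
    · have a1 := c1 j x (hs hx)
      rw [eS j x hx] at a1
      have a2 : (nsq (h · x) / Fintype.card κ) ^ (j + 1) ≤ ∑ a, normSq (h a x) ^ (j + 1) := by
        rw [div_pow, div_le_iff₀' (by positivity)]
        exact (pow_sum_le_card_mul_sum_pow (fun _ _ => normSq_nonneg _) j).trans
          (mul_le_mul_of_nonneg_right (pow_le_pow_right₀ q1 j.le_succ)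
            (Finset.sum_nonneg fun _ _ => pow_nonneg (normSq_nonneg _) _))
      have a3 := pw (normSq_nonneg _) v0 hθ.1.le (le_trans (mul_le_mul_of_nonneg_right
        (mul_le_mul_of_nonneg_left a2 (normSq_nonneg _)) (Real.exp_pos _).le) a1)
      rw [← inv_div, ENNReal.ofReal_inv_of_pos (by positivity)]
      exact ENNReal.inv_le_inv.2 (ENNReal.ofReal_le_ofReal a3)
  · refine ne_top_of_le_ne_top (ENNReal.ofReal_ne_top (r := C)) (le_trans (lintegral_mono_ae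
      (g := fun x => liminf (fun j : ℕ => (ENNReal.ofReal (S D (fun i => (j + 1 : ℕ) * Λ i + B i)
        (fun a => c j • s (j + 1) a) x ^ (θ / (j + 1))))⁻¹ *
        ENNReal.ofReal (Real.exp (-lw D β x))) atTop) (ae.mono fun x hx => ?_))
      ((lintegral_liminf_le' fun j => ?_).trans (liminf_le_of_frequently_le'
        (Frequently.of_forall fun j => ?_))))
    · rw [mul_comm, ← ENNReal.liminf_mul_const_of_ne_top ENNReal.ofReal_ne_top]
      refine liminf_le_liminf (Eventually.of_forall fun j => ?_)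
      have v0 := n2 x hx
      rw [ENNReal.ofReal_mul (by positivity), ← mul_assoc]
      refine mul_le_mul_left (ENNReal.le_inv_iff_mul_le.2 ?_) _
      rw [mul_assoc, ← ENNReal.ofReal_mul (by positivity), mul_comm (_ / _)]
      refine (mul_le_mul_right (ENNReal.ofReal_le_ofReal (pw' (normSq_nonneg _) v0 hθ.1.le
        (S3K.SKU.S_nn ..) (l0 (fun i => B i) x fun i => Int.cast_nonneg (B0 i)) ?_)) _).trans
        (ENNReal.inv_mul_le_one _)
      rw [eS j x hx]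
      refine mul_le_mul_of_nonneg_right (mul_le_mul_of_nonneg_left ?_ (normSq_nonneg _))
        (Real.exp_pos _).le
      rw [pow_succ, nsq, Finset.mul_sum]
      exact Finset.sum_le_sum fun a _ => (pow_succ _ _).trans_le (mul_le_mul_of_nonneg_right
        (pow_le_pow_left₀ (normSq_nonneg _) (n1 x a) j) (normSq_nonneg _))
    · exact (k13 ℝ _ (((k5 κ _ fun a => (k4 _ _ (k3 (c j)) (k2 _ _ (s1 _ a)).1).2.2.1).2.2.mul
        (k12 _).rexp).rpow_const fun _ _ => Or.inr (t0 j))).ennreal_ofReal.inv.mul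
        (k13 ℝ _ (k12 _).neg.rexp).ennreal_ofReal
    · refine hC (j + 1) _ _ κ _ (by positivity) (t0 j) ?_ (fun i => ?_) (fun a => ?_) (c2 j)
      · rw [div_mul_cancel₀ _ (by positivity)]
        exact hθ.2
      · push_cast
        refine (abs_add_le _ _).trans (le_trans ?_ (mul_le_mul_of_nonneg_right
          (Finset.single_le_sum (f := fun i => |(Λ i : ℝ)| + |(B i : ℝ)|)
            (fun _ _ => by positivity) (Finset.mem_univ i)) (by positivity)))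
        rw [abs_mul, abs_of_nonneg (by positivity : (0 : ℝ) ≤ j + 1)]
        nlinarith [abs_nonneg (B i : ℝ), (Nat.cast_nonneg j : (0 : ℝ) ≤ j)]
      · exact ((bUPB bPW n M ι D _).2.1 _ _ (c j) (s1 _ a).1 (s1 _ a).1).2.2

end rho

/-- The estimate on the model. -/
def St_GDV : Prop := ∀ (n : ℕ) (M : Mf n) [M.Cpt] (ι : Type) [Fintype ι] [DecidableEq ι]
  (D : Ad M ι) (X : Cx D) (I J : Type) [Fintype I] [Fintype J] (Z : Set (I × J → ℂ))
  (g : M.X → ℂ) (a : I → M.X → ℂ) (b : J → M.X → ℂ) (p : M.X → Sph Z) (ρ : M.X → ℝ≥0∞)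
  (L κ : ι → ℤ) (Λ β₀ : ι → ℝ) (x θ : ℝ), HoO D g → (∃ y ∈ off D, g y ≠ 0) →
  (∀ᵐ y ∂X.μ, y ∈ offz D g) → Mp D (offz D g) Z a b p → 0 ≤ x → AEMeasurable ρ X.μ →
  HqO 1 D (X.μ.withDensity ρ) (offz D g) →
  (∃ c > (0 : ℝ), ∀ y ∈ offz D g, ENNReal.ofReal
    (c * Real.exp (θ * lw D Λ y) * (nsq (a · y) * nsq (b · y)) ^ θ) ≤ ρ y) →
  ∫⁻ y, ρ y * ENNReal.ofReal (Real.exp (-(θ * lw D Λ y)) / (nsq (a · y) * nsq (b · y)) ^ θ *
    Real.exp (-lw D β₀ y)) ∂X.μ ≠ ⊤ →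
  (∃ C, ∀ y ∈ offz D g, nsq (a · y) ≤ C * Real.exp (-lw D (fun i => L i) y) * nsq (b · y)) →
  (∀ i, x * L i ≤ θ * Λ i + β₀ i) → (∀ i, θ * Λ i + X.o i ≤ x * L i + κ i) →
  (∀ j : ℕ, 0 < j → ∀ s, Sp D (fun i => j * L i + κ i) s →
    ∃ S, Sec Z j 0 S ∧ ∀ y ∈ offz D g, s y = S ((a · y), (b · y))) →
  ∃ ν : ProbabilityMeasure (Sph Z), GoodV Z 1 ν x θ (fun j => {S | Sec Z j 0 S}) ∧
    Vs Z ν (fun j => {S | Sec Z j 0 S}) ∧
    (∃ c : ℝ≥0∞, c ≠ 0 ∧ c ≠ ⊤ ∧ ∀ f : Sph Z → ℝ≥0∞, Measurable f →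
      ∫⁻ y, ρ y * ENNReal.ofReal ((nsq (a · y) / nsq (b · y)) ^ x *
        (nsq (a · y) * nsq (b · y)) ^ (-θ)) * f (p y) ∂X.μ = c * ∫⁻ u, f u ∂ν) ∧
    ∀ (j : ℕ) S, Sec Z j 0 S →
      ∃ s, Sp D (fun i => j * L i) s ∧ ∀ y ∈ offz D g, s y = S ((a · y), (b · y))

theorem gGDV (hW : St_PW) (hM : ZL.St_MU) (hU : St_UPB) (hG : St_POG) (hC : NV2.St_CHN)
    (hS : St_SEC) (hP : St_SPH) (hA : St_ADM) (hL : St_PUL) : St_GDV := by
  intro n M _ ι _ _ D X I J _ _ Z g a b p ρ L κ Λ β₀ x θ hg g0 ae mp x0 mρ H ⟨c, c0, lo⟩ fin ⟨C, r1⟩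
    h1 h2 hs
  have := hP.cpt mp.cone
  obtain ⟨y₀, hy₀⟩ := id g0
  obtain ⟨-, -, w1, -, w2, -, w3, -⟩ := hW n M ι D
  have μ0 : X.μ ≠ 0 := fun h => by
    obtain ⟨d, -⟩ := ex_ch D y₀
    obtain ⟨B, hB⟩ := (hM n M ι D X).2.2.2.2 1 one_lt_two 0
    have := hB 0 (fun _ => 1) d fun _ => abs_zero.le
    rw [Cx.I, h, lintegral_zero_measure, mul_zero] at this
    simp [Ad.rd, xr, (measure_closedBall_pos volume (0 : E n) one_pos).ne'] at this
  have pH : ∀ y ∈ offz D g, 0 < nsq (a · y) * nsq (b · y) := fun y hy =>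
    mul_pos (mp.eq y hy).1 (mp.eq y hy).2.1
  have pT : ∀ y ∈ offz D g, 0 < nsq (a · y) / nsq (b · y) := fun y hy =>
    div_pos (mp.eq y hy).1 (mp.eq y hy).2.1
  have r2 : ∀ y ∈ offz D g, nsq (a · y) / nsq (b · y) ≤
      C * Real.exp (-lw D (fun i => L i) y) := fun y hy =>
    (div_le_iff₀ (mp.eq y hy).2.1).2 (r1 y hy)
  have ac : X.μ ≪ X.μ.withDensity ρ := withDensity_absolutelyContinuous' mρ (ae.mono fun y hy =>
    ((ENNReal.ofReal_pos.2 (mul_pos (mul_pos c0 (Real.exp_pos _))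
      (Real.rpow_pos_of_pos (pH y hy) θ))).trans_le (lo y hy)).ne')
  have cn : ∀ {σ : Type} [Fintype σ] {f : σ → M.X → ℂ}, (∀ i, Ho D (offz D g) (f i)) →
      ContinuousOn (fun y => nsq (f · y)) (offz D g) := fun h =>
    continuousOn_finsetSum _ fun i _ => continuous_normSq.comp_continuousOn
      (cont_on fun d z hz hw => (h i d z hz hw).self_of_nhds.continuousAt)
  have C0 : 0 < C := pos_of_mul_pos_left ((pT y₀ hy₀).trans_le (r2 y₀ hy₀)) (Real.exp_pos _).le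
  obtain ⟨σ, hσ⟩ : ∃ σ : M.X → ℝ, ∀ y, (nsq (a · y) / nsq (b · y)) ^ x *
    (nsq (a · y) * nsq (b · y)) ^ (-θ) = σ y := ⟨_, fun _ => rfl⟩
  have σ0 : ∀ y ∈ offz D g, 0 < σ y := fun y hy =>
    hσ y ▸ mul_pos (Real.rpow_pos_of_pos (pT y hy) _) (Real.rpow_pos_of_pos (pH y hy) _)
  have mσ : AEMeasurable (fun y => ENNReal.ofReal (σ y)) X.μ :=
    (aem mp.op ae (((((cn mp.ha).div (cn mp.hb) fun y hy =>
      (mp.eq y hy).2.1.ne').rpow_const (p := x) fun y hy => Or.inl (pT y hy).ne').mul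
      (((cn mp.ha).mul (cn mp.hb)).rpow_const (p := -θ) fun y hy =>
        Or.inl (pH y hy).ne')).congr fun y _ => (hσ y).symm)).ennreal_ofReal
  have mw := mρ.mul mσ
  have mp' := aem mp.op ae mp.ct
  have ac' := withDensity_absolutelyContinuous X.μ (ρ * fun y => ENNReal.ofReal (σ y))
  let m : Measure (Sph Z) := (X.μ.withDensity (ρ * fun y => ENNReal.ofReal (σ y))).map p
  have lm : ∀ f : Sph Z → ℝ≥0∞, Measurable f →
      ∫⁻ y, ρ y * ENNReal.ofReal (σ y) * f (p y) ∂X.μ = ∫⁻ u, f u ∂m := fun f hf => by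
    rw [lintegral_map' hf.aemeasurable (mp'.mono_ac ac')]
    exact (lintegral_withDensity_eq_lintegral_mul₀ mw (hf.comp_aemeasurable mp')).symm
  have : IsFiniteMeasure (X.μ.withDensity (ρ * fun y => ENNReal.ofReal (σ y))) := by
    refine isFiniteMeasure_withDensity (ne_top_of_le_ne_top (ENNReal.mul_ne_top
      (ENNReal.ofReal_ne_top (r := C ^ x)) fin) ?_)
    rw [← lintegral_const_mul' _ _ ENNReal.ofReal_ne_top]
    refine lintegral_mono_ae (ae.mono fun y hy => ?_)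
    rw [mul_left_comm, ← ENNReal.ofReal_mul (Real.rpow_nonneg C0.le _)]
    refine mul_le_mul_right (ENNReal.ofReal_le_ofReal ?_) _
    have a1 := w3 (x • fun i => (L i : ℝ)) (θ • Λ + β₀) h1 y
    rw [w1, w2, w2] at a1
    have a2 := Real.rpow_le_rpow (pT y hy).le (r2 y hy) x0
    rw [Real.mul_rpow C0.le (Real.exp_pos _).le, ← Real.exp_mul] at a2
    rw [← hσ, div_mul_eq_mul_div, ← Real.exp_add, div_eq_mul_inv (Real.exp _),
      ← Real.rpow_neg (pH y hy).le, ← mul_assoc]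
    exact mul_le_mul_of_nonneg_right (a2.trans (mul_le_mul_of_nonneg_left
      (Real.exp_le_exp.2 (by linarith)) (Real.rpow_nonneg C0.le _)))
      (Real.rpow_nonneg (pH y hy).le _)
  have : NeZero m := ⟨fun h => μ0 (Measure.absolutelyContinuous_zero_iff.1
    ((Measure.map_eq_zero_iff (mp'.mono_ac ac')).1 h ▸ withDensity_absolutelyContinuous' mw
      (ae.mono fun y hy => mul_ne_zero (((ENNReal.ofReal_pos.2 (mul_pos (mul_pos c0
        (Real.exp_pos _)) (Real.rpow_pos_of_pos (pH y hy) θ))).trans_le (lo y hy)).ne')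
        (ENNReal.ofReal_pos.2 (σ0 y hy)).ne')))⟩
  have pl := fun {j S} => G8.pull X hW hM hU hG hP hL hg g0 ae mp r2 (j := j) (S := S)
  have gd : GoodV Z 1 m x θ fun j => {S | Sec Z j 0 S} := by
    refine G8.good hS hP hA hL mp ((withDensity_absolutelyContinuous _ _).ae_le ae) H
      (fun f hf f0 G hG' => ?_) (fun N N0 hN wt c' mw c1 h3 F f1 f2 => ?_) ⟨y₀, hy₀⟩
    · have mf := hf.measurable.ennreal_ofReal
      rw [ofReal_integral_eq_lintegral_ofReal (S3K.intc hf _) (ae_of_all _ f0), ← lm _ mf,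
        lintegral_congr_ae (g := fun y => ENNReal.ofReal (σ y) * ENNReal.ofReal (f (p y)))
          (Eventually.mono ((withDensity_absolutelyContinuous _ _).ae_le ae) fun y hy => by
            beta_reduce
            rw [hG' y hy, ← ENNReal.ofReal_mul (σ0 y hy).le, ← hσ,
              Real.rpow_def_of_pos (pT y hy), Real.rpow_def_of_pos (pH y hy), ← Real.exp_add]
            exact congrArg (fun t => ENNReal.ofReal (Real.exp t * f (p y))) (by ring))]
      exact (lintegral_withDensity_eq_lintegral_mul₀ mρ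
        (mσ.mul (mf.comp_aemeasurable mp'))).trans (lintegral_congr fun y => (mul_assoc _ _ _).symm)
    · obtain ⟨s, s1, s2⟩ := extV X hW hM hU hG hg g0 ae mρ (mw.mono_ac ac)
        (Q := fun i => N * L i + κ i) c0 c1 (sub_nonneg.2 hN) (fun y hy => ⟨pT y hy, pH y hy⟩) lo
        r2 h3 (fun i => by push_cast; linarith [h2 i]) f1 f2
      obtain ⟨S, t1, t2⟩ := hs N N0 s s1
      exact ⟨S, t1, fun y hy => (s2 y hy).symm.trans (t2 y hy)⟩
  refine ⟨⟨(m univ)⁻¹ • m, inferInstance⟩, fun q N e t c₀ s s' γ β N0 t0 k1 k2 k3 k4 k5 => ?_,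
    G8.vs hS hP mp (fun T hT h => Measure.ae_smul_measure ((ae_map_iff (mp'.mono_ac ac')
      hT.measurableSet).2 (ac'.ae_le (ae.mono h))) _) fun j =>
      ⟨_, (hC n M ι D X 0).2.1 fun i => j * L i, fun S h =>
        (pl h).imp fun s k => ⟨Submodule.subset_span k.1, k.2⟩⟩,
    ⟨m univ, NeZero.ne _, measure_ne_top _ _, fun f hf => ?_⟩, fun _ _ => pl⟩
  · obtain ⟨F, f1, f2⟩ := gd q N e t c₀ s s' γ β N0 t0 k1 k2 k3 k4 k5
    refine ⟨F, f1, ?_⟩
    change ∫ u, _ ∂((m univ)⁻¹ • m) ≤ _ * ∫ u, _ ∂((m univ)⁻¹ • m)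
    rw [integral_smul_measure, integral_smul_measure, smul_eq_mul, smul_eq_mul, mul_left_comm]
    exact mul_le_mul_of_nonneg_left f2 ENNReal.toReal_nonneg
  · change _ = _ * ∫⁻ u, _ ∂((m univ)⁻¹ • m)
    simp only [hσ]
    rw [lm f hf, lintegral_smul_measure, smul_eq_mul, ← mul_assoc,
      ENNReal.mul_inv_cancel (NeZero.ne _) (measure_ne_top _ _), one_mul]

end Pool.Agent.Lib.S5.P
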