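import Pool.Agent.Lib.NV6.J_All

/-! Project S5: block J for a pair with boundary. -/

open scoped Classical Topology ContDiff ENNReal
open Set MeasureTheory Complex Metric Filter

set_option linter.unusedVariables false

noncomputable section

namespace Pool.Agent.Lib.NV6.J.P

open Pool.Agent.Lib.SV (E nsq nsq_nonneg)
open Pool.Agent.Lib.HS32 Pool.Agent.Lib.EX Pool.Agent.Lib.EXS Pool.Agent.Lib.ZL
open Pool.Agent.Lib.ZQ (HqO offz)
open Pool.Agent.Lib.NV2 (lg)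

section defs

variable {n r : ℕ} {M : Mf n} {ι : Type} [Fintype ι] [DecidableEq ι] {D : Ad M ι} (X : Cx D)

/-- The model: `L` is the reference class, sections of level `N` have poles `N L + κ`. -/
structure Md (d k : ℕ) (L κ : ι → ℤ) (g : M.X → ℂ) (P : ι → ℤ) (h W : Fin r → M.X → ℂ)
    (b : M.X → ℂ) : Prop extends Fr X g P h where
  d0 : 0 < d
  lo : ∀ i, (L i : ℝ) / d < X.o i + 1
  k0 : ∀ i, 0 ≤ κ i
  hi : ∀ i, X.o i - L i / d ≤ κ i
  zo : ∀ N : ℕ, 0 < N → ∃ C A : ℝ, ∀ ε > (0 : ℝ), ∃ ρ,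
    Wz X (fun i => N * L i + κ i) (fun x => qt W h x ^ N) C A ε ρ
  rg : ∃ Q, Sp D Q g
  hne : ∀ x ∈ offz D g, (∀ a, h a x ≠ 0) ∧ (∀ a, W a x ≠ 0) ∧ b x ≠ 0
  spW : ∀ a, Sp D (fun i => L i + P i) (W a)
  spb : Sp D (fun i => k * P i) b
  r1 : ∃ C, ∀ x ∈ offz D g, qt W h x ≤ C * Real.exp (-lw D (fun i => L i) x)
  r3 : ∃ C, ∀ x ∈ offz D g, ∀ a,
    nsq (W · x) * normSq (h a x) ^ 2 ≤ C * normSq (W a x) * nsq (h · x) ^ 2
  rb : ∃ C, ∀ x ∈ offz D g, bt h k b x ≤ C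
  r2 : ∀ (N c : ℕ) F, 0 < N → Se X P h (fun i => N * L i + κ i) c F → ∃ C, ∀ x ∈ offz D g,
    normSq (F x) * bt h k b x ^ (c + 1) ≤ C * qt W h x ^ N * nsq (h · x) ^ c

variable {X} in
theorem Md.of {d k : ℕ} {L κ : ι → ℤ} {g : M.X → ℂ} {P : ι → ℤ} {h W : Fin r → M.X → ℂ}
    {b : M.X → ℂ} (m : J.Md X d k L κ g P h W b) : Md X d k L κ g P h W b :=
  ⟨m.toFr, m.d0, fun i => (m.lo i).trans_lt (lt_add_one _), fun i => by
    have : (0 : ℝ) ≤ κ i := by linarith [m.lo i, m.hi i]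
    exact_mod_cast this, m.hi, m.zo, m.rg, m.hne, m.spW, m.spb, m.r1, m.r3, m.rb, m.r2⟩

end defs

/-- The sections of level `N` generate the reference divisor up to the factor `b`. -/
def St_LOW : Prop := ∀ (n : ℕ) (M : Mf n) [M.Cpt] (ι : Type) [Fintype ι] [DecidableEq ι]
  (D : Ad M ι) (X : Cx D) (r d k : ℕ) (g : M.X → ℂ) (L κ P : ι → ℤ) (h W : Fin r → M.X → ℂ)
  (b : M.X → ℂ) (N c : ℕ), Md X d k L κ g P h W b → 0 < N → 4 * r < c →
  ∃ (m : ℕ) (σ : Fin m → M.X → ℂ) (C : ℝ), 0 < C ∧ (∀ i, Ho D (offz D g) (σ i)) ∧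
    ∀ x ∈ offz D g, qt W h x ^ N * nsq (h · x) ^ c ≤ C * nsq (σ · x) ∧
      nsq (σ · x) * bt h k b x ^ (c + 1) ≤ C * qt W h x ^ N * nsq (h · x) ^ c

/-- The sandwich. -/
def St_SND : Prop := ∀ (n : ℕ) (M : Mf n) [M.Cpt] (ι : Type) [Fintype ι] [DecidableEq ι]
  (D : Ad M ι) (X : Cx D) (r d k : ℕ) (g : M.X → ℂ) (L κ P : ι → ℤ) (h W : Fin r → M.X → ℂ)
  (b : M.X → ℂ) (N : ℕ) (s : ℝ), Md X d k L κ g P h W b → 0 < N → s ∈ Ioc (0 : ℝ) 1 →
  ∃ (φ : M.X → ℝ) (C : ℝ), Ps D (offz D g) φ ∧ ∀ x ∈ offz D g,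
    Real.exp (-φ x) ≤ C * om d k h W b N s (k + 1) x ∧
    om d k h W b N (s / 2) (k + 1) x ≤ C * Real.exp (-φ x)

/-- The ideals. -/
def St_IDL : Prop := ∀ (n : ℕ) (M : Mf n) [M.Cpt] (ι : Type) [Fintype ι] [DecidableEq ι]
  (D : Ad M ι) (X : Cx D) (r d k : ℕ) (g : M.X → ℂ) (L κ P : ι → ℤ) (h W : Fin r → M.X → ℂ)
  (b : M.X → ℂ), Md X d k L κ g P h W b →
  (∀ x ∈ offz D g, 0 < qt W h x ∧ 0 < bt h k b x ∧ ∀ N s c, 0 < om d k h W b N s c x) ∧
  (∀ N s c, ContinuousOn (om d k h W b N s c) (offz D g)) ∧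
  ∀ N c : ℕ, 0 < N → (∀ s ≥ (0 : ℝ), ∃ C, ∀ x ∈ offz D g,
      Real.exp (lw D (fun i => (N * L i + κ i : ℤ) - X.o i) x) / nsq (h · x) ^ c ≤
        C * om d k h W b N s c x ∧
      Real.exp (lw D (fun i => (N * L i + κ i + c * P i : ℤ) - X.o i) x) ≤
        C * om d k h W b N s c x) ∧
    (∀ F ∈ Id X d k L κ P h W b N c, Se X P h (fun i => N * L i + κ i) c F) ∧
    ∃ S : Submodule ℂ (M.X → ℂ), FiniteDimensional ℂ S ∧ (S : Set _) = Id X d k L κ P h W b N c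

/-- The ideals are generated in a fixed degree. -/
def St_IDV : Prop := ∀ (n : ℕ) (M : Mf n) [M.Cpt] (ι : Type) [Fintype ι] [DecidableEq ι]
  (D : Ad M ι) (X : Cx D) (r d k : ℕ) (g : M.X → ℂ) (L κ P : ι → ℤ) (h W : Fin r → M.X → ℂ)
  (b : M.X → ℂ) (N c q : ℕ), Md X d k L κ g P h W b → 0 < N → 4 * r + k + 1 < c →
  ∀ F ∈ Id X d k L κ P h W b N (c + q), Dv (offz D g) h q (Id X d k L κ P h W b N c) F

/-- The change of level. -/
def St_LEV : Prop := ∀ (n : ℕ) (M : Mf n) [M.Cpt] (ι : Type) [Fintype ι] [DecidableEq ι]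
  (D : Ad M ι) (X : Cx D) (r d k : ℕ) (g : M.X → ℂ) (L κ P : ι → ℤ) (h W : Fin r → M.X → ℂ)
  (b : M.X → ℂ), Md X d k L κ g P h W b → ∀ (c q : ℕ),
  (∀ a, ∀ F ∈ Id X d k L κ P h W b 1 c, ∃ F' ∈ Id X d k L κ P h W b (q + 1) (c + q),
    ∀ x ∈ offz D g, F' x = F x * W a x ^ q) ∧
  (∀ a, ∀ F ∈ Id X d k L κ P h W b (q + 1) c, ∃ F' ∈ Id X d k L κ P h W b 1 (c + q),
    ∀ x ∈ offz D g, F' x = F x * h a x ^ (2 * q) / W a x ^ q) ∧
  ∃ F ∈ Id X d k L κ P h W b 1 (c + (k + 1)), ∃ x ∈ offz D g, F x ≠ 0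

/-- The generators. -/
def St_GEN : Prop := ∀ (n : ℕ) (M : Mf n) [M.Cpt] (ι : Type) [Fintype ι] [DecidableEq ι]
  (D : Ad M ι) (X : Cx D) (r d k : ℕ) (g : M.X → ℂ) (L κ P : ι → ℤ) (h W : Fin r → M.X → ℂ)
  (b : M.X → ℂ), Md X d k L κ g P h W b → ∃ (c m : ℕ) (C : Fin m → M.X → ℂ), 0 < m ∧
    (∀ i, Se X P h (fun i => L i + κ i) c (C i) ∧ C i ≠ 0) ∧ Gq (D := D) g h W C

/-- The theorem of the block. -/
def St_J : Prop := ∀ (n : ℕ) (M : Mf n) [M.Cpt] (ι : Type) [Fintype ι] [DecidableEq ι]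
  (D : Ad M ι) (X : Cx D) (r d k : ℕ) (g : M.X → ℂ) (L κ P : ι → ℤ) (h W : Fin r → M.X → ℂ)
  (b : M.X → ℂ), Md X d k L κ g P h W b → Rk X g P h (fun i => L i + κ i) →
  ∃ (m e : ℕ) (Q : Fin m → MvPolynomial (Fin r) ℂ) (g' : M.X → ℂ), 0 < m ∧
    (∀ i, (Q i).IsHomogeneous e) ∧ (∃ R, Sp D R g') ∧ (∃ x ∈ off D, g' x ≠ 0) ∧
    offz D g' ⊆ offz D g ∧ (∀ x ∈ offz D g', ∀ i, pv h (Q i) x ≠ 0) ∧
    ∀ (r' : ℕ) (ε : Fin r' ≃ Fin r × Fin m), Nf (D := D) (offz D g')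
      (fun β y => h (ε β).1 y * pv h (Q (ε β).2) y) fun β y => W (ε β).1 y * pv h (Q (ε β).2) y

open LOWk in
theorem jLOW (hK : St_KIT) (hF : St_FRM) (hZ : St_ZDV) (hC : NV2.St_CHN) (hU : ZL.St_UPB) :
    St_LOW := by
  intro n M _ ι _ _ D X r d k g L κ P h W b N c m hN hc
  obtain ⟨-, k2, -⟩ := hK n M ι D X (offz D g) (ZQ.HO.offz_open (oa_iff.1 m.hol))
    (fun x hx => hx.1) m.ae
  obtain ⟨-, -, mul, -⟩ := hC n M ι D X r
  obtain ⟨-, f2, -⟩ := hF M.X r (offz D g) h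
  have pw : ∀ Q F, Sp D Q F → ∀ j : ℕ, Sp D ((j + 1) • Q) (F ^ (j + 1)) := fun Q F hF j => by
    induction j with
    | zero => simpa using hF
    | succ j ih =>
      rw [pow_succ, succ_nsmul]
      exact mul _ _ _ _ ih hF
  obtain ⟨C₀, A, hz⟩ := m.zo N hN
  have sp : ∀ a, Sp D (fun i => (N * L i + κ i) + (c + N : ℕ) * P i) (W a ^ N * h a ^ c) := by
    intro a
    obtain ⟨N, rfl⟩ := Nat.exists_eq_succ_of_ne_zero hN.ne'
    obtain ⟨c, rfl⟩ := Nat.exists_eq_succ_of_ne_zero (Nat.ne_zero_of_lt hc)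
    have s := mul _ _ _ _ (pw _ _ (m.spW a) N) (pw _ _ (m.sp a) c)
    refine ⟨(hU n M ι D _).2.2.1 _ _ (fun i => ?_) s.1, s.2⟩
    have k0 := m.k0 i
    rw [Pi.add_apply, Pi.smul_apply, Pi.smul_apply, nsmul_eq_mul, nsmul_eq_mul]
    push_cast
    linarith
  have e : ∀ a x, normSq ((W a ^ N * h a ^ c) x) = normSq (W a x) ^ N * normSq (h a x) ^ c :=
    fun a x => by simp only [Pi.mul_apply, Pi.pow_apply, map_mul, map_pow]
  have dv : ∀ a, ∃ (m : ℕ) (s : Fin m → M.X → ℂ),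
      (∀ j, Se X P h (fun i => N * L i + κ i) c (s j)) ∧ ∀ x ∈ offz D g,
        normSq ((W a ^ N * h a ^ c) x) ≤ nsq (h · x) ^ N * nsq (s · x) := fun a => by
    refine f2 N _ _ (hZ n M ι D X r g P _ h _ C₀ A c N _ m.toFr hz hc (sp a) fun x hx => ?_)
    have p := m.pos x hx
    rw [e, qt, div_pow, pow_add, mul_comm (_ ^ c), ← mul_assoc, div_mul_cancel₀ _ (pow_pos p N).ne']
    exact mul_le_mul (pow_le_pow_left₀ (normSq_nonneg _) (le_nsq (W · x) a) N)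
      (pow_le_pow_left₀ (normSq_nonneg _) (le_nsq (h · x) a) c) (pow_nonneg (normSq_nonneg _) _)
      (pow_nonneg (nsq_nonneg _) _)
  choose μ s s1 s2 using dv
  choose B hB using fun p : Σ a, Fin (μ a) => m.r2 N c _ hN (s1 p.1 p.2)
  obtain ⟨C, hC3⟩ := m.r3
  let ε := (Fintype.equivFin (Σ a, Fin (μ a))).symm
  have sm : ∀ x, nsq (fun i => s (ε i).1 (ε i).2 x) =
      ∑ p : Σ a, Fin (μ a), normSq (s p.1 p.2 x) := fun x =>
    ε.sum_comp fun p => normSq (s p.1 p.2 x)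
  have b0 : 0 ≤ ∑ p, |B p| := Finset.sum_nonneg fun _ _ => abs_nonneg _
  refine ⟨_, fun i => s (ε i).1 (ε i).2, (|C| * r ^ 2) ^ N * r ^ c + (∑ p, |B p| + 1),
    by positivity, fun i => (k2 _ _ (s1 _ _).1).1, fun x hx => ?_⟩
  have p := m.pos x hx
  have t0 : 0 ≤ qt W h x ^ N * nsq (h · x) ^ c :=
    mul_nonneg (pow_nonneg (div_nonneg (nsq_nonneg _) p.le) _) (pow_nonneg p.le _)
  constructor
  · obtain ⟨a, ha⟩ := ex_max _ p
    have u : nsq (s a · x) ≤ nsq (fun i => s (ε i).1 (ε i).2 x) := by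
      rw [sm, Fintype.sum_sigma]
      exact Finset.single_le_sum (f := fun a => nsq (s a · x)) (fun _ _ => nsq_nonneg _)
        (Finset.mem_univ a)
    refine (low N c (nsq_nonneg _) p (normSq_nonneg _) (Nat.cast_nonneg r) ha (hC3 x hx a)
      (((e a x).symm.trans_le (s2 a x hx)).trans
        (mul_le_mul_of_nonneg_left u (pow_nonneg p.le _)))).trans ?_
    exact mul_le_mul_of_nonneg_right (le_add_of_nonneg_right (by positivity)) (nsq_nonneg _)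
  · rw [sm, Finset.sum_mul, mul_assoc]
    refine (Finset.sum_le_sum fun q _ => (hB q x hx).trans ((mul_assoc _ _ _).trans_le
      (mul_le_mul_of_nonneg_right (le_abs_self _) t0))).trans ?_
    rw [← Finset.sum_mul]
    refine mul_le_mul_of_nonneg_right ?_ t0
    have : 0 ≤ (|C| * r ^ 2) ^ N * (r : ℝ) ^ c := by positivity
    linarith

theorem jSND (hKIT : St_KIT) (hLOW : St_LOW) : St_SND := by
  intro n M _ ι _ _ D X r d k g L κ P h W b N s m hN hs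
  have hO := ZQ.HO.offz_open (oa_iff.1 m.hol)
  obtain ⟨-, k2, -, -, -, k6, k7, -, -, k10, k11, -⟩ :=
    hKIT n M ι D X (offz D g) hO (fun x hx => hx.1) m.ae
  have d1 : (1 : ℝ) ≤ d := Nat.one_le_cast.2 m.d0
  have N1 : (1 : ℝ) ≤ N := Nat.one_le_cast.2 hN
  have a0 : (0 : ℝ) ≤ N - 1 / d := sub_nonneg.2 ((div_le_one (by linarith)).2 d1 |>.trans N1)
  obtain ⟨N₂, hN₂⟩ := exists_nat_gt ((N - 1 / d : ℝ) * ((4 * r + 1 : ℕ) + 1) / (s / 2))
  have p2 : (0 : ℝ) < N₂ := lt_of_le_of_lt (div_nonneg (by positivity) (by linarith [hs.1])) hN₂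
  obtain ⟨m', σ, C₁, c1, hσ, hb⟩ := hLOW n M ι D X r d k g L κ P h W b N₂ (4 * r + 1) m
    (Nat.cast_pos.1 p2) (Nat.lt_succ_self _)
  obtain ⟨Cb, hCb⟩ := m.rb
  set θ : ℝ := (N - 1 / d) / N₂ with hθ
  have θ0 : 0 ≤ θ := div_nonneg a0 p2.le
  have θ1 : θ * ((4 * r + 1 : ℕ) + 1) ≤ s / 2 := by
    rw [hθ, div_mul_eq_mul_div, div_le_iff₀ p2]
    rw [div_lt_iff₀ (by linarith [hs.1])] at hN₂
    linarith
  have ha : (1 : ℝ) / d - N = -(θ * N₂) := by rw [hθ, div_mul_cancel₀ _ p2.ne']; ring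
  have pT : ∀ x ∈ offz D g, 0 < qt W h x := fun x hx => by
    have h1 := m.pos x hx
    refine div_pos ?_ h1
    rcases isEmpty_or_nonempty (Fin r) with h0 | ⟨⟨a⟩⟩
    · simp [nsq] at h1
    · exact Finset.sum_pos' (fun i _ => normSq_nonneg _)
        ⟨a, Finset.mem_univ _, normSq_pos.2 ((m.hne x hx).2.1 a)⟩
  have pσ : ∀ x ∈ offz D g, 0 < nsq (σ · x) := fun x hx =>
    (pos_iff_pos_of_mul_pos (lt_of_lt_of_le
      (mul_pos (pow_pos (pT x hx) _) (pow_pos (m.pos x hx) _)) (hb x hx).1)).1 c1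
  have t0 : (0 : ℝ) ≤ k + 1 - θ * (4 * r + 1 : ℕ) - s * k := by
    have : s * k ≤ k := mul_le_of_le_one_left (Nat.cast_nonneg k) hs.2
    nlinarith [hs.2]
  refine ⟨fun x => θ * lg σ x + s * Real.log (normSq (b x)) +
    (k + 1 - θ * (4 * r + 1 : ℕ) - s * k) * lg h x, Real.exp (θ * Real.log C₁ + |Real.log Cb|),
    k10 _ _ (k10 _ _ (k11 _ _ θ0 ((k6 _ σ hσ).2 pσ)) (k11 _ _ hs.1.le
      ((k7 b (k2 _ _ m.spb).1).2 fun x hx => (m.hne x hx).2.2)))
      (k11 _ _ t0 ((k6 _ h fun a => (k2 _ _ (m.sp a)).1).2 m.pos)), fun x hx => ?_⟩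
  exact SNDk.core (pT x hx) (m.pos x hx) (normSq_pos.2 (m.hne x hx).2.2) c1 θ0 θ1 hs.2 ha
    (hb x hx).1 (hb x hx).2 (hCb x hx)

open IDLk in
theorem jIDL (hKIT : St_KIT) (hPW : St_PW) (hFIN : ZL.St_FIN) : St_IDL := by
  intro n M _ ι _ _ D X r d k g L κ P h W b m
  have hO : IsOpen (offz D g) := ZQ.HO.offz_open (oa_iff.1 m.hol)
  obtain ⟨-, kS, -, -, kN, -, kC, -, -, -, -, -, kM, kI, kP⟩ :=
    hKIT n M ι D X (offz D g) hO (fun x hx => hx.1) m.ae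
  obtain ⟨-, -, wA, -, wS, -, wM, -⟩ := hPW n M ι D
  have pT : ∀ x ∈ offz D g, 0 < qt W h x := fun x hx =>
    div_pos (npos (m.pos x hx) (m.hne x hx).2.1) (m.pos x hx)
  have pB : ∀ x ∈ offz D g, 0 < bt h k b x := fun x hx =>
    div_pos (normSq_pos.2 (m.hne x hx).2.2) (pow_pos (m.pos x hx) _)
  have pO : ∀ x ∈ offz D g, ∀ N s c, 0 < om d k h W b N s c x := fun x hx N s c =>
    div_pos (mul_pos (Real.rpow_pos_of_pos (pT x hx) _) (Real.rpow_pos_of_pos (pB x hx) _))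
      (pow_pos (m.pos x hx) _)
  have ch : ContinuousOn (fun x => nsq (h · x)) (offz D g) :=
    (kN (Fin r) h fun a => (kS _ _ (m.sp a)).1).2.2
  have cW : ContinuousOn (fun x => nsq (W · x)) (offz D g) :=
    (kN (Fin r) W fun a => (kS _ _ (m.spW a)).1).2.2
  have cS : ∀ Q F, Sp D Q F → ContinuousOn (fun x => normSq (F x)) (offz D g) := fun Q F hF =>
    continuous_normSq.comp_continuousOn (kC F (kS Q F hF).1).1
  have cO : ∀ N s c, ContinuousOn (om d k h W b N s c) (offz D g) := fun N s c =>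
    (((cW.div ch fun x hx => (m.pos x hx).ne').rpow_const fun x hx => Or.inl (pT x hx).ne').mul
      (((cS _ _ m.spb).div (ch.pow k) fun x hx => (pow_pos (m.pos x hx) _).ne').rpow_const
        fun x hx => Or.inl (pB x hx).ne')).div (ch.pow c) fun x hx => (pow_pos (m.pos x hx) _).ne'
  obtain ⟨C1, h1⟩ := m.r1
  obtain ⟨C2, h2⟩ := m.rb
  obtain ⟨⟨C3, C30, h3⟩, -⟩ := kP r P h m.sp
  have oM : ∀ x ∈ offz D g, ∀ N c (s t : ℝ), s ≤ t →
      om d k h W b N s c x ≤ C2 ^ (t - s) * om d k h W b N t c x := fun x hx N c s t hst => by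
    have e := mul_le_mul_of_nonneg_left (mono (pB x hx) (h2 x hx) hst)
      (div_pos (Real.rpow_pos_of_pos (pT x hx) ((1 : ℝ) / d - N)) (pow_pos (m.pos x hx) c)).le
    unfold om
    calc _ = _ := by ring
      _ ≤ _ := e
      _ = _ := by ring
  refine ⟨fun x hx => ⟨pT x hx, pB x hx, pO x hx⟩, cO, fun N c hN => ?_⟩
  have d1 : (1 : ℝ) ≤ d := Nat.one_le_cast.2 m.d0
  have e0 : 0 ≤ (N : ℝ) - 1 / d := by
    have : (1 : ℝ) ≤ N := Nat.one_le_cast.2 hN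
    have : (1 : ℝ) / d ≤ 1 := by rw [div_le_one (by linarith)]; exact d1
    linarith
  have k1 : ∀ s ≥ (0 : ℝ), ∃ C, 0 ≤ C ∧ ∀ x ∈ offz D g,
      Real.exp (lw D (fun i => (N * L i + κ i : ℤ) - X.o i) x) / nsq (h · x) ^ c ≤
        C * om d k h W b N s c x := fun s hs => by
    refine ⟨max C1 1 ^ ((N : ℝ) - 1 / d) * max C2 1 ^ s, by positivity, fun x hx => ?_⟩
    have a1 := inv_le (pT x hx) (lt_max_of_lt_right one_pos : 0 < max C1 1) e0
      ((h1 x hx).trans (mul_le_mul_of_nonneg_right (le_max_left _ _) (Real.exp_pos _).le))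
    have a2 := mono (pB x hx) ((h2 x hx).trans (le_max_left C2 1)) hs
    rw [neg_zero, Real.rpow_zero, sub_zero] at a2
    have a3 : lw D (fun i => (N * L i + κ i : ℤ) - X.o i) x ≤
        ((N : ℝ) - 1 / d) * lw D (fun i => (L i : ℝ)) x := by
      rw [← wS]
      refine wM _ _ (fun i => ?_) x
      have := m.hi i
      simp only [Pi.smul_apply, smul_eq_mul]
      push_cast
      have e : ((N : ℝ) - 1 / d) * L i = N * L i - L i / d := by ring
      linarith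
    have a4 := mul_le_mul ((Real.exp_le_exp.2 a3).trans a1) a2 zero_le_one
      (mul_pos (Real.rpow_pos_of_pos (lt_max_of_lt_right one_pos) _)
        (Real.rpow_pos_of_pos (pT x hx) _)).le
    rw [mul_one, neg_sub] at a4
    unfold om
    calc _ ≤ _ := div_le_div_of_nonneg_right a4 (pow_pos (m.pos x hx) c).le
      _ = _ := by ring
  obtain ⟨V, hV, mV⟩ := hFIN n M ι D fun i => N * L i + κ i + c * P i
  refine ⟨fun s hs => ?_, fun F hF => ⟨hF.1, ?_⟩, ?_⟩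
  · obtain ⟨C, C0, hC⟩ := k1 s hs
    refine ⟨C * max (C3 ^ c) 1, fun x hx => ⟨(hC x hx).trans (mul_le_mul_of_nonneg_right
      (le_mul_of_one_le_right C0 (le_max_right _ _)) (pO x hx N s c).le), ?_⟩⟩
    have a1 := inv_le (m.pos x hx) C30 (Nat.cast_nonneg c) (h3 x hx)
    rw [Real.rpow_neg (m.pos x hx).le, Real.rpow_natCast, Real.rpow_natCast] at a1
    have e : (fun i => ((N * L i + κ i + c * P i : ℤ) : ℝ) - X.o i) =
        (fun i => ((N * L i + κ i : ℤ) : ℝ) - X.o i) + (c : ℝ) • fun i => (P i : ℝ) := by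
      funext i
      simp only [Pi.add_apply, Pi.smul_apply, smul_eq_mul]
      push_cast
      ring
    rw [e, wA, wS, Real.exp_add]
    calc _ ≤ _ := mul_le_mul_of_nonneg_left a1 (Real.exp_pos _).le
      _ = C3 ^ c * (Real.exp (lw D (fun i => (N * L i + κ i : ℤ) - X.o i) x) /
        nsq (h · x) ^ c) := by ring
      _ ≤ max (C3 ^ c) 1 * (C * om d k h W b N s c x) :=
        mul_le_mul (le_max_left _ _) (hC x hx)
          (div_pos (Real.exp_pos _) (pow_pos (m.pos x hx) c)).le (by positivity)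
      _ = _ := by ring
  · obtain ⟨-, s, hs, hF⟩ := hF
    obtain ⟨C, C0, hC⟩ := k1 s hs.1.le
    refine (kI _ _ C fun x hx => ⟨mul_nonneg (normSq_nonneg _) (pO x hx N s c).le, ?_⟩).2 hF
    have := mul_le_mul_of_nonneg_left (hC x hx) (normSq_nonneg (F x))
    rw [neg_neg]
    calc _ = _ := by ring
      _ ≤ _ := this
      _ = _ := by ring
  have dn : ∀ (F : M.X → ℂ) (s t : ℝ), s ≤ t →
      X.I (fun x => normSq (F x) * om d k h W b N t c x) ≠ ⊤ →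
      X.I (fun x => 2 * normSq (F x) * om d k h W b N s c x) ≠ ⊤ := fun F s t hst hF => by
    refine (kI _ _ (2 * C2 ^ (t - s)) fun x hx =>
      ⟨mul_nonneg (normSq_nonneg _) (pO x hx N t c).le, ?_⟩).2 hF
    have := mul_le_mul_of_nonneg_left (oM x hx N c s t hst) (normSq_nonneg (F x))
    linarith
  let S : Submodule ℂ (M.X → ℂ) :=
    { carrier := Id X d k L κ P h W b N c
      add_mem' := fun {F G} hF hG => by
        obtain ⟨sF, s, hs, hF⟩ := hF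
        obtain ⟨sG, t, ht, hG⟩ := hG
        refine ⟨(mV _).1 (V.add_mem ((mV _).2 sF) ((mV _).2 sG)), min s t,
          ⟨lt_min hs.1 ht.1, (min_le_left _ _).trans hs.2⟩, ?_⟩
        have a1 := dn F _ s (min_le_left s t) hF
        have a2 := dn G _ t (min_le_right s t) hG
        have me : AEMeasurable (fun x => ENNReal.ofReal
            (2 * normSq (F x) * om d k h W b N (min s t) c x)) X.μ :=
          (kM ℝ _ ((continuousOn_const.mul (cS _ _ sF)).mul (cO N _ c))).ennreal_ofReal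
        refine ne_top_of_le_ne_top (ENNReal.add_ne_top.2 ⟨a1, a2⟩) ?_
        unfold Cx.I
        rw [← lintegral_add_left' me]
        refine lintegral_mono_ae (m.ae.mono fun x hx => ?_)
        refine le_trans (ENNReal.ofReal_le_ofReal ?_) ENNReal.ofReal_add_le
        have := mul_le_mul_of_nonneg_right (nadd (F x) (G x)) (pO x hx N (min s t) c).le
        simp only [Pi.add_apply]
        linarith
      zero_mem' := ⟨(mV _).1 V.zero_mem, 1, ⟨one_pos, le_rfl⟩, by simp [Cx.I]⟩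
      smul_mem' := fun a F hF => by
        obtain ⟨sF, s, hs, hF⟩ := hF
        refine ⟨(mV _).1 (V.smul_mem a ((mV _).2 sF)), s, hs, (kI _ _ (normSq a) fun x hx =>
          ⟨mul_nonneg (normSq_nonneg _) (pO x hx N s c).le, ?_⟩).2 hF⟩
        simp only [Pi.smul_apply, smul_eq_mul, map_mul]
        exact (mul_assoc _ _ _).le }
  exact ⟨S, Submodule.finiteDimensional_of_le (S₂ := V) fun F hF => (mV F).2 hF.1, rfl⟩

open IDVk in
theorem jIDV (hKIT : St_KIT) (hSKK : St_SKK) (hSND : St_SND) (hIDL : St_IDL) : St_IDV := by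
  intro n M _ ι _ _ D X r d k g L κ P h W b N c q hM hN hc F hF
  obtain ⟨hF, s, hs, hI⟩ := hF
  obtain ⟨j, rfl⟩ : ∃ j, c = k + 1 + j := ⟨c - (k + 1), by omega⟩
  obtain ⟨φ, C, hφ, hC⟩ := hSND n M ι D X r d k g L κ P h W b N s hM hN hs
  obtain ⟨hpos, -, h3⟩ := hIDL n M ι D X r d k g L κ P h W b hM
  obtain ⟨C₂, hC₂⟩ := (h3 N (k + 1) hN).1 (s / 2) (by linarith [hs.1])
  have hle := (hKIT n M ι D X (offz D g) (ZQ.HO.offz_open (oa_iff.1 hM.hol)) (fun _ hx => hx.1)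
    hM.ae).2.2.2.2.2.2.2.2.2.2.2.2.2.1
  have hup : Up X (offz D g) (fun i => N * L i + κ i + (k + 1 : ℕ) * P i) φ := by
    refine ⟨Real.log (C₂ * C), fun x hx => ?_⟩
    have a1 := (hC₂ x hx).2
    have a2 := (hC x hx).2
    have a3 := (hpos x hx).2.2 N (s / 2) (k + 1)
    have a4 : 0 < C₂ := (mul_pos_iff_of_pos_right a3).1 ((Real.exp_pos _).trans_le a1)
    have a5 : 0 < C := (mul_pos_iff_of_pos_right (Real.exp_pos _)).1 (a3.trans_le a2)
    have a6 := a1.trans (mul_le_mul_of_nonneg_left a2 a4.le)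
    rw [← mul_assoc, ← Real.exp_log (mul_pos a4 a5), ← Real.exp_add, Real.exp_le_exp] at a6
    linarith
  have hfin : Nj X h φ (j + q) F ≠ ⊤ := by
    refine (hle _ _ C fun x hx => ⟨mul_nonneg (normSq_nonneg _) ((hpos x hx).2.2 _ _ _).le, ?_⟩).2 hI
    rw [add_assoc (k + 1), om_add, mul_left_comm, ← mul_div_assoc, ← mul_div_assoc]
    exact div_le_div_of_nonneg_right (mul_le_mul_of_nonneg_left (hC x hx).1 (normSq_nonneg _))
      (pow_nonneg (hM.pos x hx).le _)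
  obtain ⟨H, hH, he⟩ := hSKK n M ι D X r g P (fun i => N * L i + κ i + (k + 1 : ℕ) * P i) h φ j q F
    hM.toFr hφ hup (by omega) (by
      have e : (fun i => N * L i + κ i + (k + 1 : ℕ) * P i + (j + q : ℕ) * P i) =
          fun i => N * L i + κ i + (k + 1 + j + q : ℕ) * P i := by
        funext i; push_cast; ring
      rw [e]; exact hF) hfin
  refine ⟨H, fun I => ⟨?_, s / 2, ⟨by linarith [hs.1], by linarith [hs.1, hs.2]⟩, ?_⟩, he⟩
  · have e : (fun i => N * L i + κ i + (k + 1 + j : ℕ) * P i) =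
        fun i => N * L i + κ i + (k + 1 : ℕ) * P i + j * P i := by
      funext i; push_cast; ring
    rw [e]; exact (hH I).1
  · have h1 : Nj X h φ j (H I) ≠ ⊤ := ne_top_of_le_ne_top
      (ENNReal.mul_ne_top (ENNReal.pow_ne_top (by simp)) hfin) (hH I).2
    refine (hle _ _ C fun x hx => ⟨div_nonneg (mul_nonneg (normSq_nonneg _) (Real.exp_pos _).le)
      (pow_nonneg (hM.pos x hx).le _), ?_⟩).2 h1
    rw [om_add, ← mul_div_assoc, ← mul_div_assoc, mul_left_comm]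
    exact div_le_div_of_nonneg_right (mul_le_mul_of_nonneg_left (hC x hx).2 (normSq_nonneg _))
      (pow_nonneg (hM.pos x hx).le _)

open LEVk in
theorem jLEV (hKIT : St_KIT) (hREM : St_REM) (hIDL : St_IDL) (hMU : ZL.St_MU) : St_LEV := by
  intro n M _ ι _ _ D X r d k g L κ P h W b md c q
  obtain ⟨-, k2, -, k4, -, -, -, -, -, -, -, -, -, kI, -⟩ := hKIT n M ι D X (offz D g)
    (ZQ.HO.offz_open (oa_iff.1 md.hol)) (fun x hx => hx.1) md.ae
  obtain ⟨i1, -, i3⟩ := hIDL n M ι D X r d k g L κ P h W b md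
  have mk : ∀ (N c : ℕ) (F : M.X → ℂ) (s : ℝ) (f : M.X → ℝ) (C : ℝ), 0 < N → s ∈ Ioc (0 : ℝ) 1 →
      Ho D (offz D g) F → X.I f ≠ ⊤ → (∀ x ∈ offz D g, 0 ≤ f x ∧
        normSq (F x) * om d k h W b N s c x ≤ C * f x) →
      ∃ F' ∈ Id X d k L κ P h W b N c, ∀ x ∈ offz D g, F' x = F x := by
    intro N c F s f C hN hs hF hf hle
    have h1 := (kI _ _ C hle).2 hf
    obtain ⟨C', hC'⟩ := (i3 N c hN).1 s hs.1.le
    obtain ⟨F', h2, h3⟩ := hREM n M ι D X g F (fun i => N * L i + κ i + c * P i) md.hol md.ne hF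
      ((kI _ _ C' fun x hx => ⟨mul_nonneg (normSq_nonneg _) ((i1 x hx).2.2 N s c).le, by
        rw [mul_left_comm]
        exact mul_le_mul_of_nonneg_left (hC' x hx).2 (normSq_nonneg _)⟩).2 h1)
    refine ⟨F', ⟨h2, s, hs, (kI _ _ 1 fun x hx =>
      ⟨mul_nonneg (normSq_nonneg _) ((i1 x hx).2.2 N s c).le, ?_⟩).2 h1⟩, h3⟩
    rw [h3 x hx, one_mul]
  have hh : ∀ a, Ho D (offz D g) (h a) := fun a => (k2 _ _ (md.sp a)).1
  have hW : ∀ a, Ho D (offz D g) (W a) := fun a => (k2 _ _ (md.spW a)).1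
  have pw : ∀ F, Ho D (offz D g) F → ∀ j : ℕ, Ho D (offz D g) fun x => F x ^ j := fun F hF =>
    (k4 F F hF hF).2.2.2.1
  have ml : ∀ F G, Ho D (offz D g) F → Ho D (offz D g) G → Ho D (offz D g) fun x => F x * G x :=
    fun F G hF hG => (k4 F G hF hG).2.2.1
  refine ⟨fun a F hF => ?_, fun a F hF => ?_, ?_⟩
  · obtain ⟨h1, s, hs, h2⟩ := hF
    refine mk (q + 1) (c + q) (fun x => F x * W a x ^ q) s _ 1 q.succ_pos hs
      (ml _ _ (k2 _ _ h1).1 (pw _ (hW a) q)) h2 fun x hx =>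
        ⟨mul_nonneg (normSq_nonneg _) ((i1 x hx).2.2 _ s c).le, ?_⟩
    rw [one_mul, (om_eq (i1 x hx).1 (md.pos x hx) s c q).1, qt_mul (md.pos x hx), map_mul, map_pow,
      mul_assoc, mul_comm (normSq (W a x) ^ q)]
    exact mul_le_mul_of_nonneg_left (mul_le_mul_of_nonneg_left
      (pow_le_pow_left₀ (normSq_nonneg _) (le_nsq (W · x) a) q) ((i1 x hx).2.2 _ s _).le)
      (normSq_nonneg _)
  · obtain ⟨h1, s, hs, h2⟩ := hF
    obtain ⟨C, hC⟩ := md.r3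
    refine mk 1 (c + q) (fun x => F x * h a x ^ (2 * q) / W a x ^ q) s _ (C ^ q) one_pos hs
      ((k4 _ _ (ml _ _ (k2 _ _ h1).1 (pw _ (hh a) (2 * q))) (pw _ (hW a) q)).2.2.2.2
        fun x hx => pow_ne_zero _ ((md.hne x hx).2.1 a)) h2 fun x hx =>
        ⟨mul_nonneg (normSq_nonneg _) ((i1 x hx).2.2 _ s c).le, ?_⟩
    have hT := (i1 x hx).1
    have hH := md.pos x hx
    have h3 : 0 < normSq (W a x) := normSq_pos.2 ((md.hne x hx).2.1 a)
    have h4 : normSq (h a x) ^ 2 / normSq (W a x) ≤ C * (nsq (h · x) / qt W h x) := by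
      have h5 := hC x hx a
      rw [← qt_mul (W := W) hH] at h5
      rw [← mul_div_assoc, div_le_div_iff₀ h3 hT]
      refine le_of_mul_le_mul_right ?_ hH
      linarith
    have h5 := pow_le_pow_left₀ (div_nonneg (sq_nonneg _) h3.le) h4 q
    rw [← (om_eq hT hH s c q).2, map_div₀, map_mul, map_pow, map_pow, pow_mul, mul_div_assoc,
      ← div_pow]
    rw [mul_pow] at h5
    have h6 := mul_le_mul_of_nonneg_left h5
      (mul_nonneg (normSq_nonneg (F x)) ((i1 x hx).2.2 1 s (c + q)).le)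
    linarith
  · obtain ⟨x₀, hx₀⟩ := md.ne
    obtain ⟨a, -⟩ : ∃ a : Fin r, True := by
      by_contra h0
      have h1 := md.pos x₀ hx₀
      unfold nsq at h1
      rw [Finset.sum_eq_zero fun a _ => (h0 ⟨a, trivial⟩).elim] at h1
      exact lt_irrefl _ h1
    obtain ⟨C, hC⟩ := md.r1
    obtain ⟨F, h1, h2⟩ := mk 1 (c + (k + 1)) (fun x => W a x * b x * h a x ^ c) 1
      (fun x => Real.exp (lw D (fun i => -((L i : ℝ) / d)) x)) (C ^ ((1 : ℝ) / d)) one_pos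
      ⟨one_pos, le_rfl⟩ (ml _ _ (ml _ _ (hW a) (k2 _ _ md.spb).1) (pw _ (hh a) c))
      ((hMU n M ι D X).2.2.2.1 _ fun i => by linarith [md.lo i]) fun x hx =>
        ⟨(Real.exp_pos _).le, by
          have hT := (i1 x hx).1
          have hH := md.pos x hx
          have h3 := hC x hx
          have h4 : 0 ≤ C := nonneg_of_mul_nonneg_left (hT.le.trans h3) (Real.exp_pos _)
          have h5 : lw D (fun i => -((L i : ℝ) / d)) x =
              -lw D (fun i => L i) x * ((1 : ℝ) / d) := by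
            unfold lw
            rw [← Finset.sum_neg_distrib, Finset.sum_mul]
            exact Finset.sum_congr rfl fun i _ => by ring
          rw [h5, Real.exp_mul, ← Real.mul_rpow h4 (Real.exp_pos _).le]
          refine le_trans ?_ (Real.rpow_le_rpow hT.le h3 (by positivity))
          rw [← om_one (d := d) (k := k) hT hH (md.hne x hx).2.2 c, qt_mul hH, map_mul, map_mul,
            map_pow]
          exact mul_le_mul_of_nonneg_right (mul_le_mul (mul_le_mul_of_nonneg_right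
            (le_nsq (W · x) a) (normSq_nonneg _))
            (pow_le_pow_left₀ (normSq_nonneg _) (le_nsq (h · x) a) c)
            (pow_nonneg (normSq_nonneg _) _) (mul_nonneg
              ((normSq_nonneg _).trans (le_nsq (W · x) a)) (normSq_nonneg _)))
            ((i1 x hx).2.2 _ _ _).le⟩
    refine ⟨F, h1, x₀, hx₀, ?_⟩
    rw [h2 x₀ hx₀]
    exact mul_ne_zero (mul_ne_zero ((md.hne x₀ hx₀).2.1 a) (md.hne x₀ hx₀).2.2)
      (pow_ne_zero _ ((md.hne x₀ hx₀).1 a))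

theorem jGEN (hUPB : ZL.St_UPB) (hFRM : St_FRM) (hIDL : St_IDL) (hIDV : St_IDV) (hLEV : St_LEV) :
    St_GEN := by
  intro n M _ ι _ _ D X r d k g L κ P h W b hM
  obtain ⟨-, -, hI⟩ := hIDL n M ι D X r d k g L κ P h W b hM
  have hc : 4 * r + k + 1 < 4 * r + 1 + (k + 1) := by omega
  have key : ∀ N : ℕ, 0 < N → ∃ (m : ℕ) (s : Fin m → M.X → ℂ),
      (∀ j, s j ∈ Id X d k L κ P h W b N (4 * r + 1 + (k + 1)) ∧ s j ≠ 0) ∧
      ∀ q, ∀ F ∈ Id X d k L κ P h W b N (4 * r + 1 + (k + 1) + q), ∀ f : M.X → ℂ,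
        (∀ x ∈ offz D g, F x = f x) → Cb (offz D g) h q s f := fun N hN => by
    obtain ⟨S, hS, e⟩ := (hI N (4 * r + 1 + (k + 1)) hN).2.2
    obtain ⟨m, s, h1, h2⟩ := (hFRM M.X r (offz D g) h).1 S hS
    refine ⟨m, s, fun j => ⟨e ▸ (h1 j).1, (h1 j).2⟩, fun q F hF f hf => ?_⟩
    obtain ⟨R, r1, r2⟩ := h2 q F (e ▸ hIDV n M ι D X r d k g L κ P h W b N _ q hM hN hc F hF)
    exact ⟨R, r1, fun x hx => (hf x hx).symm.trans (r2 x hx)⟩
  have hL := hLEV n M ι D X r d k g L κ P h W b hM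
  obtain ⟨m, C, c1, c2⟩ := key 1 one_pos
  refine ⟨4 * r + 1 + (k + 1), m, C, ?_, fun i => ⟨?_, (c1 i).2⟩, fun q => ?_⟩
  · obtain ⟨F, hF, x, hx, h0⟩ := (hL (4 * r + 1) 0).2.2
    obtain ⟨R, -, hR⟩ := c2 0 F hF F fun _ _ => rfl
    rcases Nat.eq_zero_or_pos m with rfl | hm
    · exact (h0 (by simpa using hR x hx)).elim
    · exact hm
  · simpa using (hI 1 _ one_pos).2.1 _ (c1 i).1
  obtain ⟨m', s, s1, s2⟩ := key (q + 1) q.succ_pos
  refine ⟨m', s, fun j => ((hUPB n M ι D _).1 _ (s1 j).1.1.1).1, fun a => ⟨fun j => ?_, fun i => ?_⟩⟩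
  · obtain ⟨F, hF, e⟩ := (hL _ q).2.1 a _ (s1 j).1
    exact c2 q F hF _ e
  · obtain ⟨F, hF, e⟩ := (hL _ q).1 a _ (c1 i).1
    exact s2 q F hF _ e

theorem jJ (hU : St_UPB) (hK : St_KIT) (hS : St_SGA) (hG : St_GEN) (hD : St_DEN) : St_J := by
  intro n M _ ι _ _ D X r d k g L κ P h W b hM hR
  obtain ⟨c, m, C, m0, hC, hq⟩ := hG n M ι D X r d k g L κ P h W b hM
  obtain ⟨e, Q, g', τ, hQ, ⟨R, hg'⟩, g0, sub, hτ, hx⟩ :=
    hD n M ι D X r c m g P _ h C hM.toFr hM.rg hR m0 hC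
  refine ⟨m, e, Q, g', m0, hQ, ⟨R, hg'⟩, g0, sub, fun x h' i => ((hx x h').2 i).1, fun r' ε q => ?_⟩
  obtain ⟨m', s, hs, hq⟩ := hq q
  obtain ⟨o1, o2, o3⟩ := ae_offz X ((hU n M ι D R).1 g' hg'.1).1 g0
  obtain ⟨k1, k2, -, k4, -⟩ := hK n M ι D X _ o1 o2 o3
  have cb : ∀ {m : ℕ} {s : Fin m → M.X → ℂ} {f}, Cb (offz D g) h q s f → Cb (offz D g') h q s f :=
    fun ⟨R, h1, h2⟩ => ⟨R, h1, fun x h' => h2 x (sub h')⟩
  refine ⟨m' * r, fun j y => s (finProdFinEquiv.symm j).1 y * h (finProdFinEquiv.symm j).2 y / τ y,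
    fun j => (k4 _ _ (k4 _ _ (k1 _ (hs _)) (k2 _ _ (hM.sp _)).1).2.2.1 hτ).2.2.2.2
      fun x h' => (hx x h').1, ?_⟩
  exact hS M.X r m _ h W C (fun i => pv h (Q i)) τ q m' s r' _ ε finProdFinEquiv.symm
    (fun x h' => ⟨(hx x h').1, (hM.hne x (sub h')).2.1, fun i => ((hx x h').2 i).2⟩)
    fun a => ⟨fun j => cb ((hq a).1 j), fun i => cb ((hq a).2 i)⟩

theorem st_LOW : St_LOW := jLOW st_KIT jFRM st_ZDV NV2.st_CHN ZL.st_UPB

theorem st_SND : St_SND := jSND st_KIT st_LOW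

theorem st_IDL : St_IDL := jIDL st_KIT ZL.bPW ZL.st_FIN

theorem st_IDV : St_IDV := jIDV st_KIT st_SKK st_SND st_IDL

theorem st_LEV : St_LEV := jLEV st_KIT st_REM st_IDL ZL.st_MU

theorem st_GEN : St_GEN := jGEN ZL.st_UPB jFRM st_IDL st_IDV st_LEV

/-- The theorem of block J for pairs. -/
theorem st_J : St_J := jJ ZL.st_UPB st_KIT (jSGA jFRM) st_GEN st_DEN

end Pool.Agent.Lib.NV6.J.P
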