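import Pool.Agent.Lib.S5.R5b
import Pool.Agent.Lib.S5.PJ

/-! Project S5: block R for a pair with boundary. -/

open scoped Classical Topology ContDiff ENNReal
open Set MeasureTheory Complex Metric Filter

set_option linter.unusedVariables false

noncomputable section

namespace Pool.Agent.Lib.R6.P

open Pool.Agent.Lib.SV (E nsq)
open Pool.Agent.Lib.HS32 Pool.Agent.Lib.EX Pool.Agent.Lib.EXS Pool.Agent.Lib.ZL
open Pool.Agent.Lib.ZQ (HqO HqC offz)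
open Pool.Agent.Lib.NV5 (Rg Sb_KIT FM VF Hg dv)
open Pool.Agent.Lib.NV6.J (Rk Se Wz Nj pv qt bt)
open Pool.Agent.Lib.NV6.J.P (Md)

section defs

variable {n : ℕ} {M : Mf n} {ι : Type} [Fintype ι] [DecidableEq ι] {D : Ad M ι} (X : Cx D)

/-- The weights of Theorem Z for the class `lam`, with fixed part `κ`. -/
structure Zw (a : ℕ) (lam κ : ι → ℤ) : Prop where
  a0 : 0 < a
  lo : ∀ i, (lam i : ℝ) / a < X.o i + 1
  k0 : ∀ i, 0 ≤ κ i
  hi : ∀ i, X.o i - lam i / a ≤ κ i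
  zo : ∀ N₀ : ℕ, 0 < N₀ → ∀ (O : Set M.X) (T : M.X → ℝ) (C : ℝ), O ⊆ off D →
    (∀ᵐ x ∂X.μ, x ∈ O) →
    (∀ x ∈ O, 0 ≤ T x ∧ T x ≤ C * Real.exp (-lw D (fun i => (N₀ * lam i : ℤ)) x)) →
    ∀ N : ℕ, 0 < N → ∃ C A : ℝ, ∀ ε > (0 : ℝ), ∃ ρ,
      Wz X (fun i => N * (N₀ * lam i) + κ i) (fun x => T x ^ N) C A ε ρ

variable {X} in
theorem Zw.of {a : ℕ} {lam κ : ι → ℤ} (z : R6.Zw X a lam κ) : Zw X a lam κ :=
  ⟨z.a0, fun i => (z.lo i).trans_lt (lt_add_one _), fun i => by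
    have : (0 : ℝ) ≤ κ i := by linarith [z.lo i, z.hi i]
    exact_mod_cast this, z.hi, z.zo⟩

end defs

/-- The model. -/
def St_MD : Prop := ∀ (n : ℕ) (M : Mf n) [M.Cpt] (ι : Type) [Fintype ι] [DecidableEq ι]
  (D : Ad M ι) (X : Cx D) (a₀ N r r₁ r₂ e : ℕ) (lam κ P : ι → ℤ) (a : Fin (r₁ + 1) → M.X → ℂ)
  (b : Fin (r₂ + 1) → M.X → ℂ) (ε : Fin r ≃ Fin (r₁ + 1) × Fin (r₂ + 1)) (g : M.X → ℂ)
  (Q : MvPolynomial (Fin r) ℂ), Hall X → Zw X a₀ lam κ → 0 < N →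
  (∀ i, Sp D (fun s => N * lam s + P s) (a i)) → (∀ j, Sp D P (b j)) →
  Es X (fun i => N * lam i) κ P a b ε g e Q →
  ∃ b₀, Md X (N * a₀) e (fun i => N * lam i) κ g (fun i => N * lam i + 2 * P i)
    (fun β y => a (ε β).1 y * b (ε β).2 y) (fun β y => a (ε β).1 y ^ 2) b₀

/-- The theorem of block R with both bounds. -/
def St_R5b : Prop := ∀ (n : ℕ) (M : Mf n) [M.Cpt] (ι : Type) [Fintype ι] [DecidableEq ι]
  (D : Ad M ι) (X : Cx D) (r : ℕ) (t : Fin r → M.X → ℂ) (F : Type) [Field F] [Algebra ℂ F]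
  (Φ : FM D F) (V : VF n F) (m : ι → V.P → ℤ) (π : Hg D → V.P) (k : IntermediateField ℂ F)
  (a₀ : ℕ) (lam κ : ι → ℤ) (τ : F), Prj X t → Zw X a₀ lam κ → Φ.Br V m π → Fb V m k lam κ τ →
  ∃ (N r₁ r₂ : ℕ) (P : ι → ℤ) (a : Fin (r₁ + 1) → M.X → ℂ) (b : Fin (r₂ + 1) → M.X → ℂ), 0 < N ∧
    Ab D Φ k (τ ^ N) (fun i => N * lam i) P a b ∧ Lu D Φ k (τ ^ N) (fun i => N * lam i) a b ∧
    (∀ Q, Wr V m k lam Q τ → (∀ j : ℕ, Gens D fun i => j * lam i + Q i) →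
      Lw D (fun i => N * lam i) a b) ∧
    ∀ (r' : ℕ) (ε : Fin r' ≃ Fin (r₁ + 1) × Fin (r₂ + 1)), ∃ g e b₀,
      (∃ C, ∀ x ∈ offz D g,
        nsq (a · x) ≤ C * Real.exp (-lw D (fun i => (N * lam i : ℤ)) x) * nsq (b · x)) ∧
      Md X (N * a₀) e (fun i => N * lam i) κ g (fun i => N * lam i + 2 * P i)
        (fun β y => a (ε β).1 y * b (ε β).2 y) (fun β y => a (ε β).1 y ^ 2) b₀ ∧
      Rk X g (fun i => N * lam i + 2 * P i) (fun β y => a (ε β).1 y * b (ε β).2 y)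
        fun i => N * lam i + κ i

open MD in
theorem rMD (hJK : NV6.J.St_KIT) (hF : NV6.J.St_FRM) (hU : St_UPB) (hN : Sb_KIT) : St_MD := by
  intro n M _ ι _ _ D X a₀ N r r₁ r₂ e lam κ P a b ε g Q hH hZ N0 sa sb hE
  obtain ⟨-, -, k3, -⟩ := hN n M ι D
  obtain ⟨Qg, hg⟩ := hE.rg
  have g1 : HoO D g := ((hU n M ι D Qg).1 g hg.1).1
  obtain ⟨g2, g3⟩ := hH g g1 hE.ne
  have sh : ∀ β, Sp D (fun i => N * lam i + 2 * P i) fun y => a (ε β).1 y * b (ε β).2 y := by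
    intro β
    have h1 := k3 _ _ _ _ (sa (ε β).1) (sb (ε β).2)
    have e1 : (fun s => N * lam s + P s) + P = fun i => N * lam i + 2 * P i := by
      funext i
      simp only [Pi.add_apply]
      ring
    rwa [e1] at h1
  obtain ⟨b₀, sb₀, eb₀⟩ := ((hJK n M ι D X (off D) (ZQ.off_open D) Subset.rfl
    (g2.mono fun x hx => hx.1)).2.2.2.2.2.2.2.2.2.2.2.2.2.2 r _ _ sh).2.2 e Q hE.hom
  have pa : ∀ x ∈ offz D g, 0 < nsq (a · x) := fun x hx => np (hE.hne x hx).1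
  have pb : ∀ x ∈ offz D g, 0 < nsq (b · x) := fun x hx => np (hE.hne x hx).2.1
  have a0 : (0 : ℝ) < a₀ := Nat.cast_pos.2 hZ.a0
  have n0' : (0 : ℝ) < N := Nat.cast_pos.2 N0
  have ed : ∀ i, (((N : ℤ) * lam i : ℤ) : ℝ) / ((N * a₀ : ℕ) : ℝ) = lam i / a₀ := by
    intro i
    push_cast
    field_simp
  have q1 : ∃ C, ∀ x ∈ offz D g, qt (fun β y => a (ε β).1 y ^ 2)
      (fun β y => a (ε β).1 y * b (ε β).2 y) x ≤
        C * Real.exp (-lw D (fun i => ((N : ℤ) * lam i : ℤ)) x) := by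
    obtain ⟨C, hC⟩ := hE.r1
    refine ⟨(r₂ + 1) * C, fun x hx => ?_⟩
    have h1 := w_up ε (a · x)
    have h2 := mul_le_mul_of_nonneg_left (hC x hx) (pa x hx).le
    have h3 := mul_le_mul_of_nonneg_left h2 (show (0 : ℝ) ≤ r₂ + 1 by positivity)
    unfold qt
    rw [nh ε (a · x) (b · x), div_le_iff₀ (mul_pos (pa x hx) (pb x hx))]
    refine h1.trans (le_trans (le_of_eq (by ring)) (h3.trans (le_of_eq (by ring))))
  refine ⟨b₀, ⟨g1, hE.ne, g2, g3, sh, fun x hx => ?_⟩, Nat.mul_pos N0 hZ.a0, fun i => ?_,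
    hZ.k0, fun i => ?_, fun N' hN' => ?_, ⟨Qg, hg⟩, fun x hx => ?_, fun β => ?_, sb₀, q1, ?_, ?_, ?_⟩
  · rw [nh ε (a · x) (b · x)]
    exact mul_pos (pa x hx) (pb x hx)
  · rw [ed]
    exact hZ.lo i
  · rw [ed]
    exact hZ.hi i
  · obtain ⟨C, hC⟩ := q1
    exact hZ.zo N N0 (offz D g) _ C (fun x hx => hx.1) g2
      (fun x hx => ⟨div_nonneg (n0 _) (n0 _), hC x hx⟩) N' hN'
  · obtain ⟨h1, h2, h3⟩ := hE.hne x hx
    exact ⟨fun β => mul_ne_zero (h1 _) (h2 _), fun β => pow_ne_zero _ (h1 _),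
      by rw [eb₀ x hx.1]; exact h3⟩
  · have h1 := k3 _ _ _ _ (sa (ε β).1) (sa (ε β).1)
    have e1 : ((fun s => N * lam s + P s) + fun s => N * lam s + P s) =
        fun i => N * lam i + (N * lam i + 2 * P i) := by
      funext i
      simp only [Pi.add_apply]
      ring
    rwa [e1, ← sq] at h1
  · refine ⟨r₂ + 1, fun x hx β => ?_⟩
    have h1 := w_up ε (a · x)
    have h2 := pow_le_pow_left₀ (normSq_nonneg _) (le1 (b · x) (ε β).2) 2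
    have h3 := mul_le_mul h1 (mul_le_mul_of_nonneg_left h2 (sq_nonneg (normSq (a (ε β).1 x))))
      (by positivity) (by positivity)
    rw [nh ε (a · x) (b · x), map_mul, map_pow]
    refine le_trans (le_of_eq (by ring)) (h3.trans (le_of_eq (by ring)))
  · obtain ⟨C, hC⟩ := ((hF M.X r univ fun β y => a (ε β).1 y * b (ε β).2 y).2.2 e Q hE.hom).2
    refine ⟨C, fun x hx => ?_⟩
    unfold bt
    rw [eb₀ x hx.1, div_le_iff₀ (pow_pos (by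
      rw [nh ε (a · x) (b · x)]
      exact mul_pos (pa x hx) (pb x hx)) _)]
    exact hC _
  · intro N' c s hN' hs
    obtain ⟨C, hC⟩ := hE.r2 N' c s hN' hs
    refine ⟨|C| * (r₁ + 1) ^ N', fun x hx => ?_⟩
    unfold bt qt
    rw [eb₀ x hx.1, nh ε (a · x) (b · x)]
    exact fin (pa x hx) (pb x hx) (w_lo ε (a · x)) (by positivity) (hC x hx)

/-- The theorem of block R with both bounds. -/
theorem st_R5b : St_R5b := by
  intro n M _ ι _ _ D X r t F _ _ Φ V m π k a₀ lam κ τ hP hZ hB hF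
  obtain ⟨N, r₁, r₂, P, a, b, hN, hA, ⟨pt, U, hpt, hU, H⟩, h⟩ := R5.core0 X hP hB hF
  refine ⟨N, r₁, r₂, P, a, b, hN, hA, R5.lu X hpt hF.τ0 hU hA H,
    fun Q hW hG => R5.low X hB hpt hF.τ0 hU hA H hW hG, fun r' ε => ?_⟩
  obtain ⟨g, e, Q, hE⟩ := h r' ε
  obtain ⟨b₀, hM⟩ := rMD st_JKIT NV6.J.jFRM ZL.st_UPB NV5.st_bKIT n M ι D X a₀ N r' r₁ r₂ e lam κ P
    a b ε g Q hP.hall hZ hN (fun i => (hA.sa i).1) (fun j => (hA.sb j).1) hE
  exact ⟨g, e, b₀, hE.r1, hM,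
    (st_ONE n M ι D X F Φ V m π k lam κ P τ N r' r₁ r₂ a b ε hB hF hN hA).2 g hE.rg hE.ne⟩

end Pool.Agent.Lib.R6.P
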