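import Pool.Agent.Lib.S5.Sig
import Pool.Agent.Lib.S5.B_END
import Pool.Agent.Lib.S5.PR
import Pool.Agent.Lib.S5.PG

/-! Project S5: steps seven to ten for a pair with boundary. -/

open scoped Classical Topology ContDiff ENNReal
open Set MeasureTheory Complex Metric Filter

noncomputable section

namespace Pool.Agent.Lib.S5.P

open Pool.Agent.Lib.SV (E nsq nsq_nonneg)
open Pool.Agent.Lib.HS32 Pool.Agent.Lib.EX Pool.Agent.Lib.EXS Pool.Agent.Lib.ZL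
open Pool.Agent.Lib.ZQ (HqO offz)
open Pool.Agent.Lib.NV5 (FM Rg)
open Pool.Agent.Lib.NV6
open Pool.Agent.Lib.R6 (Prj Ab)

section model

open Pool.Agent.Lib.NV6.J

namespace S7

variable {n : ℕ} {M : Mf n} [M.Cpt] {ι : Type} [Fintype ι] [DecidableEq ι] {D : Ad M ι}
  {X : Cx D} {r d k : ℕ} {g : M.X → ℂ} {L κ P : ι → ℤ} {h W : Fin r → M.X → ℂ} {b : M.X → ℂ}

/-- Multiplication by a section raises the level. -/
theorem mul (md : J.P.Md X d k L κ g P h W b) {j c : ℕ} (hj : 0 < j) {s F : M.X → ℂ}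
    (hs : Sp D (fun i => j * L i) s) (hF : F ∈ Id X d k L κ P h W b 1 c) :
    s * F ∈ Id X d k L κ P h W b (j + 1) c := by
  obtain ⟨h1, u, hu, h2⟩ := hF
  obtain ⟨k1, -, k3, -⟩ := NV5.st_bKIT n M ι D
  have hO : IsOpen (offz D g) := ZQ.HO.offz_open (oa_iff.1 md.hol)
  obtain ⟨-, -, -, -, -, -, -, -, -, -, -, -, -, kI, -⟩ :=
    J.st_KIT n M ι D X (offz D g) hO (fun x hx => hx.1) md.ae
  obtain ⟨i1, -, -⟩ := J.P.st_IDL n M ι D X r d k g L κ P h W b md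
  have κ0 := md.k0
  obtain ⟨i, hi⟩ := exists_nat_one_div_lt (half_pos hu.1)
  have p1 : Sp D (fun a => ((i + 1) * j : ℕ) * L a + κ a) (s ^ (i + 1)) :=
    k1 _ _ _ (fun a => by
      have := κ0 a
      push_cast
      nlinarith) (S5.S7.sp_pow hs i)
  obtain ⟨C0, hC0⟩ := (ZL.st_UPB n M ι D _).2.2.2.2.1 _ p1.1
  obtain ⟨-, -, w1, w2, -, w3, -⟩ := ZL.bPW n M ι D
  obtain ⟨C, hC⟩ := md.r2 ((i + 1) * j) 0 (s ^ (i + 1)) (Nat.mul_pos i.succ_pos hj)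
    ⟨by simpa using p1, (kI _ (fun x => Real.exp (lw D (-X.o) x)) C0 fun x hx =>
      ⟨(Real.exp_pos _).le, by
        have e := w2 (fun a => ((((i + 1) * j : ℕ) * L a + κ a : ℤ) : ℝ)) X.o x
        rw [pow_zero, div_one, neg_neg, w3]
        refine (mul_le_mul_of_nonneg_right (hC0 x hx.1) (Real.exp_pos _).le).trans (le_of_eq ?_)
        rw [mul_assoc, ← Real.exp_add]
        exact congrArg (C0 * Real.exp ·) (by rw [show (fun a => ((((i + 1) * j : ℕ) * L a +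
          κ a : ℤ) : ℝ) - X.o a) = _ - X.o from rfl, e]; ring)⟩).2
      ((ZL.st_MU n M ι D X).2.2.2.1 _ fun a => by simp)⟩
  obtain ⟨C2, hC2⟩ := md.rb
  refine ⟨k1 _ _ _ (fun a => le_of_eq ?_) (k3 _ _ _ _ hs h1), u / 2,
    ⟨half_pos hu.1, (half_le_self hu.1.le).trans hu.2⟩, (kI _ _ (max C 0 ^ ((i + 1 : ℕ) : ℝ)⁻¹ *
      C2 ^ (u / 2 - ((i + 1 : ℕ) : ℝ)⁻¹)) fun x hx =>
        ⟨mul_nonneg (normSq_nonneg _) ((i1 x hx).2.2 1 u c).le, ?_⟩).2 h2⟩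
  · simp only [Pi.add_apply]
    push_cast
    ring
  obtain ⟨hT, hB, -⟩ := i1 x hx
  have h3 := S5.S7.root (y := normSq (s x) / qt W h x ^ j) (C := C)
    (div_nonneg (normSq_nonneg _) (pow_pos hT j).le) hB (hC2 x hx) i.succ_pos
    (u := u / 2) (by rw [← one_div]; exact_mod_cast hi.le) (by
      have := hC x hx
      rw [pow_zero, mul_one, zero_add, pow_one, Pi.pow_apply, map_pow] at this
      rwa [div_pow, div_mul_eq_mul_div, div_le_iff₀ (pow_pos (pow_pos hT j) _), ← pow_mul,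
        mul_comm j])
  have e1 : bt h k b x ^ (-u) = bt h k b x ^ (-(u / 2)) * bt h k b x ^ (-(u / 2)) := by
    rw [← Real.rpow_add hB]
    exact congrArg _ (by ring)
  have h4 := mul_le_mul_of_nonneg_right h3 (mul_nonneg (normSq_nonneg (F x)) (div_pos (mul_pos
    (Real.rpow_pos_of_pos hT ((1 : ℝ) / d - (1 : ℕ))) (Real.rpow_pos_of_pos hB (-(u / 2))))
    (pow_pos (md.pos x hx) c)).le)
  have h5 := (pow_pos hT j).ne'
  unfold om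
  rw [e1, Pi.mul_apply, map_mul]
  refine le_trans (le_of_eq ?_) (h4.trans (le_of_eq (by ring)))
  rw [LEVk.lev hT _ j]
  field_simp

/-- The generators, with the multiples of the sections. -/
theorem gen (md : J.P.Md X d k L κ g P h W b) : ∃ (c m : ℕ) (C : Fin m → M.X → ℂ), 0 < m ∧
    (∀ i, Se X P h (fun i => L i + κ i) c (C i) ∧ C i ≠ 0) ∧ Gq (D := D) g h W C ∧
    ∀ j : ℕ, 0 < j → ∀ s, Sp D (fun i => j * L i) s → ∀ a l,
      Cb (offz D g) h j C fun x => s x * C l x * h a x ^ (2 * j) / W a x ^ j := by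
  obtain ⟨-, -, hI⟩ := J.P.st_IDL n M ι D X r d k g L κ P h W b md
  have hc : 4 * r + k + 1 < 4 * r + 1 + (k + 1) := by omega
  have key : ∀ N : ℕ, 0 < N → ∃ (m : ℕ) (s : Fin m → M.X → ℂ),
      (∀ j, s j ∈ Id X d k L κ P h W b N (4 * r + 1 + (k + 1)) ∧ s j ≠ 0) ∧
      ∀ q, ∀ F ∈ Id X d k L κ P h W b N (4 * r + 1 + (k + 1) + q), ∀ f : M.X → ℂ,
        (∀ x ∈ offz D g, F x = f x) → Cb (offz D g) h q s f := fun N hN => by
    obtain ⟨S, hS, e⟩ := (hI N (4 * r + 1 + (k + 1)) hN).2.2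
    obtain ⟨m, s, h1, h2⟩ := (jFRM M.X r (offz D g) h).1 S hS
    refine ⟨m, s, fun j => ⟨e ▸ (h1 j).1, (h1 j).2⟩, fun q F hF f hf => ?_⟩
    obtain ⟨R, r1, r2⟩ := h2 q F (e ▸ J.P.st_IDV n M ι D X r d k g L κ P h W b N _ q md hN hc F hF)
    exact ⟨R, r1, fun x hx => (hf x hx).symm.trans (r2 x hx)⟩
  have hL := J.P.st_LEV n M ι D X r d k g L κ P h W b md
  obtain ⟨m, C, c1, c2⟩ := key 1 one_pos
  refine ⟨4 * r + 1 + (k + 1), m, C, ?_, fun i => ⟨?_, (c1 i).2⟩, fun q => ?_,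
    fun j hj s hs a l => ?_⟩
  · obtain ⟨F, hF, x, hx, h0⟩ := (hL (4 * r + 1) 0).2.2
    obtain ⟨R, -, hR⟩ := c2 0 F hF F fun _ _ => rfl
    rcases Nat.eq_zero_or_pos m with rfl | hm
    · exact (h0 (by simpa using hR x hx)).elim
    · exact hm
  · simpa using (hI 1 _ one_pos).2.1 _ (c1 i).1
  · obtain ⟨m', s, s1, s2⟩ := key (q + 1) q.succ_pos
    refine ⟨m', s, fun j => ((ZL.st_UPB n M ι D _).1 _ (s1 j).1.1.1).1,
      fun a => ⟨fun j => ?_, fun i => ?_⟩⟩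
    · obtain ⟨F, hF, e⟩ := (hL _ q).2.1 a _ (s1 j).1
      exact c2 q F hF _ e
    · obtain ⟨F, hF, e⟩ := (hL _ q).1 a _ (c1 i).1
      exact s2 q F hF _ e
  · obtain ⟨F, hF, e⟩ := (hL _ j).2.1 a _ (mul md hj hs (c1 l).1)
    exact c2 j F hF _ e

/-- The theorem of block J, with the multiples of the sections. -/
theorem jj (hM : J.P.Md X d k L κ g P h W b) (hR : Rk X g P h fun i => L i + κ i) :
    ∃ (m e : ℕ) (Q : Fin m → MvPolynomial (Fin r) ℂ) (g' : M.X → ℂ), 0 < m ∧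
    (∀ i, (Q i).IsHomogeneous e) ∧ (∃ R, Sp D R g') ∧ (∃ x ∈ off D, g' x ≠ 0) ∧
    offz D g' ⊆ offz D g ∧ (∀ x ∈ offz D g', ∀ i, pv h (Q i) x ≠ 0) ∧
    (∀ (r' : ℕ) (ε : Fin r' ≃ Fin r × Fin m), Nf (D := D) (offz D g')
      (fun β y => h (ε β).1 y * pv h (Q (ε β).2) y) fun β y => W (ε β).1 y * pv h (Q (ε β).2) y) ∧
    ∀ j : ℕ, 0 < j → ∀ s, Sp D (fun i => j * L i) s → ∀ a l, Cb (offz D g') h j (fun i => pv h (Q i))
      fun x => s x * pv h (Q l) x * h a x ^ (2 * j) / W a x ^ j := by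
  obtain ⟨c, m, C, m0, hC, hq, hs⟩ := gen hM
  obtain ⟨e, Q, g', τ, hQ, ⟨R, hg'⟩, g0, sub, hτ, hx⟩ :=
    J.st_DEN n M ι D X r c m g P _ h C hM.toFr hM.rg hR m0 hC
  refine ⟨m, e, Q, g', m0, hQ, ⟨R, hg'⟩, g0, sub, fun x h' i => ((hx x h').2 i).1,
    fun r' ε q => ?_, fun j hj s h1 a l => ?_⟩
  · obtain ⟨m', s, hs, hq⟩ := hq q
    obtain ⟨o1, o2, o3⟩ := ae_offz X ((ZL.st_UPB n M ι D R).1 g' hg'.1).1 g0
    obtain ⟨k1, k2, -, k4, -⟩ := J.st_KIT n M ι D X _ o1 o2 o3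
    have cb : ∀ {m : ℕ} {s : Fin m → M.X → ℂ} {f},
        Cb (offz D g) h q s f → Cb (offz D g') h q s f :=
      fun ⟨R, h1, h2⟩ => ⟨R, h1, fun x h' => h2 x (sub h')⟩
    refine ⟨m' * r,
      fun j y => s (finProdFinEquiv.symm j).1 y * h (finProdFinEquiv.symm j).2 y / τ y,
      fun j => (k4 _ _ (k4 _ _ (k1 _ (hs _)) (k2 _ _ (hM.sp _)).1).2.2.1 hτ).2.2.2.2
        fun x h' => (hx x h').1, ?_⟩
    exact jSGA jFRM M.X r m _ h W C (fun i => pv h (Q i)) τ q m' s r' _ ε finProdFinEquiv.symm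
      (fun x h' => ⟨(hx x h').1, (hM.hne x (sub h')).2.1, fun i => ((hx x h').2 i).2⟩)
      fun a => ⟨fun j => cb ((hq a).1 j), fun i => cb ((hq a).2 i)⟩
  · obtain ⟨R, r1, r2⟩ := hs j hj s h1 a l
    refine ⟨R, r1, fun x h' => mul_left_cancel₀ (hx x h').1 ?_⟩
    have := r2 x (sub h')
    simp only [fun i => ((hx x h').2 i).2] at this
    rw [Finset.mul_sum]
    refine Eq.trans (by ring) (this.trans (Finset.sum_congr rfl fun i _ => by ring))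

end S7

/-- The final model, with the sections of the manifold as regular sections. -/
def St_NEW : Prop := ∀ (n : ℕ) (M : Mf n) [M.Cpt] (ι : Type) [Fintype ι] [DecidableEq ι]
  (D : Ad M ι) (X : Cx D) (F : Type) [Field F] [Algebra ℂ F] (Φ : FM D F)
  (k : IntermediateField ℂ F) (T : F) (r r₁ r₂ d e : ℕ) (L κ P : ι → ℤ) (g b₀ : M.X → ℂ)
  (ε : Fin r ≃ Fin (r₁ + 1) × Fin (r₂ + 1)) (a : Fin (r₁ + 1) → M.X → ℂ)
  (b : Fin (r₂ + 1) → M.X → ℂ), T ≠ 0 → Ab D Φ k T L P a b →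
  J.P.Md X d e L κ g (fun i => L i + 2 * P i) (fun β y => a (ε β).1 y * b (ε β).2 y)
    (fun β y => a (ε β).1 y ^ 2) b₀ →
  Rk X g (fun i => L i + 2 * P i) (fun β y => a (ε β).1 y * b (ε β).2 y) (fun i => L i + κ i) →
  ∃ (I J : Type) (_ : Fintype I) (_ : Fintype J) (_ : Nonempty I) (_ : Nonempty J)
    (g' : M.X → ℂ) (a' : I → M.X → ℂ) (b' : J → M.X → ℂ) (Z : Set (I × J → ℂ)) (P' : ι → ℤ)
    (u : M.X → ℝ), Rg D g' ∧ HoO D g' ∧ (∃ x ∈ off D, g' x ≠ 0) ∧ offz D g' ⊆ offz D g ∧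
    (∀ i, Ho D (offz D g') (a' i)) ∧ (∀ j, Ho D (offz D g') (b' j)) ∧
    (∀ x ∈ offz D g', (∀ i, a' i x ≠ 0) ∧ ∀ j, b' j x ≠ 0) ∧
    (∀ x ∈ offz D g', 0 < u x ∧ nsq (a' · x) = nsq (a · x) * u x ∧
      nsq (b' · x) = nsq (b · x) * u x) ∧
    Mdl Z 1 ∧ (∀ x ∈ offz D g', sg ((a' · x), (b' · x)) ∈ Z) ∧
    (∀ α : I × J, Sp D P' (fun y => a' α.1 y * b' α.2 y) ∧ ∀ β : I × J,
      Φ.ev (fun y => a' α.1 y * b' α.2 y) / Φ.ev (fun y => a' β.1 y * b' β.2 y) ∈ k) ∧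
    ∀ j : ℕ, 0 < j → ∀ s, Sp D (fun i => j * L i) s →
      ∃ S, Sec Z j 0 S ∧ ∀ x ∈ offz D g', s x = S ((a' · x), (b' · x))

theorem new_of (hE : NV6.St_EXT) (hD : St_DIC) : St_NEW := by
  intro n M _ ι _ _ D X F _ _ Φ k T r r₁ r₂ d e L κ P g b₀ ε a b T0 ab md rk
  obtain ⟨m, e', Q, g', m0, hQ, ⟨R, hg'⟩, ⟨x₀, x1, x2⟩, sub, hne, hN, hs⟩ := S7.jj md rk
  have hg := ((ZL.st_UPB n M ι D R).1 g' hg'.1).1
  obtain ⟨o1, o2, o3⟩ := J.ae_offz X hg ⟨x₀, x1, x2⟩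
  obtain ⟨-, k2, -, k4, -, k6, -⟩ := J.st_KIT n M ι D X _ o1 o2 o3
  have nz : ∀ x ∈ offz D g', ∀ i j, a i x ≠ 0 ∧ b j x ≠ 0 := fun x hx i j => by
    have := (md.hne x (sub hx)).1 (ε.symm (i, j))
    rwa [Equiv.apply_symm_apply, mul_ne_zero_iff] at this
  have hp := (k6 r _ fun β => (k2 _ _ (md.sp β)).1).1
  replace hN := hN _ (finProdFinEquiv (m := r) (n := m)).symm
  obtain ⟨u, hu⟩ : ∃ u : Fin m → M.X → ℂ,
    ∀ l, u l = pv (fun β y => a (ε β).1 y * b (ε β).2 y) (Q l) := ⟨_, fun _ => rfl⟩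
  have hu' : ∀ l, Ho D (offz D g') (u l) := fun l => hu l ▸ hp _
  obtain ⟨P', hP'⟩ := hD n M ι D F Φ k T L P r r₁ r₂ m e' a b ε Q u T0 ab hQ hu
  simp only [← hu] at hN hne hs
  let l : Fin m := ⟨0, m0⟩
  have mdl := J.brg hE (a := a) (b := b) (Q := u) (h := fun β y => a (ε β).1 y * b (ε β).2 y)
    (W := fun β y => a (ε β).1 y ^ 2) ε _ (fun _ _ _ => ⟨rfl, rfl⟩)
    (fun x hx i => (nz x hx i 0).1) (fun x hx j => (nz x hx 0 j).2) hne hN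
  have mem := (cHOM.clo fun x : offz D g' => sg (fun p : Fin (r₁ + 1) × Fin m => a p.1 x * u p.2 x,
    fun p : Fin (r₂ + 1) × Fin m => b p.1 x * u p.2 x)).2.1
  have ex := fun (j : ℕ) (hj : 0 < j) s (h1 : Sp D (fun i => j * L i) s) =>
    S5.S7.ext ε (0, l) (0, l) (fun x hx i => (nz x hx i 0).1) (fun x hx j => (nz x hx 0 j).2) hne
      (hs j hj s h1)
  generalize Clo (O := offz D g') _ = Z at mdl mem ex
  exact ⟨Fin (r₁ + 1) × Fin m, Fin (r₂ + 1) × Fin m, inferInstance, inferInstance, ⟨(0, l)⟩,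
    ⟨(0, l)⟩, g', fun p y => a p.1 y * u p.2 y, fun p y => b p.1 y * u p.2 y, Z, P',
    fun x => nsq (u · x), ⟨R, hg'⟩, hg, ⟨x₀, x1, x2⟩, sub,
    fun p => (k4 _ _ (k2 _ _ (ab.sa _).1).1 (hu' _)).2.2.1,
    fun p => (k4 _ _ (k2 _ _ (ab.sb _).1).1 (hu' _)).2.2.1,
    fun x hx => ⟨fun p => mul_ne_zero (nz x hx _ 0).1 (hne x hx _),
      fun p => mul_ne_zero (nz x hx 0 _).2 (hne x hx _)⟩,
    fun x hx => ⟨Finset.sum_pos (fun i _ => normSq_pos.2 (hne x hx i)) ⟨l, Finset.mem_univ _⟩,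
      GNEW.nsq_prod (a · x) (u · x), GNEW.nsq_prod (b · x) (u · x)⟩, mdl,
    fun x hx => mem ⟨x, hx⟩, hP', fun j hj s h1 =>
      (ex j hj s h1).imp fun S h => ⟨h.1, fun x hx => (h.2 x hx).symm⟩⟩

theorem st_NEW : St_NEW := new_of (cEXT cHOM) (gDIC NV5.st_bKIT NV5.st_bFN)

end model

open Pool.Agent.Lib.NV6.J (Ho Rk)

/-- The sections `σ` of `N L` generate the reference metric in the sense of integrability. -/
structure Sig {n : ℕ} {M : Mf n} {ι : Type} [Fintype ι] [DecidableEq ι] {D : Ad M ι} (X : Cx D)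
    (L κ : ι → ℤ) {I J : Type} [Fintype I] [Fintype J] (a : I → M.X → ℂ) (b : J → M.X → ℂ)
    (N : ℕ) {r : ℕ} (σ : Fin r → M.X → ℂ) (g : M.X → ℂ) (x : ℝ) (th : ι → ℝ) : Prop where
  N0 : 0 < N
  x0 : 0 ≤ x
  sp : ∀ l, Sp D (fun i => N * L i) (σ l)
  rg : Rg D g
  hol : HoO D g
  ne : ∃ y ∈ off D, g y ≠ 0
  pos : ∀ y ∈ offz D g, 0 < nsq (a · y) ∧ 0 < nsq (b · y) ∧ 0 < nsq (σ · y)
  lo : ∀ i, x * L i < th i + X.o i + 1
  hi : ∀ i, th i + X.o i ≤ x * L i + κ i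
  int : ∀ t : ℕ, X.I (fun y => Real.exp (lw D th y) * (nsq (a · y) / nsq (b · y)) ^ x *
    ((nsq (a · y) / nsq (b · y)) ^ N / nsq (σ · y)) ^ t) ≠ ⊤

/-- Base point freeness on the model, read on the manifold. -/
def St_SIG : Prop := ∀ (n : ℕ) (M : Mf n) [M.Cpt] (ι : Type) [Fintype ι] [DecidableEq ι]
  (D : Ad M ι) (X : Cx D) (r : ℕ) (t : Fin r → M.X → ℂ) (F : Type) [Field F] [Algebra ℂ F]
  (Φ : FM D F) (k : IntermediateField ℂ F) (T : F) (N d e r' r₁ r₂ : ℕ) (lam κ P : ι → ℤ)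
  (g b₀ : M.X → ℂ) (ε : Fin r' ≃ Fin (r₁ + 1) × Fin (r₂ + 1)) (a : Fin (r₁ + 1) → M.X → ℂ)
  (b : Fin (r₂ + 1) → M.X → ℂ), Prj X t → T ≠ 0 → 0 < N →
  Ab D Φ k T (fun i => N * lam i) P a b →
  (∃ C, ∀ x ∈ offz D g,
    nsq (a · x) ≤ C * Real.exp (-lw D (fun i => (N * lam i : ℤ)) x) * nsq (b · x)) →
  J.P.Md X d e (fun i => N * lam i) κ g (fun i => N * lam i + 2 * P i)
    (fun β y => a (ε β).1 y * b (ε β).2 y) (fun β y => a (ε β).1 y ^ 2) b₀ →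
  Rk X g (fun i => N * lam i + 2 * P i) (fun β y => a (ε β).1 y * b (ε β).2 y)
    (fun i => N * lam i + κ i) → Dm D Φ k lam →
  (∀ j : ℕ, 0 < j → ∀ s, Sp D (fun i => j * (N * lam i) + κ i) s →
    Sp D (fun i => j * (N * lam i)) s) →
  ∃ (N₁ r₀ : ℕ) (σ : Fin r₀ → M.X → ℂ) (g₁ : M.X → ℂ) (x : ℝ) (th : ι → ℝ),
    Sig X (fun i => N * lam i) κ a b N₁ σ g₁ x th

theorem st_SIG : St_SIG := by
  intro n M _ ι _ _ D X r t F _ _ Φ k T N d e r' r₁ r₂ lam κ P g b₀ ε a b pr T0 N0 ab ⟨C, r1⟩ md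
    rk dm z0
  obtain ⟨I, J, _, _, _, _, g', a', b', Z, P', u, rg, hg, g0, sub, ha, hb, nz, hu, mdl, mem, hP,
    sec⟩ := st_NEW n M ι D X F Φ k T r' r₁ r₂ d e _ κ P g b₀ ε a b T0 ab md rk
  obtain ⟨hO, hs, -⟩ := NV6.J.ae_offz X hg g0
  obtain ⟨ae, hq⟩ := pr.hall g' hg g0
  obtain ⟨-, k2, -⟩ := NV6.J.st_KIT n M ι D X _ hO hs ae
  obtain ⟨x₀, h₀⟩ : (offz D g').Nonempty := g0
  obtain ⟨p, mp⟩ := gMP n M ι D (offz D g') _ _ Z _ _ hO hs ⟨x₀, h₀⟩ mdl.cone ha hb nz mem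
  obtain ⟨α₀⟩ : Nonempty (I × J) := inferInstance
  have n0 : ∀ x ∈ offz D g', a' α₀.1 x * b' α₀.2 x ≠ 0 :=
    fun x hx => mul_ne_zero ((nz x hx).1 α₀.1) ((nz x hx).2 α₀.2)
  obtain ⟨γ, Λ, B, γ0, hΛ, B0, dom⟩ := dm _ P' _ α₀ (fun α => (hP α).1)
    (fun c => n0 x₀ h₀ (congrFun c x₀)) fun α => (hP α).2 α₀
  obtain ⟨A, -⟩ := NV5.st_bAM n M ι D r X.e t pr.epos pr.kd pr.imm
  obtain ⟨H, hH⟩ := DM.dKAH n M ι D A
  obtain ⟨θ, θ0, hθ⟩ := gRHO NV6.J.st_KIT X md.lo hH.1.toMet one_ne_zero ENNReal.one_ne_top hO hs ae hq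
    (fun α => (k2 _ _ (hP α).1).1) α₀ n0 B0 fun j =>
      (dom j).imp fun s hs => ⟨hs.1, hs.2.1, fun α x _ => hs.2.2 α x⟩
  obtain ⟨ρ, ρ1, ρ2, ρ3, ρ4⟩ := hθ θ ⟨θ0, le_rfl⟩
  have en : ∀ x, nsq (fun α : I × J => a' α.1 x * b' α.2 x) = _ := fun x =>
    GAP.nsq_mul (a' · x) (b' · x)
  simp only [en] at ρ3 ρ4
  have N1 : (0 : ℝ) < N := Nat.cast_pos.2 N0
  obtain ⟨x, hx⟩ : ∃ x : ℝ, x = 1 / (d : ℝ) + θ * (γ / N) := ⟨_, rfl⟩
  have x0 : 0 ≤ x := by rw [hx]; positivity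
  have ex : ∀ i, x * ((N * lam i : ℤ) : ℝ) = θ * Λ i + ((N * lam i : ℤ) : ℝ) / d := fun i => by
    rw [hx, hΛ, add_mul, one_div_mul_eq_div, Int.cast_mul, Int.cast_natCast, mul_assoc θ,
      ← mul_assoc (γ / N), div_mul_cancel₀ _ N1.ne', add_comm]
  have lo : ∀ i, x * ((N * lam i : ℤ) : ℝ) < θ * Λ i + X.o i + 1 := fun i => by
    rw [ex]; linarith [md.lo i]
  have hi : ∀ i, θ * Λ i + X.o i ≤ x * ((N * lam i : ℤ) : ℝ) + κ i := fun i => by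
    rw [ex]; linarith [md.hi i]
  obtain ⟨ν, gd, vs, ⟨c, c0, c1, li⟩, pl⟩ := gGDV bPW ZL.st_MU st_UPB st_POG NV2.st_CHN st_SEC
    st_SPH st_ADM (gPUL st_SEC st_SPH) n M ι D X I J Z g' a' b' p ρ (fun i => N * lam i) κ
    (fun i => Λ i) _ x θ hg ⟨x₀, h₀⟩ ae mp x0 ρ1 ρ2 ρ3 ρ4
    ⟨C, fun y hy => by
      rw [(hu y hy).2.1, (hu y hy).2.2, ← mul_assoc]
      exact mul_le_mul_of_nonneg_right (r1 y (sub hy)) (hu y hy).1.le⟩ (fun i => (ex i).le) hi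
    fun j j0 s hs => sec j j0 s (z0 j j0 s hs)
  obtain ⟨N₁, N2, r₀, S, s1, s2, s3⟩ := st_THV I J Z 1 x θ ν 1 _ mdl x0 θ0 vs gd
  choose σ σ1 σ2 using fun l => pl N₁ (S l) (s1 l)
  obtain ⟨f, hf⟩ : ∃ f : Sph Z → ℝ, ∀ v, ∑ l, normSq (S l v.1) = f v := ⟨_, fun _ => rfl⟩
  have cf : Continuous f := (funext hf : _ = f) ▸ continuous_finsetSum _ fun l _ =>
    continuous_normSq.comp (st_SPH.cont (s1 l))
  have f0 : ∀ v, 0 ≤ f v := fun v => hf v ▸ Finset.sum_nonneg fun _ _ => normSq_nonneg _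
  simp only [hf] at s2
  have pa := fun y hy => (mp.eq y hy).1
  have pb := fun y hy => (mp.eq y hy).2.1
  have eT : ∀ y ∈ offz D g', nsq (a' · y) / nsq (b' · y) = nsq (a · y) / nsq (b · y) :=
    fun y hy => by rw [(hu y hy).2.1, (hu y hy).2.2, mul_div_mul_right _ _ (hu y hy).1.ne']
  have eσ : ∀ y ∈ offz D g', nsq (σ · y) = f (p y) * (nsq (a · y) / nsq (b · y)) ^ N₁ :=
    fun y hy => by
    rw [← hf, Finset.sum_mul, ← eT y hy]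
    refine Finset.sum_congr rfl fun l _ => ?_
    beta_reduce
    rw [σ2 l y hy, (((gPUL st_SEC st_SPH) n M ι D _ I J Z a' b' p mp).1 _ _ _ (s1 l)).2 y hy,
      Nat.cast_zero, zero_mul, add_zero, Real.exp_nat_mul,
      Real.exp_log (div_pos (pa y hy) (pb y hy))]
  have pT : ∀ y ∈ offz D g', 0 < nsq (a · y) / nsq (b · y) := fun y hy =>
    eT y hy ▸ div_pos (pa y hy) (pb y hy)
  obtain ⟨y₀, y1, y2⟩ := SIG.pt ae c0 li (T := {v | 0 < f v})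
    (measurableSet_lt measurable_const cf.measurable) s2
  obtain ⟨l₀, -, hl⟩ := Finset.exists_ne_zero_of_sum_ne_zero
    (eσ y₀ y1 ▸ (mul_pos y2 (pow_pos (pT y₀ y1) _)).ne' : nsq (σ · y₀) ≠ 0)
  obtain ⟨R, rg'⟩ := NV5.KITb.rmul rg ⟨_, σ1 l₀⟩
  have hg₁ := ((st_UPB n M ι D R).1 _ rg'.1).1
  have ne₁ : ∃ y ∈ off D, (g' * σ l₀) y ≠ 0 := ⟨y₀, y1.1, mul_ne_zero y1.2 (normSq_eq_zero.not.1 hl)⟩
  obtain ⟨-, -, ae₁⟩ := NV6.J.ae_offz X hg₁ ne₁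
  have sb : offz D (g' * σ l₀) ⊆ offz D g' := fun y hy => ⟨hy.1, left_ne_zero_of_mul hy.2⟩
  have pσ : ∀ y ∈ offz D (g' * σ l₀), 0 < nsq (σ · y) := fun y hy =>
    (normSq_pos.2 (right_ne_zero_of_mul hy.2)).trans_le (Finset.single_le_sum
      (f := fun l => normSq (σ l y)) (fun _ _ => normSq_nonneg _) (Finset.mem_univ l₀))
  obtain ⟨c₀, c2, c3⟩ := ρ3
  refine ⟨N₁, r₀, σ, g' * σ l₀, x, θ • fun i => (Λ i : ℝ), N2, x0, σ1, ⟨R, rg'⟩, hg₁, ne₁,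
    fun y hy => ⟨pos_of_mul_pos_left ((hu y (sb hy)).2.1 ▸ pa y (sb hy)) (hu y (sb hy)).1.le,
      pos_of_mul_pos_left ((hu y (sb hy)).2.2 ▸ pb y (sb hy)) (hu y (sb hy)).1.le, pσ y hy⟩, lo, hi,
    fun t => ?_⟩
  refine SIG.fin ae₁ c1 li c2 (w := fun y => Real.exp (θ * lw D (fun i => Λ i) y) *
    (nsq (a · y) / nsq (b · y)) ^ x) (fun y hy => ?_) (f := fun v => f v ^ (-(t : ℝ)))
    (cf.measurable.pow_const _) (fun v => Real.rpow_nonneg (f0 v) _) ?_ fun y hy => ?_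
  · have h1 := mul_pos (pa y (sb hy)) (pb y (sb hy))
    refine le_trans (le_of_eq ?_) (mul_le_mul_left (c3 y (sb hy)) _)
    rw [← ENNReal.ofReal_mul (by positivity), eT y (sb hy), Real.rpow_neg h1.le]
    have := (Real.rpow_pos_of_pos h1 θ).ne'
    congr 1
    field_simp
  · rcases t.eq_zero_or_pos with rfl | t0
    · exact (integrable_const (1 : ℝ)).congr (ae_of_all _ fun v => by simp)
    · exact (s3 t (Nat.cast_pos.2 t0)).congr (ae_of_all _ fun v => congrArg (· ^ _) (hf v))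
  · rw [(bPW n M ι D).2.2.2.2.1, eσ y (sb hy), div_mul_cancel_right₀ (pow_pos (pT y (sb hy)) _).ne',
      Real.rpow_neg (f0 _), Real.rpow_natCast, inv_pow]

theorem Sig.gens {n : ℕ} {M : Mf n} [M.Cpt] {ι : Type} [Fintype ι] [DecidableEq ι] {D : Ad M ι}
    {X : Cx D} {L κ : ι → ℤ} {I J : Type} [Fintype I] [Fintype J] {a : I → M.X → ℂ}
    {b : J → M.X → ℂ} {N r : ℕ} {σ : Fin r → M.X → ℂ} {g : M.X → ℂ} {x : ℝ} {th : ι → ℝ}
    (h : Sig X L κ a b N σ g x th) (lo : R6.Lw D L a b) : Gens D fun i => N * L i :=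
  E10.lwg X lo h.sp h.hol h.ne h.x0 h.pos h.int

end Pool.Agent.Lib.S5.P
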