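import Pool.Agent.Lib.S5.GBlue
import Pool.Agent.Lib.S5.PS

/-! Project S5, the core for a pair with boundary. -/

open scoped Classical

noncomputable section

namespace Pool.Agent.Lib.S5.P

open Pool.Agent.Lib.SV (nsq)
open Pool.Agent.Lib.HS32 Pool.Agent.Lib.EX Pool.Agent.Lib.EXS Pool.Agent.Lib.ZL
open Pool.Agent.Lib.ZQ (offz)
open Pool.Agent.Lib.NV5 (FM)
open Pool.Agent.Lib.NV6 (Dm)
open Pool.Agent.Lib.NV6.J (Rk)
open Pool.Agent.Lib.NV6.J.P (Md)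
open Pool.Agent.Lib.R6 (Prj Ab)

/-- The core: the sections with all negative moments. -/
def St_COR : Prop := ∀ (n : ℕ) (M : Mf n) [M.Cpt] (ι : Type) [Fintype ι] [DecidableEq ι]
  (D : Ad M ι) (X : Cx D) (r : ℕ) (t : Fin r → M.X → ℂ) (F : Type) [Field F] [Algebra ℂ F]
  (Φ : FM D F) (k : IntermediateField ℂ F) (a₀ N r₁ r₂ : ℕ) (lam κ P : ι → ℤ) (T : F)
  (a : Fin (r₁ + 1) → M.X → ℂ) (b : Fin (r₂ + 1) → M.X → ℂ), Prj X t → Dm D Φ k lam → 0 < N →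
  T ≠ 0 → 0 ≤ κ →
  (∀ j : ℕ, 0 < j → ∀ s, Sp D (fun i => j * lam i + κ i) s → Sp D (fun i => j * lam i) s) →
  Ab D Φ k T (fun i => N * lam i) P a b →
  (∀ (r' : ℕ) (ε : Fin r' ≃ Fin (r₁ + 1) × Fin (r₂ + 1)), ∃ g e b₀,
    (∃ C, ∀ x ∈ offz D g,
      nsq (a · x) ≤ C * Real.exp (-lw D (fun i => (N * lam i : ℤ)) x) * nsq (b · x)) ∧
    Md X (N * a₀) e (fun i => N * lam i) κ g (fun i => N * lam i + 2 * P i)
      (fun β y => a (ε β).1 y * b (ε β).2 y) (fun β y => a (ε β).1 y ^ 2) b₀ ∧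
    Rk X g (fun i => N * lam i + 2 * P i) (fun β y => a (ε β).1 y * b (ε β).2 y)
      fun i => N * lam i + κ i) →
  Mom X (fun i => N * lam i) fun y => nsq (a · y) / nsq (b · y)

theorem Sig.mom {n : ℕ} {M : Mf n} {ι : Type} [Fintype ι] [DecidableEq ι] {D : Ad M ι} {X : Cx D}
    {L κ : ι → ℤ} {I J : Type} [Fintype I] [Fintype J] {a : I → M.X → ℂ} {b : J → M.X → ℂ}
    {N r : ℕ} {σ : Fin r → M.X → ℂ} {g : M.X → ℂ} {x : ℝ} {th : ι → ℝ}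
    (h : Sig X L κ a b N σ g x th) : Mom X L fun y => nsq (a · y) / nsq (b · y) :=
  ⟨N, r, σ, g, x, th, h.N0, h.x0, h.sp, h.hol, h.ne, fun y hy =>
    ⟨div_pos (h.pos y hy).1 (h.pos y hy).2.1, (h.pos y hy).2.2⟩, h.int⟩

theorem pCOR : St_COR := by
  intro n M _ ι _ _ D X r t F _ _ Φ k a₀ N r₁ r₂ lam κ P T a b pr dm N0 T0 _ z0 ab h
  obtain ⟨g, e, b₀, r1, md, rk⟩ := h _ finProdFinEquiv.symm
  obtain ⟨_, _, _, _, _, _, hs⟩ := st_SIG n M ι D X r t F Φ k T N _ e _ r₁ r₂ lam κ P g b₀ _ a b pr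
    T0 N0 ab r1 md rk dm fun j j0 s hs => by
      simpa only [Nat.cast_mul, mul_assoc] using z0 (j * N) (Nat.mul_pos j0 N0) s
        (by simpa only [Nat.cast_mul, mul_assoc] using hs)
  exact hs.mom

end Pool.Agent.Lib.S5.P
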