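import Pool.Agent.Lib.NV2.B_POL0

/-! Project S5: the leading coefficient of the Hilbert polynomial in two variables. -/

open Polynomial Filter

noncomputable section

namespace Pool.Agent.Lib.S5

namespace POLY

theorem up (p : ℚ[X]) {d : ℕ} (h : p.natDegree ≤ d) :
    ∃ C : ℕ, ∀ a : ℕ, p.eval (a : ℚ) ≤ C * (a + 1) ^ d := by
  refine ⟨⌈∑ i ∈ Finset.range (d + 1), |p.coeff i|⌉₊, fun a => ?_⟩
  have h0 : (0 : ℚ) ≤ a := a.cast_nonneg
  refine le_trans ?_ (mul_le_mul_of_nonneg_right (Nat.le_ceil _) (by positivity))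
  rw [eval_eq_sum_range' (Nat.lt_succ_of_le h), Finset.sum_mul]
  refine Finset.sum_le_sum fun i hi => mul_le_mul (le_abs_self _) ?_ (by positivity) (abs_nonneg _)
  exact (pow_le_pow_left₀ h0 (le_add_of_nonneg_right zero_le_one) i).trans
    (pow_le_pow_right₀ (by linarith) (Nat.lt_succ_iff.1 (Finset.mem_range.1 hi)))

theorem low {p : ℚ[X]} (hp : p ≠ 0) :
    ∃ C : ℕ, ∀ᶠ a : ℕ in atTop, ((a : ℚ) + 1) ^ p.natDegree ≤ C * |p.eval (a : ℚ)| := by
  have h1 : ((X + C 1) ^ p.natDegree : ℚ[X]).degree ≤ p.degree := by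
    rw [degree_pow, degree_X_add_C, degree_eq_natDegree hp, nsmul_one]
  obtain ⟨c, hc⟩ := (isBigO_atTop_of_degree_le _ _ h1).bound
  refine ⟨⌈c⌉₊, (tendsto_natCast_atTop_atTop.eventually hc).mono fun a ha => ?_⟩
  rw [eval_pow, eval_add, eval_X, eval_C, ← Rat.norm_cast_real, ← Rat.norm_cast_real,
    Real.norm_eq_abs, Real.norm_eq_abs] at ha
  have h2 := (le_abs_self _).trans
    (ha.trans (mul_le_mul_of_nonneg_right (Nat.le_ceil c) (abs_nonneg _)))
  exact_mod_cast h2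

end POLY

open POLY NV2.POL0 in
/-- Upper bound for the twisted functions, lower bound for the value at zero. -/
theorem poly (f : ℕ → ℕ → ℕ) (R R' : ℚ[X][X])
    (h : ∀ a : ℕ, ∀ᶠ j : ℕ in atTop, (f a j : ℚ) = (R.eval (C (a : ℚ))).eval (j : ℚ))
    (h' : ∀ a : ℕ, ∀ j ≥ 1, (f a j : ℚ) = (R'.eval (C (j : ℚ))).eval (a : ℚ)) :
    (∀ j ≥ 1, ∃ c : ℕ, ∀ a, f a j ≤ c * (a + 1) ^ R.natDegree) ∧
    (R.leadingCoeff.eval 0 ≠ 0 → ∃ c : ℕ, ∀ᶠ a : ℕ in atTop,
      ((a : ℚ) + 1) ^ R.natDegree ≤ c * |(R.eval (C (a : ℚ))).eval 0|) := by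
  refine ⟨fun j hj => ?_, fun h0 => ?_⟩
  · obtain ⟨c, hc⟩ := up (R.map (evalRingHom (j : ℚ))) natDegree_map_le
    refine ⟨c, fun a => ?_⟩
    have e : R.eval (C (a : ℚ)) = R'.map (evalRingHom (a : ℚ)) := by
      obtain ⟨N, hN⟩ := eventually_atTop.1 (h a)
      refine eq_of_infinite_eval_eq _ _ (((Set.Ici_infinite (N + 1)).image
        (f := fun j : ℕ => (j : ℚ)) Nat.cast_injective.injOn).mono ?_)
      rintro _ ⟨i, hi, rfl⟩
      have hi' : N + 1 ≤ i := hi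
      exact (hN i (by omega)).symm.trans ((h' a i (by omega)).trans (ev_swap _ _ _))
    have h1 := hc a
    rw [← ev_swap, e, ← ev_swap, ← h' a j hj] at h1
    exact_mod_cast h1
  · have e := natDegree_map_of_leadingCoeff_ne_zero (evalRingHom (0 : ℚ)) (p := R) h0
    obtain ⟨c, hc⟩ := low (p := R.map (evalRingHom (0 : ℚ))) fun h1 => h0 (by
      have := congrArg (coeff · R.natDegree) h1
      rwa [coeff_map] at this)
    exact ⟨c, hc.mono fun a ha => by rwa [e, ← ev_swap] at ha⟩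

end Pool.Agent.Lib.S5
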