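import Pool.Agent.Lib.S5.PCTX
import Pool.Agent.Lib.S5.PC
import Pool.Agent.Lib.S5.B_FIX
import Pool.Agent.Lib.S5.B_NVA
import Pool.Agent.Lib.S5.B_INA
import Pool.Agent.Lib.S5.B_MID
import Pool.Agent.Lib.S5.B_END
import Pool.Agent.Lib.S5.Poly

/-! Project S5: the glue on the manifold layer for a pair. -/

open scoped Classical Topology
open Set Filter Polynomial

set_option linter.unusedSectionVars false
set_option linter.unusedVariables false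

noncomputable section

namespace Pool.Agent.Lib.S5

open Pool.Agent.Lib.SV (E nsq)
open Pool.Agent.Lib.HS32 Pool.Agent.Lib.EX Pool.Agent.Lib.EXS Pool.Agent.Lib.ZL Pool.Agent.Lib.NV2
open Pool.Agent.Lib.ZQ (offz)
open Pool.Agent.Lib.NV5 (FM VF Hg dv)
open Pool.Agent.Lib.NV6 (Dm)
open Pool.Agent.Lib.NV6.J (Rk)
open Pool.Agent.Lib.R6 (Prj Ab)

variable {n : ℕ} {M : Mf n} {ι : Type} [Fintype ι] [DecidableEq ι] {D : Ad M ι}
  {F : Type} [Field F] [Algebra ℂ F] {Φ : FM D F} {V : VF n F} {m : ι → V.P → ℤ} {π : Hg D → V.P}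
  {X : Cx D} {r c' c d : ℕ} {t : Fin r → M.X → ℂ} {p ν : ι → ℤ}

/-- From the spaces of sections to the generation. -/
theorem gen_inq [M.Cpt] (C : Ctx5 X t c' c p ν) (br : Φ.Br V m π) {Q : ι → ℤ} {C' : ℕ}
    {S : Set ℕ} {U : ℕ → Submodule ℂ F}
    (I : Inq V (dv m ν) (dv m fun i => X.e i) (dv m Q) d C' S U)
    (hG : ∀ b : ℕ, ∃ C : ℕ, ∀ j : ℕ, h0 D (fun i => j * ν i + b * X.e i) ≤ C * (j + 1) ^ d) :
    ∃ N : ℕ, 0 < N ∧ Gens D fun i => N * ν i := by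
  obtain ⟨k, a, τ, a0, fb, dm, -, wr⟩ := bMID n M ι D F Φ V m π X.e p ν Q d C' S U C.epos br C.zar I
  obtain ⟨pr, zw⟩ := z5 a0 C
  obtain ⟨N, r₁, r₂, W, u, v, N0, ab, -, lo, h⟩ :=
    R6.P.st_R5b n M ι D X r t F Φ V m π k _ _ _ τ pr zw br fb
  obtain ⟨N₁, r₀, σ, g₁, x, θ, N1, x0, sσ, hg, g0, pos, mom⟩ := P.pCOR n M ι D X r t F Φ k _ N r₁ r₂
    _ _ W _ u v pr dm N0 (pow_ne_zero N fb.τ0) zw.k0 (fun j j0 s hs => by
      simpa only [Nat.cast_mul, mul_assoc] using bFIX n M ι D F Φ V m π X.e p ν br C.zar (j * a)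
        (by positivity) s (by simpa only [Nat.cast_mul, mul_assoc] using hs)) ab h
  refine ⟨N₁ * N * a, by positivity, ?_⟩
  simpa only [Nat.cast_mul, mul_assoc] using E10.lwg X (lo _ (wr hG c') fun j => by
    simpa only [Nat.cast_mul, mul_assoc] using C.gen (j * a)) sσ hg g0 x0 (fun y hy => by
      obtain ⟨h4, h5⟩ := pos y hy
      have h6 := SV.nsq_nonneg (v · y)
      rcases div_pos_iff.1 h4 with h7 | h7
      · exact ⟨h7.1, h7.2, h5⟩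
      · exact absurd h7.2 h6.not_gt) mom

/-- Many tensors give many sections. -/
theorem inq_chi [M.Cpt] (C : Ctx5 X t c' c p ν) (hD : DomQ D X.l ν X.e)
    (br : Φ.Br V m π) (P : ℕ → ℚ[X]) (hP : ∀ a : ℕ, ∀ᶠ j : ℕ in atTop,
      (h0 D (fun i => X.l i + a * ν i + j * X.e i) : ℚ) = (P a).eval (j : ℚ))
    (low : ∃ c : ℕ, ∃ᶠ a : ℕ in atTop, ((a : ℚ) + 1) ^ d ≤ c * |(P a).eval 0|) :
    ∃ Q C' S U, Inq V (dv m ν) (dv m fun i => X.e i) (dv m Q) d C' S U := by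
  obtain ⟨c₁, h₁⟩ := low
  choose q q1 s b b1 b2 using fun a => bNVA n M ι D X r c' X.l ν t C.hq C.kd C.imm C.alp C.zo
    (by simpa using C.gen 1) a (P a) (hP a)
  obtain ⟨q₀, hq⟩ : ∃ q₀ : Fin (r + 1),
      {a : ℕ | ((a : ℚ) + 1) ^ d ≤ c₁ * |(P a).eval 0| ∧ q a = q₀}.Infinite := by
    by_contra hn
    rw [← Nat.cofinite_eq_atTop, frequently_cofinite_iff_infinite] at h₁
    exact h₁ ((finite_iUnion fun q₀ => not_infinite.1 fun h => hn ⟨q₀, h⟩).subset fun a ha =>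
      mem_iUnion.2 ⟨⟨q a, Nat.lt_succ_of_le (q1 a)⟩, ha, rfl⟩)
  refine bINA NV5.st_bTNS NV5.st_bKIT NV5.st_bFN n M ι D F Φ V m π r X.e t X.l ν q₀ d
    (c₁ * (r + 1)) C.epos C.kd C.imm br hD (hq.mono ?_)
  rintro a ⟨h2, h3⟩
  have h4 := b2 a
  generalize b a = b' at h4
  rw [mem_ofPred_eq, ← h3]
  refine ⟨s a, b', ?_, h4⟩
  rw [mul_assoc]
  exact_mod_cast h2.trans (mul_le_mul_of_nonneg_left (b1 a) c₁.cast_nonneg)

/-- The theorem on the manifold layer. -/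
theorem gen5 [M.Cpt] (C : Ctx5 X t c' c p ν) (hD : DomQ D X.l ν X.e) (R : ℚ[X][X])
    (hR : ∀ a : ℕ, ∀ᶠ j : ℕ in atTop,
      (h0 D (fun i => X.l i + a * ν i + j * X.e i) : ℚ) = (R.eval (Polynomial.C (a : ℚ))).eval (j : ℚ))
    (h0' : R.leadingCoeff.eval 0 ≠ 0) : ∃ N : ℕ, 0 < N ∧ Gens D fun i => N * ν i := by
  obtain ⟨F, i1, i2, ⟨Φ⟩⟩ := NV5.st_bFLD n M ι D
  obtain ⟨V, m, π, br⟩ := NV5.st_bVF n M ι D F Φ r (fun i => X.e i) t
    (fun i => Int.natCast_pos.2 (C.epos i)) C.kd C.imm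
  obtain ⟨R', h1, -⟩ := st_HIL n M ι D X r c' X.l ν t C.hq C.kd C.alp C.zo (by simpa using C.gen 1)
  obtain ⟨h2, h3⟩ := poly (fun a j => h0 D fun i => X.l i + a * ν i + j * X.e i) R R' hR h1
  obtain ⟨Q, C', S, U, I⟩ := inq_chi C hD br _ hR ((h3 h0').imp fun _ h => h.frequently)
  refine gen_inq C br I fun b => ?_
  obtain ⟨x, hx⟩ := R6.OUT.big X.e C.epos (fun i => b * X.e i - X.l i) 0
  obtain ⟨c₂, h4⟩ := h2 (x + 1) (Nat.le_add_left 1 x)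
  refine ⟨c₂, fun j => le_trans ?_ (h4 j)⟩
  rw [← (br.dim _).2]
  refine h0_mono br fun U => (NV5.bKIT n M ι D).1 _ _ _ fun i => ?_
  have h5 := (hx i).1
  have h6 := Int.natCast_nonneg (X.e i)
  push_cast
  linarith

end Pool.Agent.Lib.S5
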