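import Pool.Agent.Lib.S5.TopP
import Pool.Agent.Lib.S5.G5P

/-! Project S5: the theorem. -/

namespace Pool.Agent.Lib.S5

theorem tS5 : St_S5 := tS5_of fun _ _ _ _ _ _ _ _ _ _ _ _ _ _ R _ C hD hR h0 => gen5 C hD R hR h0

end Pool.Agent.Lib.S5
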