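import Pool.Agent.Lib.NV5.B_INP
import Pool.Agent.Lib.NV5.B_CRM
import Pool.Agent.Lib.NV5.B_TNS

/-! Project S5, step 2: the rule of Cramer for spaces of tensors. -/

open scoped Classical Topology
open Set Complex Metric Filter

set_option linter.unusedSectionVars false

noncomputable section

namespace Pool.Agent.Lib.S5.CR

open Pool.Agent.Lib.SV (E nsq)
open Pool.Agent.Lib.HS32 Pool.Agent.Lib.EX Pool.Agent.Lib.EXS Pool.Agent.Lib.ZL Pool.Agent.Lib.NV2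
open Pool.Agent.Lib.NV5 Pool.Agent.Lib.NV5.CRMb Pool.Agent.Lib.NV5.INPb

theorem maxr {A κ X : Type} [Fintype κ] (v : X → A → κ → ℂ) (p : A → Prop) :
    ∃ (r : ℕ) (α : Fin r → A), (∀ i, p (α i)) ∧ (Nonempty X → ∃ x I, mn (v x) α I ≠ 0) ∧
      ∀ a : Fin (r + 1) → A, (∀ i, p (a i)) → ∀ x I, mn (v x) a I = 0 := by
  let P : ℕ → Prop := fun r => ∃ α : Fin r → A, (∀ i, p (α i)) ∧
    (Nonempty X → ∃ x I, mn (v x) α I ≠ 0)
  have h0 : P 0 := ⟨Fin.elim0, fun i => i.elim0, fun ⟨x⟩ => ⟨x, Fin.elim0, by simp [mn]⟩⟩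
  by_cases hX : Nonempty X
  swap
  · exact ⟨0, Fin.elim0, fun i => i.elim0, fun h => (hX h).elim, fun _ _ x => (hX ⟨x⟩).elim⟩
  have h1 : ¬ P (Fintype.card κ + 1) := fun ⟨a, _, h⟩ => by
    obtain ⟨x, I, hx⟩ := h hX
    exact hx (big _ (Nat.lt_succ_self _) a I)
  obtain ⟨r, ⟨α, h2, h3⟩, hr'⟩ : ∃ r, P r ∧ ¬ P (r + 1) := by
    by_contra h
    refine h1 (Nat.rec h0 (fun r hr => ?_) (Fintype.card κ + 1))
    by_contra h'
    exact h ⟨r, hr, h'⟩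
  refine ⟨r, α, h2, h3, fun a ha x I => by_contra fun h => hr' ⟨a, ha, fun _ => ⟨x, I, h⟩⟩⟩

theorem mn_up {A κ : Type} (v : A → κ → ℂ) {r : ℕ} (α : Fin r → A) (i : Fin r) (b : A)
    (I : Fin r → κ) : mn v (Function.update α i b) I =
      ((Matrix.of fun j j' : Fin r => v (α j) (I j')).updateRow i fun j' => v b (I j')).det := by
  unfold mn
  congr 1
  ext j j'
  by_cases h : j = i
  · subst h
    simp
  · simp [h]

theorem zero_of {A κ : Type} (v : A → κ → ℂ) {r : ℕ} (α : Fin r → A) (I₀ : Fin r → κ)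
    (h0 : mn v α I₀ ≠ 0) (b : A) (hb : ∀ I : Fin (r + 1) → κ, mn v (Fin.cons b α) I = 0)
    (h : ∀ i, mn v (Function.update α i b) I₀ = 0) (j : κ) : v b j = 0 := by
  obtain ⟨c, hc⟩ := comb v α I₀ h0 b hb
  have : ∀ i, c i = 0 := fun i => by
    have h1 := h i
    rw [mn_up, show (fun j' => v b (I₀ j')) =
      ∑ k, c k • (Matrix.of fun j j' : Fin r => v (α j) (I₀ j')) k from
        funext fun j' => by simp [hc, Finset.sum_apply], Matrix.det_updateRow_sum] at h1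
    exact (mul_eq_zero.1 h1).resolve_right h0
  simp [hc, this]

theorem mn_sum {A κ : Type} (v : A → κ → ℂ) {r m : ℕ} (α : Fin r → A) (i : Fin r) (b : A)
    (a : Fin m → A) (c : Fin m → ℂ) (h : ∀ j, v b j = ∑ s, c s * v (a s) j) (I : Fin r → κ) :
    mn v (Function.update α i b) I = ∑ s, c s * mn v (Function.update α i (a s)) I := by
  let L : (Fin r → ℂ) →ₗ[ℂ] ℂ :=
    { toFun := fun w => ((Matrix.of fun j j' : Fin r => v (α j) (I j')).updateRow i w).det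
      map_add' := fun _ _ => Matrix.det_updateRow_add _ _ _ _
      map_smul' := fun _ _ => Matrix.det_updateRow_smul _ _ _ _ }
  simp only [mn_up]
  show L _ = ∑ s, c s • L fun j' => v (a s) (I j')
  simp only [← map_smul, ← map_sum]
  congr 1
  funext j'
  simp [h, Finset.sum_apply]

theorem pig {F : Type} [AddCommGroup F] [Module ℂ F] {r m : ℕ}
    (L : Fin r → (Fin m → ℂ) →ₗ[ℂ] F) (h : ∀ c, (∀ i, L i c = 0) → c = 0) (hm : 0 < m) :
    ∃ i, m ≤ r * Module.finrank ℂ (LinearMap.range (L i)) := by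
  let G : (Fin m → ℂ) →ₗ[ℂ] ∀ i, LinearMap.range (L i) := LinearMap.pi fun i => (L i).rangeRestrict
  have hG : Function.Injective G := (injective_iff_map_eq_zero G).2 fun c hc =>
    h c fun i => congrArg Subtype.val (congrFun hc i)
  have h1 := LinearMap.finrank_le_finrank_of_injective hG
  rw [Module.finrank_pi_fintype ℂ (M := fun i => LinearMap.range (L i)), Module.finrank_fin_fun]
    at h1
  by_contra hn
  push Not at hn
  have h2 : r * ∑ i, Module.finrank ℂ (LinearMap.range (L i)) + r ≤ r * m := by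
    calc _ = ∑ i : Fin r, (r * Module.finrank ℂ (LinearMap.range (L i)) + 1) := by
          simp [Finset.sum_add_distrib, Finset.mul_sum]
      _ ≤ ∑ _i : Fin r, m := Finset.sum_le_sum fun i _ => hn i
      _ = _ := by simp
  rcases Nat.eq_zero_or_pos r with rfl | hr
  · simp at h1
    omega
  · have := Nat.mul_le_mul_left r h1
    omega

variable {n : ℕ} {M : Mf n} {ι : Type} [Fintype ι] [DecidableEq ι] {D : Ad M ι}

theorem tns_sum {q m : ℕ} {Q : ι → ℤ} {b : Fin m → D.A → (Fin q → Fin n) → E n → ℂ}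
    (h : ∀ s, Tns D q Q (b s)) (c : Fin m → ℂ) :
    Tns D q Q fun d I z => ∑ s, c s * b s d I z := by
  refine ⟨fun d z hz I => TNSb.psum _ fun s _ => ?_, fun a d x h1 h2 h3 I => ?_⟩
  · simpa using TNSb.pmul (TNSb.pconst (c s)) ((h s).pol d z hz I)
  · simp only [Finset.mul_sum]
    rw [Finset.sum_comm]
    refine Finset.sum_congr rfl fun s _ => ?_
    rw [(h s).law a d x h1 h2 h3 I, Finset.mul_sum]
    exact Finset.sum_congr rfl fun I' _ => mul_left_comm _ _ _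

theorem ev_sum {F : Type} [Field F] [Algebra ℂ F] (Φ : FM D F) (h0 : Φ.ev 0 = 0) {m : ℕ}
    {P : ι → ℤ} {s : Fin m → M.X → ℂ} (hs : ∀ j, Sp D P (s j)) (c : Fin m → ℂ) :
    Φ.ev (∑ j, c j • s j) = ∑ j, c j • Φ.ev (s j) := by
  have : ∀ T : Finset (Fin m), Sp D P (∑ j ∈ T, c j • s j) ∧
      Φ.ev (∑ j ∈ T, c j • s j) = ∑ j ∈ T, c j • Φ.ev (s j) := fun T => by
    induction T using Finset.induction_on with
    | empty => exact ⟨KITb.zero P, h0⟩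
    | insert a T ha ih =>
      rw [Finset.sum_insert ha, Finset.sum_insert ha]
      refine ⟨KITb.add (KITb.smul _ (hs a)) ih.1, ?_⟩
      rw [Φ.add _ _ ⟨_, KITb.smul _ (hs a)⟩ ⟨_, ih.1⟩, ih.2, Φ.smul _ _ ⟨_, hs a⟩]
  exact (this _).2

/-- Evaluation on differentials that picks one component at one point. -/
theorem evx [M.Cpt] (hT : Sb_TNS) (hK : Sb_KIT) {r N : ℕ} {e : ι → ℕ} {t : Fin r → M.X → ℂ}
    (hKd : Kd D (fun i => e i) t) (hI : Imm D (fun i => e i) t) (d₀ : D.A) (I₀ : Fin N → Fin n)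
    {z₀ : E n} (hz₀ : z₀ ∈ B2 n) (ho₀ : Off (D.c d₀) z₀) :
    ∃ (R : ι → ℤ) (w : D.A → E n → (Fin N → Fin n) → ℂ),
      (∀ Q b, Tns D N Q b → ∃ s, Sp D (Q + R) s ∧
        OA D fun d z => D.rd s d z = ∑ I, b d I z * w d z I) ∧
      ∀ I, w d₀ z₀ I = if I = I₀ then 1 else 0 := by
  obtain ⟨-, -, t3⟩ := hT n M ι D
  obtain ⟨-, -, -, -, -, -, -, -, -, -, k11, -, -, -, k15⟩ := hK n M ι D
  have hrv : HolN (rv D t d₀) z₀ :=
    (eventually_all.2 fun a => (k11 (t a) ⟨_, hKd.1 a⟩ d₀ z₀ hz₀).2 ho₀).mono fun _ hy =>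
      differentiableAt_pi.2 hy
  have hinj : LinearMap.ker (fderiv ℂ (rv D t d₀) z₀ : E n →ₗ[ℂ] Fin r → ℂ) = ⊥ := by
    refine LinearMap.ker_eq_bot'.2 fun v hv => (TAN.imm (g := xm (D.c d₀) fun i => e i)
      hrv.self_of_nhds (MON.diff_xm fun i => .inl (ho₀ i)) (MON.xm_ne _ ho₀) ?_ (hI d₀ z₀ hz₀) 0 v
      (by rw [zero_smul, zero_add]; exact hv)).2
    filter_upwards [KITb.evB hz₀, MON.off_ev ho₀] with y y1 y2
    funext a
    have y3 := (k15 _ (t a) (hKd.1 a) d₀ y y1).2 y2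
    show val _ _ _ y = xm _ _ y * D.rd (t a) d₀ y
    rw [y3, ← mul_assoc, ← MON.xm_add _ _ y2, add_neg_cancel, ← neg_zero, KITb.xm0, one_mul]
  obtain ⟨G, hG⟩ := LinearMap.exists_leftInverse_of_injective _ hinj
  obtain ⟨R, hR⟩ := t3 (fun i => e i) N (fun p => ∑ a, G (Pi.single a 1) (I₀ p) • t a)
    fun p => sp_sum hKd.1 _
  have hx : ∀ p j, fderiv ℂ (D.rd (∑ a, G (Pi.single a 1) (I₀ p) • t a) d₀) z₀ (Pi.single j 1) =
      if I₀ p = j then 1 else 0 := fun p j => by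
    let L : (Fin r → ℂ) →L[ℂ] ℂ := LinearMap.toContinuousLinearMap ((LinearMap.proj (I₀ p)).comp G)
    have a1 : D.rd (∑ a, G (Pi.single a 1) (I₀ p) • t a) d₀ = L ∘ rv D t d₀ := by
      funext y
      show _ = G (rv D t d₀ y) (I₀ p)
      rw [LinearMap.pi_apply_eq_sum_univ G, Finset.sum_apply]
      simp only [Ad.rd, Finset.sum_apply, Pi.smul_apply, smul_eq_mul]
      refine Finset.sum_congr rfl fun a _ => ?_
      rw [mul_comm, show (fun j => if a = j then (1 : ℂ) else 0) = Pi.single a 1 from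
        funext fun j => (Pi.single_apply a 1 j).trans (if_congr eq_comm rfl rfl) |>.symm]
      rfl
    rw [a1, (L.hasFDerivAt.comp z₀ hrv.self_of_nhds.hasFDerivAt).fderiv]
    exact (congrFun (LinearMap.congr_fun hG (Pi.single j 1)) (I₀ p)).trans (Pi.single_apply _ _ _)
  refine ⟨R, _, hR, fun I => ?_⟩
  simp only [hx]
  split_ifs with h
  · simp [h]
  · obtain ⟨p, hp⟩ := Function.ne_iff.1 h
    exact Finset.prod_eq_zero (Finset.mem_univ p) (if_neg (Ne.symm hp))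

/-- A class of tensors that is stable under the operations. -/
structure Cl (W : ∀ N : ℕ, ℕ → (D.A → (Fin N → Fin n) → E n → ℂ) → Prop) : Prop where
  zero : ∀ b, W 0 0 b
  mul : ∀ q q' r r' b b', W q r b → W q' r' b' → W (q + q') (r + r') fun d I z =>
    b d (fun p => I (Fin.castAdd q' p)) z * b' d (fun p => I (Fin.natAdd q p)) z
  det : ∀ (q r : ℕ) (b : Fin r → D.A → (Fin q → Fin n) → E n → ℂ), (∀ a, W q 1 (b a)) →
    W (r * q) r fun d I z =>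
      (Matrix.of fun a a' : Fin r => b a d (fun p => I (finProdFinEquiv (a', p))) z).det
  sum : ∀ (q m : ℕ) (b : Fin m → D.A → (Fin q → Fin n) → E n → ℂ) (c : Fin m → ℂ),
    (∀ s, W q 1 (b s)) → W q 1 fun d I z => ∑ s, c s * b s d I z

variable (W : ∀ N : ℕ, ℕ → (D.A → (Fin N → Fin n) → E n → ℂ) → Prop) (κ l : ι → ℤ)

/-- Ratios of tensors of the class are dominated. -/
def DomG (e : ι → ℕ) : Prop :=
  ∀ (N r k : ℕ) (b₁ b₂ : D.A → (Fin N → Fin n) → E n → ℂ), N ≤ k → W N r b₂ →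
  Tns D N (fun i => r * κ i + k * l i) b₁ → Tns D N (fun i => r * κ i + k * l i) b₂ →
  (∃ d I, ∃ z ∈ B2 n, Off (D.c d) z ∧ b₂ d I z ≠ 0) →
  (OA D fun d z => ∀ I J, b₁ d I z * b₂ d J z = b₁ d J z * b₂ d I z) →
  ∃ c a : ℕ, ∀ j : ℕ, ∃ w : ℕ → M.X → ℂ, w 0 ≠ 0 ∧
    (∀ i ≤ j, Sp D (fun s => j * c * l s + a * e s) (w i)) ∧
    ∀ i < j, OA D fun d z => ∀ I, D.rd (w (i + 1)) d z * b₂ d I z = D.rd (w i) d z * b₁ d I z

variable {F : Type} [Field F] [Algebra ℂ F] (Φ : FM D F)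

/-- The ratio `g₁ / g₂` is the ratio of two proportional tensors. -/
def Pg (N r B₁ B₂ : ℕ) (g₁ g₂ : F) : Prop := ∃ u₁ u₂, Rg D u₁ ∧ Rg D u₂ ∧ Φ.ev u₁ = g₁ ∧
  Φ.ev u₂ = g₂ ∧ ∃ b₁ b₂, W N r b₂ ∧ Tns D N (fun i => r * κ i + B₁ * l i) b₁ ∧
    Tns D N (fun i => r * κ i + B₂ * l i) b₂ ∧
    (OA D fun d z => ∀ I, b₁ d I z * D.rd u₂ d z = b₂ d I z * D.rd u₁ d z) ∧
    (OA D fun d z => D.rd u₂ d z ≠ 0 → ∃ I, b₂ d I z ≠ 0) ∧
    OA D fun d z => ∀ I J, b₁ d I z * b₂ d J z = b₁ d J z * b₂ d I z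

variable {W κ l Φ}

theorem pg_one (hW : Cl W) (h : Φ.ev (un D) = 1) : Pg W κ l Φ 0 0 0 0 1 1 := by
  have h1 : Tns D 0 (fun i => (0 : ℕ) * κ i + (0 : ℕ) * l i) fun _ _ _ => 1 :=
    ⟨fun d z _ I => ⟨fun _ => 1, .of_forall fun _ => differentiableAt_const _,
      .of_forall fun y _ => by simp [xm]⟩, fun a d x _ _ _ I => by simp⟩
  exact ⟨un D, un D, ⟨0, KITb.one D⟩, ⟨0, KITb.one D⟩, h, h, _, _, hW.zero _, h1, h1,
    fun _ _ _ _ _ => rfl, fun _ _ _ _ _ => ⟨Fin.elim0, one_ne_zero⟩, fun _ _ _ _ _ _ => rfl⟩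

theorem pg_mul [M.Cpt] (hW : Cl W) (hT : Sb_TNS) {N N' r r' B₁ B₂ B₁' B₂' : ℕ}
    {g₁ g₂ g₁' g₂' : F} (h : Pg W κ l Φ N r B₁ B₂ g₁ g₂) (h' : Pg W κ l Φ N' r' B₁' B₂' g₁' g₂') :
    Pg W κ l Φ (N + N') (r + r') (B₁ + B₁') (B₂ + B₂') (g₁ * g₁') (g₂ * g₂') := by
  obtain ⟨u₁, u₂, r1, r2, rfl, rfl, b₁, b₂, w2, t1, t2, a1, a2, a3⟩ := h
  obtain ⟨u₁', u₂', r1', r2', rfl, rfl, b₁', b₂', w2', t1', t2', a1', a2', a3'⟩ := h'
  have e : ∀ B B' : ℕ, (fun i => ((r + r' : ℕ) : ℤ) * κ i + ((B + B' : ℕ) : ℤ) * l i) =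
      (fun i => (r : ℤ) * κ i + B * l i) + fun i => (r' : ℤ) * κ i + B' * l i := fun B B' => by
    funext i
    simp only [Pi.add_apply, Nat.cast_add]
    ring
  refine ⟨u₁ * u₁', u₂ * u₂', KITb.rmul r1 r1', KITb.rmul r2 r2', Φ.mul _ _ r1 r1',
    Φ.mul _ _ r2 r2', _, _, hW.mul _ _ _ _ _ _ w2 w2', e _ _ ▸ (hT n M ι D).1 _ _ _ _ _ _ t1 t1',
    e _ _ ▸ (hT n M ι D).1 _ _ _ _ _ _ t2 t2',
    fun d z hz ho I => ?_, fun d z hz ho h => ?_, fun d z hz ho I J => ?_⟩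
  · show _ * _ * (D.rd u₂ d z * D.rd u₂' d z) = _ * _ * (D.rd u₁ d z * D.rd u₁' d z)
    rw [mul_mul_mul_comm, a1 d z hz ho, a1' d z hz ho, mul_mul_mul_comm]
  · have h1 : D.rd u₂ d z * D.rd u₂' d z ≠ 0 := h
    obtain ⟨I, hI⟩ := a2 d z hz ho (left_ne_zero_of_mul h1)
    obtain ⟨I', hI'⟩ := a2' d z hz ho (right_ne_zero_of_mul h1)
    refine ⟨Fin.append I I', ?_⟩
    simp only [Fin.append_left, Fin.append_right]
    exact mul_ne_zero hI hI'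
  · show _ * _ * (_ * _) = _ * _ * (_ * _)
    rw [mul_mul_mul_comm, a3 d z hz ho, a3' d z hz ho, mul_mul_mul_comm]

theorem pg_pow [M.Cpt] (hW : Cl W) (hT : Sb_TNS) (h1 : Φ.ev (un D) = 1) {N r B₁ B₂ : ℕ}
    {g₁ g₂ : F} (h : Pg W κ l Φ N r B₁ B₂ g₁ g₂) (x : ℕ) :
    Pg W κ l Φ (x * N) (x * r) (x * B₁) (x * B₂) (g₁ ^ x) (g₂ ^ x) := by
  induction x with
  | zero => simpa only [zero_mul, pow_zero] using pg_one hW h1
  | succ x ih => simpa only [Nat.succ_mul, pow_succ] using pg_mul hW hT ih h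

theorem pg_dom {V : VF n F} {m : ι → V.P → ℤ} {π : Hg D → V.P} {e : ι → ℕ} (hB : Φ.Br V m π)
    (hD : DomG W κ l e) (h0 : Φ.ev 0 = 0) {N r B : ℕ} {g₁ g₂ : F} (hN : N ≤ B) (hg : g₂ ≠ 0)
    (h : Pg W κ l Φ N r B B g₁ g₂) : V.Dom1 (dv m l) (dv m fun i => e i) (g₁ / g₂) := by
  obtain ⟨u₁, u₂, r1, r2, rfl, rfl, b₁, b₂, w2, t1, t2, a1, a2, a3⟩ := h
  have pt : ∀ x, u₂ x ≠ 0 → ∃ d I, x ∈ (D.e d).source ∧ D.e d x ∈ B2 n ∧ Off (D.c d) (D.e d x) ∧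
      b₂ d I (D.e d x) ≠ 0 := fun x hx => by
    obtain ⟨d, hd⟩ := cov (D := D) x
    have h1 : D.rd u₂ d (D.e d x) ≠ 0 := by rwa [GLU.rd_e u₂ hd]
    have h2 := KITb.off_of_ne r2 (GLU.mem_B2 hd) h1
    obtain ⟨I, hI⟩ := a2 d _ (GLU.mem_B2 hd) h2 h1
    exact ⟨d, I, hd, GLU.mem_B2 hd, h2, hI⟩
  obtain ⟨x₀, hx₀⟩ : ∃ x, u₂ x ≠ 0 := by
    by_contra hn
    have : u₂ = 0 := funext fun x => by_contra fun h => hn ⟨x, h⟩
    exact hg (by rw [this, h0])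
  obtain ⟨d₀, I₀, -, p1, p2, p3⟩ := pt x₀ hx₀
  obtain ⟨c, a, hw⟩ := hD N r B b₁ b₂ hN w2 t1 t2 ⟨d₀, I₀, _, p1, p2, p3⟩ a3
  refine ⟨c, a, fun j => ?_⟩
  obtain ⟨w, w0, w1, w2⟩ := hw j
  have rw : ∀ i ≤ j, Rg D (w i) := fun i hi => ⟨_, w1 i hi⟩
  have key : ∀ i ≤ j, Φ.ev (w i) = Φ.ev (w 0) * (Φ.ev u₁ / Φ.ev u₂) ^ i := fun i => by
    induction i with
    | zero => simp
    | succ i ih =>
      intro hi
      have h1 : w (i + 1) * u₂ * u₂ = w i * u₁ * u₂ := by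
        funext x
        by_cases hx : u₂ x = 0
        · simp only [Pi.mul_apply, hx, mul_zero]
        obtain ⟨d, I, hd, q1, q2, q3⟩ := pt x hx
        have q4 := w2 i hi d _ q1 q2 I
        have q5 := a1 d _ q1 q2 I
        simp only [GLU.rd_e _ hd] at q4 q5
        simp only [Pi.mul_apply]
        refine congrArg (· * u₂ x) (mul_left_cancel₀ q3 ?_)
        linear_combination u₂ x * q4 + w i x * q5
      have h2 := congrArg Φ.ev h1
      have i1 := rw (i + 1) hi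
      have i2 := rw i (by omega)
      rw [Φ.mul _ _ (KITb.rmul i1 r2) r2, Φ.mul _ _ i1 r2, Φ.mul _ _ (KITb.rmul i2 r1) r2,
        Φ.mul _ _ i2 r1] at h2
      rw [pow_succ, ← mul_assoc, ← ih (by omega), ← mul_div_assoc, ← mul_right_cancel₀ hg h2,
        mul_div_cancel_right₀ _ hg]
  refine ⟨Φ.ev (w 0), fun h => w0 (Φ.inj _ (rw 0 j.zero_le) h), fun i hi => ?_⟩
  have e1 : (j * c) • dv m l + a • dv m (fun i => (e i : ℤ)) =
      dv m fun s => j * c * l s + a * e s := by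
    funext p
    rw [Pi.add_apply, Pi.smul_apply, Pi.smul_apply]
    simp only [NV5.dv, nsmul_eq_mul, Finset.mul_sum, Nat.cast_mul, ← Finset.sum_add_distrib]
    exact Finset.sum_congr rfl fun s _ => by ring
  rw [e1, ← key i hi]
  exact (hB.sec _ _).2 ⟨w i, w1 i hi, rfl⟩

/-- Many independent tensors give large spaces of sections with dominated ratios. -/
theorem inpG [M.Cpt] (hT : Sb_TNS) (hK : Sb_KIT) (hF : Sb_FN) (hW : Cl W) {V : VF n F}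
    {m : ι → V.P → ℤ} {π : Hg D → V.P} {r q : ℕ} {e : ι → ℕ}
    {t : Fin r → M.X → ℂ} (hKd : Kd D (fun i => e i) t) (hI : Imm D (fun i => e i) t)
    (hB : Φ.Br V m π) (hD : DomG W κ l e) {S₀ : Set ℕ} (hS₀ : S₀.Infinite) (μ : ℕ → ℕ)
    (b : ∀ a, Fin (μ a) → D.A → (Fin q → Fin n) → E n → ℂ)
    (hb : ∀ a ∈ S₀, 0 < μ a ∧ (∀ s, W q 1 (b a s) ∧ Tns D q (fun i => κ i + a * l i) (b a s)) ∧
      ∀ c : Fin (μ a) → ℂ, c ≠ 0 → ∃ d I, ∃ z ∈ B2 n, Off (D.c d) z ∧ ∑ s, c s * b a s d I z ≠ 0) :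
    ∃ (Q : ι → ℤ) (S : Set ℕ) (U : ℕ → Submodule ℂ F) (ρ : ℕ), S ⊆ S₀ ∧ S.Infinite ∧
      (∀ k ∈ S, μ k ≤ ρ * Module.finrank ℂ (U k) ∧ ∀ f ∈ U k, V.Sec (k • dv m l + dv m Q) f) ∧
      ∀ k₁ ∈ S, ∀ k₂ ∈ S, ∀ k₃ ∈ S, ∀ k₄ ∈ S, ∀ f₁ ∈ U k₁, ∀ f₂ ∈ U k₂, ∀ f₃ ∈ U k₃, ∀ f₄ ∈ U k₄,
        f₃ ≠ 0 → f₄ ≠ 0 → ∀ x y : ℕ, x * k₁ + y * k₂ = x * k₃ + y * k₄ →
          V.Dom1 (dv m l) (dv m fun i => e i) (f₁ ^ x * f₂ ^ y / (f₃ ^ x * f₄ ^ y)) := by
  obtain ⟨-, t2, -⟩ := hT n M ι D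
  obtain ⟨-, -, -, -, -, -, -, -, -, k10, -⟩ := hK n M ι D
  obtain ⟨f1, f0, -⟩ := hF n M ι D F Φ
  let X := {x : D.A × E n // x.2 ∈ B2 n ∧ Off (D.c x.1) x.2}
  let A := ℕ × (D.A → (Fin q → Fin n) → E n → ℂ)
  let v : X → A → (Fin q → Fin n) → ℂ := fun x α I => α.2 x.1.1 I x.1.2
  let p : A → Prop := fun α => W q 1 α.2 ∧ Tns D q (fun i => κ i + α.1 * l i) α.2
  obtain ⟨ρ, α, hα, hne, hmax⟩ := maxr v p
  obtain ⟨x₀, I₀, h₀⟩ := hne (by
    obtain ⟨a, ha⟩ := hS₀.nonempty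
    obtain ⟨d, I, z, h1, h2, -⟩ := (hb a ha).2.2 (fun _ => 1) fun h =>
      one_ne_zero (congrFun h ⟨0, (hb a ha).1⟩)
    exact ⟨⟨(d, z), h1, h2⟩⟩)
  let σ : (Fin ρ → A) → D.A → (Fin (ρ * q) → Fin n) → E n → ℂ := fun a d I z =>
    (Matrix.of fun j j' : Fin ρ => (a j).2 d (fun p => I (finProdFinEquiv (j', p))) z).det
  have prσ : ∀ a a' : Fin ρ → A, (∀ j, p (a j)) → (∀ j, p (a' j)) → OA D fun d z => ∀ I J,
      σ a d I z * σ a' d J z = σ a d J z * σ a' d I z := fun a a' h h' d z hz ho I J =>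
    prop (v ⟨(d, z), hz, ho⟩) p (fun a ha I => hmax a ha _ I) a a' h h'
      (fun a' p => I (finProdFinEquiv (a', p))) fun a' p => J (finProdFinEquiv (a', p))
  have tσ : ∀ (a : Fin ρ → A) (B : ℕ), (∀ j, p (a j)) → ∑ j, (a j).1 = B →
      Tns D (ρ * q) (fun i => ρ * κ i + B * l i) (σ a) := fun a B h hB => by
    have h7 := t2 q ρ (fun j i => κ i + ((a j).1 : ℤ) * l i) (fun j => (a j).2) fun j => (h j).2
    have h8 : (∑ j : Fin ρ, fun i => κ i + ((a j).1 : ℤ) * l i) =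
        fun i => ρ * κ i + (B : ℤ) * l i := by
      funext i
      rw [Finset.sum_apply, Finset.sum_add_distrib, ← Finset.sum_mul, ← Nat.cast_sum, hB]
      simp
    rwa [h8] at h7
  obtain ⟨R, w, hR, hw⟩ := evx hT hK hKd hI x₀.1.1
    (fun m => I₀ (finProdFinEquiv.symm m).1 (finProdFinEquiv.symm m).2) x₀.2.1 x₀.2.2
  let Ev : (Fin ρ → A) → (M.X → ℂ) → Prop := fun a s =>
    OA D fun d z => D.rd s d z = ∑ I, σ a d I z * w d z I
  have b1 : ∀ a a' s s', (∀ j, p (a j)) → (∀ j, p (a' j)) → Ev a s → Ev a' s' → OA D fun d z =>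
      ∀ J, σ a d J z * D.rd s' d z = σ a' d J z * D.rd s d z :=
    fun a a' s s' h h' e1 e2 d z hz ho J => by
      rw [e1 d z hz ho, e2 d z hz ho, Finset.mul_sum, Finset.mul_sum]
      refine Finset.sum_congr rfl fun I _ => ?_
      rw [← mul_assoc, ← mul_assoc, prσ a a' h h' d z hz ho J I, mul_comm (σ a d I z)]
  have b2 : ∀ a s, Ev a s → OA D fun d z => D.rd s d z ≠ 0 → ∃ I, σ a d I z ≠ 0 :=
    fun a s e1 d z hz ho h => by_contra fun hn => h (by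
      rw [e1 d z hz ho]
      exact Finset.sum_eq_zero fun I _ => by
        rw [(by_contra fun c => hn ⟨I, c⟩ : σ a d I z = 0), zero_mul])
  obtain ⟨s₀, r₀, e₀⟩ := hR _ _ (tσ α _ hα rfl)
  have s0 : s₀ ≠ 0 := fun h => h₀ (by
    have a1 := e₀ _ _ x₀.2.1 x₀.2.2
    simp only [hw, mul_ite, mul_one, mul_zero, Finset.sum_ite_eq', Finset.mem_univ, if_true, h,
      σ, Equiv.symm_apply_apply] at a1
    exact a1.symm)
  have pu : ∀ i γ, p γ → ∀ j, p (Function.update α i γ j) := fun i γ h j => by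
    by_cases hj : j = i
    · rwa [hj, Function.update_self]
    · rw [Function.update_of_ne hj]
      exact hα j
  have tu : ∀ i k γ, p (k, γ) → Tns D (ρ * q) (fun a => ρ * κ a +
      (k + ∑ j ∈ Finset.univ \ {i}, (α j).1 : ℕ) * l a) (σ (Function.update α i (k, γ))) :=
    fun i k γ h => tσ _ _ (pu i _ h) (by
      rw [← Finset.sum_update_of_mem (Finset.mem_univ i)]
      exact Finset.sum_congr rfl fun j _ => Function.apply_update (fun _ (a : A) => a.1) α i _ j)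
  choose! s hs hs' using fun k (hk : k ∈ S₀) i j => hR _ _ (tu i k (b k j) ((hb k hk).2.1 j))
  let β : ∀ k, (Fin (μ k) → ℂ) → A := fun k c => (k, fun d I z => ∑ j, c j * b k j d I z)
  have pβ : ∀ k ∈ S₀, ∀ c, p (β k c) := fun k hk c =>
    ⟨hW.sum _ _ _ c fun s => ((hb k hk).2.1 s).1, tns_sum (fun s => ((hb k hk).2.1 s).2) c⟩
  have eβ : ∀ k ∈ S₀, ∀ i c, Ev (Function.update α i (β k c)) (∑ j, c j • s k i j) :=
    fun k hk i c d z hz ho => by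
      have a1 : ∀ I, σ (Function.update α i (β k c)) d I z =
          ∑ j, c j * σ (Function.update α i (k, b k j)) d I z := fun I =>
        mn_sum (v ⟨(d, z), hz, ho⟩) α i (β k c) (fun j => (k, b k j)) c (fun _ => rfl)
          fun a' p => I (finProdFinEquiv (a', p))
      have a2 : D.rd (∑ j, c j • s k i j) d z = ∑ j, c j * D.rd (s k i j) d z := by
        simp only [Ad.rd, Finset.sum_apply, Pi.smul_apply, smul_eq_mul]
      simp only [a1, a2, Finset.sum_mul]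
      rw [Finset.sum_comm]
      refine Finset.sum_congr rfl fun j _ => ?_
      rw [hs' k hk i j d z hz ho, Finset.mul_sum]
      exact Finset.sum_congr rfl fun I _ => (mul_assoc _ _ _).symm
  let L : ∀ k, Fin ρ → (Fin (μ k) → ℂ) →ₗ[ℂ] F := fun k i =>
    Fintype.linearCombination ℂ fun j => Φ.ev (s k i j)
  have hL : ∀ k ∈ S₀, ∀ i c, Φ.ev (∑ j, c j • s k i j) = L k i c := fun k hk i c =>
    (ev_sum Φ f0 (hs k hk i) c).trans (Fintype.linearCombination_apply ℂ _ c).symm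
  have inj : ∀ k ∈ S₀, ∀ c, (∀ i, L k i c = 0) → c = 0 := fun k hk c hc => by_contra fun c0 => by
    obtain ⟨d, I, z, hz, ho, a2⟩ := (hb k hk).2.2 c c0
    obtain ⟨g, g1, g2⟩ := (pβ k hk c).2.pol d z hz I
    have g3 : g z ≠ 0 := fun h => a2 ((g2.self_of_nhds ho).trans (by rw [h, mul_zero]))
    obtain ⟨y, y1, y2, y3, y4, y5⟩ := ((k10 _ ⟨_, r₀⟩ s0 d z hz).and_eventually
      ((KITb.evB hz).and ((MON.off_ev ho).and (g2.and
        (g1.self_of_nhds.continuousAt.eventually_ne g3))))).exists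
    obtain ⟨J, hJ⟩ := b2 α s₀ e₀ d y y2 y3 y1
    refine mul_ne_zero (MON.xm_ne _ y3) y5 ((y4 y3).symm.trans (zero_of (v ⟨(d, y), y2, y3⟩) α
      (fun a' p => J (finProdFinEquiv (a', p))) hJ (β k c)
      (hmax _ (fun j => Fin.cases (pβ k hk c) hα j) _) (fun i => ?_) I))
    have y6 := b1 _ _ _ _ (pu i _ (pβ k hk c)) hα (eβ k hk i c) e₀ d y y2 y3 J
    rw [Φ.inj _ ⟨_, sp_sum (hs k hk i) c⟩ ((hL k hk i c).trans (hc i))] at y6
    exact (mul_eq_zero.1 (y6.trans (mul_zero _))).resolve_right y1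
  obtain ⟨i, hi⟩ : ∃ i, {k | k ∈ S₀ ∧
      μ k ≤ ρ * Module.finrank ℂ (LinearMap.range (L k i))}.Infinite := by
    by_contra hn
    refine hS₀ ((Set.finite_iUnion fun i => not_not.1 fun h => hn ⟨i, h⟩).subset fun k hk => ?_)
    obtain ⟨i, hi⟩ := pig (L k) (inj k hk) (hb k hk).1
    exact mem_iUnion.2 ⟨i, hk, hi⟩
  obtain ⟨c, hc⟩ : ∃ c, c = ∑ j ∈ Finset.univ \ {i}, (α j).1 := ⟨_, rfl⟩
  have pr : ∀ k ∈ S₀, ∀ k' ∈ S₀, ∀ f ∈ LinearMap.range (L k i), ∀ f' ∈ LinearMap.range (L k' i),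
      Pg W κ l Φ (ρ * q) ρ (k + c) (k' + c) f f' := by
    rintro k hk k' hk' _ ⟨a, rfl⟩ _ ⟨a', rfl⟩
    exact ⟨_, _, ⟨_, sp_sum (hs k hk i) a⟩, ⟨_, sp_sum (hs k' hk' i) a'⟩, hL k hk i a,
      hL k' hk' i a', _, _, hW.det _ _ _ fun j => (pu i _ (pβ k' hk' a') j).1,
      hc ▸ tu i _ _ (pβ k hk a), hc ▸ tu i _ _ (pβ k' hk' a'),
      b1 _ _ _ _ (pu i _ (pβ k hk a)) (pu i _ (pβ k' hk' a')) (eβ k hk i a) (eβ k' hk' i a'),
      b2 _ _ (eβ k' hk' i a'), prσ _ _ (pu i _ (pβ k hk a)) (pu i _ (pβ k' hk' a'))⟩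
  refine ⟨fun j => ρ * κ j + c * l j + R j, {k | k ∈ S₀ ∧
      μ k ≤ ρ * Module.finrank ℂ (LinearMap.range (L k i))} \ {k | k < ρ * q},
    fun k => LinearMap.range (L k i), ρ, fun k hk => hk.1.1, hi.sdiff (Set.finite_lt_nat _),
    fun k hk => ⟨hk.1.2, ?_⟩,
    fun k₁ a1 k₂ a2 k₃ a3 k₄ a4 g₁ c1 g₂ c2 g₃ c3 g₄ c4 n3 n4 x y hxy => ?_⟩
  · rintro _ ⟨a, rfl⟩
    have e1 : k • dv m l + dv m (fun i => ρ * κ i + c * l i + R i) =
        dv m ((fun i => ρ * κ i + ((k + c : ℕ) : ℤ) * l i) + R) := by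
      funext p
      rw [Pi.add_apply, Pi.smul_apply]
      simp only [NV5.dv, Pi.add_apply, nsmul_eq_mul, Finset.mul_sum, Nat.cast_add,
        ← Finset.sum_add_distrib]
      exact Finset.sum_congr rfl fun s _ => by ring
    rw [e1, hc]
    exact (hB.sec _ _).2 ⟨_, sp_sum (hs k hk.1.1 i) a, hL k hk.1.1 i a⟩
  · have p1 := pg_mul hW hT (pg_pow hW hT f1 (pr k₁ a1.1.1 k₃ a3.1.1 g₁ c1 g₃ c3) x)
      (pg_pow hW hT f1 (pr k₂ a2.1.1 k₄ a4.1.1 g₂ c2 g₄ c4) y)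
    have e1 : x * (k₃ + c) + y * (k₄ + c) = x * (k₁ + c) + y * (k₂ + c) := by
      simp only [mul_add]
      omega
    rw [e1] at p1
    exact pg_dom hB hD f0 (add_le_add
      (Nat.mul_le_mul_left x ((not_lt.1 a1.2).trans (Nat.le_add_right _ _)))
      (Nat.mul_le_mul_left y ((not_lt.1 a2.2).trans (Nat.le_add_right _ _))))
      (mul_ne_zero (pow_ne_zero x n3) (pow_ne_zero y n4)) p1

end Pool.Agent.Lib.S5.CR
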