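import Pool.Agent.Lib.S5.GBlue
import Pool.Agent.Lib.NV5.B_KIT

/-! Project S5, row DQ0: domination without boundary. -/

open scoped Classical Topology
open Set Complex Metric Filter

set_option linter.unusedVariables false

noncomputable section

namespace Pool.Agent.Lib.S5

open Pool.Agent.Lib.SV (E)
open Pool.Agent.Lib.HS32 Pool.Agent.Lib.EX Pool.Agent.Lib.EXS Pool.Agent.Lib.ZL
open Pool.Agent.Lib.EXS.GLU Pool.Agent.Lib.EX.MON
open Pool.Agent.Lib.NV5 (Tns DomH)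

theorem DQ0.tmono {n : ℕ} {M : Mf n} {ι : Type} [Fintype ι] [DecidableEq ι] {D : Ad M ι} {q : ℕ}
    {P Q : ι → ℤ} {b : D.A → (Fin q → Fin n) → E n → ℂ} (h : P ≤ Q) (hb : Tns D q P b) :
    Tns D q Q b := by
  refine ⟨fun d z hz I => ?_, hb.law⟩
  obtain ⟨σ, h1, h2⟩ := hb.pol d z hz I
  refine ⟨fun y => xm (D.c d) (Q - P) y * σ y, h1.mono fun y hy =>
    (diff_xm fun i => Or.inr (sub_nonneg.2 (h i))).mul hy, h2.mono fun y hy ho => ?_⟩
  rw [hy ho, ← mul_assoc, ← MON.xm_add _ _ ho, show -Q + (Q - P) = -P by abel]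

theorem bDQ0 : St_DQ0 := by
  intro n M _ ι _ _ D l ν e c he hc hZ hH N r k b₁ b₂ hN _ h₁ h₂ h0 hp
  have hle : (fun i => (r : ℤ) * l i + k * ν i) ≤ fun i => ((r + k * c : ℕ) : ℤ) * l i := fun i => by
    have := mul_le_mul_of_nonneg_left (hZ.1 i) (Int.natCast_nonneg k)
    push_cast
    linarith
  obtain ⟨c₀, a, h⟩ := hH N (r + k * c) b₁ b₂
    (hN.trans ((Nat.le_mul_of_pos_right k hc).trans (Nat.le_add_left _ _)))
    (DQ0.tmono hle h₁) (DQ0.tmono hle h₂) h0 hp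
  obtain ⟨a', ha⟩ := hZ.2 a
  refine ⟨c₀, ∑ i, (a' i).toNat, fun j => ?_⟩
  obtain ⟨w, w0, w1, w2⟩ := h (j * c)
  have hj := Nat.le_mul_of_pos_right j hc
  refine ⟨w, w0, fun i hi => NV5.KITb.mono (fun s => ?_)
    (ha (j * c₀) _ (NV5.KITb.mono (fun s => le_of_eq ?_) (w1 i (hi.trans hj)))),
    fun i hi => w2 i (hi.trans_le hj)⟩
  · have h1 : (a' s).toNat ≤ (∑ i, (a' i).toNat) * e s :=
      (Finset.single_le_sum (f := fun i => (a' i).toNat) (fun _ _ => Nat.zero_le _)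
        (Finset.mem_univ s)).trans (Nat.le_mul_of_pos_right _ (he s))
    have h2 : a' s ≤ ((∑ i, (a' i).toNat : ℕ) : ℤ) * e s :=
      (Int.self_le_toNat _).trans (by exact_mod_cast h1)
    show ((j * c₀ : ℕ) : ℤ) * ν s + a' s ≤ j * c₀ * ν s + ((∑ i, (a' i).toNat : ℕ) : ℤ) * e s
    rw [Nat.cast_mul]
    linarith
  · push_cast
    ring

end Pool.Agent.Lib.S5
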