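import Pool.Agent.Lib.S5.SDefs
import Pool.Agent.Lib.NV2.B_SEC

/-! Project S5: generation in the two languages. -/

open scoped Classical Topology ContDiff Manifold
open Set Complex Metric Filter

noncomputable section

namespace Pool.Agent.Lib.S5

open Pool.Agent.Lib.SV (E)
open Pool.Agent.Lib.KP (HolAt)
open Pool.Agent.Lib.HS32 Pool.Agent.Lib.EX Pool.Agent.Lib.EXS Pool.Agent.Lib.ZL Pool.Agent.Lib.NV2
open Pool.Agent.Lib.HS.BBR (mf)

theorem GB.one {n : ℕ} {I : Type} [Fintype I] [DecidableEq I] {Y : Type} [TopologicalSpace Y]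
    [ChartedSpace (E n) Y] [IsManifold 𝓘(ℂ, E n) ω Y] {e : OpenPartialHomeomorph Y (E n)} {z : E n}
    {S : I → Set Y} {c : I → Option (Fin n)} (hU : EX.St_UNI) (he : e ∈ (mf n Y).C)
    (hz : z ∈ e.target) (hF : ∀ w ∈ e.target, ∀ i, e.symm w ∈ S i ↔ xi c i w = 0)
    (hE : ∃ h, Eqs n S (e.symm z) h) {P : I → ℤ} {f : Y → ℂ} {s : E n → ℂ} (s1 : HolN s z)
    (s0 : s z ≠ 0) (s2 : ∀ᶠ w in 𝓝 z, Off c w → f (e.symm w) = xm c (-P) w * s w) :
    ∃ h s, Eqs n S (e.symm z) h ∧ s (e.symm z) ≠ 0 ∧ ∀ᶠ x in 𝓝 (e.symm z), HolAt n 0 s x ∧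
      ((∀ i, x ∉ S i) → f x = s x * ∏ i, h i x ^ (-P i)) := by
  have ho : ∀ w ∈ e.target, Off c w ↔ ∀ i, e.symm w ∉ S i := fun w hw =>
    forall_congr' fun i => (hF w hw i).not.symm
  obtain ⟨h, hE⟩ := hE
  obtain ⟨u, hu, hg⟩ := BLW.unit hU he hz hF hE
  have u0 : ∀ᶠ w in 𝓝 z, ∀ i, u i w ≠ 0 := eventually_all.2 fun i =>
    (hu i).1.self_of_nhds.continuousAt.eventually_ne (hu i).2
  have t : Tendsto e (𝓝 (e.symm z)) (𝓝 z) := by
    simpa only [ContinuousAt, e.right_inv hz] using e.continuousAt (e.map_target hz)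
  refine ⟨h, fun x => s (e x) * ∏ i, u i (e x) ^ P i, hE, ?_, ?_⟩
  · simp only [e.right_inv hz]
    exact mul_ne_zero s0 (Finset.prod_ne_zero_iff.2 fun i _ => zpow_ne_zero _ (hu i).2)
  filter_upwards [t.eventually ((Eventually.and s1 (BLW.hol_prod hu P).1).and
    (s2.and (hg.and u0))), e.open_source.mem_nhds (e.map_target hz)] with x ⟨a, b, g, k⟩ hx
  refine ⟨(K1.hol_iff0 he hx).2 ((a.1.mul a.2).congr_of_eventuallyEq
    ((e.eventually_right_inverse (e.map_source hx)).mono fun w hw => by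
      simp only [hw, Pi.mul_apply])), fun hS => ?_⟩
  rw [e.left_inv hx] at b g
  rw [b ((ho _ (e.map_source hx)).2 (by rwa [e.left_inv hx])), mul_assoc,
    ← Finset.prod_mul_distrib, mul_comm, xm]
  refine congrArg _ (Finset.prod_congr rfl fun i _ => ?_)
  rw [g, mul_zpow, ← mul_assoc, ← zpow_add₀ (k i), add_neg_cancel, zpow_zero, one_mul,
    Pi.neg_apply]

theorem genD (hU : EX.St_UNI) {n : ℕ} {Y I : Type} [TopologicalSpace Y] [ChartedSpace (E n) Y]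
    [IsManifold 𝓘(ℂ, E n) ω Y] [Fintype I] [DecidableEq I] {S : I → Set Y} {D : Ad (mf n Y) I}
    {P : I → ℤ} (hF : D.Fit S) (hE : ∀ y, ∃ h, Eqs n S y h) (h : Gens D P) : GenD n S P := by
  obtain ⟨h1, -, h3, -⟩ := bSEC hU n Y I S D hF hE
  obtain ⟨r, G, hG, hg⟩ := h
  intro y
  obtain ⟨d, hd⟩ := GLU.ex_ch D y
  have hz := GLU.mem_B2 hd
  obtain ⟨a, s, s1, s0, s2⟩ := hg d _ hz
  have ind : ∀ d', ∀ z ∈ B2 n, ∀ᶠ w in 𝓝 z, Off (D.c d') w →
      D.rd ((off D).indicator (G a)) d' w = D.rd (G a) d' w := fun d' z hz' => by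
    filter_upwards [(D.e d').open_target.mem_nhds (BLW.tgt D d' hz')] with w hw o
    exact indicator_of_mem ((h1 _).2 fun i hi => o i ((BLW.fit hF d' w hw i).1 hi)) _
  obtain ⟨h, s', k⟩ := GB.one (Y := Y) (f := (off D).indicator (G a)) hU (D.mem d) (BLW.tgt D d hz)
    (BLW.fit hF d) (hE _) s1 s0 ((s2.and (ind d _ hz)).mono fun w hw o => (hw.2 o).trans (hw.1 o))
  refine ⟨(off D).indicator (G a), h, s', (h3 _ _).2 ⟨fun d' z hz' => ?_,
    fun x hx => indicator_of_notMem hx _⟩, ?_⟩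
  · obtain ⟨s', k1, k2⟩ := hG a d' z hz'
    exact ⟨s', k1, (k2.and (ind d' z hz')).mono fun w hw o => (hw.2 o).trans (hw.1 o)⟩
  · have e : (D.e d).symm (D.e d y) = y := (D.e d).left_inv hd
    exact e ▸ k

end Pool.Agent.Lib.S5
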