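import Pool.Agent.Lib.S5.B2K
import Pool.Agent.Lib.S5.ABlue
import Pool.Agent.Lib.S5.PDefs

/-! Project S5, row INQ. -/

open scoped Classical Topology
open Set Complex Metric Filter

noncomputable section

namespace Pool.Agent.Lib.S5

open Pool.Agent.Lib.SV (E nsq)
open Pool.Agent.Lib.HS32 Pool.Agent.Lib.EX Pool.Agent.Lib.EXS Pool.Agent.Lib.ZL Pool.Agent.Lib.NV2
open Pool.Agent.Lib.NV5

namespace CR

variable {n : ℕ} {M : Mf n} {ι : Type} [Fintype ι] [DecidableEq ι] {D : Ad M ι}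

theorem inqG [M.Cpt] (hT : Sb_TNS) (hK : Sb_KIT) (hF : Sb_FN)
    {W : ∀ N : ℕ, ℕ → (D.A → (Fin N → Fin n) → E n → ℂ) → Prop} (hW : Cl W) {F : Type} [Field F]
    [Algebra ℂ F] {Φ : FM D F} {V : VF n F} {m : ι → V.P → ℤ} {π : Hg D → V.P} {r q d C : ℕ}
    {e : ι → ℕ} {t : Fin r → M.X → ℂ} {κ l : ι → ℤ} (hKd : Kd D (fun i => e i) t)
    (hI : Imm D (fun i => e i) t) (hB : Φ.Br V m π) (hD : DomG W κ l e)
    (h : {a : ℕ | ∃ (s : ℕ) (b : Fin s → D.A → (Fin q → Fin n) → E n → ℂ), (a + 1) ^ d ≤ C * s ∧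
      (∀ j, W q 1 (b j)) ∧ Fam D q (fun i => κ i + a * l i) b}.Infinite) :
    ∃ Q C' S U, Inq V (NV5.dv m l) (NV5.dv m fun i => e i) (NV5.dv m Q) d C' S U := by
  have hb : ∀ a : ℕ, ∃ (s : ℕ) (b : Fin s → D.A → (Fin q → Fin n) → E n → ℂ),
      (∃ (s : ℕ) (b : Fin s → D.A → (Fin q → Fin n) → E n → ℂ), (a + 1) ^ d ≤ C * s ∧
        (∀ j, W q 1 (b j)) ∧ Fam D q (fun i => κ i + a * l i) b) → (a + 1) ^ d ≤ C * s ∧
        (∀ j, W q 1 (b j)) ∧ Fam D q (fun i => κ i + a * l i) b := fun a => by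
    by_cases h : ∃ (s : ℕ) (b : Fin s → D.A → (Fin q → Fin n) → E n → ℂ), (a + 1) ^ d ≤ C * s ∧
        (∀ j, W q 1 (b j)) ∧ Fam D q (fun i => κ i + a * l i) b
    · obtain ⟨s, b, h⟩ := h
      exact ⟨s, b, fun _ => h⟩
    · exact ⟨0, 0, fun h' => (h h').elim⟩
  choose μ b hb using hb
  obtain ⟨Q, S, U, ρ, h1, h2, h3, h4⟩ := inpG hT hK hF hW hKd hI hB hD h μ b fun a ha => by
    obtain ⟨a1, a2, a3, a4⟩ := hb a ha
    refine ⟨Nat.pos_of_ne_zero fun h0 => ?_, fun s => ⟨a2 s, a3 s⟩, a4⟩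
    rw [h0] at a1
    exact absurd a1 (not_le.2 (by positivity))
  exact ⟨Q, C * ρ, S, U, h2, fun k hk => (hb k (h1 hk)).1.trans
    (by rw [mul_assoc]; exact Nat.mul_le_mul_left C (h3 k hk).1), fun k hk => (h3 k hk).2, h4⟩

theorem cl_alt : Cl fun N r (b : D.A → (Fin N → Fin n) → E n → ℂ) => Alt D r b := by
  refine ⟨fun _ => Alt.zero, fun _ _ _ _ _ _ => Alt.mul, fun _ _ _ => Alt.det, fun q m b c h => ?_⟩
  choose β k using h
  refine ⟨fun _ => 0, fun d z hz ho I p p' hp _ => ?_⟩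
  show ∑ s, c s * b s d _ z = -∑ s, c s * b s d I z
  rw [← Finset.sum_neg_distrib]
  exact Finset.sum_congr rfl fun s _ => by
    rw [← mul_neg]
    exact congrArg _ (k s d z hz ho I p p' hp (Subsingleton.elim _ _))

end CR

theorem bINQ (hT : Sb_TNS) (hK : Sb_KIT) (hF : Sb_FN) : St_INQ := by
  intro n M _ ι _ _ D F _ _ Φ V m π r e t l q d C _ hKd hI hB hD h
  refine CR.inqG (W := fun _ _ _ => True) (κ := 0) (q := q) (C := C) hT hK hF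
    ⟨fun _ => trivial, fun _ _ _ _ _ _ _ _ => trivial, fun _ _ _ _ => trivial,
      fun _ _ _ _ _ => trivial⟩ hKd hI hB (fun N r k b₁ b₂ hN _ t1 t2 => hD N k b₁ b₂ hN
        (by simpa using t1) (by simpa using t2)) (h.mono ?_)
  rintro a ⟨s, b, h1, h2⟩
  exact ⟨s, b, h1, fun _ => trivial, by simpa using h2⟩

/-- Step two for tensors that alternate in blocks. -/
theorem inqP (hT : Sb_TNS) (hK : Sb_KIT) (hF : Sb_FN) {n : ℕ} {M : Mf n} [M.Cpt] {ι : Type}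
    [Fintype ι] [DecidableEq ι] {D : Ad M ι} {F : Type} [Field F] [Algebra ℂ F] {Φ : FM D F}
    {V : VF n F} {m : ι → V.P → ℤ} {π : Hg D → V.P} {r q d C : ℕ} {e : ι → ℕ}
    {t : Fin r → M.X → ℂ} {l ν : ι → ℤ} (hKd : Kd D (fun i => e i) t)
    (hI : Imm D (fun i => e i) t) (hB : Φ.Br V m π) (hD : DomP D l ν e)
    (h : {a : ℕ | ∃ (s : ℕ) (b : Fin s → D.A → (Fin q → Fin n) → E n → ℂ), (a + 1) ^ d ≤ C * s ∧
      (∀ j, Alt D 1 (b j)) ∧ Fam D q (fun i => l i + a * ν i) b}.Infinite) :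
    ∃ Q C' S U, Inq V (NV5.dv m ν) (NV5.dv m fun i => e i) (NV5.dv m Q) d C' S U :=
  CR.inqG hT hK hF CR.cl_alt hKd hI hB (fun N r k b₁ b₂ _ => hD N r k b₁ b₂) h

end Pool.Agent.Lib.S5
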