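import Pool.Agent.Lib.S5.NVQ2
import Pool.Agent.Lib.S5.ABlue
import Pool.Agent.Lib.S5.PDefs

/-! Project S5, row NVQ. -/

open Filter

namespace Pool.Agent.Lib.S5

open Pool.Agent.Lib.SV (E)
open Pool.Agent.Lib.HS32 Pool.Agent.Lib.EX Pool.Agent.Lib.EXS Pool.Agent.Lib.ZL Pool.Agent.Lib.NV2
open Pool.Agent.Lib.ZQ (HqC)

/-- Step one with alternating tensors. -/
theorem nvqA {n r : ℕ} {M : Mf n} [M.Cpt] {ι : Type} [Fintype ι] [DecidableEq ι] {D : Ad M ι}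
    (X : Cx D) (c : ℕ) (Q ν : ι → ℤ) (t : Fin r → M.X → ℂ)
    (hq : HqC 1 D X.μ) (hK : Kd D (fun i => X.e i) t) (hI : Imm D (fun i => X.e i) t)
    (hα : ∀ x ∈ off D, X.α x = lg t x) (hZ : Zo X Q ν) (hG : Gens D fun i => ν i + c * X.e i)
    (a : ℕ) (P : Polynomial ℚ)
    (hP : ∀ᶠ j : ℕ in atTop, (h0 D (fun i => Q i + a * ν i + j * X.e i) : ℚ) = P.eval (j : ℚ)) :
    ∃ q ≤ r, ∃ (m : ℕ) (b : Fin m → D.A → (Fin q → Fin n) → E n → ℂ),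
      |P.eval 0| ≤ (r + 1) * m ∧ Fam D q (fun i => Q i + a * ν i) b ∧ ∀ s, Alt D 1 (b s) := by
  obtain ⟨q, h1, m, b, h2, h3, h4⟩ := NVQ.nvq X c Q ν t hq hK hI hα hZ hG a P hP
  refine ⟨q, h1, m, b, h2.trans (mul_le_mul_of_nonneg_right (le_add_of_nonneg_right zero_le_one)
    m.cast_nonneg), ⟨fun s => ⟨(h3 s).pol, (h3 s).law⟩, fun c hc => ?_⟩, fun s => .ten (h3 s).alt⟩
  simpa only [Finset.sum_apply, Pi.smul_apply, smul_eq_mul] using (h4 c hc).ne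

theorem st_NVQ : St_NVQ := fun _ _ _ _ _ _ _ X _ c Q ν t hq hK hI hα hZ hG a P hP =>
  let ⟨q, h1, m, b, h2, h3, _⟩ := nvqA X c Q ν t hq hK hI hα hZ hG a P hP
  ⟨q, h1, m, b, h2, h3⟩

end Pool.Agent.Lib.S5
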