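import Pool.Agent.Lib.S5.A3Q
import Pool.Agent.Lib.S5.B_WR
import Pool.Agent.Lib.S5.Poly

/-! Project S5: the glue of the steps one to five. -/

open scoped Classical Topology
open Set Filter Polynomial

set_option linter.unusedSectionVars false

noncomputable section

namespace Pool.Agent.Lib.S5

open Pool.Agent.Lib.SV (E)
open Pool.Agent.Lib.HS32 Pool.Agent.Lib.EX Pool.Agent.Lib.ZL Pool.Agent.Lib.NV2
open Pool.Agent.Lib.NV5 (FM VF Hg dv Tns DomH Ctx4)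

variable {n : ℕ} {M : Mf n} {ι : Type} [Fintype ι] [DecidableEq ι] {D : Ad M ι}
  {F : Type} [Field F] [Algebra ℂ F] {Φ : FM D F} {V : VF n F} {m : ι → V.P → ℤ} {π : Hg D → V.P}

theorem Fam.mono {q s : ℕ} {P Q : ι → ℤ} {b : Fin s → D.A → (Fin q → Fin n) → E n → ℂ}
    (h : Fam D q P b) (le : P ≤ Q) : Fam D q Q b := by
  refine ⟨fun u => ⟨fun d z hz I => ?_, (h.1 u).law⟩, h.2⟩
  obtain ⟨g, hg, h1⟩ := (h.1 u).pol d z hz I
  refine ⟨fun y => xm (D.c d) (Q - P) y * g y, hg.mono fun y hy => (MON.diff_xm fun i => .inr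
    (sub_nonneg.2 (le i))).mul hy, h1.mono fun y hy ho => ?_⟩
  rw [hy ho, ← mul_assoc, ← MON.xm_add _ _ ho]
  congr 2
  abel

/-- Many tensors give many sections. -/
theorem inq5 [M.Cpt] (hN : St_NVQ) (hI : St_INQ) {X : Cx D} {r c' c d : ℕ}
    {t : Fin r → M.X → ℂ} {ν : ι → ℤ} (C : Ctx4 X t c' c ν) (hD : DomH D X.l X.e)
    (br : Φ.Br V m π) (P : ℕ → ℚ[X]) (hP : ∀ a : ℕ, ∀ᶠ j : ℕ in atTop,
      (h0 D (fun i => X.l i + a * ν i + j * X.e i) : ℚ) = (P a).eval (j : ℚ))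
    (low : ∃ c : ℕ, ∃ᶠ a : ℕ in atTop, ((a : ℚ) + 1) ^ d ≤ c * |(P a).eval 0|) :
    ∃ Q C' S U, Inq V (dv m X.l) (dv m fun i => X.e i) (dv m Q) d C' S U := by
  obtain ⟨c₁, h₁⟩ := low
  choose q q1 s b b1 b2 using fun a => hN n M ι D X r c' X.l ν t C.hq C.kd C.imm C.alp
    (by simpa using C.zo 0) (by simpa using C.gen 1) a (P a) (hP a)
  obtain ⟨q₀, hq⟩ : ∃ q₀ : Fin (r + 1),
      {a : ℕ | ((a : ℚ) + 1) ^ d ≤ c₁ * |(P a).eval 0| ∧ q a = q₀}.Infinite := by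
    by_contra hn
    rw [← Nat.cofinite_eq_atTop, frequently_cofinite_iff_infinite] at h₁
    exact h₁ ((finite_iUnion fun q₀ => not_infinite.1 fun h => hn ⟨q₀, h⟩).subset fun a ha =>
      mem_iUnion.2 ⟨⟨q a, Nat.lt_succ_of_le (q1 a)⟩, ha, rfl⟩)
  refine hI n M ι D F Φ V m π r X.e t X.l q₀ d ((c + 2) ^ d * c₁ * (r + 1)) C.epos C.kd C.imm br hD
    ((hq.image (f := fun a => 1 + a * c) fun x _ y _ h =>
      Nat.eq_of_mul_eq_mul_right C.cpos (Nat.add_left_cancel h)).mono ?_)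
  rintro _ ⟨a, ⟨h2, h3⟩, rfl⟩
  have h4 := b2 a
  generalize b a = b' at h4
  rw [mem_ofPred_eq, ← h3]
  refine ⟨s a, b', ?_, h4.mono fun i => ?_⟩
  · have h5 : (a + 1) ^ d ≤ c₁ * ((r + 1) * s a) := by
      exact_mod_cast h2.trans (mul_le_mul_of_nonneg_left (b1 a) c₁.cast_nonneg)
    have h6 := Nat.pow_le_pow_left (show 1 + a * c + 1 ≤ (c + 2) * (a + 1) by nlinarith) d
    rw [mul_pow] at h6
    exact h6.trans ((Nat.mul_le_mul_left _ h5).trans_eq (by ring))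
  · have := mul_le_mul_of_nonneg_left (C.le i) (Int.natCast_nonneg a)
    push_cast
    linarith

/-- The steps one to five. -/
theorem pre5 [M.Cpt] (hH : St_HIL) (hN : St_NVQ) (hI : St_INQ) {X : Cx D} {r c' c : ℕ}
    {t : Fin r → M.X → ℂ} {ν : ι → ℤ} (C : Ctx4 X t c' c ν) (hD : DomH D X.l X.e)
    (br : Φ.Br V m π) (R : ℚ[X][X]) (hR : ∀ a : ℕ, ∀ᶠ j : ℕ in atTop,
      (h0 D (fun i => X.l i + a * ν i + j * X.e i) : ℚ) = (R.eval (Polynomial.C (a : ℚ))).eval (j : ℚ))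
    (h0' : R.leadingCoeff.eval 0 ≠ 0) :
    ∃ Q d z k a c₁ b τ, V.Pre (dv m X.l) (dv m fun i => X.e i) (dv m Q) d z k a c₁ b τ ∧
      V.One (dv m X.l) k ∧ R6.Wr V m k (fun i => a * ν i) (fun i => c' * X.e i) (τ ^ c) ∧
      ∀ j : ℕ, Gens D fun i => j * (a * ν i) + c' * X.e i := by
  obtain ⟨R', h1, -⟩ := hH n M ι D X r c' X.l ν t C.hq C.kd C.alp (by simpa using C.zo 0)
    (by simpa using C.gen 1)
  obtain ⟨h2, h3⟩ := poly (fun a j => h0 D fun i => X.l i + a * ν i + j * X.e i) R R' hR h1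
  obtain ⟨Q, C', S, U, I⟩ := inq5 hN hI C hD br _ hR ((h3 h0').imp fun _ h => h.frequently)
  obtain ⟨f, -, hf⟩ := I.inp
  refine ⟨Q, b35 C br hf I.qu fun b => ?_⟩
  obtain ⟨x, hx⟩ := R6.OUT.big X.e C.epos (fun i => b * X.e i - X.l i) 0
  obtain ⟨c₂, h4⟩ := h2 (x + 1) (Nat.le_add_left 1 x)
  refine ⟨c₂, fun j => le_trans ?_ (h4 j)⟩
  rw [← (br.dim _).2]
  refine h0_mono br fun U => (NV5.bKIT n M ι D).1 _ _ _ fun i => ?_
  have h5 := (hx i).1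
  have h6 := Int.natCast_nonneg (X.e i)
  push_cast
  linarith

end Pool.Agent.Lib.S5
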