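import Pool.Agent.Lib.NV5.B_VM
import Pool.Agent.Lib.S5.ABlue
import Pool.Agent.Lib.S5.PDefs

/-! Project S5, row `VMQ`: the tensors of a family of multivector fields. -/

open scoped Classical Topology ContDiff Manifold
open Set Complex Metric Filter

noncomputable section

namespace Pool.Agent.Lib.S5

open Pool.Agent.Lib.SV (E)
open Pool.Agent.Lib.KP (HolAt)
open Pool.Agent.Lib.HS32 Pool.Agent.Lib.EX Pool.Agent.Lib.EXS Pool.Agent.Lib.ZL Pool.Agent.Lib.NV2
open Pool.Agent.Lib.HS.BBR (mf)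
open Pool.Agent.Lib.NV5

variable {n : ℕ} {Y I : Type} [TopologicalSpace Y] [ChartedSpace (E n) Y]
  [IsManifold 𝓘(ℂ, E n) ω Y] [Fintype I] [DecidableEq I] {S : I → Set Y} {q : ℕ} {Q : I → ℤ}

namespace VMQ

/-- The components of a multivector field in the charts. -/
def tb6 (D : Ad (mf n Y) I) (b : Y → (E n →L[ℂ] ℂ) [⋀^Fin q]→ₗ[ℂ] ℂ) :
    D.A → (Fin q → Fin n) → E n → ℂ :=
  fun d J => D.rd (fun x : Y => b x fun p => dAt n (fun y : Y => D.e d y (J p)) x) d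

theorem sum6 (D : Ad (mf n Y) I) {s : ℕ} (b : Fin s → Y → (E n →L[ℂ] ℂ) [⋀^Fin q]→ₗ[ℂ] ℂ)
    (c : Fin s → ℂ) (d : D.A) (J : Fin q → Fin n) (z : E n) :
    tb6 D (∑ i, c i • b i) d J z = ∑ i, c i * tb6 D (b i) d J z := by
  simp only [tb6, Ad.rd, Finset.sum_apply, Pi.smul_apply]
  induction (Finset.univ : Finset (Fin s)) using Finset.induction_on with
  | empty => simp
  | insert a t h ih =>
    rw [Finset.sum_insert h, Finset.sum_insert h, AlternatingMap.add_apply, ih]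
    rfl

theorem ten6 {D : Ad (mf n Y) I} {b : Y → (E n →L[ℂ] ℂ) [⋀^Fin q]→ₗ[ℂ] ℂ} (hF : D.Fit S)
    (hE : ∀ y, ∃ h, Eqs n S y h) (hb : MVec n q S Q b) : Ten D q Q (tb6 D b) := by
  obtain ⟨s1, s2, -⟩ := bSEC EX.bUNI n Y I S D hF hE
  have e : ∀ d j, ∀ x ∈ (D.e d).source, (fun w => D.e d ((D.e d).symm w) j) =ᶠ[𝓝 (D.e d x)]
      (ContinuousLinearMap.proj j : E n →L[ℂ] ℂ) := fun d j x hx =>
    (isOpen_ball.eventually_mem (TRF.mem_B D hx)).mono fun w hw => congrFun (TRF.rinv D hw) j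
  have u : ∀ d j, ∀ x ∈ (D.e d).source,
      DifferentiableAt ℂ (fun w => D.e d ((D.e d).symm w) j) (D.e d x) := fun d j x hx =>
    (ContinuousLinearMap.differentiableAt _).congr_of_eventuallyEq (e d j x hx)
  have k : ∀ d (x : Y), x ∈ (D.e d).source → ∃ A : E n ≃L[ℂ] E n,
      (∀ h : Y → ℂ, DifferentiableAt ℂ (fun w => h ((D.e d).symm w)) (D.e d x) →
        fderiv ℂ (fun w => h ((D.e d).symm w)) (D.e d x) = (dAt n h x).comp (A : E n →L[ℂ] E n)) ∧
      ∀ ξ : E n →L[ℂ] ℂ, ξ = ∑ j, ξ (A (Pi.single j 1)) • dAt n (fun y : Y => D.e d y j) x :=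
    fun d x hx => by
      obtain ⟨A, hA⟩ := K1.dAt_eq (D.mem d) hx
      refine ⟨A, hA ℂ, fun ξ => ContinuousLinearMap.ext fun v => ?_⟩
      obtain ⟨v, rfl⟩ := A.surjective v
      have h : ∀ j, dAt n (fun y : Y => D.e d y j) x (A v) = v j := fun j =>
        (congrArg (· v) ((hA ℂ (fun y => D.e d y j) (u d j x hx)).symm.trans
          ((e d j x hx).fderiv_eq.trans (ContinuousLinearMap.fderiv _))) :)
      simp only [ContinuousLinearMap.sum_apply, ContinuousLinearMap.smul_apply, h]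
      conv_lhs => rw [pi_eq_sum_univ' v]
      simp only [map_sum, map_smul, smul_eq_mul, mul_comm]
  unfold tb6
  refine ⟨fun d z hz J => (s2 Q _ d z hz).1 (hb.2 _ _ ?_), fun a d (x : Y) ha hd _ J => ?_,
    fun d z _ _ J σ => ?_, ?_⟩
  · exact ((D.e d).open_source.eventually_mem (TRF.mem_src D hz)).mono fun x hx p =>
      (K1.hol_iff0 (D.mem d) hx).2 (u d _ x hx)
  · obtain ⟨A, h1, h2⟩ := k d x hd
    have t := (TRF.holT D ha hd).self_of_nhds
    simp only [Ad.rd, (D.e a).left_inv ha, (D.e d).left_inv hd]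
    rw [← VMb.exp (b x) (fun p j => D.J a d x (J p) j) fun j => dAt n (fun y : Y => D.e d y j) x]
    refine congrArg (b x) (funext fun p => (h2 _).trans (Finset.sum_congr rfl fun j _ => ?_))
    refine congrArg (· • _) ?_
    refine (congrArg (· (Pi.single j 1))
      (h1 (fun y => D.e a y (J p)) (differentiableAt_pi.1 t _))).symm.trans ?_
    exact congrArg (· (Pi.single j 1)) (fderiv_apply t (J p))
  · exact ((b _).map_perm (fun p => dAt n (fun y : Y => D.e d y (J p)) _) σ).trans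
      (by rw [Units.smul_def, zsmul_eq_mul]; rfl)
  · obtain ⟨x, hx, h0⟩ := hb.1
    obtain ⟨d, hd⟩ := MV.chart D x
    obtain ⟨A, -, h2⟩ := k d x hd
    by_contra hn
    refine h0 (AlternatingMap.ext fun ξ => ?_)
    rw [funext fun p => h2 (ξ p), VMb.exp]
    refine Finset.sum_eq_zero fun J _ => mul_eq_zero_of_right _ (by_contra fun h => hn
      ⟨d, J, _, TRF.mem_B D hd, (s1 x).2 hx d hd, ?_⟩)
    simpa only [Ad.rd, (D.e d).left_inv hd] using h

end VMQ

theorem vmq {D : Ad (mf n Y) I} (hF : D.Fit S) (hE : ∀ y, ∃ h, Eqs n S y h) {s : ℕ}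
    {b : Fin s → Y → (E n →L[ℂ] ℂ) [⋀^Fin q]→ₗ[ℂ] ℂ}
    (hb : ∀ c : Fin s → ℂ, c ≠ 0 → MVec n q S Q (∑ i, c i • b i)) :
    ∃ b₁ : Fin s → D.A → (Fin q → Fin n) → E n → ℂ, Fam D q Q b₁ ∧ ∀ i, Alt D 1 (b₁ i) := by
  have h : ∀ i, Ten D q Q (VMQ.tb6 D (b i)) := fun i => VMQ.ten6 hF hE (by
    have := hb (Pi.single i 1) fun h => by simpa using congrFun h i
    rwa [Finset.sum_eq_single i (fun j _ hj => by simp [hj]) (by simp), Pi.single_eq_same,
      one_smul] at this)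
  refine ⟨fun i => VMQ.tb6 D (b i), ⟨fun i => ⟨(h i).pol, (h i).law⟩, fun c hc => ?_⟩,
    fun i => Alt.ten (h i).alt⟩
  simpa only [VMQ.sum6] using (VMQ.ten6 hF hE (hb c hc)).ne

end Pool.Agent.Lib.S5
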