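import Pool.Agent.Lib.S5.GBlue
import Pool.Agent.Lib.NV2.B_CTX

/-! Project S5: the analytic data of a pair. -/

open scoped Classical Topology ContDiff ENNReal Manifold
open Set MeasureTheory Complex Metric Filter

noncomputable section

namespace Pool.Agent.Lib.S5

open Pool.Agent.Lib.SV (E nsq)
open Pool.Agent.Lib.GH (Hermitian)
open Pool.Agent.Lib.HS32 Pool.Agent.Lib.EX Pool.Agent.Lib.EXS Pool.Agent.Lib.ZL Pool.Agent.Lib.NV2
open Pool.Agent.Lib.ZQ (HqC)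
open Pool.Agent.Lib.HS.BBR (mf)

/-- The analytic data of a Zariski decomposition `c (K + Δ) = p = ν + (p - ν)`. -/
structure Ctx5 {n : ℕ} {M : Mf n} {ι : Type} [Fintype ι] [DecidableEq ι] {D : Ad M ι} (X : Cx D)
    {r : ℕ} (t : Fin r → M.X → ℂ) (c' c : ℕ) (p ν : ι → ℤ) : Prop where
  one : X.m = 1
  epos : ∀ i, 0 < X.e i
  big : X.Big
  nef : X.Nf ν
  can : DM.Can D X.l X.w
  hq : HqC 1 D X.μ
  kd : Kd D (fun i => X.e i) t
  imm : Imm D (fun i => X.e i) t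
  alp : ∀ x ∈ off D, X.α x = lg t x
  zo : Zo X X.l ν
  gen : ∀ j : ℕ, Gens D fun i => j * ν i + c' * X.e i
  cpos : 0 < c
  lo : ∀ i, (X.l i : ℝ) ≤ p i / c
  hi : ∀ i, (p i / c : ℝ) < X.l i + 1
  zar : Zr D p ν X.e

/-- The data on the manifold layer. -/
def St_CT5 : Prop := ∀ (n : ℕ) (Y I : Type) [TopologicalSpace Y] [ChartedSpace (E n) Y]
  [IsManifold 𝓘(ℂ, E n) ω Y] [CompactSpace Y] [T2Space Y] [ConnectedSpace Y] [Fintype I]
  [DecidableEq I] (G : Y → HS.Mat n) (S : I → Set Y) (c : ℕ) (e : I → ℕ) (l p ν : I → ℤ)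
  (η : Y → ℂ), Hermitian G → (∀ y, Ord n 1 S l η y) → AmpBy n S e → 0 < c →
  (∀ i, (l i : ℝ) ≤ p i / c ∧ (p i / c : ℝ) < l i + 1) → Nef n G S ν → Zar n S p ν e →
  ∃ (D : Ad (mf n Y) I) (X : Cx D) (r c' : ℕ) (t : Fin r → Y → ℂ), D.Fit S ∧ X.l = l ∧ X.e = e ∧
    Ctx5 X t c' c p ν

theorem bCT5 (hSEC : St_SEC) (hKD : St_KD) (hZ : St_ZOX) (hN : St_NFB) (hC : St_CX)
    (hP : St_PEAK) (hU : EX.St_UNI) (hA : EX.St_ADA) : St_CT5 := by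
  intro n Y I _ _ _ _ _ _ _ _ G S c e l p ν η hG hη ⟨h0, r, τ, h⟩ hc hp hn hz
  have : (mf n Y).Cpt := ⟨‹_›, ‹_›, ‹_›⟩
  obtain ⟨D, hF, -⟩ := hA n (mf n Y) I S (fun _ => univ) (fun _ => univ_mem) fun x : Y => by
    obtain ⟨h, -, hh, -⟩ := hη x
    exact ⟨_, K1.ch_mf x, mem_chart_source _ x, _,
      K1.eqs_chart (K1.ch_mf x) (mem_chart_source _ x) hh⟩
  obtain ⟨w, w1, w2, w3⟩ := K1.ord_form hU hF hη
  have key := fun (d : D.A) z (hz : z ∈ B2 n) =>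
    let ⟨_, _, hE, t0, ht, im⟩ := h ((D.e d).symm z)
    AMB.one (Y := Y) hU (D.mem d) (BLW.tgt D d hz) (BLW.fit hF d) hE t0 ht im
  let A : Am D := ⟨r, e, τ, fun d => BLW.num (D.c d) (fun i => -(e i : ℤ)) (τ ∘ (D.e d).symm), h0,
    fun d z hz => ⟨(key d z hz).1.1, (key d z hz).1.2.1, fun _ => (key d z hz).1.2.2⟩,
    fun d z hz => (key d z hz).2⟩
  obtain ⟨X, x1, x2, x3, x4, x5, x6⟩ := hC n _ I D A l 1 w one_pos w1 w2 w3
  have x4 : X.e = e := x4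
  obtain ⟨t, t1, t2, t3⟩ := hKD n _ I D A
  have nf := hN n Y I G S ν D X hG hF hn
  obtain ⟨c', X', -, -, -, -, -, y1, -, y2⟩ := hP n _ I D X ν x5 nf
  obtain ⟨-, -, s1, -⟩ := hSEC n Y I S D hF fun y => (hη y).imp fun h hh => hh.elim fun _ a => a.1
  have ho : ∀ d, ∀ z ∈ B2 n, (D.e d).symm z ∈ off D → Off (D.c d) z := fun d z hz h =>
    GLU.rinv (D := D) d hz ▸ h d (GLU.mem_src d hz)
  have eo : ∀ i, X.o i = l i := fun i => by rw [Cx.o, x1, x2, Nat.cast_one, div_one]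
  have c0 : (0 : ℝ) < c := Nat.cast_pos.2 hc
  have zr : Zr D p ν X.e := ⟨hz.1, fun k => (hz.2 k).imp fun a ha j U hU =>
    (s1 _ _).1 (ha j U ((s1 _ _).2 (x4 ▸ hU)))⟩
  refine ⟨D, X, r, c', t, hF, x2, x4, x1, x4 ▸ h0, x5, nf, fun b d x h1 h2 => ?_, ?_, x4 ▸ t1,
    x4 ▸ t2, fun x hx => ?_, ?_, fun j => ?_, hc, x2 ▸ fun i => (hp i).1, x2 ▸ fun i => (hp i).2, zr⟩
  · rw [x2, x3]
    simpa using w3 b d x h1 h2
  · have he := X.eta
    rw [x1, x2, x3] at he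
    exact ZQ.hqC (C := 1) SV.hor1 one_ne_zero ENNReal.one_ne_top one_pos w1 w2 w3
      (fun d z hz h => ⟨CX.hol A hz (ho d z hz h), CX.imm A hz (ho d z hz h)⟩) (CX.cpt A) he
  · rw [x6]
    exact congrArg (fun v => Real.log (nsq v)) (t3 x hx).symm
  · exact hZ n _ I D X ⟨p, c, c0, fun i => (eo i).trans_le (hp i).1, fun i => eo i ▸ (hp i).2⟩ ν _
      (fun i => l i) 0 x5 nf hz.1 zr.2 le_rfl
      fun i => ⟨(eo i).le, by rw [eo]; exact lt_add_one _, by rw [x2, zero_mul, add_zero]⟩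
  · simpa only [y1, Nat.cast_mul] using y2 j

end Pool.Agent.Lib.S5
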