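import Pool.Agent.Lib.NV6.G_TST
import Pool.Agent.Lib.S3K.Sko

/-! Project S5, step eight: the test section and its holomorphic part. -/

open scoped Classical Topology ContDiff ENNReal
open Set MeasureTheory Complex Metric Filter

noncomputable section

namespace Pool.Agent.Lib.S5

open Pool.Agent.Lib.SV (E nsq nsq_nonneg)
open Pool.Agent.Lib.HS32 Pool.Agent.Lib.EX Pool.Agent.Lib.EXS Pool.Agent.Lib.ZL Pool.Agent.Lib.NV6
open Pool.Agent.Lib.EXS.K32
open Pool.Agent.Lib.ZQ (HqO offz)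
open Pool.Agent.Lib.ZQ.Sg (Ps aem cont_on)

section tst

variable {n : ℕ} {M : Mf n} {ι : Type} [Fintype ι] {D : Ad M ι} {O : Set M.X}
  {ν : Measure M.X} {K : ℝ≥0∞} {U U' : M.X → ℂ} {ψ φ : M.X → ℝ} {θ : ℝ}

/-- The inequality given by the test section. -/
theorem tstV (K1 : K ≠ ⊤) (hO : IsOpen O) (ae : ∀ᵐ x ∂ν, x ∈ O) (H : HqO K D ν O)
    (hU : D.On O fun d z => HolN (D.rd U d) z) (hU' : D.On O fun d z => HolN (D.rd U' d) z)
    (hψ : Ps D O ψ) (hφ : Ps D O φ) (θ0 : 0 < θ)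
    (fin : ∫⁻ x, ENNReal.ofReal (normSq (U x) * normSq (U' x) *
      (normSq (U x) + Real.exp (ψ x)) ^ (-2 - θ) * Real.exp (-φ x)) ∂ν ≠ ⊤)
    (fin' : ∫⁻ x, ENNReal.ofReal (Real.exp (ψ x) * normSq (U' x) *
      (normSq (U x) + Real.exp (ψ x)) ^ (-2 - θ) * Real.exp (-φ x)) ∂ν ≠ ⊤) :
    ∃ F : M.X → ℂ, (D.On O fun d z => HolN (D.rd F d) z) ∧ ∫⁻ x, ENNReal.ofReal (normSq (F x) *
        ((normSq (U x) + Real.exp (ψ x)) ^ (-θ) * Real.exp (-φ x))) ∂ν ≠ ⊤ ∧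
      ∫⁻ x, ENNReal.ofReal (normSq (U' x * (star (U x) *
        ((normSq (U x) + Real.exp (ψ x))⁻¹ : ℝ)) - F x) *
        ((normSq (U x) + Real.exp (ψ x)) ^ (-θ) * Real.exp (-φ x))) ∂ν ≤
      K * ENNReal.ofReal (1 / θ) * ∫⁻ x, ENNReal.ofReal (Real.exp (ψ x) * normSq (U' x) *
        (normSq (U x) + Real.exp (ψ x)) ^ (-2 - θ) * Real.exp (-φ x)) ∂ν := by
  set N : M.X → ℝ := fun x => normSq (U x) + Real.exp (ψ x) with hN
  have p : ∀ x, 0 < N x := fun x => add_pos_of_nonneg_of_pos (normSq_nonneg _) (Real.exp_pos _)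
  have cg : ∀ {f : M.X → ℂ}, (D.On O fun d z => HolN (D.rd f d) z) → ContinuousOn f O :=
    fun h => cont_on fun d z hz hw => (h d z hz hw).self_of_nhds.continuousAt
  have cp : ∀ {f : M.X → ℝ}, Ps D O f → ContinuousOn f O :=
    fun h => cont_on fun d z hz hw => (h d z hz hw).1.continuousAt
  have cN : ContinuousOn N O := (continuous_normSq.comp_continuousOn (cg hU)).add (cp hψ).rexp
  have pN : Ps D O fun x => Real.log (N x) := fun d z hz hw =>
    ⟨((bLEV n z 0).1 _ _ (hU d z hz hw) (hψ d z hz hw).1 ((hψ d z hz hw).2 0)).1,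
      fun v => LEV.one36 (hU d z hz hw) (hψ d z hz hw).1 ((hψ d z hz hw).2 v)⟩
  have ew : ∀ x, Real.exp (-(θ * Real.log (N x) + φ x)) = N x ^ (-θ) * Real.exp (-φ x) := fun x => by
    rw [Real.rpow_def_of_pos (p x), ← Real.exp_add]
    exact congrArg _ (by ring)
  have er : ∀ x, N x ^ (-2 - θ) = (N x ^ 2)⁻¹ * N x ^ (-θ) := fun x => by
    rw [sub_eq_add_neg, Real.rpow_add (p x), Real.rpow_neg (p x).le 2, Real.rpow_two]
  obtain ⟨F, f1, f2⟩ := H (fun x => θ * Real.log (N x) + φ x)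
    (fun x => 1 / θ * (Real.exp (ψ x) * normSq (U' x) / N x ^ 2))
    (fun x => U' x * (star (U x) * ((N x)⁻¹ : ℝ)))
    (aem hO ae (continuousOn_const.mul (((cp hψ).rexp.mul (continuous_normSq.comp_continuousOn
      (cg hU'))).div (cN.pow 2) fun x _ => (pow_pos (p x) 2).ne'))) fun d z hz hw => by
    obtain ⟨a1, a2⟩ := pN.mul θ0.le d z hz hw
    obtain ⟨b1, b2⟩ := hφ d z hz hw
    have c := fun v => levU (hU d z hz hw) (hU' d z hz hw) (hψ d z hz hw).1 ((hψ d z hz hw).2 v)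
    have l := fun v => lv_add a1 b1 v
    have q : 0 ≤ 1 / θ * (Real.exp (ψ ((D.e d).symm z)) * normSq (U' ((D.e d).symm z)) /
        N ((D.e d).symm z) ^ 2) := mul_nonneg (by positivity)
      (div_nonneg (mul_nonneg (Real.exp_pos _).le (normSq_nonneg _)) (sq_nonneg _))
    refine ⟨a1.add b1, (c 0).1, fun v => (add_nonneg (a2 v) (b2 v)).trans_eq (l v).symm, q,
      fun v => (c v).2.trans (le_trans (le_of_eq ?_) (mul_le_mul_of_nonneg_left
        (((lv_mul (pN d z hz hw).1 θ v).ge.trans (le_add_of_nonneg_right (b2 v))).trans_eq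
          (l v).symm) q))⟩
    change _ = 1 / θ * (_ * _ / _) * _
    rw [mul_mul_mul_comm, one_div_mul_cancel θ0.ne', one_mul, mul_comm (Real.exp _)]
    rfl
  have e1 : ∀ x, normSq (U' x * (star (U x) * ((N x)⁻¹ : ℝ))) *
      (N x ^ (-θ) * Real.exp (-φ x)) =
      normSq (U x) * normSq (U' x) * N x ^ (-2 - θ) * Real.exp (-φ x) := fun x => by
    rw [er, map_mul, map_mul, normSq_ofReal, star_def, normSq_conj]
    ring_nf
  have e2 : ∫⁻ x, ENNReal.ofReal (1 / θ * (Real.exp (ψ x) * normSq (U' x) / N x ^ 2) *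
      Real.exp (-(θ * Real.log (N x) + φ x))) ∂ν = ENNReal.ofReal (1 / θ) * ∫⁻ x, ENNReal.ofReal
        (Real.exp (ψ x) * normSq (U' x) * N x ^ (-2 - θ) * Real.exp (-φ x)) ∂ν := by
    rw [← lintegral_const_mul' _ _ ENNReal.ofReal_ne_top]
    refine lintegral_congr fun x => ?_
    rw [← ENNReal.ofReal_mul (by positivity), ew, er]
    exact congrArg _ (by ring)
  rw [e2, ← mul_assoc] at f2
  simp only [ew] at f2
  have two : (2 : ℝ≥0∞) ≠ ⊤ := ENNReal.ofNat_ne_top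
  refine ⟨F, f1, ne_top_of_le_ne_top (ENNReal.add_ne_top.2 ⟨ENNReal.mul_ne_top two fin,
    ENNReal.mul_ne_top two (ne_top_of_le_ne_top
      (ENNReal.mul_ne_top (ENNReal.mul_ne_top K1 ENNReal.ofReal_ne_top) fin') f2)⟩) ?_, f2⟩
  have m1 : AEMeasurable (fun x => 2 * ENNReal.ofReal (normSq (U x) * normSq (U' x) *
      (normSq (U x) + Real.exp (ψ x)) ^ (-2 - θ) * Real.exp (-φ x))) ν :=
    (aem hO ae ((((continuous_normSq.comp_continuousOn (cg hU)).mul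
      (continuous_normSq.comp_continuousOn (cg hU'))).mul (cN.rpow_const fun x _ =>
        Or.inl (p x).ne')).mul (cp hφ).neg.rexp)).ennreal_ofReal.const_mul 2
  rw [← lintegral_const_mul' _ _ two, ← lintegral_const_mul' _ _ two, ← lintegral_add_left' m1]
  refine lintegral_mono fun x => ?_
  rw [← ENNReal.ofReal_ofNat, ← ENNReal.ofReal_mul zero_le_two, ← ENNReal.ofReal_mul zero_le_two]
  refine le_trans (ENNReal.ofReal_le_ofReal ?_) ENNReal.ofReal_add_le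
  refine le_trans (mul_le_mul_of_nonneg_right (TST.sq_le (U' x * (star (U x) * ((N x)⁻¹ : ℝ))) _)
    (mul_pos (Real.rpow_pos_of_pos (p x) _) (Real.exp_pos _)).le) (le_of_eq ?_)
  rw [add_mul, mul_assoc, e1, mul_assoc 2]

end tst

variable {n : ℕ} {M : Mf n} [M.Cpt] {ι : Type} [Fintype ι] [DecidableEq ι] {D : Ad M ι}
  (X : Cx D) {g : M.X → ℂ} {ρ : M.X → ℝ≥0∞} {Q : ι → ℤ}

/-- Square integrable functions are sections. -/
theorem extV (hW : St_PW) (hM : ZL.St_MU) (hU : St_UPB) (hG : St_POG) (hg : HoO D g)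
    (g0 : ∃ x ∈ off D, g x ≠ 0) (ae : ∀ᵐ x ∂X.μ, x ∈ offz D g) (mρ : AEMeasurable ρ X.μ)
    {wt T H : M.X → ℝ} (mw : AEMeasurable wt X.μ) {c c' C θ y : ℝ} {L Λ : ι → ℝ} (c0 : 0 < c)
    (c1 : 0 < c') (y0 : 0 ≤ y) (p : ∀ x ∈ offz D g, 0 < T x ∧ 0 < H x)
    (h1 : ∀ x ∈ offz D g, ENNReal.ofReal (c * Real.exp (θ * lw D Λ x) * H x ^ θ) ≤ ρ x)
    (h2 : ∀ x ∈ offz D g, T x ≤ C * Real.exp (-lw D L x))
    (h3 : ∀ x ∈ offz D g, c' * (T x ^ (-y) * H x ^ (-θ)) ≤ wt x)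
    (h4 : ∀ i, y * L i + θ * Λ i ≤ Q i - X.o i) {F : M.X → ℂ}
    (hF : D.On (offz D g) fun d z => HolN (D.rd F d) z)
    (fin : ∫⁻ x, ENNReal.ofReal (normSq (F x) * wt x) ∂X.μ.withDensity ρ ≠ ⊤) :
    ∃ s, Sp D Q s ∧ ∀ x ∈ offz D g, s x = F x := by
  have mF : AEMeasurable (fun x => normSq (F x)) X.μ :=
    S3K.SKO.am_on X (ZQ.HO.offz_open (oa_iff.1 hg)) ae (continuous_normSq.comp_continuousOn
      (S3K.SKO.cont_on fun d z hz hw => (hF d z hz hw).self_of_nhds.continuousAt))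
  have e : ∫⁻ x, ENNReal.ofReal (normSq (F x) * wt x) ∂X.μ.withDensity ρ =
      ∫⁻ x, ρ x * ENNReal.ofReal (normSq (F x) * wt x) ∂X.μ :=
    lintegral_withDensity_eq_lintegral_mul₀ mρ (mF.mul mw).ennreal_ofReal
  have hA := ENNReal.ofReal_ne_top (r := C ^ y / (c * c'))
  refine S3K.SKO.ext X hM hU hG hg g0 ae Q hF (ne_top_of_le_ne_top (ENNReal.mul_ne_top hA fin) ?_)
  rw [e, ← lintegral_const_mul' _ _ hA]
  refine lintegral_mono_ae (ae.mono fun x hx => ?_)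
  rw [ENNReal.ofReal_mul (normSq_nonneg _), ENNReal.ofReal_mul (normSq_nonneg _),
    mul_left_comm (ρ x), mul_left_comm (ENNReal.ofReal (C ^ y / _))]
  refine mul_le_mul_right ?_ _
  obtain ⟨-, -, w1, -, w2, -, w3, -⟩ := hW n M ι D
  obtain ⟨p1, p2⟩ := p x hx
  have C0 : 0 < C := pos_of_mul_pos_left (p1.trans_le (h2 x hx)) (Real.exp_pos _).le
  have a1 := w3 (y • L + θ • Λ) (fun i => Q i - X.o i) h4 x
  rw [w1, w2, w2] at a1
  have a2 := Real.rpow_le_rpow_of_nonpos p1 (h2 x hx) (neg_nonpos.2 y0)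
  rw [Real.mul_rpow C0.le (Real.exp_pos _).le, ← Real.exp_mul, neg_mul_neg, Real.rpow_neg C0.le]
    at a2
  refine le_trans ?_ (mul_le_mul_right (mul_le_mul' (h1 x hx)
    (ENNReal.ofReal_le_ofReal ((mul_le_mul_of_nonneg_left (mul_le_mul_of_nonneg_right a2
      (Real.rpow_nonneg p2.le _)) c1.le).trans (h3 x hx)))) _)
  rw [← ENNReal.ofReal_mul (by positivity), ← ENNReal.ofReal_mul (by positivity)]
  refine ENNReal.ofReal_le_ofReal ((Real.exp_le_exp.2 a1).trans_eq ?_)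
  have := Real.rpow_pos_of_pos C0 y
  have := Real.rpow_pos_of_pos p2 θ
  rw [Real.rpow_neg p2.le, Real.exp_add, mul_comm y]
  field_simp

end Pool.Agent.Lib.S5
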