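import Pool.Agent.Lib.S5.T9Defs
import Pool.Agent.Lib.S5.G8a
import Pool.Agent.Lib.NV6.GBlue

/-! Project S5, step eight: the estimate on the model with a holomorphic part. -/

open scoped Classical Topology ContDiff ENNReal
open Set MeasureTheory Complex Metric Filter

noncomputable section

namespace Pool.Agent.Lib.S5

open Pool.Agent.Lib.SV (E nsq nsq_nonneg)
open Pool.Agent.Lib.HS32 Pool.Agent.Lib.EX Pool.Agent.Lib.EXS Pool.Agent.Lib.ZL Pool.Agent.Lib.NV6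
open Pool.Agent.Lib.EXS.K32
open Pool.Agent.Lib.ZQ (HqO offz)
open Pool.Agent.Lib.ZQ.Sg (aem cont_on)
open Pool.Agent.Lib.NV6.J (Ho Ps)

variable {n : ℕ} {M : Mf n} {ι I J : Type} [Fintype ι] [DecidableEq ι] [Fintype I] [Fintype J]
  {D : Ad M ι} {O : Set M.X} {Z : Set (I × J → ℂ)} {a : I → M.X → ℂ} {b : J → M.X → ℂ}
  {p : M.X → Sph Z}

namespace G8

set_option linter.unusedSectionVars false

/-- The value of a section at a point of the manifold. -/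
theorem val (hS : St_SEC) (hP : St_SPH) (mp : Mp D O Z a b p) {q e : ℕ} {S : Fn I J}
    (h : Sec Z q e S) {y : M.X} (hy : y ∈ O) : S ((a · y), (b · y)) = (Real.exp ((q *
      Real.log (nsq (a · y) / nsq (b · y)) + e * Real.log (nsq (a · y) * nsq (b · y))) / 2) : ℝ) *
        S (p y).1 := by
  obtain ⟨h1, h2, h3, h4⟩ := mp.eq y hy
  have sq : ∀ {t : ℝ}, 0 < t → √t = Real.exp (Real.log t / 2) := fun h => by
    rw [Real.sqrt_eq_rpow, Real.rpow_def_of_pos h, mul_one_div]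
  have h6 := (hS.hom mp.cone h _ (hP.bc (p y)).1 _ _ (ofReal_ne_zero.2 (Real.sqrt_pos.2 h1).ne')
    (ofReal_ne_zero.2 (Real.sqrt_pos.2 h2).ne')).2
  rw [← h3, ← h4, ← eq_div_iff (pow_ne_zero _ (ofReal_ne_zero.2 (Real.sqrt_pos.2 h2).ne')),
    mul_div_right_comm, sq h1, sq h2, ← ofReal_pow, ← ofReal_pow, ← ofReal_pow, ← ofReal_mul,
    ← ofReal_div, ← Real.exp_nat_mul, ← Real.exp_nat_mul, ← Real.exp_nat_mul, ← Real.exp_add,
    ← Real.exp_sub] at h6
  rw [h6, Real.log_div h1.ne' h2.ne', Real.log_mul h1.ne' h2.ne']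
  exact congrArg (fun t => ((Real.exp t : ℝ) : ℂ) * _) (by push_cast; ring)

/-- The estimate for the image of a measure. -/
theorem good [M.Cpt] (hS : St_SEC) (hP : St_SPH) (hA : St_ADM) (hL : St_PUL) (mp : Mp D O Z a b p)
    {ν : Measure M.X} (ae : ∀ᵐ y ∂ν, y ∈ O) (H : HqO 1 D ν O) {x ε : ℝ} {m : Measure (Sph Z)}
    (li : ∀ f : Sph Z → ℝ, Continuous f → (∀ u, 0 ≤ f u) → ∀ g : M.X → ℝ,
      (∀ y ∈ O, g y = Real.exp (x * Real.log (nsq (a · y) / nsq (b · y)) -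
        ε * Real.log (nsq (a · y) * nsq (b · y))) * f (p y)) →
      ∫⁻ y, ENNReal.ofReal (g y) ∂ν = ENNReal.ofReal (∫ u, f u ∂m))
    (van : ∀ N : ℕ, 0 < N → x ≤ N → ∀ (wt : M.X → ℝ) (c : ℝ), AEMeasurable wt ν → 0 < c →
      (∀ y ∈ O, c * ((nsq (a · y) / nsq (b · y)) ^ (-(N - x)) *
        (nsq (a · y) * nsq (b · y)) ^ (-ε)) ≤ wt y) → ∀ F, Ho D O F →
      ∫⁻ y, ENNReal.ofReal (normSq (F y) * wt y) ∂ν ≠ ⊤ →
      ∃ S, Sec Z N 0 S ∧ ∀ y ∈ O, F y = S ((a · y), (b · y))) (h0 : O.Nonempty) :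
    GoodV Z 1 m x ε fun j => {S | Sec Z j 0 S} := by
  intro q N e θ c₀ s s' γ β N0 θ0 h1 h2 h3 h4 h5
  have := hP.cpt mp.cone
  obtain ⟨x₀, h₀⟩ := h0
  obtain ⟨l1, l2⟩ := hL n M ι D O I J Z a b p mp
  have vl := fun {q e S} (h : Sec Z q e S) {y} (hy : y ∈ O) => val hS hP mp h hy
  obtain ⟨A, hA'⟩ : ∃ A : M.X → ℝ, ∀ y, Real.log (nsq (a · y) / nsq (b · y)) = A y :=
    ⟨_, fun _ => rfl⟩
  obtain ⟨B, hB'⟩ : ∃ B : M.X → ℝ, ∀ y, Real.log (nsq (a · y) * nsq (b · y)) = B y :=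
    ⟨_, fun _ => rfl⟩
  simp only [hA', hB'] at l1 l2 li vl
  have cg : ∀ {f : M.X → ℂ}, Ho D O f → ContinuousOn f O :=
    fun h => cont_on fun d z hz hw => (h d z hz hw).self_of_nhds.continuousAt
  have cp : ∀ {f : M.X → ℝ}, Ps D O f → ContinuousOn f O :=
    fun h => cont_on fun d z hz hw => (h d z hz hw).1.continuousAt
  have p1 := l2 _ _ _ h3
  have p3 := l2 _ _ _ (hA.mono (le_sub_iff_add_le.2 h5) h4)
  obtain ⟨s1, s2⟩ := l1 _ _ _ h1
  obtain ⟨s3, s4⟩ := l1 _ _ _ h2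
  obtain ⟨cγ, -⟩ := hA.cadm h3
  obtain ⟨cβ, y0, -⟩ := hA.cadm h4
  obtain ⟨ψ, p2⟩ : ∃ ψ : M.X → ℝ, ψ = fun y => γ (p y) + (q * A y + e * B y) := ⟨_, rfl⟩
  obtain ⟨φ, p4⟩ : ∃ φ : M.X → ℝ, φ = fun y => β (p y) +
    ((N - x - θ * q) * A y + (ε - θ * e) * B y) := ⟨_, rfl⟩
  replace p1 : Ps D O ψ := p2 ▸ p1
  replace p3 : Ps D O φ := p4 ▸ p3
  replace p2 := congrFun p2
  replace p4 := congrFun p4
  have g0 : ∀ u : Sph Z, 0 < normSq (s u.1) + Real.exp (γ u) := fun u =>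
    add_pos_of_nonneg_of_pos (normSq_nonneg _) (Real.exp_pos _)
  have c1 := continuous_normSq.comp (hP.cont h1)
  have cr := fun t : ℝ => (c1.add cγ.rexp).rpow_const (p := t) fun u => Or.inl (g0 u).ne'
  have cd : Continuous (den s s' γ β θ) :=
    ((continuous_normSq.comp (hP.cont h2)).mul (cr _)).mul cβ.neg.rexp
  have d0 : ∀ u, 0 ≤ den s s' γ β θ u := fun u => mul_nonneg
    (mul_nonneg (normSq_nonneg _) (Real.rpow_nonneg (g0 u).le _)) (Real.exp_pos _).le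
  have e0 : ∀ y ∈ O, normSq (s ((a · y), (b · y))) + Real.exp (ψ y) =
      (normSq (s (p y).1) + Real.exp (γ (p y))) * Real.exp (q * A y + e * B y) := fun y hy => by
    rw [s2 y hy, p2, Real.exp_add (γ _), ← add_mul]
  have eN : ∀ y ∈ O, ∀ t : ℝ, (normSq (s ((a · y), (b · y))) + Real.exp (ψ y)) ^ t =
      (normSq (s (p y).1) + Real.exp (γ (p y))) ^ t * Real.exp ((q * A y + e * B y) * t) :=
    fun y hy t => by
      rw [e0 y hy, Real.mul_rpow (g0 _).le (Real.exp_pos _).le, ← Real.exp_mul]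
  have ed : ∀ y ∈ O, ∀ r : ℝ, r * Real.exp (q * A y + e * B y) *
      normSq (s' ((a · y), (b · y))) *
      (normSq (s ((a · y), (b · y))) + Real.exp (ψ y)) ^ (-2 - θ) * Real.exp (-φ y) =
        Real.exp (x * A y - ε * B y) * (r * den s s' γ β θ (p y)) := fun y hy r => by
    rw [eN y hy, s4 y hy, p4, NV6.den, neg_add (β _), Real.exp_add (-β _), neg_add' 2 θ,
      show x * A y - ε * B y = q * A y + e * B y + ((q + N : ℕ) * A y + e * B y) +
        (q * A y + e * B y) * (-2 - θ) + -((N - x - θ * q) * A y + (ε - θ * e) * B y) by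
          push_cast; ring,
      Real.exp_add (_ + _ + _), Real.exp_add (_ + (_ + _)), Real.exp_add (_ + _) (_ + _)]
    ring
  have i1 := li (fun u => normSq (s u.1) * den s s' γ β θ u) (c1.mul cd)
    (fun u => mul_nonneg (normSq_nonneg _) (d0 u))
    (fun y => normSq (s ((a · y), (b · y))) * normSq (s' ((a · y), (b · y))) *
      (normSq (s ((a · y), (b · y))) + Real.exp (ψ y)) ^ (-2 - θ) * Real.exp (-φ y)) fun y hy =>
    (congrArg (· * _ * _ * _) (s2 y hy)).trans (ed y hy _)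
  have i2 := li (fun u => Real.exp (γ u) * den s s' γ β θ u) (cγ.rexp.mul cd)
    (fun u => mul_nonneg (Real.exp_pos _).le (d0 u))
    (fun y => Real.exp (ψ y) * normSq (s' ((a · y), (b · y))) *
      (normSq (s ((a · y), (b · y))) + Real.exp (ψ y)) ^ (-2 - θ) * Real.exp (-φ y)) fun y hy =>
    (congrArg (· * _ * _ * _) (by rw [p2, Real.exp_add])).trans (ed y hy _)
  obtain ⟨F, f1, f2, f3⟩ := tstV ENNReal.one_ne_top mp.op ae H s1 s3 p1 p3 θ0
    (i1 ▸ ENNReal.ofReal_ne_top) (i2 ▸ ENNReal.ofReal_ne_top)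
  have ew : ∀ y ∈ O, (normSq (s ((a · y), (b · y))) + Real.exp (ψ y)) ^ (-θ) * Real.exp (-φ y) =
      ww s γ β θ (p y) * Real.exp (-(N - x) * A y - ε * B y) := fun y hy => by
    rw [eN y hy, p4, neg_add (β _), Real.exp_add (-β _), mul_mul_mul_comm, ← Real.exp_add (_ * _)]
    exact congrArg (fun t => ww s γ β θ (p y) * Real.exp t) (by ring)
  have cw : Continuous (ww s γ β θ) := (cr (-θ)).mul cβ.neg.rexp
  have w0 : ∀ u, 0 < ww s γ β θ u := fun u =>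
    mul_pos (Real.rpow_pos_of_pos (g0 u) _) (Real.exp_pos _)
  obtain ⟨u, -, hu⟩ := isCompact_univ.exists_isMinOn ⟨p x₀, mem_univ _⟩ cw.continuousOn
  obtain ⟨S, t1, t2⟩ := van N N0 (by nlinarith [q.cast_nonneg (α := ℝ)])
    (fun y => (normSq (s ((a · y), (b · y))) + Real.exp (ψ y)) ^ (-θ) * Real.exp (-φ y)) _
    (aem mp.op ae ((((continuous_normSq.comp_continuousOn (cg s1)).add (cp p1).rexp).rpow_const
      fun y _ => Or.inl (add_pos_of_nonneg_of_pos (normSq_nonneg _) (Real.exp_pos _)).ne').mul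
      (cp p3).neg.rexp)) (w0 u) (fun y hy => by
      rw [ew y hy, Real.rpow_def_of_pos (div_pos (mp.eq y hy).1 (mp.eq y hy).2.1),
        Real.rpow_def_of_pos (mul_pos (mp.eq y hy).1 (mp.eq y hy).2.1), ← Real.exp_add, hA', hB']
      exact mul_le_mul (hu (mem_univ (p y))) (le_of_eq (congrArg _ (by ring))) (Real.exp_pos _).le
        (w0 _).le) F f1 f2
  refine ⟨S, t1, ?_⟩
  have cu : Continuous (uu s s' γ) := ((hP.cont h2).mul (continuous_conj.comp (hP.cont h1))).div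
    (continuous_ofReal.comp (c1.add cγ.rexp)) fun u => ofReal_ne_zero.2 (g0 u).ne'
  have i3 := li (fun u => normSq (uu s s' γ u - S u.1) * ww s γ β θ u)
    ((continuous_normSq.comp (cu.sub (hP.cont t1))).mul cw)
    (fun u => mul_nonneg (normSq_nonneg _) (w0 u).le)
    (fun y => normSq (s' ((a · y), (b · y)) * (star (s ((a · y), (b · y))) *
      ((normSq (s ((a · y), (b · y))) + Real.exp (ψ y))⁻¹ : ℝ)) - F y) *
      ((normSq (s ((a · y), (b · y))) + Real.exp (ψ y)) ^ (-θ) * Real.exp (-φ y))) fun y hy => by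
    have k : s' ((a · y), (b · y)) * (star (s ((a · y), (b · y))) *
        ((normSq (s ((a · y), (b · y))) + Real.exp (ψ y))⁻¹ : ℝ)) - F y =
        (Real.exp (N * A y / 2) : ℝ) * (uu s s' γ (p y) - S (p y).1) := by
      rw [t2 y hy, e0 y hy, vl h1 hy, vl h2 hy, vl t1 hy, uu, show (((q + N : ℕ) : ℝ) * A y +
          e * B y) / 2 = (q * A y + e * B y) / 2 + N * A y / 2 by push_cast; ring,
        ← add_halves (q * A y + e * B y), Real.exp_add, Real.exp_add, add_halves, Nat.cast_zero,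
        zero_mul, add_zero, star_mul', star_def, conj_ofReal]
      have := ofReal_ne_zero.2 (g0 (p y)).ne'
      have := ofReal_ne_zero.2 (Real.exp_pos ((q * A y + e * B y) / 2)).ne'
      rw [ofReal_inv, ofReal_mul, ofReal_mul, ofReal_mul]
      field_simp
    rw [k, ew y hy, map_mul, normSq_ofReal, ← Real.exp_add,
      show x * A y - ε * B y = N * A y / 2 + N * A y / 2 + (-(N - x) * A y - ε * B y) by ring,
      Real.exp_add (_ + _)]
    ring
  have i0 : 0 ≤ ∫ u, Real.exp (γ u) * den s s' γ β θ u ∂m :=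
    integral_nonneg fun u => mul_nonneg (Real.exp_pos (γ u)).le (d0 u)
  rw [i3, i2, one_mul, ← ENNReal.ofReal_mul (by positivity), ENNReal.ofReal_le_ofReal_iff
    (mul_nonneg (by positivity) i0)] at f3
  exact f3

/-- Sections of the model are sections on the manifold. -/
theorem pull [M.Cpt] (X : Cx D) (hW : St_PW) (hM : ZL.St_MU) (hU : St_UPB) (hG : St_POG)
    (hP : St_SPH) (hL : St_PUL) {g : M.X → ℂ} (hg : HoO D g) (g0 : ∃ y ∈ off D, g y ≠ 0)
    (ae : ∀ᵐ y ∂X.μ, y ∈ offz D g) (mp : Mp D (offz D g) Z a b p) {L : ι → ℤ} {C : ℝ}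
    (r1 : ∀ y ∈ offz D g, nsq (a · y) / nsq (b · y) ≤ C * Real.exp (-lw D (fun i => L i) y))
    {j : ℕ} {S : Fn I J} (h : Sec Z j 0 S) :
    ∃ s, Sp D (fun i => j * L i) s ∧ ∀ y ∈ offz D g, s y = S ((a · y), (b · y)) := by
  have := hP.cpt mp.cone
  obtain ⟨s1, s2⟩ := (hL n M ι D _ I J Z a b p mp).1 _ _ _ h
  obtain ⟨-, -, w1, -, w2, -⟩ := hW n M ι D
  obtain ⟨B, hB⟩ := (isCompact_range (continuous_normSq.comp (hP.cont h))).bddAbove
  refine S3K.SKO.ext X hM hU hG hg g0 ae _ s1 (ne_top_of_le_ne_top (ENNReal.mul_ne_top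
    (ENNReal.ofReal_ne_top (r := B * C ^ j)) ((hM n M ι D X).2.2.2.1 (-X.o) fun i => by simp)) ?_)
  rw [Cx.I, Cx.I, ← lintegral_const_mul' _ _ ENNReal.ofReal_ne_top]
  refine lintegral_mono_ae (ae.mono fun y hy => ?_)
  have pT := div_pos (mp.eq y hy).1 (mp.eq y hy).2.1
  have B0 : normSq (S (p y).1) ≤ B := hB ⟨p y, rfl⟩
  have B1 := (normSq_nonneg _).trans B0
  have C0 : 0 < C := pos_of_mul_pos_left (pT.trans_le (r1 y hy)) (Real.exp_pos _).le
  rw [← ENNReal.ofReal_mul (by positivity), s2 y hy, Nat.cast_zero, zero_mul, add_zero,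
    Real.exp_nat_mul, Real.exp_log pT, show (fun i => ((j * L i : ℤ) : ℝ) - X.o i) =
      ((j : ℝ) • fun i => (L i : ℝ)) + -X.o from funext fun i => by simp [sub_eq_add_neg], w1, w2,
    Real.exp_add, ← mul_assoc]
  refine ENNReal.ofReal_le_ofReal (mul_le_mul_of_nonneg_right ?_ (Real.exp_pos _).le)
  refine (mul_le_mul_of_nonneg_right (mul_le_mul B0 (pow_le_pow_left₀ pT.le (r1 y hy) j)
    (pow_pos pT j).le B1) (Real.exp_pos _).le).trans_eq ?_
  rw [mul_pow, ← Real.exp_nat_mul, mul_assoc, mul_assoc, ← Real.exp_add, mul_neg, neg_add_cancel,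
    Real.exp_zero, mul_one]

/-- The spaces of sections are finite on the support of the measure. -/
theorem vs (hS : St_SEC) (hP : St_SPH) (mp : Mp D O Z a b p) {m : Measure (Sph Z)}
    (ae : ∀ T : Set (Sph Z), IsClosed T → (∀ y ∈ O, p y ∈ T) → ∀ᵐ u ∂m, u ∈ T)
    (fd : ∀ j : ℕ, ∃ W : Submodule ℂ (M.X → ℂ), FiniteDimensional ℂ W ∧ ∀ S, Sec Z j 0 S →
      ∃ s ∈ W, ∀ y ∈ O, s y = S ((a · y), (b · y))) : Vs Z m fun j => {S | Sec Z j 0 S} := by
  refine ⟨fun _ _ _ h => h, fun j k _ _ F h => by simpa using hS.pow k h, fun j _ => ?_⟩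
  obtain ⟨W, w1, w2⟩ := fd j
  let U : Submodule ℂ (M.X → ℂ) :=
    { carrier := {s | s ∈ W ∧ ∃ S, Sec Z j 0 S ∧ ∀ y ∈ O, s y = S ((a · y), (b · y))}
      add_mem' := fun ⟨h1, S, h2, h3⟩ ⟨h4, S', h5, h6⟩ => ⟨W.add_mem h1 h4, _, hS.add h2 h5,
        fun y hy => congrArg₂ (· + ·) (h3 y hy) (h6 y hy)⟩
      zero_mem' := ⟨W.zero_mem, fun _ => 0, fun _ _ => ⟨0, 0,
        MvPolynomial.isHomogeneous_zero _ _ _, fun _ _ => by simp⟩, fun _ _ => rfl⟩
      smul_mem' := fun c _ ⟨h1, S, h2, h3⟩ => ⟨W.smul_mem c h1, _, hS.smul c h2,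
        fun y hy => congrArg (c * ·) (h3 y hy)⟩ }
  have : FiniteDimensional ℂ U := Submodule.finiteDimensional_of_le (S₂ := W) fun _ h => h.1
  obtain ⟨r, e, he⟩ := Module.Finite.exists_fin (R := ℂ) (M := U)
  choose B b1 b2 using fun l => (e l).2.2
  refine ⟨r, B, b1, fun F hF => ?_⟩
  obtain ⟨s, s1, s2⟩ := w2 F hF
  obtain ⟨c, hc⟩ := (Submodule.mem_span_range_iff_exists_fun ℂ).1
    (he.ge (Submodule.mem_top (x := ⟨s, s1, F, hF, s2⟩)))
  refine ⟨c, ae _ (isClosed_eq (hP.cont hF) (continuous_finsetSum _ fun l _ =>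
    continuous_const.mul (hP.cont (b1 l)))) fun y hy => ?_⟩
  have h := congrFun (congrArg Subtype.val hc) y
  simp only [Submodule.coe_sum, Submodule.coe_smul, Finset.sum_apply, Pi.smul_apply, smul_eq_mul,
    fun l => b2 l y hy, s2 y hy, val hS hP mp hF hy, fun l => val hS hP mp (b1 l) hy,
    mul_left_comm (c _), ← Finset.mul_sum] at h
  exact (mul_left_cancel₀ (ofReal_ne_zero.2 (Real.exp_pos _).ne') h).symm

end G8

/-- The estimate on the model. -/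
def St_GDV : Prop := ∀ (n : ℕ) (M : Mf n) [M.Cpt] (ι : Type) [Fintype ι] [DecidableEq ι]
  (D : Ad M ι) (X : Cx D) (I J : Type) [Fintype I] [Fintype J] (Z : Set (I × J → ℂ))
  (g : M.X → ℂ) (a : I → M.X → ℂ) (b : J → M.X → ℂ) (p : M.X → Sph Z) (ρ : M.X → ℝ≥0∞)
  (L κ : ι → ℤ) (Λ : ι → ℝ) (x θ : ℝ), HoO D g → (∃ y ∈ off D, g y ≠ 0) →
  (∀ᵐ y ∂X.μ, y ∈ offz D g) → Mp D (offz D g) Z a b p → 0 ≤ x → AEMeasurable ρ X.μ →
  HqO 1 D (X.μ.withDensity ρ) (offz D g) →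
  (∃ c > (0 : ℝ), ∀ y ∈ offz D g, ENNReal.ofReal
    (c * Real.exp (θ * lw D Λ y) * (nsq (a · y) * nsq (b · y)) ^ θ) ≤ ρ y) →
  ∫⁻ y, ρ y * ENNReal.ofReal (Real.exp (-(θ * lw D Λ y)) / (nsq (a · y) * nsq (b · y)) ^ θ *
    Real.exp (-lw D X.o y)) ∂X.μ ≠ ⊤ →
  (∃ C, ∀ y ∈ offz D g, nsq (a · y) ≤ C * Real.exp (-lw D (fun i => L i) y) * nsq (b · y)) →
  (∀ i, x * L i ≤ θ * Λ i + X.o i) → (∀ i, θ * Λ i + X.o i ≤ x * L i + κ i) →
  (∀ j : ℕ, 0 < j → ∀ s, Sp D (fun i => j * L i + κ i) s →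
    ∃ S, Sec Z j 0 S ∧ ∀ y ∈ offz D g, s y = S ((a · y), (b · y))) →
  ∃ ν : ProbabilityMeasure (Sph Z), GoodV Z 1 ν x θ (fun j => {S | Sec Z j 0 S}) ∧
    Vs Z ν (fun j => {S | Sec Z j 0 S}) ∧
    (∃ c : ℝ≥0∞, c ≠ 0 ∧ c ≠ ⊤ ∧ ∀ f : Sph Z → ℝ≥0∞, Measurable f →
      ∫⁻ y, ρ y * ENNReal.ofReal ((nsq (a · y) / nsq (b · y)) ^ x *
        (nsq (a · y) * nsq (b · y)) ^ (-θ)) * f (p y) ∂X.μ = c * ∫⁻ u, f u ∂ν) ∧
    ∀ (j : ℕ) S, Sec Z j 0 S →
      ∃ s, Sp D (fun i => j * L i) s ∧ ∀ y ∈ offz D g, s y = S ((a · y), (b · y))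

theorem gGDV (hW : St_PW) (hM : ZL.St_MU) (hU : St_UPB) (hG : St_POG) (hC : NV2.St_CHN)
    (hS : St_SEC) (hP : St_SPH) (hA : St_ADM) (hL : St_PUL) : St_GDV := by
  intro n M _ ι _ _ D X I J _ _ Z g a b p ρ L κ Λ x θ hg g0 ae mp x0 mρ H ⟨c, c0, lo⟩ fin ⟨C, r1⟩
    h1 h2 hs
  have := hP.cpt mp.cone
  obtain ⟨y₀, hy₀⟩ := id g0
  obtain ⟨-, -, w1, -, w2, -, w3, -⟩ := hW n M ι D
  have μ0 : X.μ ≠ 0 := fun h => by
    obtain ⟨d, -⟩ := ex_ch D y₀
    obtain ⟨B, hB⟩ := (hM n M ι D X).2.2.2.2 1 one_lt_two 0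
    have := hB 0 (fun _ => 1) d fun _ => abs_zero.le
    rw [Cx.I, h, lintegral_zero_measure, mul_zero] at this
    simp [Ad.rd, xr, (measure_closedBall_pos volume (0 : E n) one_pos).ne'] at this
  have pH : ∀ y ∈ offz D g, 0 < nsq (a · y) * nsq (b · y) := fun y hy =>
    mul_pos (mp.eq y hy).1 (mp.eq y hy).2.1
  have pT : ∀ y ∈ offz D g, 0 < nsq (a · y) / nsq (b · y) := fun y hy =>
    div_pos (mp.eq y hy).1 (mp.eq y hy).2.1
  have r2 : ∀ y ∈ offz D g, nsq (a · y) / nsq (b · y) ≤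
      C * Real.exp (-lw D (fun i => L i) y) := fun y hy =>
    (div_le_iff₀ (mp.eq y hy).2.1).2 (r1 y hy)
  have ac : X.μ ≪ X.μ.withDensity ρ := withDensity_absolutelyContinuous' mρ (ae.mono fun y hy =>
    ((ENNReal.ofReal_pos.2 (mul_pos (mul_pos c0 (Real.exp_pos _))
      (Real.rpow_pos_of_pos (pH y hy) θ))).trans_le (lo y hy)).ne')
  have cn : ∀ {σ : Type} [Fintype σ] {f : σ → M.X → ℂ}, (∀ i, Ho D (offz D g) (f i)) →
      ContinuousOn (fun y => nsq (f · y)) (offz D g) := fun h =>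
    continuousOn_finsetSum _ fun i _ => continuous_normSq.comp_continuousOn
      (cont_on fun d z hz hw => (h i d z hz hw).self_of_nhds.continuousAt)
  have C0 : 0 < C := pos_of_mul_pos_left ((pT y₀ hy₀).trans_le (r2 y₀ hy₀)) (Real.exp_pos _).le
  obtain ⟨σ, hσ⟩ : ∃ σ : M.X → ℝ, ∀ y, (nsq (a · y) / nsq (b · y)) ^ x *
    (nsq (a · y) * nsq (b · y)) ^ (-θ) = σ y := ⟨_, fun _ => rfl⟩
  have σ0 : ∀ y ∈ offz D g, 0 < σ y := fun y hy =>
    hσ y ▸ mul_pos (Real.rpow_pos_of_pos (pT y hy) _) (Real.rpow_pos_of_pos (pH y hy) _)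
  have mσ : AEMeasurable (fun y => ENNReal.ofReal (σ y)) X.μ :=
    (aem mp.op ae (((((cn mp.ha).div (cn mp.hb) fun y hy =>
      (mp.eq y hy).2.1.ne').rpow_const (p := x) fun y hy => Or.inl (pT y hy).ne').mul
      (((cn mp.ha).mul (cn mp.hb)).rpow_const (p := -θ) fun y hy =>
        Or.inl (pH y hy).ne')).congr fun y _ => (hσ y).symm)).ennreal_ofReal
  have mw := mρ.mul mσ
  have mp' := aem mp.op ae mp.ct
  have ac' := withDensity_absolutelyContinuous X.μ (ρ * fun y => ENNReal.ofReal (σ y))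
  let m : Measure (Sph Z) := (X.μ.withDensity (ρ * fun y => ENNReal.ofReal (σ y))).map p
  have lm : ∀ f : Sph Z → ℝ≥0∞, Measurable f →
      ∫⁻ y, ρ y * ENNReal.ofReal (σ y) * f (p y) ∂X.μ = ∫⁻ u, f u ∂m := fun f hf => by
    rw [lintegral_map' hf.aemeasurable (mp'.mono_ac ac')]
    exact (lintegral_withDensity_eq_lintegral_mul₀ mw (hf.comp_aemeasurable mp')).symm
  have : IsFiniteMeasure (X.μ.withDensity (ρ * fun y => ENNReal.ofReal (σ y))) := by
    refine isFiniteMeasure_withDensity (ne_top_of_le_ne_top (ENNReal.mul_ne_top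
      (ENNReal.ofReal_ne_top (r := C ^ x)) fin) ?_)
    rw [← lintegral_const_mul' _ _ ENNReal.ofReal_ne_top]
    refine lintegral_mono_ae (ae.mono fun y hy => ?_)
    rw [mul_left_comm, ← ENNReal.ofReal_mul (Real.rpow_nonneg C0.le _)]
    refine mul_le_mul_right (ENNReal.ofReal_le_ofReal ?_) _
    have a1 := w3 (x • fun i => (L i : ℝ)) (θ • Λ + X.o) h1 y
    rw [w1, w2, w2] at a1
    have a2 := Real.rpow_le_rpow (pT y hy).le (r2 y hy) x0
    rw [Real.mul_rpow C0.le (Real.exp_pos _).le, ← Real.exp_mul] at a2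
    rw [← hσ, div_mul_eq_mul_div, ← Real.exp_add, div_eq_mul_inv (Real.exp _),
      ← Real.rpow_neg (pH y hy).le, ← mul_assoc]
    exact mul_le_mul_of_nonneg_right (a2.trans (mul_le_mul_of_nonneg_left
      (Real.exp_le_exp.2 (by linarith)) (Real.rpow_nonneg C0.le _)))
      (Real.rpow_nonneg (pH y hy).le _)
  have : NeZero m := ⟨fun h => μ0 (Measure.absolutelyContinuous_zero_iff.1
    ((Measure.map_eq_zero_iff (mp'.mono_ac ac')).1 h ▸ withDensity_absolutelyContinuous' mw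
      (ae.mono fun y hy => mul_ne_zero (((ENNReal.ofReal_pos.2 (mul_pos (mul_pos c0
        (Real.exp_pos _)) (Real.rpow_pos_of_pos (pH y hy) θ))).trans_le (lo y hy)).ne')
        (ENNReal.ofReal_pos.2 (σ0 y hy)).ne')))⟩
  have pl := fun {j S} => G8.pull X hW hM hU hG hP hL hg g0 ae mp r2 (j := j) (S := S)
  have gd : GoodV Z 1 m x θ fun j => {S | Sec Z j 0 S} := by
    refine G8.good hS hP hA hL mp ((withDensity_absolutelyContinuous _ _).ae_le ae) H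
      (fun f hf f0 G hG' => ?_) (fun N N0 hN wt c' mw c1 h3 F f1 f2 => ?_) ⟨y₀, hy₀⟩
    · have mf := hf.measurable.ennreal_ofReal
      rw [ofReal_integral_eq_lintegral_ofReal (S3K.intc hf _) (ae_of_all _ f0), ← lm _ mf,
        lintegral_congr_ae (g := fun y => ENNReal.ofReal (σ y) * ENNReal.ofReal (f (p y)))
          (Eventually.mono ((withDensity_absolutelyContinuous _ _).ae_le ae) fun y hy => by
            beta_reduce
            rw [hG' y hy, ← ENNReal.ofReal_mul (σ0 y hy).le, ← hσ,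
              Real.rpow_def_of_pos (pT y hy), Real.rpow_def_of_pos (pH y hy), ← Real.exp_add]
            exact congrArg (fun t => ENNReal.ofReal (Real.exp t * f (p y))) (by ring))]
      exact (lintegral_withDensity_eq_lintegral_mul₀ mρ
        (mσ.mul (mf.comp_aemeasurable mp'))).trans (lintegral_congr fun y => (mul_assoc _ _ _).symm)
    · obtain ⟨s, s1, s2⟩ := extV X hW hM hU hG hg g0 ae mρ (mw.mono_ac ac)
        (Q := fun i => N * L i + κ i) c0 c1 (sub_nonneg.2 hN) (fun y hy => ⟨pT y hy, pH y hy⟩) lo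
        r2 h3 (fun i => by push_cast; linarith [h2 i]) f1 f2
      obtain ⟨S, t1, t2⟩ := hs N N0 s s1
      exact ⟨S, t1, fun y hy => (s2 y hy).symm.trans (t2 y hy)⟩
  refine ⟨⟨(m univ)⁻¹ • m, inferInstance⟩, fun q N e t c₀ s s' γ β N0 t0 k1 k2 k3 k4 k5 => ?_,
    G8.vs hS hP mp (fun T hT h => Measure.ae_smul_measure ((ae_map_iff (mp'.mono_ac ac')
      hT.measurableSet).2 (ac'.ae_le (ae.mono h))) _) fun j =>
      ⟨_, (hC n M ι D X 0).2.1 fun i => j * L i, fun S h =>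
        (pl h).imp fun s k => ⟨Submodule.subset_span k.1, k.2⟩⟩,
    ⟨m univ, NeZero.ne _, measure_ne_top _ _, fun f hf => ?_⟩, fun _ _ => pl⟩
  · obtain ⟨F, f1, f2⟩ := gd q N e t c₀ s s' γ β N0 t0 k1 k2 k3 k4 k5
    refine ⟨F, f1, ?_⟩
    change ∫ u, _ ∂((m univ)⁻¹ • m) ≤ _ * ∫ u, _ ∂((m univ)⁻¹ • m)
    rw [integral_smul_measure, integral_smul_measure, smul_eq_mul, smul_eq_mul, mul_left_comm]
    exact mul_le_mul_of_nonneg_left f2 ENNReal.toReal_nonneg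
  · change _ = _ * ∫⁻ u, _ ∂((m univ)⁻¹ • m)
    simp only [hσ]
    rw [lm f hf, lintegral_smul_measure, smul_eq_mul, ← mul_assoc,
      ENNReal.mul_inv_cancel (NeZero.ne _) (measure_ne_top _ _), one_mul]

end Pool.Agent.Lib.S5
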