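import Pool.Agent.Lib.S5.R5b
import Pool.Agent.Lib.S5.ABlue
import Pool.Agent.Lib.S5.B_WR
import Pool.Agent.Lib.NV6.J_All

/-! Project S5: a lower bound for the Kodaira dimension. -/

open scoped Classical Topology ENNReal
open Set MeasureTheory Complex Filter

set_option linter.unusedSectionVars false

noncomputable section

namespace Pool.Agent.Lib.S5

open Pool.Agent.Lib.SV (nsq)
open Pool.Agent.Lib.HS32 Pool.Agent.Lib.EX Pool.Agent.Lib.EXS Pool.Agent.Lib.ZL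
open Pool.Agent.Lib.ZQ (offz)
open Pool.Agent.Lib.NV2 (h0)
open Pool.Agent.Lib.NV5 (FM VF Hg dv)
open Pool.Agent.Lib.R6 (Prj Lu)
open Pool.Agent.Lib.NV6.J (Fr mon)

variable {n : ℕ} {M : Mf n} {ι : Type} [Fintype ι] [DecidableEq ι] {D : Ad M ι}

/-- Sections of a multiple of `L` whose quotient by `T` has all negative moments. -/
def Sg6 (X : Cx D) (L : ι → ℤ) (T : M.X → ℝ) : Prop :=
  ∃ (N r : ℕ) (σ : Fin r → M.X → ℂ) (g : M.X → ℂ) (x C : ℝ) (θ : ι → ℝ), 0 < N ∧ 0 ≤ x ∧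
    (∀ l, Sp D (fun i => N * L i) (σ l)) ∧ HoO D g ∧ (∃ y ∈ off D, g y ≠ 0) ∧
    (∀ y ∈ offz D g, 0 < T y ∧ T y ≤ C * Real.exp (-lw D (fun i => L i) y) ∧ 0 < nsq (σ · y)) ∧
    ∀ t : ℕ, X.I (fun y => Real.exp (lw D θ y) * T y ^ x * (T y ^ N / nsq (σ · y)) ^ t) ≠ ⊤

namespace K6

theorem cnt {Y κ : Type} [Fintype κ] (O : Set Y) (V W : Submodule ℂ (Y → ℂ))
    [FiniteDimensional ℂ V] [FiniteDimensional ℂ W] {m : ℕ} (f : Fin m → Y → ℂ)
    (hf : ∀ c : Fin m → ℂ, (∀ x ∈ O, (∑ s, c s • f s) x = 0) → ∀ s, c s = 0)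
    (h : ∀ s, ∃ p q : κ → Y → ℂ, (∀ I, p I ∈ V ∧ q I ∈ W) ∧ ∀ x ∈ O, f s x = ∑ I, p I x * q I x) :
    m ≤ Module.finrank ℂ V * Module.finrank ℂ W := by
  let ρ := (LinearMap.funLeft ℂ ℂ (Subtype.val : O → Y)).comp (V.mulMap W)
  have mem : ∀ s, (fun x : O => f s x) ∈ LinearMap.range ρ := fun s => by
    obtain ⟨p, q, h1, h2⟩ := h s
    refine ⟨∑ I, (⟨p I, (h1 I).1⟩ : V) ⊗ₜ (⟨q I, (h1 I).2⟩ : W), funext fun x => ?_⟩
    simp [ρ, LinearMap.funLeft_apply, h2 x x.2]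
  have li : LinearIndependent ℂ fun s => (⟨_, mem s⟩ : LinearMap.range ρ) :=
    LinearIndependent.of_comp (Submodule.subtype _) (Fintype.linearIndependent_iff.2 fun c hc =>
      hf c fun x hx => by simpa using congrFun hc ⟨x, hx⟩)
  simpa using li.fintype_card_le_finrank.trans ((LinearMap.finrank_range_le ρ).trans_eq
    Module.finrank_tensorProduct)

theorem fd [M.Cpt] (P : ι → ℤ) : FiniteDimensional ℂ (Submodule.span ℂ {F | Sp D P F}) ∧
    ∀ F ∈ Submodule.span ℂ {F | Sp D P F}, Sp D P F := by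
  obtain ⟨V, h1, h2⟩ := ZL.st_FIN n M ι D P
  have e : Submodule.span ℂ {F | Sp D P F} = V :=
    Submodule.span_eq_of_le _ (fun F h => (h2 F).2 h) fun F h => Submodule.subset_span ((h2 F).1 h)
  rw [e]
  exact ⟨h1, fun F h => (h2 F).1 h⟩

theorem tl [M.Cpt] {X : Cx D} {r₀ e C : ℕ} {t₀ : Fin r₀ → M.X → ℂ} {L R : ι → ℤ} {T : M.X → ℝ}
    (pr : Prj X t₀) (hs : Sg6 X L T) (h : {j : ℕ | ∃ (m : ℕ) (u : Fin m → M.X → ℂ),
      (j + 1) ^ e ≤ C * m ∧ LinearIndependent ℂ u ∧ ∀ s, Sp D (fun i => j * L i + R i) (u s) ∧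
        ∃ K, ∀ y ∈ off D, 0 < T y →
          normSq (u s y) * Real.exp (lw D (fun i => R i) y) ≤ K * T y ^ j}.Infinite) :
    ∃ C : ℕ, {j : ℕ | (j + 1) ^ e ≤ C * h0 D fun i => j * L i}.Infinite := by
  obtain ⟨N, r, σ, g, x, C₀, θ, N0, x0, sσ, hg, g0, pos, mom⟩ := hs
  obtain ⟨hO, sub, -⟩ := NV6.J.ae_offz X hg g0
  obtain ⟨ae, hq⟩ := pr.hall g hg g0
  obtain ⟨-, k2, -, -, -, -, -, k8, -, -, k11, -, -, k14, k15⟩ :=
    NV6.J.st_KIT n M ι D X _ hO sub ae
  obtain ⟨mono, -⟩ := NV5.st_bKIT n M ι D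
  obtain ⟨-, -, -, -, -, -, lm, -⟩ := ZL.bPW n M ι D
  obtain ⟨Cα, hα⟩ := X.αb
  obtain ⟨x₀, hx₀⟩ := exists_nat_ge x
  obtain ⟨b, hb⟩ := R6.OUT.big X.e pr.epos (fun i => ⌈θ i⌉ + R i + (N + N * x₀ : ℕ) * |L i|) 0
  let Q : ι → ℤ := fun i => max ((N + N * x₀ : ℕ) * |L i| + R i) (b * X.e i + ⌈X.o i⌉)
  have lb : ∀ y, lw D (fun i => b * X.e i) y = b * lw D (fun i => X.e i) y := fun y => by
    simp only [lw, Finset.mul_sum, mul_assoc]
  refine ⟨C * h0 D fun i => Q i + (4 * r + 1 : ℕ) * (N * L i),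
    infinite_of_forall_exists_gt fun a => ?_⟩
  obtain ⟨j, ⟨m, u, hm, li, hu⟩, hj⟩ := h.exists_gt (N * (4 * r + 1 + (a + 1) + x₀))
  obtain ⟨k, hk⟩ := Nat.exists_eq_add_of_le
    ((Nat.le_div_iff_mul_le N0).2 ((mul_comm _ _).trans_le hj.le))
  obtain ⟨w, hw, ej⟩ : ∃ w : ℕ, (N * x₀ ≤ w ∧ w ≤ N + N * x₀) ∧
      j = N * (4 * r + 1 + (a + 1 + k)) + w := by
    refine ⟨j % N + N * x₀, ⟨by omega, by have := Nat.mod_lt j N0; omega⟩, ?_⟩
    have := Nat.div_add_mod j N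
    rw [hk] at this
    rw [← this, this]
    linarith
  have xw : 0 ≤ (w : ℝ) - x := by
    have : (x₀ : ℝ) ≤ w := by exact_mod_cast (Nat.le_mul_of_pos_left x₀ N0).trans hw.1
    linarith
  have wL : ∀ i, (w : ℤ) * L i ≤ (N + N * x₀ : ℕ) * |L i| := fun i =>
    (mul_le_mul_of_nonneg_left (le_abs_self _) (Int.natCast_nonneg w)).trans
      (mul_le_mul_of_nonneg_right (Int.ofNat_le.2 hw.2) (abs_nonneg _))
  have := (fd (D := D) fun i => ((a + 1 + k) * N : ℕ) * L i).1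
  have := (fd (D := D) fun i => Q i + (4 * r + 1 : ℕ) * (N * L i)).1
  refine ⟨(a + 1 + k) * N, ?_, by nlinarith⟩
  refine ((Nat.pow_le_pow_left (by nlinarith) e).trans hm).trans ?_
  rw [mul_assoc, mul_comm (h0 D _)]
  refine Nat.mul_le_mul_left C (cnt (κ := Fin (a + 1 + k) → Fin r) (offz D g) _ _ u
    (fun c hc => Fintype.linearIndependent_iff.1 li c ((k2 (fun i => j * L i + R i) _
      ((fd _).2 _ (Submodule.sum_mem _ fun s _ => Submodule.smul_mem _ _
        (Submodule.subset_span (hu s).1)))).2 hc)) fun s => ?_)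
  obtain ⟨su, K, hK⟩ := hu s
  obtain ⟨H, h1, h2⟩ := NV6.J.st_SKK n M ι D X r g (fun i => N * L i) Q σ (fun y => b * X.α y)
    (4 * r + 1) (a + 1 + k) (u s) ⟨hg, g0, ae, hq, sσ, fun y hy => (pos y hy).2.2⟩
    (k11 _ _ b.cast_nonneg (k8 _ X.αp))
    ⟨b * Cα, fun y hy => by
      have h1 := lm (fun i => b * X.e i) (fun i => Q i - X.o i) (fun i => by
        have h1 : ((b * X.e i + ⌈X.o i⌉ : ℤ) : ℝ) ≤ Q i := Int.cast_le.2 (le_max_right _ _)
        have h2 := Int.le_ceil (X.o i)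
        push_cast at h1
        linarith) y
      have h2 := mul_le_mul_of_nonneg_left (abs_le.1 (hα y hy.1)).2 b.cast_nonneg
      rw [lb] at h1
      linarith⟩ (Nat.lt_succ_self _)
    (mono _ _ _ (fun i => by
      have h1 := wL i
      have h2 : (N + N * x₀ : ℕ) * |L i| + R i ≤ Q i := le_max_left _ _
      rw [ej]
      push_cast at h1 h2 ⊢
      linarith) su)
    ((k14 _ _ (|K| * Real.exp (C₀ * (w - x) + b * Cα)) fun y hy => by
      obtain ⟨T0, T1, σ0⟩ := pos y hy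
      refine ⟨by positivity, ?_⟩
      have h1 : T y ^ (w - x) ≤ Real.exp ((C₀ - lw D (fun i => L i) y) * (w - x)) := by
        rw [Real.exp_mul]
        refine Real.rpow_le_rpow T0.le (T1.trans ?_) xw
        rw [sub_eq_add_neg, Real.exp_add]
        exact mul_le_mul_of_nonneg_right (by linarith [Real.add_one_le_exp C₀]) (by positivity)
      have h2 := lm (θ + (fun i => (R i : ℝ)) + (w - x) • fun i => (L i : ℝ))
        (fun i => b * X.e i) (fun i => by
          have h1 : ((⌈θ i⌉ + R i + (N + N * x₀ : ℕ) * |L i| : ℤ) : ℝ) ≤ (b * X.e i : ℤ) :=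
            Int.cast_le.2 (hb i).1
          have h2 := Int.le_ceil (θ i)
          have h3 : (w : ℝ) ≤ (N + N * x₀ : ℕ) := Nat.cast_le.2 hw.2
          have h5 := mul_le_mul_of_nonneg_left (le_abs_self (L i : ℝ)) xw
          have h6 := mul_le_mul_of_nonneg_right (show (w : ℝ) - x ≤ (N + N * x₀ : ℕ) by linarith)
            (abs_nonneg (L i : ℝ))
          simp only [Pi.add_apply, Pi.smul_apply, smul_eq_mul]
          push_cast at h1 h6
          linarith) y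
      have h3 : lw D (θ + (fun i => (R i : ℝ)) + (w - x) • fun i => (L i : ℝ)) y =
          lw D θ y + lw D (fun i => R i) y + (w - x) * lw D (fun i => L i) y := by
        simp only [lw, Finset.mul_sum, ← Finset.sum_add_distrib, Pi.add_apply, Pi.smul_apply,
          smul_eq_mul]
        exact Finset.sum_congr rfl fun i _ => by ring
      have h4 := mul_le_mul_of_nonneg_left (abs_le.1 (hα y hy.1)).1 b.cast_nonneg
      rw [h3, lb] at h2
      have h5 : normSq (u s y) ≤ |K| * T y ^ j * Real.exp (-lw D (fun i => R i) y) := by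
        rw [Real.exp_neg, ← div_eq_mul_inv, le_div_iff₀ (Real.exp_pos _)]
        exact (hK y hy.1 T0).trans (mul_le_mul_of_nonneg_right (le_abs_self K) (by positivity))
      have h6 : T y ^ j = T y ^ x * (T y ^ N) ^ (4 * r + 1 + (a + 1 + k)) * T y ^ (w - x) := by
        rw [mul_right_comm, ← Real.rpow_add T0, add_sub_cancel, Real.rpow_natCast, ← pow_mul,
          ← pow_add, ej, add_comm]
      have h7 : T y ^ (w - x) * Real.exp (-lw D (fun i => R i) y) * Real.exp (-(b * X.α y)) ≤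
          Real.exp (C₀ * (w - x) + b * Cα) * Real.exp (lw D θ y) := by
        refine (mul_le_mul_of_nonneg_right (mul_le_mul_of_nonneg_right h1 (by positivity))
          (by positivity)).trans ?_
        rw [← Real.exp_add, ← Real.exp_add, ← Real.exp_add, Real.exp_le_exp]
        linarith
      rw [div_pow, ← mul_div_assoc, ← mul_div_assoc]
      refine div_le_div_of_nonneg_right
        ((mul_le_mul_of_nonneg_right h5 (by positivity)).trans ?_) (by positivity)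
      have h8 := mul_le_mul_of_nonneg_left h7
        (show 0 ≤ |K| * (T y ^ x * (T y ^ N) ^ (4 * r + 1 + (a + 1 + k))) by positivity)
      rw [h6]
      linarith).2 (mom _))
  choose p p1 p2 using (k15 r _ σ sσ).2.1 (a + 1 + k)
  exact ⟨p, H, fun I => ⟨Submodule.subset_span (by
      simpa only [Nat.cast_mul, mul_assoc, mem_ofPred_eq] using p1 I),
    Submodule.subset_span (h1 I).1⟩, fun y hy => (h2 y hy).trans
      (Finset.sum_congr rfl fun I _ => by rw [p2 I y hy])⟩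

end K6

variable {F : Type} [Field F] [Algebra ℂ F] {Φ : FM D F} {V : VF n F} {m : ι → V.P → ℤ}
  {π : Hg D → V.P} {k : IntermediateField ℂ F} {τ : F} {e : ℕ}

/-- Passage to a power. -/
theorem Qps.pow {L N : V.P → ℤ} (h : Qps V L N k τ e) (τ0 : τ ≠ 0) {s : ℕ} (s0 : 0 < s) :
    ∃ ρ : ℕ, Qps V (s • L) (ρ • L + N) k (τ ^ s) e := by
  obtain ⟨t, t0, C, h⟩ := h
  by_contra hn
  refine h ((finite_iUnion fun ρ : Fin s => (not_infinite.1 fun h => hn ⟨ρ, τ ^ (ρ : ℕ) * t,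
    mul_ne_zero (pow_ne_zero _ τ0) t0, C, h⟩).image fun j => ρ + j * s).subset ?_)
  rintro j ⟨m, g, h1, h2, h3⟩
  refine mem_iUnion.2 ⟨⟨j % s, Nat.mod_lt _ s0⟩, j / s, ⟨m, g, (Nat.pow_le_pow_left
    (Nat.succ_le_succ (Nat.div_le_self j s)) e).trans h1, h2, fun l => ⟨(h3 l).1, ?_⟩⟩,
    Nat.mod_add_div' j s⟩
  have := (h3 l).2
  rw [← Nat.div_add_mod' j s, add_smul, pow_add, mul_smul, add_assoc, mul_comm _ s, pow_mul,
    mul_right_comm (_ ^ _), mul_assoc _ _ t] at this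
  exact this

/-- Passage to the positive part. -/
theorem Qps.zar (br : Φ.Br V m π) {l ν Q : ι → ℤ} {e' : ι → ℕ} {a c x : ℕ} (he : ∀ i, 0 < e' i)
    (c0 : 0 < c) (zar : ∀ x : ℕ, ∃ R : ι → ℤ, ∀ (j : ℕ) U,
      Sp D (fun i => j * (c * l i) + x * e' i) U → Sp D (fun i => j * ν i + R i) U)
    (h : Qps V (a • dv m l) (x • dv m l + dv m Q) k τ e) (τ0 : τ ≠ 0) :
    ∃ R, Qps V (dv m fun i => a * ν i) (dv m R) k (τ ^ c) e := by
  obtain ⟨ρ, t, t0, C, h⟩ := h.pow τ0 c0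
  obtain ⟨y, hy⟩ := R6.OUT.big e' he (fun i => (ρ * a + x : ℕ) * l i + Q i) 0
  obtain ⟨R, hR⟩ := zar y
  refine ⟨R, t, t0, C, h.mono fun j => ?_⟩
  rintro ⟨s, g, h1, h2, h3⟩
  refine ⟨s, g, h1, h2, fun β => ⟨(h3 β).1, ?_⟩⟩
  have h4 := (h3 β).2
  rw [← mul_smul, ← mul_smul, ← mul_smul, ← add_assoc, ← add_assoc, ← add_smul, ← add_smul,
    ← one_smul ℕ (dv m Q), dv_two] at h4
  obtain ⟨U, u1, u2⟩ := (br.sec _ _).1 (sec_mono br
    (Q := fun i => (j * a : ℕ) * (c * l i) + y * e' i) (fun i => by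
      have := (hy i).1
      push_cast at this ⊢
      linarith) h4)
  rw [← one_smul ℕ (dv m R), dv_two]
  exact (br.sec _ _).2 ⟨U, by simpa [mul_assoc] using hR _ U u1, u2⟩

/-- The lower bound for the number of sections. -/
theorem kap [M.Cpt] {X : Cx D} {r N : ℕ} {t : Fin r → M.X → ℂ} {lam R : ι → ℤ} {I J : Type}
    [Fintype I] [Fintype J] {a : I → M.X → ℂ} {b : J → M.X → ℂ} (pr : Prj X t) (br : Φ.Br V m π)
    (τ0 : τ ≠ 0) (N0 : 0 < N) (lu : Lu D Φ k (τ ^ N) (fun i => N * lam i) a b)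
    (hs : Sg6 X (fun i => N * lam i) fun y => nsq (a · y) / nsq (b · y))
    (h : Qps V (dv m lam) (dv m R) k τ e) :
    ∃ C : ℕ, {j : ℕ | (j + 1) ^ e ≤ C * h0 D fun i => j * (N * lam i)}.Infinite := by
  obtain ⟨ρ, η, η0, C, h⟩ := h.pow τ0 N0
  obtain ⟨-, -, kmul, -, -, -, -, -, krg, -⟩ := NV5.st_bKIT n M ι D
  obtain ⟨R₀, c, sc, c0, lu⟩ := lu η (fun i => ρ * lam i + R i) η0
  refine K6.tl (R := (fun i => ρ * lam i + R i) + R₀) (C := C) pr hs (h.mono fun j => ?_)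
  rintro ⟨s, g, h1, h2, h3⟩
  have h4 : ∀ β, ∃ U, Sp D (fun i => j * (N * lam i) + (ρ * lam i + R i)) U ∧
      Φ.ev U = (τ ^ N) ^ j * g β * η := fun β => by
    have := (h3 β).2
    rw [← mul_smul, ← add_assoc, ← add_smul, ← one_smul ℕ (dv m R), dv_two] at this
    exact (br.sec _ _).1 (sec_mono br (fun i => by push_cast; linarith) this)
  choose u u1 u2 using h4
  have T0 : (τ ^ N) ^ j * η ≠ 0 := mul_ne_zero (pow_ne_zero _ (pow_ne_zero _ τ0)) η0
  refine ⟨s, fun β => u β * c, h1, Fintype.linearIndependent_iff.2 fun z hz => ?_, fun β =>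
    ⟨by simpa only [Pi.add_def, add_assoc] using kmul _ _ _ _ (u1 β) sc, ?_⟩⟩
  · have sp : ∀ S : Finset (Fin s), NV5.Rg D (∑ β ∈ S, z β • u β) := fun S =>
      ⟨_, (K6.fd _).2 _ (Submodule.sum_mem _ fun β _ => Submodule.smul_mem _ _
        (Submodule.subset_span (u1 β)))⟩
    have ev0 := (NV5.st_bFN n M ι D F Φ).2.1
    have ev : ∀ S : Finset (Fin s), Φ.ev (∑ β ∈ S, z β • u β) =
        (∑ β ∈ S, z β • g β) * ((τ ^ N) ^ j * η) := fun S => by
      induction S using Finset.induction_on with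
      | empty => simpa using ev0
      | insert β S hβ ih =>
        rw [Finset.sum_insert hβ, Finset.sum_insert hβ, Φ.add _ _ (by simpa using sp {β}) (sp S),
          Φ.smul _ _ ⟨_, u1 β⟩, ih, u2, add_mul, smul_mul_assoc, mul_right_comm, mul_comm (g β)]
    have h5 := ((krg _ c (sp Finset.univ) ⟨_, sc⟩).2.2 (by
      simpa only [Finset.sum_mul, smul_mul_assoc] using hz)).resolve_right c0
    have h6 := ev Finset.univ
    rw [h5, ev0] at h6
    exact Fintype.linearIndependent_iff.1 h2 z ((mul_eq_zero.1 h6.symm).resolve_right T0)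
  · obtain ⟨K, -, hK⟩ := lu j (u β) (u1 β) (by
      rw [u2, mul_right_comm, mul_div_cancel_left₀ _ T0]
      exact (h3 β).1)
    refine ⟨K, fun y hy T1 => ?_⟩
    have b0 : 0 < nsq (b · y) := (SV.nsq_nonneg _).lt_of_ne' fun h => by simp [h] at T1
    have e1 : lw D (fun i => (((fun i => ρ * lam i + R i) + R₀ : ι → ℤ) i : ℝ)) y =
        lw D (fun i => ((ρ * lam i + R i : ℤ) : ℝ)) y + lw D (fun i => R₀ i) y := by
      simp only [lw, ← Finset.sum_add_distrib, Pi.add_apply]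
      exact Finset.sum_congr rfl fun i _ => by push_cast; ring
    beta_reduce
    rw [div_pow, ← mul_div_assoc, le_div_iff₀ (by positivity), e1, Real.exp_add, Pi.mul_apply,
      map_mul]
    linarith [hK y hy]

end Pool.Agent.Lib.S5
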