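import Pool.Agent.Lib.NV2.Core

/-! Project S5, step 1: the cohomology of the Koszul complex is bounded by the tangent cocycles. -/

open scoped Classical Topology ContDiff ENNReal
open Set MeasureTheory Complex Metric Filter Module

noncomputable section

namespace Pool.Agent.Lib.S5.NVQ

open Pool.Agent.Lib.SV (E nsq)
open Pool.Agent.Lib.HS32 Pool.Agent.Lib.EX Pool.Agent.Lib.EXS Pool.Agent.Lib.ZL
open Pool.Agent.Lib.NV2
open Pool.Agent.Lib.ZQ (HqC)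

/-- A large space contains a non-zero vector that is orthogonal to a small space. -/
theorem orth {U H : Type} [AddCommGroup U] [Module ℂ U] [NormedAddCommGroup H]
    [InnerProductSpace ℂ H] (V S B : Submodule ℂ U) [FiniteDimensional ℂ V] (hS : S ≤ V)
    (hB : B ≤ V) (L : V →ₗ[ℂ] H) (hlt : finrank ℂ B < finrank ℂ S) :
    ∃ η : V, η.1 ∈ S ∧ η.1 ≠ 0 ∧ ∀ b : V, b.1 ∈ B → ‖L η‖ ≤ ‖L (η - b)‖ := by
  have := Submodule.finiteDimensional_of_le hS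
  have := Submodule.finiteDimensional_of_le hB
  let K := LinearMap.range (L ∘ₗ Submodule.inclusion hB)
  have hK : finrank ℂ K < finrank ℂ S := (LinearMap.finrank_range_le _).trans_lt hlt
  obtain ⟨η, h1, h2⟩ := Submodule.exists_mem_ne_zero_of_ne_bot (LinearMap.ker_ne_bot_of_finrank_lt
    (f := K.orthogonalProjectionOnto.toLinearMap ∘ₗ L ∘ₗ Submodule.inclusion hS) hK)
  have h3 : L (Submodule.inclusion hS η) ∈ Kᗮ := Submodule.orthogonalProjectionOnto_eq_zero_iff.1 h1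
  refine ⟨Submodule.inclusion hS η, η.2, fun h => h2 (Subtype.ext h), fun b hbB => ?_⟩
  have hb : L b ∈ K := ⟨⟨b.1, hbB⟩, rfl⟩
  have h4 := norm_add_sq_eq_norm_sq_add_norm_sq_of_inner_eq_zero _ _
    (Submodule.inner_left_of_mem_orthogonal (K.neg_mem hb) h3)
  rw [map_sub, sub_eq_add_neg]
  refine nonneg_le_nonneg_of_sq_le_sq (norm_nonneg _) ?_
  rw [h4]
  exact le_add_of_nonneg_right (mul_self_nonneg _)

/-- A large space contains a non-zero vector that is minimal in its class. -/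
theorem minq {Y κ : Type} [MeasurableSpace Y] [Fintype κ] (μ : Measure Y)
    (V S B : Submodule ℂ (κ → Y → ℂ)) (w : Y → ℝ) [FiniteDimensional ℂ V] (hS : S ≤ V)
    (hB : B ≤ V) (hw : AEMeasurable w μ) (hw0 : ∀ x, 0 ≤ w x)
    (hb : ∀ b ∈ V, (∀ i, AEMeasurable (b i) μ) ∧
      ∫⁻ x, ENNReal.ofReal (nsq (b · x) * w x) ∂μ ≠ ⊤) (hlt : finrank ℂ B < finrank ℂ S) :
    ∃ η ∈ S, η ≠ 0 ∧ ∀ b ∈ B, ∫⁻ x, ENNReal.ofReal (nsq (η · x) * w x) ∂μ ≤
      ∫⁻ x, ENNReal.ofReal (nsq ((η - b) · x) * w x) ∂μ := by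
  have hW : ∀ b ∈ V, MemLp (MIN.gw w b) 2 μ := fun b hbV => by
    refine ⟨MIN.gw_meas hw (hb b hbV).1, lt_top_iff_ne_top.2 fun h => (hb b hbV).2 ?_⟩
    rw [← MIN.gw_int hw0, h]
    simp
  have hW' : ∀ b ∈ V.map (MIN.gw w), MemLp b 2 μ := by
    rintro _ ⟨b, hbV, rfl⟩
    exact hW b hbV
  obtain ⟨L, hn⟩ : ∃ L : V.map (MIN.gw w) →ₗ[ℂ] Lp (EuclideanSpace ℂ κ) 2 μ,
      ∀ c, ‖L c‖ = (eLpNorm (c : Y → EuclideanSpace ℂ κ) 2 μ).toReal :=
    ⟨{ toFun := fun b => (hW' b b.2).toLp b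
       map_add' := fun b c => MemLp.toLp_add (hW' b b.2) (hW' c c.2)
       map_smul' := fun c b => MemLp.toLp_const_smul c (hW' b b.2) }, fun c => Lp.norm_toLp _ (hW' c c.2)⟩
  obtain ⟨η, h1, h2, h3⟩ := orth V S B hS hB (L ∘ₗ (MIN.gw w).submoduleMap V) hlt
  refine ⟨η, h1, h2, fun b hbB => ?_⟩
  have h5 : (eLpNorm (MIN.gw w η.1) 2 μ).toReal ≤ (eLpNorm (MIN.gw w (η.1 - b)) 2 μ).toReal :=
    ((hn _).symm.trans_le (h3 ⟨b, hB hbB⟩ hbB)).trans_eq (hn _)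
  have h6 := pow_le_pow_left' ((ENNReal.toReal_le_toReal (hW _ η.2).2.ne
    (hW _ (sub_mem η.2 (hB hbB))).2.ne).1 h5) 2
  rw [MIN.gw_int hw0, MIN.gw_int hw0] at h6
  exact h6

variable {n r : ℕ} {M : Mf n} {ι : Type} [Fintype ι] [DecidableEq ι]

/-- The space of tangent multivectors. -/
def TgS (D : Ad M ι) (t : Fin r → M.X → ℂ) : Submodule ℂ (Finset (Fin r) → M.X → ℂ) where
  carrier := {η | Tg D t η}
  zero_mem' := fun d z _ _ J => by
    have e : col (fun I => D.rd ((0 : Finset (Fin r) → M.X → ℂ) I) d z) J = 0 := by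
      funext i
      simp [col, Ad.rd]
    rw [e]
    exact zero_mem _
  add_mem' := fun {a b} ha hb d z hz ho J => by
    have e : col (fun I => D.rd ((a + b) I) d z) J =
        col (fun I => D.rd (a I) d z) J + col (fun I => D.rd (b I) d z) J := by
      funext i
      simp only [col, Ad.rd, Pi.add_apply]
      split_ifs <;> ring
    rw [e]
    exact add_mem (ha d z hz ho J) (hb d z hz ho J)
  smul_mem' := fun c a ha d z hz ho J => by
    have e : col (fun I => D.rd ((c • a) I) d z) J = c • col (fun I => D.rd (a I) d z) J := by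
      funext i
      simp only [col, Ad.rd, Pi.smul_apply, smul_eq_mul]
      split_ifs <;> ring
    rw [e]
    exact Submodule.smul_mem _ c (ha d z hz ho J)

/-- The dimension of the cohomology is at most the dimension of the tangent cocycles. -/
theorem harq [M.Cpt] {D : Ad M ι} (X : Cx D) (k : ℕ) (P Q : ι → ℤ) (t : Fin r → M.X → ℂ)
    (C A : ℝ) (hq : HqC 1 D X.μ) (hK : Kd D P t) (hI : Imm D P t)
    (hW : ∀ ε > (0 : ℝ), ∃ ρ, Wt X Q (lg t) C A ε ρ) (hk : 1 ≤ k)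
    (V0 V1 : Submodule ℂ (Finset (Fin r) → M.X → ℂ)) [f1 : FiniteDimensional ℂ V1]
    (m0 : ∀ η, η ∈ V0 ↔ Ch D k (fun i => Q i + k * P i) η)
    (m1 : ∀ η, η ∈ V1 ↔ Ch D (k + 1) (fun i => Q i + (k + 1 : ℕ) * P i) η)
    (L : (Finset (Fin r) → M.X → ℂ) →ₗ[ℂ] Finset (Fin r) → M.X → ℂ) (hL : ∀ H, L H = Wg t H) :
    finrank ℂ ↥(V1 ⊓ LinearMap.ker L) ≤
      finrank ℂ ↥(V0.map L) + finrank ℂ ↥(V1 ⊓ LinearMap.ker L ⊓ TgS D t) := by
  by_contra! hlt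
  have : FiniteDimensional ℂ ↥(V1 ⊓ LinearMap.ker L) :=
    Submodule.finiteDimensional_of_le inf_le_left
  obtain ⟨S, hS1, hS2⟩ : ∃ S : Submodule ℂ (Finset (Fin r) → M.X → ℂ),
      (V1 ⊓ LinearMap.ker L ⊓ TgS D t) ⊓ S = ⊥ ∧
        (V1 ⊓ LinearMap.ker L ⊓ TgS D t) ⊔ S = V1 ⊓ LinearMap.ker L := by
    obtain ⟨S, h1, h2⟩ := IsModularLattice.exists_inf_eq_and_sup_eq
      (a := ⊥) (b := V1 ⊓ LinearMap.ker L ⊓ TgS D t) (c := V1 ⊓ LinearMap.ker L) bot_le inf_le_left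
    exact ⟨S, h1, h2⟩
  have hSV : S ≤ V1 ⊓ LinearMap.ker L := hS2 ▸ le_sup_right
  have := Submodule.finiteDimensional_of_le hSV
  have : FiniteDimensional ℂ ↥(V1 ⊓ LinearMap.ker L ⊓ TgS D t) :=
    Submodule.finiteDimensional_of_le inf_le_left
  have hdim : finrank ℂ ↥(V0.map L) < finrank ℂ S := by
    have h := Submodule.finrank_sup_add_finrank_inf_eq (V1 ⊓ LinearMap.ker L ⊓ TgS D t) S
    rw [hS1, hS2, finrank_bot] at h
    omega
  obtain ⟨-, -, -, -, hWg, -, hS, hKd⟩ := st_CHN n M ι D X r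
  obtain ⟨-, hlg, -, hNm⟩ := hKd P t hK
  obtain ⟨hoff, hms, -⟩ := ZL.st_MU n M ι D X
  obtain ⟨-, -, -, -, -, -, -, hlw, -, hco, -⟩ := ZL.bPW n M ι D
  obtain ⟨hdf, hdm⟩ := st_MEA n M ι D X r t fun a =>
    ((bUPB ZL.bPW n M ι D P).1 (t a) (hK.1 a).1).1
  obtain ⟨-, -, -, -, -, -, -, -, -, hcs, hcl⟩ := bCAR r
  have hker : ∀ b, b ∈ LinearMap.ker L ↔ Coc t b := fun b => by
    rw [LinearMap.mem_ker, hL]
    exact ⟨fun h x => funext fun I => congrFun (congrFun h I) x,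
      fun h => funext fun I => funext fun x => congrFun (h x) I⟩
  have hB : V0.map L ≤ V1 ⊓ LinearMap.ker L := by
    rintro _ ⟨H, hH, rfl⟩
    obtain ⟨h1, h2⟩ := hWg k P _ t H hK.1 ((m0 H).1 hH)
    have e : (P + fun i => Q i + k * P i) = fun i => Q i + (k + 1 : ℕ) * P i := by
      funext i
      simp only [Pi.add_apply, Nat.cast_add, Nat.cast_one]
      ring
    rw [e] at h1
    exact ⟨(m1 _).2 (hL H ▸ h1), (hker _).2 (hL H ▸ h2)⟩
  have hε : ∀ ν : ℕ, 0 < 1 / ((ν : ℝ) + 1) / 2 := fun ν => by positivity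
  have hε1 : ∀ ν : ℕ, 1 / ((ν : ℝ) + 1) / 2 < k := fun ν => by
    have h1 : 1 / ((ν : ℝ) + 1) ≤ 1 := by
      rw [div_le_one (by positivity)]
      linarith [Nat.cast_nonneg (α := ℝ) ν]
    have h2 : (1 : ℝ) ≤ k := by exact_mod_cast hk
    linarith
  choose ρ hρ using fun ν : ℕ => hW _ (hε ν)
  have hbd : ∀ b ∈ V1, ∃ A' : ℝ, ∀ ν, AEMeasurable (wt t (ρ ν) (k + 1)) X.μ ∧
      Nm X t (ρ ν) (k + 1) b ≤ ENNReal.ofReal A' := fun b hb => by
    obtain ⟨A', h⟩ := hNm (k + 1) Q C A b ((m1 b).1 hb)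
    exact ⟨A', fun ν => ⟨(h _ _ _ (hρ ν)).1, (h _ _ _ (hρ ν)).2.1⟩⟩
  have hfin : ∀ b ∈ V1, ∀ ν, Nm X t (ρ ν) (k + 1) b ≠ ⊤ := fun b hb ν => by
    obtain ⟨A', h⟩ := hbd b hb
    exact ne_top_of_le_ne_top ENNReal.ofReal_ne_top (h ν).2
  have hwm : ∀ ν, AEMeasurable (wt t (ρ ν) (k + 1)) X.μ := fun ν => by
    obtain ⟨A', h⟩ := hbd 0 (zero_mem _)
    exact (h ν).1
  have hme : ∀ b ∈ V1, ∀ I, AEMeasurable (b I) X.μ := fun b hb I =>
    (hS _ _ (((m1 b).1 hb).1 I)).2.1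
  have hmin : ∀ ν, ∃ η ∈ S, η ≠ 0 ∧ ∀ b ∈ V0.map L,
      Nm X t (ρ ν) (k + 1) η ≤ Nm X t (ρ ν) (k + 1) (η - b) := fun ν =>
    minq X.μ (V1 ⊓ LinearMap.ker L) S (V0.map L) (wt t (ρ ν) (k + 1)) hSV hB (hwm ν)
      (fun x => (Real.exp_pos _).le) (fun b hb => ⟨hme b hb.1, hfin b hb.1 ν⟩) hdim
  choose η hη hη0 hbm using hmin
  have key := bLIM M.X (Finset (Fin r)) X.μ S (Df D t)
    (2 * r) (fun x => Real.exp (-(C - lw D (fun i => Q i - X.o i) x + (k + 1 : ℕ) * lg t x)))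
    (fun ν => wt t (ρ ν) (k + 1)) η (fun ν => 1 / ((ν : ℝ) + 1) / 2)
    inferInstance ?_ ?_ hwm ?_ ?_ ?_
  · obtain ⟨b, b1, b2, b3⟩ := key
    have b4 := (st_TAN n M ι D X r P _ t b hK hI ((m1 b).1 (hSV b1).1).1).1 b3
    have b5 : b ∈ (V1 ⊓ LinearMap.ker L ⊓ TgS D t) ⊓ S := ⟨⟨hSV b1, b4⟩, b1⟩
    rw [hS1] at b5
    exact b2 b5
  · filter_upwards [hoff] with x hx
    refine ⟨Real.exp_pos _, fun ν => Real.exp_le_exp.2 ?_, fun y y' c => ⟨?_, ?_, ?_⟩⟩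
    · linarith [(hρ ν).2.2.1 x hx]
    · exact Finset.sum_nonneg fun J _ => (hdf x _ 0 0).1
    · simp only [Df, Finset.mul_sum]
      exact Finset.sum_congr rfl fun J _ => by rw [(hcl y y c J).2, (hdf x _ 0 c).2.1]
    · have h4 : Df D t x y ≤ ∑ J, (2 * df D t x (col y' J) + 2 * nsq (col (y - y') J)) :=
        Finset.sum_le_sum fun J _ => by
          rw [(hcl y y' 0 J).1]
          exact (hdf x _ _ 0).2.2.1
      rw [Finset.sum_add_distrib, ← Finset.mul_sum, ← Finset.mul_sum] at h4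
      have h5 := hcs (y - y')
      have h6 : Df D t x y' = ∑ J, df D t x (col y' J) := rfl
      rw [h6]
      linarith
  · refine hms ℝ _ (Real.continuous_exp.comp_continuousOn (ContinuousOn.neg ?_))
    exact (continuousOn_const.sub (hco ℝ _ (hlw _))).add
      (continuousOn_const.mul (hco ℝ _ hlg.1))
  · intro β hβ
    refine ⟨hme β (hSV hβ).1, ?_, ?_⟩
    · refine Finset.aemeasurable_fun_sum _ fun J _ => hdm (fun x => col (β · x) J) ?_
      refine continuousOn_pi.2 fun i => ?_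
      by_cases hi : i ∈ J
      · simp only [col, hi, if_true]
        exact continuousOn_const
      · simp only [col, hi, if_false]
        exact continuousOn_const.mul (hS _ _ (((m1 β).1 (hSV hβ).1).1 _)).1
    · obtain ⟨A', h⟩ := hbd β (hSV hβ).1
      exact ⟨A', fun ν => (h ν).2⟩
  · intro ν
    refine ⟨hη ν, hη0 ν, ?_⟩
    obtain ⟨H, hH, hs⟩ := st_STEP n M ι D X r k P Q t C A _ (ρ ν) (η ν) hq hK (hρ ν) (hε1 ν)
      ((m1 _).1 (hSV (hη ν)).1) ((hker _).1 (hSV (hη ν)).2)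
    refine HAR.cancel (hε ν).le (hε1 ν).le (hfin _ (hSV (hη ν)).1 ν) ?_ hs
    rw [← hL]
    exact hbm ν _ ⟨H, (m0 H).2 hH, rfl⟩
  · have := tendsto_one_div_add_atTop_nhds_zero_nat (𝕜 := ℝ).div_const 2
    rwa [zero_div] at this

end Pool.Agent.Lib.S5.NVQ
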