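import Pool.Agent.Lib.S5.NVQ1

/-! Project S5, step 1: the Euler characteristic bounds the number of tensors from below. -/

open scoped Classical Topology ContDiff ENNReal
open Set MeasureTheory Complex Metric Filter Module

noncomputable section

namespace Pool.Agent.Lib.S5.NVQ

open Pool.Agent.Lib.SV (E nsq)
open Pool.Agent.Lib.HS32 Pool.Agent.Lib.EX Pool.Agent.Lib.EXS Pool.Agent.Lib.ZL
open Pool.Agent.Lib.NV2
open Pool.Agent.Lib.ZQ (HqC)

/-- The Euler characteristic of a complex is bounded by the cohomology. -/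
theorem eulq (c z b h : ℕ → ℕ) (h1 : ∀ k, c (k + 1) = b (k + 2) + z (k + 1))
    (h2 : ∀ k, b (k + 1) ≤ z (k + 1)) (h3 : ∀ k, z (k + 1) ≤ b (k + 1) + h k) (h4 : b 1 = 0)
    (m : ℕ) : |∑ k ∈ Finset.range m, (-1 : ℚ) ^ (k + 1) * c (k + 1) + (-1) ^ (m + 1) * b (m + 1)|
      ≤ ∑ k ∈ Finset.range m, (h k : ℚ) := by
  induction m with
  | zero => simp [h4]
  | succ m ih =>
    rw [Finset.sum_range_succ, Finset.sum_range_succ]
    have e1 : (c (m + 1) : ℚ) = b (m + 1 + 1) + z (m + 1) := by exact_mod_cast h1 m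
    have e2 : (b (m + 1) : ℚ) ≤ z (m + 1) := by exact_mod_cast h2 m
    have e3 : (z (m + 1) : ℚ) ≤ b (m + 1) + h m := by exact_mod_cast h3 m
    have e4 : ∑ k ∈ Finset.range m, (-1 : ℚ) ^ (k + 1) * c (k + 1) + (-1) ^ (m + 1) * c (m + 1) +
        (-1) ^ (m + 1 + 1) * b (m + 1 + 1) = (∑ k ∈ Finset.range m, (-1 : ℚ) ^ (k + 1) * c (k + 1)
          + (-1) ^ (m + 1) * b (m + 1)) + (-1) ^ (m + 1) * (z (m + 1) - b (m + 1)) := by
      rw [e1, pow_succ _ (m + 1)]
      ring
    rw [e4]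
    refine (abs_add_le _ _).trans (add_le_add ih ?_)
    rw [abs_mul, abs_pow, abs_neg, abs_one, one_pow, one_mul, abs_of_nonneg (by linarith)]
    linarith

variable {n r : ℕ} {M : Mf n} {ι : Type} [Fintype ι] [DecidableEq ι]

/-- The tensor of a multivector. -/
def tn (D : Ad M ι) (t : Fin r → M.X → ℂ) (q : ℕ) :
    (Finset (Fin r) → M.X → ℂ) →ₗ[ℂ] D.A → (Fin q → Fin n) → E n → ℂ where
  toFun η d I z := tb (TEN.li90 (frm (rv D t d) z)) (fun J => D.rd (η J) d z) I
  map_add' a b := funext fun d => funext fun I => funext fun z =>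
    congrFun (LIN.f_add _ _ (fun J => D.rd (a J) d z) fun J => D.rd (b J) d z) ∅
  map_smul' c a := funext fun d => funext fun I => funext fun z =>
    congrFun (LIN.f_smul _ _ c fun J => D.rd (a J) d z) ∅

open TEN in
theorem tn_ten [M.Cpt] {D : Ad M ι} {q : ℕ} {P Q : ι → ℤ} {t : Fin r → M.X → ℂ}
    {η : Finset (Fin r) → M.X → ℂ} (hK : Kd D P t) (hI : Imm D P t) (h0 : η ≠ 0)
    (hC : Ch D (q + 1) (fun i => Q i + (q + 1 : ℕ) * P i) η) (hc : Coc t η) (hT : Tg D t η) :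
    Ten D q Q (tn D t q η) := by
  have hUPB := ZL.st_UPB
  have hINV := bINV
  obtain ⟨u1, -, -, -, -, u6, -⟩ := hUPB n M ι D P
  have ht : ∀ a, HoO D (t a) := fun a => (u1 _ (hK.1 a).1).1
  have hv : ∀ d, ∀ z ∈ B2 n, Off (D.c d) z →
      vv D P t d =ᶠ[𝓝 z] fun y => xm (D.c d) P y • rv D t d y := fun d z hz ho => by
    filter_upwards [isOpen_ball.eventually_mem hz, MON.off_ev ho] with w w1 w2
    exact funext fun a => (u6 _ _ fun y hy => (hK.1 a).1 d y hy).2 w w1 w2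
  have hd : ∀ d, ∀ z ∈ B2 n, Off (D.c d) z →
      NV2.Dual (li90 (frm (rv D t d) z)) (frm (rv D t d) z) := fun d z hz ho => by
    have h1 := TAN.hol_rv ht d hz ho
    obtain ⟨i1, i2, -⟩ := hINV n r z
    obtain ⟨f1, f2, -⟩ := i2 _ h1
    obtain ⟨lam, -, l2⟩ := i1 _ _ f1 (f2 (TAN.imm h1.self_of_nhds
      (MON.diff_xm fun i => .inl (ho i)) (MON.xm_ne P ho) (hv d z hz ho) (hI d z hz)))
    exact li_dual90 l2.self_of_nhds
  have hL := fun d z hz ho => st_LIN r n q _ _ (fun J => D.rd (η J) d z) (hd d z hz ho)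
    (fun J hJ => congrFun (hC.2 J hJ) _) (hc _) (hT d z hz ho)
  show Ten D q Q fun d I z => tb (li90 (frm (rv D t d) z)) (fun J => D.rd (η J) d z) I
  refine ⟨fun d z hz I => ?_, fun a d x ha hd' hx I => ?_,
    fun d z hz ho I σ => (hL d z hz ho).1 I σ, ?_⟩
  · have w := fun J => (hUPB n M ι D fun i => Q i + (q + 1 : ℕ) * P i).2.2.2.2.2.1 _ _
      fun y hy => (hC.1 J).1 d y hy
    have hV : HolN (vv D P t d) z := (isOpen_ball.eventually_mem hz).mono fun y hy =>
      differentiableAt_pi.2 fun a => (u6 _ _ fun y hy => (hK.1 a).1 d y hy).1.differentiableAt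
        (isOpen_ball.mem_nhds hy)
    have hW : HolN (fun y J => val (D.c d) (fun i => Q i + (q + 1 : ℕ) * P i) (D.rd (η J) d) y) z :=
      (isOpen_ball.eventually_mem hz).mono fun y hy => differentiableAt_pi.2 fun J =>
        (w J).1.differentiableAt (isOpen_ball.mem_nhds hy)
    obtain ⟨i1, i2, i3⟩ := hINV n r z
    obtain ⟨f1, f2, -⟩ := i2 _ hV
    obtain ⟨lam, l1, l2⟩ := i1 _ _ f1 (f2 (hI d z hz))
    refine ⟨_, (i3 q lam _ I l1 hW).1, ?_⟩
    filter_upwards [l2, isOpen_ball.eventually_mem hz] with y y1 y2 ho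
    have e := hv d y y2 ho
    have h1 := (hL d y y2 ho).2.2 _ _ (xm (D.c d) P y) 1
      (fun j => fderiv ℂ (xm (D.c d) P) y (Pi.single j 1)) y1 e.self_of_nhds (fun j => by
        simp only [frm, Fin.cons_succ, Fin.cons_zero, Matrix.one_apply, ite_smul, one_smul,
          zero_smul, Finset.sum_ite_eq', Finset.mem_univ, if_true]
        rw [e.fderiv_eq, fderiv_fun_smul (MON.diff_xm fun i => .inl (ho i))
          (TAN.hol_rv ht d y2 ho).self_of_nhds]
        rfl) I
    have h2 : (fun J => val (D.c d) (fun i => Q i + (q + 1 : ℕ) * P i) (D.rd (η J) d) y) =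
        xm (D.c d) (fun i => Q i + (q + 1 : ℕ) * P i) y • fun J => D.rd (η J) d y :=
      funext fun J => (w J).2 y y2 ho
    have h3 := (i3 q (fun _ => lam y) (fun _ J => D.rd (η J) d y) I
      (.of_forall fun _ => differentiableAt_const _)
      (.of_forall fun _ => differentiableAt_const _)).2
    rw [h1, sum_one90, h2, h3 _ y, xm_pow90 ho P Q, mul_assoc]
  · have h1 := (hL a _ (GLU.mem_B2 ha) (hx a ha)).2.2 _ _ 1 (D.J a d x) 0
      (hd d _ (GLU.mem_B2 hd') (hx d hd'))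
      (by rw [one_smul]; exact funext fun b => (GLU.rd_e _ hd').trans (GLU.rd_e _ ha).symm)
      (fun j => by simpa [frm] using chg90 ht hx ha hd' j) I
    rw [h1, one_pow, one_mul]
    simp only [GLU.rd_e _ ha, GLU.rd_e _ hd']
  · obtain ⟨J, hJ⟩ := Function.ne_iff.1 h0
    obtain ⟨x, hx⟩ := Function.ne_iff.1 hJ
    have ho : x ∈ off D := by
      by_contra h
      exact hx ((hC.1 J).2 x h)
    obtain ⟨d, hd'⟩ := GLU.ex_ch D x
    by_contra! h
    have := (hL d _ (GLU.mem_B2 hd') (ho d hd')).2.1 fun I => h d I _ (GLU.mem_B2 hd') (ho d hd')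
    exact hx ((GLU.rd_e _ hd').symm.trans (congrFun this J))

/-- The dimension of the space of chains. -/
theorem fin_ch [M.Cpt] {D : Ad M ι} (X : Cx D) (k : ℕ) (Q : ι → ℤ)
    (V : Submodule ℂ (Finset (Fin r) → M.X → ℂ)) (m : ∀ η, η ∈ V ↔ Ch D k Q η) :
    finrank ℂ V = r.choose k * h0 D Q := by
  obtain ⟨hsp, hfin, -⟩ := st_CHN n M ι D X r
  have := hfin Q
  have e : V = KOS29.Num.Ck r (fun _ => Submodule.span ℂ {F | Sp D Q F}) k := by
    ext η
    rw [m, KOS29.Num.mem_Ck]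
    refine ⟨fun h => ⟨fun J _ => (hsp _ _).2 (h.1 J), h.2⟩, fun h => ⟨fun J => (hsp _ _).1 ?_, h.2⟩⟩
    by_cases hJ : J.card = k
    · exact h.1 J hJ
    · rw [h.2 J hJ]
      exact zero_mem _
  rw [e]
  exact (KOS29.Num.fin_Ck r (fun _ => Submodule.span ℂ {F | Sp D Q F}) k).2

/-- The truncated Euler characteristic is bounded by the number of independent tensors. -/
theorem nexq [M.Cpt] {D : Ad M ι} (X : Cx D) (P Q : ι → ℤ) (t : Fin r → M.X → ℂ)
    (C A : ℝ) (hq : HqC 1 D X.μ) (hK : Kd D P t) (hI : Imm D P t)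
    (hW : ∀ ε > (0 : ℝ), ∃ ρ, Wt X Q (lg t) C A ε ρ) :
    ∃ q ≤ r, ∃ (m : ℕ) (b : Fin m → D.A → (Fin q → Fin n) → E n → ℂ),
      |∑ k ∈ Finset.range r, (-1 : ℚ) ^ (k + 1) *
        (r.choose (k + 1) * h0 D fun i => Q i + (k + 1 : ℕ) * P i : ℕ)| ≤ r * m ∧
      (∀ s, Ten D q Q (b s)) ∧ ∀ c : Fin m → ℂ, c ≠ 0 → Ten D q Q (∑ s, c s • b s) := by
  obtain ⟨-, -, -, hV, hWg, hL, -⟩ := st_CHN n M ι D X r
  choose V f m using fun k : ℕ => hV k fun i => Q i + k * P i
  obtain ⟨L, hL⟩ := hL t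
  have hker : ∀ b, b ∈ LinearMap.ker L ↔ Coc t b := fun b => by
    rw [LinearMap.mem_ker, hL]
    exact ⟨fun h x => funext fun I => congrFun (congrFun h I) x,
      fun h => funext fun I => funext fun x => congrFun (h x) I⟩
  have hB : ∀ k, (V k).map L ≤ V (k + 1) ⊓ LinearMap.ker L := fun k => by
    rintro _ ⟨H, hH, rfl⟩
    obtain ⟨h1, h2⟩ := hWg k P _ t H hK.1 ((m k H).1 hH)
    have e : (P + fun i => Q i + k * P i) = fun i => Q i + (k + 1 : ℕ) * P i := by
      funext i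
      simp only [Pi.add_apply, Nat.cast_add, Nat.cast_one]
      ring
    rw [e] at h1
    exact ⟨(m _ _).2 (hL H ▸ h1), (hker _).2 (hL H ▸ h2)⟩
  have fZ : ∀ k, FiniteDimensional ℂ ↥(V k ⊓ LinearMap.ker L) := fun k =>
    Submodule.finiteDimensional_of_le inf_le_left
  have fT : ∀ k, FiniteDimensional ℂ ↥(V k ⊓ LinearMap.ker L ⊓ TgS D t) := fun k =>
    Submodule.finiteDimensional_of_le inf_le_left
  have key := eulq (fun k => r.choose k * h0 D fun i => Q i + k * P i)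
    (fun k => finrank ℂ ↥(V k ⊓ LinearMap.ker L))
    (fun k => if k ≤ 1 then 0 else finrank ℂ ↥((V (k - 1)).map L))
    (fun k => finrank ℂ ↥(V (k + 1) ⊓ LinearMap.ker L ⊓ TgS D t)) (fun k => ?_) (fun k => ?_)
    (fun k => ?_) (if_pos le_rfl) r
  · have b0 : (if r + 1 ≤ 1 then 0 else finrank ℂ ↥((V (r + 1 - 1)).map L)) = 0 := by
      split_ifs
      · rfl
      · have e : (V (r + 1 - 1)).map L = ⊥ := eq_bot_iff.2 fun η hη => by
          have h := ((m _ _).1 (hB r hη).1).2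
          refine funext fun I => h I ?_
          have h1 : I.card ≤ r := by simpa using Finset.card_le_univ I
          omega
        rw [e, finrank_bot]
    simp only [b0, Nat.cast_zero, mul_zero, add_zero] at key
    obtain ⟨q, hq1, hq2⟩ := Finset.exists_max_image (Finset.range (r + 1))
      (fun k => finrank ℂ ↥(V (k + 1) ⊓ LinearMap.ker L ⊓ TgS D t)) ⟨0, by simp⟩
    let β := Module.finBasis ℂ ↥(V (q + 1) ⊓ LinearMap.ker L ⊓ TgS D t)
    have hT : ∀ η : ↥(V (q + 1) ⊓ LinearMap.ker L ⊓ TgS D t), η ≠ 0 → Ten D q Q (tn D t q η) :=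
      fun η hη => tn_ten hK hI (fun h => hη (Subtype.ext h)) ((m _ _).1 η.2.1.1)
        ((hker _).1 η.2.1.2) η.2.2
    refine ⟨q, Nat.lt_succ_iff.1 (Finset.mem_range.1 hq1), _, fun s => tn D t q (β s),
      key.trans ?_, fun s => hT _ (β.ne_zero s), fun c hc => ?_⟩
    · refine (Finset.sum_le_card_nsmul _ _ _ fun k hk => Nat.cast_le.2 (hq2 k
        (Finset.mem_range.2 ((Finset.mem_range.1 hk).trans r.lt_succ_self)))).trans_eq ?_
      rw [Finset.card_range, nsmul_eq_mul]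
    · have h := hT (∑ s, c s • β s) fun h =>
        hc (funext (Fintype.linearIndependent_iff.1 β.linearIndependent c h))
      simpa only [Submodule.coe_sum, Submodule.coe_smul, map_sum, map_smul] using h
  · have := f (k + 1)
    rw [if_neg (by omega), ← fin_ch X _ _ _ (m (k + 1)),
      ← LinearMap.finrank_range_add_finrank_ker (L.domRestrict (V (k + 1))),
      LinearMap.range_domRestrict, LinearMap.ker_domRestrict, ← Submodule.finrank_map_subtype_eq
        (V (k + 1)) (Submodule.comap _ _), Submodule.map_comap_subtype]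
    rfl
  · split_ifs
    · exact Nat.zero_le _
    · exact Submodule.finrank_mono (hB k)
  · by_cases hk : k = 0
    · subst hk
      refine le_add_left (Submodule.finrank_mono fun η hη => ⟨hη, ?_⟩)
      have h := (m _ _).1 hη.1
      exact (st_TAN n M ι D X r P _ t η hK hI h.1).2 h ((hker _).1 hη.2)
    · have := f (k + 1)
      rw [if_neg (by omega)]
      exact harq X k P Q t C A hq hK hI hW (by omega) _ _ (m k) (m (k + 1)) L hL

/-- The Euler characteristic bounds the number of alternating tensors from below. -/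
theorem nvq [M.Cpt] {D : Ad M ι} (X : Cx D) (c : ℕ) (Q ν : ι → ℤ) (t : Fin r → M.X → ℂ)
    (hq : HqC 1 D X.μ) (hK : Kd D (fun i => X.e i) t) (hI : Imm D (fun i => X.e i) t)
    (hα : ∀ x ∈ off D, X.α x = lg t x) (hZ : Zo X Q ν) (hG : Gens D fun i => ν i + c * X.e i)
    (a : ℕ) (P : Polynomial ℚ)
    (hP : ∀ᶠ j : ℕ in atTop, (h0 D (fun i => Q i + a * ν i + j * X.e i) : ℚ) = P.eval (j : ℚ)) :
    ∃ q ≤ r, ∃ (m : ℕ) (b : Fin m → D.A → (Fin q → Fin n) → E n → ℂ), |P.eval 0| ≤ r * m ∧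
      (∀ s, Ten D q (fun i => Q i + a * ν i) (b s)) ∧
      ∀ c : Fin m → ℂ, c ≠ 0 → Ten D q (fun i => Q i + a * ν i) (∑ s, c s • b s) := by
  obtain ⟨R, R1, R2⟩ := st_HIL n M ι D X r c Q ν t hq hK hα hZ hG
  obtain ⟨C, A, hw⟩ := hZ a
  obtain ⟨q, h1, m, b, h2, h3⟩ := nexq X (fun i => X.e i) (fun i => Q i + a * ν i) t C A hq hK hI
    fun ε hε => (hw ε hε).imp fun ρ hρ => NVK.wt_off hρ hα
  refine ⟨q, h1, m, b, le_of_eq_of_le ?_ h2, h3⟩
  have e : R.map (Polynomial.evalRingHom (a : ℚ)) = P := by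
    apply Polynomial.eq_of_infinite_eval_eq
    obtain ⟨N, hN⟩ := Filter.eventually_atTop.1 hP
    refine ((Set.Ici_infinite (N + 1)).image (f := fun j : ℕ => (j : ℚ))
      Nat.cast_injective.injOn).mono ?_
    rintro _ ⟨j, hj, rfl⟩
    have hj' : N + 1 ≤ j := hj
    exact (POL0.ev_swap R j a).symm.trans ((R1 a j (by omega)).symm.trans (hN j (by omega)))
  have h7 := R2 a
  rw [Finset.sum_range_succ', Nat.cast_zero, POL0.ev_swap, e, pow_zero, Nat.choose_zero_right,
    Nat.cast_one, one_mul, one_mul] at h7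
  rw [eq_neg_of_add_eq_zero_right h7, abs_neg]
  refine congrArg _ (Finset.sum_congr rfl fun k _ => ?_)
  rw [← R1 a (k + 1) (by omega), Nat.cast_mul, mul_assoc]

end Pool.Agent.Lib.S5.NVQ
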