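import Pool.Agent.Lib.S5.Ctx5
import Pool.Agent.Lib.S5.PR
import Pool.Agent.Lib.NV2.All
import Pool.Agent.Lib.NV6.R_HQA

/-! Project S5: the data of a pair. -/

open scoped Classical Topology ContDiff ENNReal Manifold
open Set MeasureTheory Complex Metric Filter

set_option linter.unusedSectionVars false

noncomputable section

namespace Pool.Agent.Lib.S5

open Pool.Agent.Lib.SV (E nsq)
open Pool.Agent.Lib.HS32 Pool.Agent.Lib.EX Pool.Agent.Lib.EXS Pool.Agent.Lib.ZL Pool.Agent.Lib.NV2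
open Pool.Agent.Lib.ZQ (HqC)
open Pool.Agent.Lib.HS.BBR (mf)

section mfd

variable {n : ℕ} {M : Mf n} {ι : Type} [Fintype ι] [DecidableEq ι] {D : Ad M ι}

/-- Weights on the nef part, with real exponents. -/
theorem zoxR [M.Cpt] (X : Cx D) (K : Kl X) {ν : ι → ℤ} {Q β : ι → ℝ} {S : ℝ} (hB : X.Big)
    (hN : X.Nf ν) (hZ : Zr D K.π ν X.e) (hS : 0 ≤ S) (hβ : ∀ i, β i < X.o i + 1)
    (hQ : ∀ i, S * (ν i / K.c) ≤ Q i) : ∃ C A : ℝ, ∀ ε > (0 : ℝ), ∃ ρ : M.X → ℝ, SmO D ρ ∧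
      Psh D (fun x => ρ x + ε * X.α x) ∧ (∀ x ∈ off D, ρ x ≤ C - lw D Q x) ∧
      X.I (fun x => Real.exp (-lw D (fun i => β i + S * (ν i / K.c)) x - ρ x)) ≤
        ENNReal.ofReal A := by
  obtain ⟨-, -, hadd, -, hsm, hneg, hmono, -⟩ := ZL.bPW n M ι D
  obtain ⟨-, -, hI, hfin, -⟩ := ZL.st_MU n M ι D X
  obtain ⟨L, -, -, hW⟩ := ZL.st_WGT
  obtain ⟨-, hpa, hps, -, -, -, hcg, -⟩ := hW n M ι D
  have hc := K.c0
  set γ : ι → ℝ := fun i => ν i / K.c with hγ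
  have e1 : (fun i => β i + S * (ν i / K.c)) = β + S • γ := rfl
  have e2 : ∀ x, lw D Q x ≤ S * lw D γ x := fun x => hsm S γ x ▸ hmono _ _ hQ x
  rcases hS.eq_or_lt with h0 | h0
  · have hJ := hfin (-β) fun i => by
      have := hβ i
      simp only [Pi.neg_apply]
      linarith
    refine ⟨0, (X.I fun x => Real.exp (lw D (-β) x)).toReal, fun ε hε =>
      ⟨fun _ => 0, fun _ _ _ _ => contDiffAt_const, hcg _ _ (hps ε _ hε.le X.αp)
        fun x _ => (zero_add _).symm, fun x _ => ?_, ?_⟩⟩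
    · have := e2 x
      rw [← h0, zero_mul] at this
      linarith
    · rw [ENNReal.ofReal_toReal hJ]
      exact hI _ _ fun x _ => by rw [e1, ← h0, zero_smul, add_zero, sub_zero, hneg]
  · obtain ⟨c, X', hc0, hμ, hm, hl, -, he, hα, hG⟩ := ZL.st_PEAK n M ι D X ν hB hN
    have ho : X'.o = X.o := funext fun i => by rw [Cx.o, Cx.o, hm, hl]
    have hcr : (0 : ℝ) < c := Nat.cast_pos.2 hc0
    obtain ⟨a, ha⟩ := hZ.2 c
    obtain ⟨C, ρ, hE, hA⟩ := ZX.st_ZX n M ι D X' ⟨K.π, K.c, hc, ho ▸ K.lo, ho ▸ K.hi⟩ ν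
      (fun i => max (a i) (X'.e i)) hZ.1 (fun i => le_max_right _ _) hG fun j U hU => by
        have e3 : (fun i => j * K.π i + c * X.e i : ι → ℤ) = fun i => j * K.π i + X'.e i :=
          funext fun i => by rw [he, Nat.cast_mul]
        exact (ZL.st_UPB n M ι D _).2.2.1 _ _ (fun i => add_le_add_right (le_max_left _ _) _)
          (ZOX.mer_ind (ha j _ (e3 ▸ ((ZL.st_UPB n M ι D _).1 U hU).2)).1)
    obtain ⟨A, ε₁, hε₁, hA'⟩ :=
      ZL.bHLD ZL.bPW ZL.st_MU n M ι D X' γ ρ hA β (fun i => ho ▸ hβ i) S h0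
    refine ⟨S * C, A, fun ε hε => ?_⟩
    have hp : 0 < min ε₁ (ε / (S * c)) := lt_min hε₁ (by positivity)
    obtain ⟨h1, h2, h3⟩ := hE _ hp
    have h4 : 0 ≤ ε - S * c * min ε₁ (ε / (S * c)) :=
      sub_nonneg.2 ((le_div_iff₀' (by positivity)).1 (min_le_right _ _))
    have h5 := hA' _ hp (min_le_left _ _)
    rw [Cx.I, hμ] at h5
    refine ⟨fun x => S * ρ (min ε₁ (ε / (S * c))) x,
      fun d z hz hz' => contDiffAt_const.mul (h1 d z hz hz'),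
      hcg _ _ (hpa _ _ (hps _ _ h0.le h2) (hps _ _ h4 X.αp)) fun x _ => by rw [hα]; ring,
      fun x hx => ?_, (hI _ _ fun x _ => le_of_eq ?_).trans h5⟩
    · have h6 := mul_le_mul_of_nonneg_left (h3 x hx) h0.le
      have h7 := e2 x
      rw [mul_sub] at h6
      linarith
    · rw [e1, hadd, hsm]
      exact congrArg _ (by ring)

namespace Ctx5

variable {X : Cx D} {r c' c : ℕ} {t : Fin r → M.X → ℂ} {p ν : ι → ℤ}

theorem o_eq (h : Ctx5 X t c' c p ν) (i : ι) : X.o i = X.l i := by simp [Cx.o, h.one]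

/-- The pair. -/
def kl (h : Ctx5 X t c' c p ν) : Kl X where
  π := p
  c := c
  c0 := Nat.cast_pos.2 h.cpos
  lo i := h.o_eq i ▸ h.lo i
  hi i := h.o_eq i ▸ h.hi i

theorem lt (h : Ctx5 X t c' c p ν) (i : ι) : (ν i : ℝ) / c < X.o i + 1 :=
  (div_le_div_of_nonneg_right (Int.cast_le.2 (h.zar.1 i)) (Nat.cast_nonneg c)).trans_lt (h.kl.hi i)

theorem le (h : Ctx5 X t c' c p ν) (i : ι) : X.o i - ν i / c ≤ ((p i - ν i : ℤ) : ℝ) := by
  have h1 : X.o i ≤ p i / c := h.kl.lo i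
  have h2 : (0 : ℝ) ≤ (p i - ν i : ℤ) := Int.cast_nonneg (sub_nonneg.2 (h.zar.1 i))
  refine (sub_le_sub_right h1 _).trans ?_
  rw [← sub_div, ← Int.cast_sub]
  exact div_le_self h2 (Nat.one_le_cast.2 h.cpos)

theorem prj [M.Cpt] (h : Ctx5 X t c' c p ν) : R6.Prj X t :=
  ⟨h.epos, h.big, R6.rHQA n M ι D X r t h.one h.epos h.can h.kd h.imm, h.kd, h.imm, h.alp⟩

/-- The weights of Theorem Z for the pair. -/
theorem wz [M.Cpt] (h : Ctx5 X t c' c p ν) {a : ℕ} (a0 : 0 < a) (N₀ : ℕ) (hN₀ : 0 < N₀)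
    (O : Set M.X) (T : M.X → ℝ) (C : ℝ) (_ : O ⊆ off D) (ae : ∀ᵐ x ∂X.μ, x ∈ O)
    (hT : ∀ x ∈ O, 0 ≤ T x ∧ T x ≤ C * Real.exp (-lw D (fun i => (N₀ * (a * ν i) : ℤ)) x))
    (N : ℕ) (hN : 0 < N) : ∃ C A : ℝ, ∀ ε > (0 : ℝ), ∃ ρ,
      NV6.J.Wz X (fun i => N * (N₀ * (a * ν i)) + (p i - ν i)) (fun x => T x ^ N) C A ε ρ := by
  have c0 : (0 : ℝ) < c := Nat.cast_pos.2 h.cpos
  have s0 : (0 : ℝ) ≤ (N * (N₀ * (a * c)) : ℕ) - 1 := sub_nonneg.2 (Nat.one_le_cast.2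
    (Nat.mul_pos hN (Nat.mul_pos hN₀ (Nat.mul_pos a0 h.cpos))))
  have e : ∀ i, (ν i : ℝ) / c + ((N * (N₀ * (a * c)) : ℕ) - 1) * (ν i / c) =
      N * ((N₀ * (a * ν i) : ℤ) : ℝ) := fun i => by
    push_cast
    field_simp
    ring
  obtain ⟨C₁, A, g⟩ := zoxR X h.kl (Q := fun i =>
    ((N * (N₀ * (a * ν i)) + (p i - ν i) : ℤ) : ℝ) - X.o i) h.big h.nef h.zar s0 h.lt fun i => by
      have h1 := e i
      have h2 := h.le i
      change _ * ((ν i : ℝ) / c) ≤ _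
      rw [Int.cast_add, Int.cast_mul (N : ℤ), Int.cast_natCast]
      linarith
  refine ⟨C₁, |C| ^ N * |A|, fun ε hε => ?_⟩
  obtain ⟨ρ, -, g1, g2, g3⟩ := g ε hε
  refine ⟨ρ, g1, g2, ?_⟩
  rw [ENNReal.ofReal_mul (by positivity)]
  refine le_trans ?_ (mul_le_mul_right (g3.trans (ENNReal.ofReal_le_ofReal (le_abs_self _))) _)
  unfold Cx.I
  rw [← lintegral_const_mul' _ _ ENNReal.ofReal_ne_top]
  refine lintegral_mono_ae (ae.mono fun x hx => ?_)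
  beta_reduce
  rw [← ENNReal.ofReal_mul (by positivity)]
  refine ENNReal.ofReal_le_ofReal ?_
  have c2 := pow_le_pow_left₀ (hT x hx).1 ((hT x hx).2.trans
    (mul_le_mul_of_nonneg_right (le_abs_self C) (Real.exp_pos _).le)) N
  refine (mul_le_mul_of_nonneg_right c2 (Real.exp_pos _).le).trans_eq ?_
  have c3 := (ZL.bPW n M ι D).2.2.2.2.1 N (fun i => ((N₀ * (a * ν i) : ℤ) : ℝ)) x
  rw [mul_pow, ← Real.exp_nat_mul, mul_assoc, ← Real.exp_add, mul_neg, ← c3, sub_eq_add_neg]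
  exact congrArg (fun u => _ * Real.exp (-lw D u x + _)) (funext fun i => (e i).symm)

end Ctx5

/-- The projective data and the weights for a pair. -/
theorem z5 [M.Cpt] {X : Cx D} {r c' c a : ℕ} {t : Fin r → M.X → ℂ} {p ν : ι → ℤ} (a0 : 0 < a)
    (h : Ctx5 X t c' c p ν) :
    R6.Prj X t ∧ R6.P.Zw X (a * c) (fun i => a * ν i) fun i => p i - ν i := by
  have ha : (a : ℝ) ≠ 0 := Nat.cast_ne_zero.2 a0.ne'
  have h0 : ∀ i, ((a * ν i : ℤ) : ℝ) / (a * c : ℕ) = ν i / c := fun i => by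
    push_cast
    exact mul_div_mul_left _ _ ha
  exact ⟨h.prj, Nat.mul_pos a0 h.cpos, fun i => h0 i ▸ h.lt i,
    fun i => sub_nonneg.2 (h.zar.1 i), fun i => h0 i ▸ h.le i, h.wz a0⟩

end mfd

theorem st_CT5 : St_CT5 :=
  bCT5 NV2.st_SEC NV2.st_KD NV2.st_ZOX ZL.bNFB ZL.st_CX ZL.st_PEAK EX.bUNI (EX.bADA EX.bUNI)

end Pool.Agent.Lib.S5
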