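import Pool.Agent.Lib.NV5.X_CV
import Pool.Agent.Lib.NV5.X_K63

/-! Project S5: a barrier for the volume forms with poles along a boundary. -/

open scoped Classical Topology ContDiff ComplexOrder Matrix
open Set Complex Metric Filter

noncomputable section

namespace Pool.Agent.Lib.S5

open Pool.Agent.Lib.SV (E)
open Pool.Agent.Lib.HS32 Pool.Agent.Lib.HS32.Mf Pool.Agent.Lib.EX Pool.Agent.Lib.EXS
open Pool.Agent.Lib.ZL Pool.Agent.Lib.DM

namespace BAR

variable {n : ℕ}

/-- A matrix of rank at most one. -/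
def rk (q : E n) : Mat n := Matrix.vecMulVec (star q) q

theorem rk_psd (q : E n) : (rk q).PosSemidef := Matrix.posSemidef_vecMulVec_star_self q

/-- The bounded part of the Hessian. -/
def er (γ : ℝ) (g : E n → ℝ) (z : E n) : Mat n :=
  (γ / g z) • hess (fun w => (g w : ℂ)) z -
    ((γ + γ ^ 2) / g z ^ 2) • dd (fun w => (g w : ℂ)) (fun w => (g w : ℂ)) z

theorem alg (H A B : Mat n) (p ε : E n) (h : ℂ) {g γ δ u : ℝ} (g0 : 0 < g) (γ0 : 0 < γ)
    (γ1 : γ ≤ 1) (δ0 : 0 < δ) (u0 : 0 ≤ u)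
    (hA : ∀ i k, A i k = g * (star (ε i) * ε k) + h * star h * H i k +
      star (p i) * (star h * ε k) + h * star (ε i) * p k)
    (hB : ∀ i k, B i k = h * star h * ((g * star (ε i) + star h * star (p i)) * (g * ε k + h * p k))) :
    ((γ * (u * (g * normSq h + δ))) • A + (γ * ((γ - 1) * u)) • B -
      ((γ ^ 2 * (u * (g * normSq h + δ)) * g / 2) • rk ε +
        (u * (g * normSq h + δ) * (g * normSq h)) •
          ((γ / g) • H - ((γ + γ ^ 2) / g ^ 2) • rk p))).PosSemidef := by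
  have N0 := normSq_nonneg h
  have k := (psd_rsmul (rk_psd ((g : ℂ) • ε + h • p))
    (show 0 ≤ γ * u * (1 - γ) * δ / g by
      have := sub_nonneg.2 γ1
      positivity)).add (psd_rsmul (rk_psd ((g : ℂ) • ε + (2 * h) • p))
    (show 0 ≤ γ ^ 2 * (u * (g * normSq h + δ)) / (2 * g) by positivity))
  refine (congrArg Matrix.PosSemidef ?_).mp k
  ext i k
  have g' : (g : ℂ) ≠ 0 := ofReal_ne_zero.2 g0.ne'
  have e : ((normSq h : ℝ) : ℂ) = h * star h := (mul_conj h).symm
  simp only [Matrix.add_apply, Matrix.sub_apply, Matrix.smul_apply, real_smul, rk,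
    Matrix.vecMulVec_apply, Pi.star_apply, Pi.add_apply, Pi.smul_apply, smul_eq_mul, hA, hB,
    star_add, star_mul', star_ofNat, show star (g : ℂ) = g from conj_ofReal g]
  push_cast
  rw [e]
  field_simp
  ring

theorem d12 {s δ γ : ℝ} (h : 0 < s + δ) :
    deriv (fun t => (t + δ) ^ γ) s = γ * ((s + δ) ^ (γ - 2) * (s + δ)) ∧
      deriv (deriv fun t => (t + δ) ^ γ) s = γ * ((γ - 1) * (s + δ) ^ (γ - 2)) := by
  have k : ∀ (c t : ℝ), 0 < t + δ → HasDerivAt (fun t => (t + δ) ^ c) (c * (t + δ) ^ (c - 1)) t :=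
    fun c t ht => by
      simpa [mul_comm] using ((hasDerivAt_id t).add_const δ).rpow_const (p := c) (.inl ht.ne')
  have ev : deriv (fun t => (t + δ) ^ γ) =ᶠ[𝓝 s] fun t => γ * (t + δ) ^ (γ - 1) :=
    ((continuous_add_const δ).continuousAt.eventually (lt_mem_nhds h)).mono fun t ht =>
      (k γ t ht).deriv
  refine ⟨?_, ?_⟩
  · rw [(k γ s h).deriv, ← Real.rpow_add_one h.ne', show γ - 2 + 1 = γ - 1 by ring]
  · rw [ev.deriv_eq, ((k (γ - 1) s h).const_mul γ).deriv, show γ - 1 - 1 = γ - 2 by ring]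

theorem loc {M : Mf n} {σ : M.X → ℝ} (hσ : M.Sm σ) (σ0 : ∀ x, 0 ≤ σ x) {e : M.Ch} (he : e ∈ M.C)
    {z : E n} (hz : z ∈ e.target) {g : E n → ℝ} {h : E n → ℂ} (hg : ContDiffAt ℝ ∞ g z)
    (g0 : 0 < g z) (hh : HolN h z) (ev : ∀ᶠ w in 𝓝 z, σ (e.symm w) = g w * normSq (h w))
    {γ δ : ℝ} (γ0 : 0 < γ) (γ1 : γ ≤ 1) (δ0 : 0 < δ) :
    (M.hs (fun x => (σ x + δ) ^ γ) e z -
      ((γ ^ 2 * (σ (e.symm z) + δ) ^ (γ - 1) * g z / 2) • rk (fun k => dz k h z) +
        ((σ (e.symm z) + δ) ^ (γ - 1) * σ (e.symm z)) • er γ g z)).PosSemidef := by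
  have p : ∀ x, 0 < σ x + δ := fun x => add_pos_of_nonneg_of_pos (σ0 x) δ0
  have k := (((mLAP n M σ σ hσ hσ).2.1 (fun t => (t + δ) ^ γ) fun x =>
    (contDiffAt_id.add contDiffAt_const).rpow_const_of_ne (p x).ne').2 e he z hz).1
  obtain ⟨h1, h2, h3, -⟩ := (mHOL n h z).2.2 hh
  have hb : ∀ j, dzb j h z = 0 := ((mHOL n h z).1 (cd_diff h1)).1 hh.self_of_nhds
  have c1 := cd_ofReal hg
  have c2 := cd_star h1
  have e' : M.lc σ e =ᶠ[𝓝 z] fun w => (g w : ℂ) * (h w * star (h w)) :=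
    ev.mono fun w hw => by simp only [Mf.lc, hw, ofReal_mul, star_def, mul_conj]
  have a1 : ∀ j, dz j (fun w => h w * star (h w)) z = star (h z) * dz j h z := fun j => by
    rw [dz_mul (cd_diff h1) (cd_diff c2), dz_star (cd_diff h1), hb, star_zero, mul_zero, add_zero,
      mul_comm]
  have a2 : ∀ j, dzb j (fun w => h w * star (h w)) z = h z * star (dz j h z) := fun j => by
    rw [dzb_mul (cd_diff h1) (cd_diff c2), dzb_star (cd_diff h1), hb, zero_mul, zero_add]
  have a3 : hess (fun w => star (h w)) z = 0 := by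
    ext i j
    have : dz j (fun w => star (h w)) =ᶠ[𝓝 z] fun _ => 0 := by
      filter_upwards [hh.eventually_nhds] with w hw
      have q := cd_diff ((mHOL n h w).2.2 hw).1
      rw [dz_star q, ((mHOL n h w).1 q).1 hw.self_of_nhds, star_zero]
    simp only [hess, Matrix.of_apply, dzb_congr this]
    simp [dzb]
  have a4 : ∀ j, dzb j (fun w => (g w : ℂ)) z = star (dz j (fun w => (g w : ℂ)) z) := fun j =>
    (star_dz_ofReal (cd_diff c1)).symm
  have q := alg (hess (fun w => (g w : ℂ)) z) (M.hs σ e z) (M.ds σ σ e z)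
    (fun k => dz k (fun w => (g w : ℂ)) z) (fun k => dz k h z) (h z) g0 γ0 γ1 δ0
    (Real.rpow_nonneg (p (e.symm z)).le (γ - 2)) (fun i j => by
      rw [Mf.hs, hess_congr e', hess_mul c1 (h1.mul c2), hess_mul h1 c2, h3, a3]
      simp only [Matrix.add_apply, Matrix.smul_apply, dd_apply, a1, a2, a4, hb, smul_eq_mul,
        dzb_star (cd_diff h1), Matrix.zero_apply]
      ring) (fun i j => by
      rw [Mf.ds, dd_congr e' e', dd_apply, dzb_mul (cd_diff c1) (cd_diff (h1.mul c2)),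
        dz_mul (cd_diff c1) (cd_diff (h1.mul c2)), a1, a2, a4]
      ring)
  have r : (σ (e.symm z) + δ) ^ (γ - 1) = (σ (e.symm z) + δ) ^ (γ - 2) * (σ (e.symm z) + δ) := by
    rw [← Real.rpow_add_one (p _).ne', show γ - 2 + 1 = γ - 1 by ring]
  have r' : dd (fun w => (g w : ℂ)) (fun w => (g w : ℂ)) z =
      rk fun k => dz k (fun w => (g w : ℂ)) z := by
    ext i j
    simp only [dd_apply, a4, rk, Matrix.vecMulVec_apply, Pi.star_apply]
  rw [← ev.self_of_nhds] at q
  beta_reduce at k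
  rw [k, (d12 (p _)).1, (d12 (p _)).2, r, er, r']
  exact q

theorem num {ι : Type} [Fintype ι] {c : ι → Option (Fin n)} (hc : Inj c) {L t : ι → ℝ}
    {c₀ K : ℝ} (c0 : 0 < c₀) (t0 : ∀ i, 0 < t i) (K0 : 0 ≤ K) (h0 : ∀ i, c i = none → L i ≤ K)
    (h1 : ∀ i, L i ≤ K + Real.log (t i)) (h2 : -K ≤ Real.log c₀) :
    ∑ i, L i ≤ (Fintype.card ι + n) * K +
      ∑ j, Real.log (c₀ + ∑ i, if c i = some j then t i else 0) := by
  rw [← Finset.sum_fiberwise Finset.univ c L, Fintype.sum_option]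
  have a1 : ∑ i with c i = none, L i ≤ Fintype.card ι * K :=
    ((Finset.sum_le_card_nsmul _ _ K fun i hi => h0 i (Finset.mem_filter.1 hi).2).trans_eq
      (nsmul_eq_mul _ _)).trans (mul_le_mul_of_nonneg_right
        (Nat.cast_le.2 (Finset.card_le_univ _)) K0)
  have a2 : ∀ j, ∑ i with c i = some j, L i ≤
      K + Real.log (c₀ + ∑ i, if c i = some j then t i else 0) := fun j => by
    have nn : ∀ i, 0 ≤ if c i = some j then t i else 0 := fun i => by
      split_ifs
      exacts [(t0 i).le, le_rfl]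
    by_cases h : ∃ i, c i = some j
    · obtain ⟨i, hi⟩ := h
      rw [Finset.sum_eq_single_of_mem i (by simpa using hi) fun b hb hn =>
        (hn (hc _ _ _ (Finset.mem_filter.1 hb).2 hi)).elim]
      have := Finset.single_le_sum (fun i _ => nn i) (Finset.mem_univ i)
      rw [if_pos hi] at this
      linarith [h1 i, Real.log_le_log (t0 i) (this.trans (le_add_of_nonneg_left c0.le))]
    · rw [Finset.sum_eq_zero fun i hi => (h ⟨i, (Finset.mem_filter.1 hi).2⟩).elim]
      linarith [Real.log_le_log c0 (le_add_of_nonneg_right (Finset.sum_nonneg fun i _ => nn i) :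
        c₀ ≤ c₀ + ∑ i, if c i = some j then t i else 0)]
  have a3 := Finset.sum_le_sum fun j (_ : j ∈ Finset.univ) => a2 j
  rw [Finset.sum_add_distrib, Finset.sum_const, Finset.card_univ, Fintype.card_fin,
    nsmul_eq_mul] at a3
  linarith

theorem rk_xi {ι : Type} (c : ι → Option (Fin n)) (i : ι) (z : E n) :
    rk (fun k => dz k (xi c i) z) = Matrix.diagonal fun j => if c i = some j then 1 else 0 := by
  have : ∀ k, dz k (xi c i) z = if c i = some k then 1 else 0 := fun k => by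
    obtain h | ⟨j, h⟩ := Option.eq_none_or_eq_some (c i)
    · rw [show xi c i = fun _ => 1 from funext fun y => by simp [xi, h]]
      simp [dz, h]
    · rw [show xi c i = fun w => w j from funext fun y => by simp [xi, h], dz_coord]
      simp [h]
  ext a b
  simp only [rk, Matrix.vecMulVec_apply, Pi.star_apply, this, Matrix.diagonal_apply]
  by_cases h1 : c i = some a <;> by_cases h2 : c i = some b
  · simp [h1, Option.some.inj (h1.symm.trans h2)]
  · have : a ≠ b := fun k => h2 (k ▸ h1)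
    simp [h2, this]
  · simp [h1]
  · simp [h1]

theorem er_sm {γ : ℝ} {g : E n → ℝ} {z : E n} (hg : ContDiffAt ℝ ∞ g z) (g0 : 0 < g z) :
    SmM (er γ g) z ∧ (er γ g z).IsHermitian := by
  have c := cd_ofReal hg
  refine ⟨((smM_hess c).rsmul (contDiffAt_const.div hg g0.ne')).sub ((smM_dd c c).rsmul
    (contDiffAt_const.div (hg.pow 2) (pow_ne_zero 2 g0.ne'))),
    (herm_rsmul (hess_herm hg) _).sub (herm_rsmul ?_ _)⟩
  ext i j
  simp only [Matrix.conjTranspose_apply, dd_apply, star_mul', star_dz_ofReal (cd_diff c),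
    star_dzb_ofReal (cd_diff c), mul_comm]

theorem fin_bd {κ : Type} [Fintype κ] {p : κ → ℝ → Prop}
    (h : ∀ k, ∃ C, ∀ C', C ≤ C' → p k C') : ∃ C, 1 ≤ C ∧ ∀ k, p k C := by
  choose C hC using h
  exact ⟨1 + ∑ k, |C k|, le_add_of_nonneg_right (Finset.sum_nonneg fun _ _ => abs_nonneg _),
    fun k => hC k _ (((le_abs_self _).trans (Finset.single_le_sum (f := fun k => |C k|)
      (fun _ _ => abs_nonneg _) (Finset.mem_univ k))).trans (le_add_of_nonneg_left zero_le_one))⟩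

end BAR

open BAR

theorem bar {n : ℕ} {M : Mf n} [M.Cpt] {ι : Type} [Fintype ι] [DecidableEq ι] (D : Ad M ι)
    {G : M.Fam (Mat n)} (hG : M.Kae G) (a : ι → ℝ) (ha : ∀ i, 0 ≤ a i ∧ a i < 1) :
    ∃ C : ℝ, ∀ δ ∈ Ioc (0 : ℝ) 1, ∃ v, M.Sm v ∧ M.Met (G + M.hs v) ∧ (∀ x, |v x| ≤ C) ∧
      ∀ x, Real.exp (-C - ∑ i, a i * Real.log (XC.sg D i x + δ)) ≤ M.dq G (G + M.hs v) x := by
  have hb : ∀ z ∈ closedBall (0 : E n) 1, z ∈ B2 n := fun z hz =>
    closedBall_subset_ball one_lt_two hz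
  have ht : ∀ d, ∀ z ∈ closedBall (0 : E n) 1, z ∈ (D.e d).target := fun d z hz =>
    GLU.mem_tgt d (hb z hz)
  have gp : ∀ d, ∀ z ∈ closedBall (0 : E n) 1, (G (D.e d) z).PosDef := fun d z hz =>
    hG.pos _ (D.mem d) z (ht d z hz)
  obtain ⟨B, B1, hB⟩ := fin_bd (p := fun (k : D.A × ι) C => ∀ z ∈ closedBall (0 : E n) 1,
      (er (1 - a k.2) (PW.gf D k.1 k.2) z - -(C • G (D.e k.1) z)).PosSemidef) fun k => by
    have s := fun z hz => er_sm (γ := 1 - a k.2) (PW.gf_sm D (d := k.1) k.2 (hb z hz))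
      (PW.gf_pos D k.2 (hb z hz))
    obtain ⟨C, -, hC⟩ := BBD.cmp (isCompact_closedBall 0 1)
      (fun z hz => hG.sm _ (D.mem k.1) z (ht _ z hz)) (gp k.1) (fun z hz => (s z hz).1)
      fun z hz => (s z hz).2
    exact ⟨C, fun C' h z hz => (hC C' h z hz).2⟩
  obtain ⟨A, A1, hA⟩ := fin_bd (p := fun (d : D.A) C => ∀ z ∈ closedBall (0 : E n) 1,
      (C • G (D.e d) z - 1).PosSemidef ∧ (G (D.e d) z).det.re ≤ C) fun d => by
    obtain ⟨C, -, hC⟩ := (mBD n M G hG.toMet).2.2.1 _ (D.mem d) _ (isCompact_closedBall 0 1) (ht d)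
    refine ⟨C, fun C' h z hz => ⟨?_, (hC z hz).2.2.2.trans h⟩⟩
    have := (hC z hz).1.add (psd_rsmul (gp d z hz).posSemidef (sub_nonneg.2 h))
    rwa [sub_smul, show ∀ x y w : Mat n, x - w + (y - x) = y - w from fun x y w => by abel] at this
  obtain ⟨Cg, Cg0, hCg⟩ := PW.log_bd D one_lt_two
  set N : ℝ := (Fintype.card ι : ℝ) with hN
  have N0 : 0 ≤ N := Nat.cast_nonneg _
  set η : ℝ := 1 / (4 * B * N + 1) with hη
  have η0 : 0 < η := by positivity
  have η1 : η * (4 * B * N + 1) = 1 := by rw [hη]; field_simp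
  have BN : 0 ≤ B * N := by positivity
  have η2 : η ≤ 1 := by nlinarith
  have γ0 : ∀ i, 0 < 1 - a i := fun i => sub_pos.2 (ha i).2
  set K : ℝ := ∑ i, |Real.log (η * (1 - a i) ^ 2 / 2)| + Cg + |Real.log (1 / (2 * A))| with hK
  have S0 : 0 ≤ ∑ i, |Real.log (η * (1 - a i) ^ 2 / 2)| := Finset.sum_nonneg fun _ _ => abs_nonneg _
  have K0 : 0 ≤ K := by positivity
  have lA := Real.log_nonneg A1
  refine ⟨2 * N + ((N + n) * K + Real.log A), fun δ hδ => ?_⟩
  have s1 := fun i => (XC.sig D i).1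
  have s2 := fun i => (XC.sig D i).2.1
  have p : ∀ i x, 0 < XC.sg D i x + δ := fun i x => add_pos_of_nonneg_of_pos (s2 i x) hδ.1
  have p2 : ∀ i x, (XC.sg D i x + δ) ^ (1 - a i) ≤ 2 := fun i x => by
    have h1 : XC.sg D i x ≤ 1 := (Real.log_nonpos_iff (s2 i x)).1 (PW.log_le D i x)
    calc _ ≤ (2 : ℝ) ^ (1 - a i) := Real.rpow_le_rpow (p i x).le (by linarith [hδ.2]) (γ0 i).le
      _ ≤ 2 ^ (1 : ℝ) := Real.rpow_le_rpow_of_exponent_le one_le_two (by linarith [(ha i).1])
      _ = 2 := Real.rpow_one 2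
  have sv : ∀ i, M.Sm fun x => (XC.sg D i x + δ) ^ (1 - a i) := fun i e he z hz =>
    ((s1 i e he z hz).add contDiffAt_const).rpow_const_of_ne (p i _).ne'
  have sS : M.Sm fun x => ∑ i, (XC.sg D i x + δ) ^ (1 - a i) := Sm.sum fun i _ => sv i
  set v : M.X → ℝ := fun x => η * ∑ i, (XC.sg D i x + δ) ^ (1 - a i) with hv
  have sm : M.Sm v := sS.const_mul η
  have fm : M.Form (G + M.hs v) := hG.toForm.add ((mHES n M).1 v sm).toForm
  have key : ∀ x, ∃ d, x ∈ (D.e d).source ∧ D.e d x ∈ closedBall (0 : E n) 1 ∧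
      ((G + M.hs v) (D.e d) (D.e d x) - ((1 / 2 : ℝ) • G (D.e d) (D.e d x) +
        ∑ i, (η * ((1 - a i) ^ 2 * (XC.sg D i x + δ) ^ (1 - a i - 1) * PW.gf D d i (D.e d x) / 2)) •
          rk fun k => dz k (xi (D.c d) i) (D.e d x))).PosSemidef := fun x => by
    obtain ⟨d, hd⟩ := PW.ex1 D x
    obtain ⟨h1, h2⟩ := D.supp d x hd
    have hz := mem_closedBall_zero_iff.2 h2
    have h3 := hb _ hz
    refine ⟨d, h1, hz, ?_⟩
    have e : M.hs v (D.e d) (D.e d x) =
        η • ∑ i, M.hs (fun x => (XC.sg D i x + δ) ^ (1 - a i)) (D.e d) (D.e d x) :=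
      (XC.hr_mul η (sS _ (D.mem d) _ (ht d _ hz))).trans (congrArg (η • ·)
        (XC.hr_sum (s := Finset.univ) fun i _ => sv i _ (D.mem d) _ (ht d _ hz)))
    have k : ∀ i, (M.hs (fun x => (XC.sg D i x + δ) ^ (1 - a i)) (D.e d) (D.e d x) -
        ((1 - a i) ^ 2 * (XC.sg D i x + δ) ^ (1 - a i - 1) * PW.gf D d i (D.e d x) / 2) •
          rk (fun k => dz k (xi (D.c d) i) (D.e d x)) +
        (2 * B) • G (D.e d) (D.e d x)).PosSemidef := fun i => by
      have q := loc (s1 i) (s2 i) (D.mem d) (ht d _ hz) (PW.gf_sm D i h3) (PW.gf_pos D i h3)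
        (.of_forall fun w => MON.diff_xi (D.c d) i w) ((isOpen_ball.eventually_mem h3).mono
          fun y hy => (XC.sig D i).2.2.2.1 d y hy) (γ0 i) (by linarith [(ha i).1]) hδ.1
      rw [(D.e d).left_inv h1] at q
      have r0 := Real.rpow_nonneg (p i x).le (1 - a i - 1)
      have r : (XC.sg D i x + δ) ^ (1 - a i - 1) * XC.sg D i x ≤ 2 := by
        refine le_trans (mul_le_mul_of_nonneg_left (le_add_of_nonneg_right hδ.1.le) r0) ?_
        rw [← Real.rpow_add_one (p i x).ne', sub_add_cancel]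
        exact p2 i x
      have := (q.add (psd_rsmul (hB (d, i) _ hz) (mul_nonneg r0 (s2 i x)))).add
        (psd_rsmul (psd_rsmul (gp d _ hz).posSemidef (zero_le_one.trans B1)) (sub_nonneg.2 r))
      refine (congrArg Matrix.PosSemidef ?_).mp this
      simp only [sub_neg_eq_add, smul_add, sub_smul, mul_smul (2 : ℝ) B]
      abel
    have := (psd_rsmul (Matrix.posSemidef_sum Finset.univ fun i _ => k i) η0.le).add
      (psd_rsmul (gp d _ hz).posSemidef (show 0 ≤ 1 / 2 - η * (N * (2 * B)) by nlinarith))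
    refine (congrArg Matrix.PosSemidef ?_).mp this
    simp only [Pi.add_apply, e, Finset.sum_add_distrib, Finset.sum_sub_distrib, Finset.sum_const,
      Finset.card_univ, mul_smul η, ← Finset.smul_sum, ← Nat.cast_smul_eq_nsmul ℝ, ← hN]
    module
  have rp : ∀ x d, D.e d x ∈ closedBall (0 : E n) 1 → ∀ i, 0 < η * ((1 - a i) ^ 2 *
      (XC.sg D i x + δ) ^ (1 - a i - 1) * PW.gf D d i (D.e d x) / 2) := fun x d hz i => by
    have := γ0 i
    have := Real.rpow_pos_of_pos (p i x) (1 - a i - 1)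
    have := PW.gf_pos D (d := d) i (hb _ hz)
    positivity
  have met : M.Met (G + M.hs v) := by
    refine (hG.toMet.smul one_half_pos).of_le fm fun e he z hz => ?_
    obtain ⟨d, h1, h2, h3⟩ := key (e.symm z)
    have e1 := (fm.toTen.sub (hG.toTen.smul (1 / 2))).cmp _ (D.mem d) e he _ h1 (e.map_target hz)
    beta_reduce at e1
    rw [e.right_inv hz] at e1
    have q := (h3.add (Matrix.posSemidef_sum Finset.univ fun i _ =>
      psd_rsmul (rk_psd fun k => dz k (xi (D.c d) i) (D.e d (e.symm z))) (rp _ d h2 i).le))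
    rw [← sub_sub, sub_add_cancel] at q
    exact (congrArg Matrix.PosSemidef e1).mpr (q.conjTranspose_mul_mul_same _)
  refine ⟨v, sm, met, fun x => ?_, fun x => ?_⟩
  · have h1 : 0 ≤ ∑ i, (XC.sg D i x + δ) ^ (1 - a i) :=
      Finset.sum_nonneg fun i _ => Real.rpow_nonneg (p i x).le _
    have h2 : ∑ i, (XC.sg D i x + δ) ^ (1 - a i) ≤ N * 2 :=
      (Finset.sum_le_card_nsmul _ _ 2 fun i _ => p2 i x).trans_eq (nsmul_eq_mul _ _)
    have h3 : 0 ≤ (N + n) * K := by positivity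
    rw [abs_of_nonneg (mul_nonneg η0.le h1)]
    nlinarith
  obtain ⟨d, h1, h2, h3⟩ := key x
  have tp := rp x d h2
  set t : ι → ℝ := fun i => η * ((1 - a i) ^ 2 * (XC.sg D i x + δ) ^ (1 - a i - 1) *
    PW.gf D d i (D.e d x) / 2) with htt
  have c0 : 0 < 1 / (2 * A) := by positivity
  set τ : Fin n → ℝ := fun j => 1 / (2 * A) + ∑ i, if D.c d i = some j then t i else 0 with hτ
  have τ0 : ∀ j, 0 < τ j := fun j => add_pos_of_pos_of_nonneg c0 (Finset.sum_nonneg fun i _ => by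
    split_ifs
    exacts [(tp i).le, le_rfl])
  have q : ((G + M.hs v) (D.e d) (D.e d x) - Matrix.diagonal fun j => (τ j : ℂ)).PosSemidef := by
    have := h3.add (psd_rsmul (hA d _ h2).1 c0.le)
    refine (congrArg Matrix.PosSemidef ?_).mp this
    have e : (Matrix.diagonal fun j => (τ j : ℂ)) = (1 / (2 * A)) • (1 : Mat n) +
        ∑ i, t i • rk fun k => dz k (xi (D.c d) i) (D.e d x) := by
      ext j k
      simp only [rk_xi, hτ, Matrix.add_apply, Matrix.sum_apply, Matrix.smul_apply, Matrix.one_apply,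
        Matrix.diagonal_apply, real_smul]
      split_ifs
      · push_cast
        simp only [mul_one, mul_ite, mul_zero, apply_ite ofReal, ofReal_zero]
      · simp
    rw [e, smul_sub, smul_smul, show 1 / (2 * A) * A = 1 / 2 by field_simp]
    abel
  have q1 := HS76.det_mono (Matrix.posDef_diagonal_iff.2 fun j => zero_lt_real.2 (τ0 j)) q
  rw [Matrix.det_diagonal, ← ofReal_prod, ofReal_re] at q1
  have q2 := (((mINV n M G hG.toMet).2.1 _ fm) _ (D.mem d) _ (ht d _ h2)).2.2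
  rw [(D.e d).left_inv h1] at q2
  have q3 := ((mINV n M G hG.toMet).2.2.2.2.2.2.2 _ met).1 x
  have q4 : ∏ j, τ j ≤ M.dq G (G + M.hs v) x * A :=
    (q1.trans_eq q2).trans (mul_le_mul_of_nonneg_left (hA d _ h2).2 q3.le)
  have lg := fun i => abs_le.1 (hCg d i _ (mem_closedBall_zero_iff.1 h2))
  have q5 := num (D.inj d) (L := fun i => -(a i * Real.log (XC.sg D i x + δ))) (t := t) c0 tp K0
    (fun i hi => by
      have e := (GLU.rd_e _ h1).symm.trans ((XC.sig D i).2.2.2.1 d _ (hb _ h2))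
      simp only [xi, hi, Option.elim, map_one, mul_one] at e
      have l := Real.log_le_log (PW.gf_pos D (d := d) i (hb _ h2))
        (e.ge.trans (le_add_of_nonneg_right hδ.1.le))
      have := abs_nonneg (Real.log (1 / (2 * A)))
      nlinarith [(lg i).1, (ha i).1, (ha i).2])
    (fun i => by
      have g0 := PW.gf_pos D (d := d) i (hb _ h2)
      have y0 : 0 < η * (1 - a i) ^ 2 / 2 := by have := γ0 i; positivity
      have e : t i = η * (1 - a i) ^ 2 / 2 * ((XC.sg D i x + δ) ^ (1 - a i - 1) *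
        PW.gf D d i (D.e d x)) := by simp only [htt]; ring
      have r0 := Real.rpow_pos_of_pos (p i x) (1 - a i - 1)
      rw [e, Real.log_mul y0.ne' (mul_pos r0 g0).ne', Real.log_mul r0.ne' g0.ne',
        Real.log_rpow (p i x)]
      have := Finset.single_le_sum (f := fun i => |Real.log (η * (1 - a i) ^ 2 / 2)|)
        (fun _ _ => abs_nonneg _) (Finset.mem_univ i)
      linarith [neg_abs_le (Real.log (η * (1 - a i) ^ 2 / 2)), (lg i).1,
        abs_nonneg (Real.log (1 / (2 * A)))])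
    (by linarith [neg_abs_le (Real.log (1 / (2 * A)))])
  rw [Finset.sum_neg_distrib, ← Real.log_prod fun j _ => (τ0 j).ne'] at q5
  have A0 : 0 < A := zero_lt_one.trans_le A1
  have q6 := Real.log_le_log (Finset.prod_pos fun j _ => τ0 j) q4
  rw [Real.log_mul q3.ne' A0.ne'] at q6
  rw [← Real.le_log_iff_exp_le q3]
  linarith

end Pool.Agent.Lib.S5
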