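import Pool.Agent.Lib.S5.P_KX

/-! Project S5: domination for pairs. -/

open scoped Classical Topology ContDiff ENNReal ComplexOrder Matrix
open Set MeasureTheory Complex Metric Filter

noncomputable section

namespace Pool.Agent.Lib.S5.P63

open Pool.Agent.Lib.SV (E nsq)
open Pool.Agent.Lib.HS32 Pool.Agent.Lib.HS32.Mf Pool.Agent.Lib.EX Pool.Agent.Lib.EXS
open Pool.Agent.Lib.ZL Pool.Agent.Lib.DM Pool.Agent.Lib.DM.CRV
open Pool.Agent.Lib.RAA (hq kp hl)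

variable {n : ℕ} {M : Mf n} {ι : Type} [Fintype ι] [DecidableEq ι] [M.Cpt] {D : Ad M ι} (X : Cx D)
  {G Q Θ : M.Fam (Mat n)}

open PAI in
include X in
theorem pai {N r : ℕ} {β : Fin N → Fin r} {P : ι → ℤ} {s₁ s₂ : D.A → E n → (Fin N → Fin n) → ℂ}
    {O : Set M.X} {g : M.X → ℂ} {φ : M.X → ℝ} {k : ℝ} (h₁ : Hu D N P s₁) (h₂ : Hu D N P s₂)
    (ha : D.All fun d z => Al β (s₂ d z)) (hR : Rat D O g)
    (hO : D.All fun d z => ((D.e d).symm z ∈ O ↔ s₂ d z ≠ 0) ∧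
      (s₂ d z ≠ 0 → s₁ d z = D.rd g d z • s₂ d z)) (hG : M.Kae G) (hQ : M.Form Q)
    (Q0 : M.Le 0 Q) (hL : M.Le 0 (Q + M.ric G)) (hΘ : Cv D (fun i => P i) Θ φ) (k0 : 0 ≤ k)
    (hk : M.Le (Θ + (r : ℝ) • M.ric G) (k • G)) : ∃ V W C l, 0 < C ∧ 0 ≤ l ∧ Pr M G l C V W ∧
      (∀ x, V x ≠ 0 ↔ x ∈ O) ∧ (∀ x ∈ O, W x = V x * normSq (g x)) ∧
      ∀ x, V x ≠ 0 → -(r * M.tr G Q x + k * n) ≤ ll M G V x := by
  obtain ⟨r1, r2, -⟩ := (mINV n M G hG.toMet).1 Q hQ.toTen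
  obtain ⟨K, K0, hK⟩ := r2.exists_bound
  obtain ⟨C, C0, hC⟩ := (dCRV n N 0).2 M G hG.toMet
  obtain ⟨c, ψ, hψ, eΘ⟩ := hΘ
  obtain ⟨C', C1, hC', -⟩ := (mBD n M G hG.toMet).1 Θ c.toForm
  obtain ⟨V, sV, eV⟩ := h₂.nrm hG.toMet hψ
  obtain ⟨W, sW, eW⟩ := h₁.nrm hG.toMet hψ
  have tg := fun d (z : E n) (hz : z ∈ B2 n) => GLU.mem_tgt (D := D) d hz
  have ok : ∀ d, ∀ z ∈ B2 n, RAA.A4.Ok (G (D.e d)) z := fun d z hz =>
    ⟨hG.sm _ (D.mem d) z (tg d z hz), hG.pos.ev (D.mem d) (tg d z hz)⟩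
  have nn : ∀ s, D.All fun d z => 0 ≤ uw N (G (D.e d)) s z * Real.exp (-ψ d z) := fun s d z hz =>
    mul_nonneg (RAA.A4.hq_nonneg (bs (ok d z hz)).2.1.self_of_nhds.posSemidef _) (Real.exp_pos _).le
  have vo : ∀ d, ∀ z ∈ B2 n, (V ((D.e d).symm z) ≠ 0 ↔ (D.e d).symm z ∈ O) := by
    intro d z hz
    have a : V ((D.e d).symm z) = _ := eV d z hz
    rw [(hO d z hz).1, a]
    exact ⟨fun h h' => h (by simp [uw, hq, h']),
      fun h => (mul_pos (pos (ok d z hz) h) (Real.exp_pos _)).ne'⟩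
  have wv : ∀ d, ∀ z ∈ B2 n, (D.e d).symm z ∈ O →
      W ((D.e d).symm z) = V ((D.e d).symm z) * normSq (D.rd g d z) := by
    intro d z hz h
    have a := eV d z hz
    have b := eW d z hz
    simp only [Ad.rd] at a b
    rw [a, b]
    unfold uw
    rw [(hO d z hz).2 ((hO d z hz).1.1 h), hq_smul]
    ring
  have hVO : ∀ x, V x ≠ 0 ↔ x ∈ O := by
    intro x
    obtain ⟨d, -, hz, e⟩ := pt D x
    have := vo d _ hz
    rwa [e] at this
  have V0 : ∀ x, 0 ≤ V x := fun x => by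
    obtain ⟨d, -, hz, e⟩ := pt D x
    have a := eV d _ hz
    simp only [Ad.rd, e] at a
    exact a ▸ nn _ d _ hz
  have eh : ∀ d, ∀ z ∈ B2 n, s₂ d z ≠ 0 →
      hl (V ∘ (D.e d).symm) z = hl (uw N (G (D.e d)) (s₂ d)) z - Θ (D.e d) z := fun d z hz s0 => by
    have a := CRV.sm (ok d z hz) (h₂.hol d z hz)
    have b := (pos (ok d z hz) s0).ne'
    have e := XC.hr_add (a.log b) ((contDiffAt_const (c := (-1 : ℝ))).mul (hψ d z hz).1)
    rw [XC.hr_mul _ (hψ d z hz).1, neg_one_smul, ← sub_eq_add_neg, ← eΘ d z hz] at e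
    refine (XC.hr_congr ?_).trans e
    filter_upwards [isOpen_ball.eventually_mem hz, a.continuousAt.eventually_ne b] with w hw h
    rw [neg_one_mul, ← Real.log_exp (-ψ d w), ← Real.log_mul h (Real.exp_pos _).ne', ← eV d w hw]
    rfl
  have lo : ∀ d, ∀ z ∈ B2 n, s₂ d z ≠ 0 → -(r * M.tr G Q ((D.e d).symm z) + k * n) ≤
      trm (G (D.e d) z) (hl (V ∘ (D.e d).symm) z) := fun d z hz s0 => by
    have p := (ok d z hz).pos
    have t := trace (ok d z hz) ((isOpen_ball.eventually_mem hz).mono fun w hw =>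
      hG.cl _ (D.mem d) w (tg d w hw)) (h₂.hol d z hz) (ha d z hz)
      (K63.le0.1 Q0 _ (D.mem d) _ (tg d _ hz))
      (by simpa [Mf.ric, sub_eq_add_neg] using hL _ (D.mem d) _ (tg d _ hz)) s0
    have t2 := HS76.tr_nonneg p (hk _ (D.mem d) _ (tg d _ hz))
    rw [eh d z hz s0, r1 _ (D.mem d) _ (tg d _ hz)]
    simp only [trm, Mf.ric, Pi.add_apply, Pi.smul_apply, Matrix.mul_sub, Matrix.mul_add,
      Matrix.mul_smul, Matrix.mul_neg, Matrix.nonsing_inv_mul _ (pd_det_ne p).isUnit,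
      Matrix.trace_sub, Matrix.trace_add, Matrix.trace_smul, Matrix.trace_neg, Matrix.trace_one,
      sub_re, add_re, real_smul, re_ofReal_mul, neg_re, Fintype.card_fin, natCast_re] at t t2 ⊢
    linarith
  refine ⟨V, W, C + C', r * K + k * n, by positivity, by positivity,
    ⟨sV, sW, V0, fun x => ?_, ?_, fun x hx => ?_⟩, hVO, fun x hx => ?_, fun x hx => ?_⟩
  · obtain ⟨d, -, hz, e⟩ := pt D x
    have a := eW d _ hz
    simp only [Ad.rd, e] at a
    exact a ▸ nn _ d _ hz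
  · have : {x | V x = 0} = Oᶜ := by
      ext x
      simp only [mem_ofPred_eq, mem_compl_iff, ← hVO x, not_not]
    rw [this]
    exact (dNUL n M ι D X O g hR).2.1 G hG.toMet
  · obtain ⟨d, hs, hz, e⟩ := pt D x
    have xO := (hVO x).1 hx
    have s0 : s₂ d (D.e d x) ≠ 0 := (hO d _ hz).1.1 (e.symm ▸ xO)
    refine ⟨D.e d, D.mem d, hs, D.rd g d, hR.hol d _ hz (e.symm ▸ xO), ?_, ?_, ?_⟩
    · have ct : ContinuousAt (D.e d).symm (D.e d x) :=
        (D.e d).continuousAt_symm ((D.e d).map_source hs)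
      filter_upwards [isOpen_ball.eventually_mem hz,
        ct.eventually (hR.op.eventually_mem (e.symm ▸ xO))] with w h1 h2
      exact wv d w h1 h2
    · have a := hC _ (D.mem d) _ (tg d _ hz) _ (h₂.hol d _ hz) s0
      rw [show uv N 0 (G (D.e d)) (s₂ d) = uw N (G (D.e d)) (s₂ d) from
        funext fun w => by simp [uv, uw]] at a
      refine (congrArg Matrix.PosSemidef ?_).mp (a.add (hC' _ (D.mem d) _ (tg d _ hz)))
      rw [eh d _ hz s0, add_smul, Pi.smul_apply, Pi.smul_apply]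
      abel
    · exact (neg_le_neg (add_le_add_left (mul_le_mul_of_nonneg_left ((le_abs_self _).trans (hK _))
        r.cast_nonneg) _)).trans (lo d _ hz s0)
  · obtain ⟨d, -, hz, e⟩ := pt D x
    have := wv d _ hz (e.symm ▸ hx)
    simpa only [Ad.rd, e] using this
  · obtain ⟨d, hs, hz, e⟩ := pt D x
    have := lo d _ hz ((hO d _ hz).1.1 (e.symm ▸ (hVO x).1 hx))
    rwa [e, ← PRK.ll_eq dLOG hG.toMet sV (D.mem d) hs ((V0 x).lt_of_ne' hx)] at this

open DOM in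
theorem domp {ν : ι → ℤ} (hn : 0 < n) (hC : Can D X.l X.w) (hB : X.Big) (hK : Kp D ν X.e) :
    DomP D X.l ν X.e := by
  rintro N r m b₁ b₂ ⟨β, hβ⟩ t₁ t₂ ⟨d₀, I₀, z₀, hz₀, o₀, n₀⟩ pr
  obtain ⟨a₀, k, k0, hK⟩ := hK
  obtain ⟨c, hc⟩ := exists_nat_gt (2 ^ (n + 2) * (r * k + m * n))
  have c0 : 0 < c := Nat.cast_pos.1 (lt_of_le_of_lt (by positivity) hc)
  obtain ⟨s₁, p₁, q₁⟩ := rep (D := D) ⟨t₁.pol, t₁.law⟩
  obtain ⟨s₂, p₂, q₂⟩ := rep (D := D) ⟨t₂.pol, t₂.law⟩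
  set P : ι → ℤ := fun i => r * X.l i + m * ν i with hP
  have ne : OA D fun d z => xm (D.c d) P z ≠ 0 := fun d z hz ho => MON.xm_ne _ ho
  obtain ⟨O, g, hR, hO⟩ := p₁.rat p₂
    ⟨d₀, z₀, hz₀, fun h => mul_ne_zero (ne d₀ z₀ hz₀ o₀) n₀
      ((q₂ d₀ z₀ hz₀ o₀ I₀).symm.trans (congrFun h I₀))⟩
    fun d z hz ho I I' => by
      rw [q₁ d z hz ho, q₁ d z hz ho, q₂ d z hz ho, q₂ d z hz ho]
      linear_combination xm (D.c d) P z ^ 2 * pr d z hz ho I I'
  have al : D.All fun d z => Al β (s₂ d z) := fun d z hz I p p' h1 h2 =>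
    Hu.ext (d := d) hz (p₂.dif d _ hz) (p₂.dif d I hz).neg fun y hy ho => by
      have := hβ d y hy ho I p p' h1 h2
      simp only [Pi.neg_apply, q₂ d y hy ho, this, mul_neg]
  obtain ⟨a, ha⟩ := XK.one X hn hB
  have fr := (dNUL n M ι D X O g hR).2.2.2
  have of : ∀ d, ∀ z ∈ B2 n, Off (D.c d) z → (D.e d).symm z ∈ off D := fun d z hz ho =>
    (GLU.mem_off (GLU.mem_src d hz)).2 (by rwa [GLU.rinv d hz])
  have key : ∀ j : ℕ, ∃ F, Sp D (fun p => j * c * ν p + (a₀ + a : ℕ) * X.e p) F ∧ F ≠ 0 ∧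
      ∀ i ≤ j, ∃ w, Sp D (fun p => j * c * ν p + (a₀ + a : ℕ) * X.e p) w ∧
        ∀ x ∈ off D, x ∈ O → w x = F x * g x ^ i := fun j => by
    rcases Nat.eq_zero_or_pos j with rfl | hj
    · have u := st_UPB n M ι D
      have s := ((u _).1 (fun _ => 1) ((u 0).2.2.1 (fun p => (0 : ℕ) * c * ν p +
        (a₀ + a : ℕ) * X.e p) _ (fun p => by
          simp only [Nat.cast_zero, zero_mul, zero_add]; positivity)
        fun d z _ => ⟨fun _ => 1, .of_forall fun _ => differentiableAt_const _,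
          .of_forall fun y _ => by simp [xm, Ad.rd]⟩)).2
      refine ⟨_, s, fun h => ?_, fun i hi => ⟨_, s, fun x _ _ => by
        rw [Nat.le_zero.1 hi, pow_zero, mul_one]⟩⟩
      simpa [of d₀ z₀ hz₀ o₀] using congrFun h ((D.e d₀).symm z₀)
    obtain ⟨G, Q, T, ρ, φ, C₀, g1, g2, g3, g4, g5, g6, g7, g8, g9, g10⟩ :=
      hK (j * c) (by positivity)
    obtain ⟨V, W, C, l, C0, l0, hP, hV, hW, hp⟩ := pai X p₁ p₂ al hR hO g1 g2 g3 g4
      (XC.congr (XC.add (XC.smul r (XC.can X hC g1.toMet)) (XC.smul m g9))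
        (funext fun i => by simp [hP]) (fun _ _ _ _ => rfl) fun _ _ => rfl) m.cast_nonneg
      fun e he z hz => by
        refine (congrArg Matrix.PosSemidef ?_).mp (psd_rsmul (g10 e he z hz) m.cast_nonneg)
        simp only [Pi.add_apply, Pi.smul_apply, Pi.neg_apply]
        module
    obtain ⟨r1, r2, -⟩ := (mINV n M G g1.toMet).1 Q g2.toTen
    have fin := (mMU n M G g1.toMet).2.1
    obtain ⟨F, f1, f2, f3⟩ := ha _ (j * c) j l (r * k + m * n) C C₀ G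
      (fun x => r * M.tr G Q x + m * n) ρ V W O g (by positivity) l0 (by positivity) C0 (by
        push_cast
        nlinarith [(j.cast_nonneg : (0 : ℝ) ≤ j)]) g1 hP
      ((continuous_const.mul r2.continuous).add continuous_const)
      (fun x => by
        have := g1.toMet.tr_nonneg g3 x
        positivity) hp
      (by
        rw [integral_add ((K63.int g1.toMet r2.continuous).const_mul _) (integrable_const _),
          integral_const_mul, integral_const, smul_eq_mul]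
        linarith [mul_le_mul_of_nonneg_left g5 (r.cast_nonneg : (0 : ℝ) ≤ r)])
      g6 g7 g8 hR hV hW
    have e (i) : ((j * c : ℕ) * ν i + a₀ * X.e i + a * X.e i : ℤ) =
        j * c * ν i + (a₀ + a : ℕ) * X.e i := by push_cast; ring
    simp only [e] at f1 f3
    exact ⟨F, f1, f2, dEXT st_MU st_UPB n M ι D X O g F _ j hR f1 f3⟩
  refine ⟨c, a₀ + a, fun j => ?_⟩
  obtain ⟨F, f1, f2, f3⟩ := key j
  choose! w w1 w2 using f3
  have ct : ∀ {P F}, Sp D P F → OA D fun d z => ContinuousAt (D.rd F d) z :=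
    fun h d z hz ho => pol_cont (h.1 d z hz) ho
  have ev : OA D fun d z => ∀ᶠ y in 𝓝 z, y ∈ B2 n := fun d z hz _ => isOpen_ball.mem_nhds hz
  refine ⟨w, fun h => f2 (funext fun x => ?_), w1, fun i hi d z hz ho I => ?_⟩
  · by_cases hx : x ∈ off D
    · obtain ⟨d, hd⟩ := GLU.ex_ch D x
      have hz : D.e d x ∈ B2 n := D.tgt d ▸ (D.e d).map_source hd
      rw [← GLU.rd_e F hd]
      refine eq_of (ct f1 d _ hz (hx d hd)) continuousAt_const (fr d _ hz)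
        ((ev d _ hz (hx d hd)).mono fun y hy h' => ?_)
      simpa [h, Ad.rd] using (w2 0 j.zero_le _ (of d y hy h'.1) h'.2).symm
    · exact f1.2 x hx
  · refine eq_of ((ct (w1 _ hi) d z hz ho).mul (pol_cont (t₂.pol d z hz I) ho))
      ((ct (w1 _ hi.le) d z hz ho).mul (pol_cont (t₁.pol d z hz I) ho)) (fr d z hz)
      ((ev d z hz ho).mono fun y hy h' => ?_)
    have k := congrFun ((hO d y hy).2 ((hO d y hy).1.1 h'.2)) I
    rw [Pi.smul_apply, q₁ d y hy h'.1, q₂ d y hy h'.1, smul_eq_mul, mul_left_comm] at k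
    have k' := mul_left_cancel₀ (ne d y hy h'.1) k
    simp only [Pi.mul_apply, Ad.rd] at k' ⊢
    rw [w2 (i + 1) hi _ (of d y hy h'.1) h'.2, w2 _ hi.le _ (of d y hy h'.1) h'.2, k']
    ring

/-- Domination for a pair `c (K + Δ) = N + E` with `E` exceptional. -/
theorem pair {ν b : ι → ℤ} {r c c' : ℕ} {t : Fin r → M.X → ℂ} (hn : 0 < n) (hc : 0 < c)
    (he : ∀ i, 0 < X.e i) (hB : X.Big) (hC : Can D X.l X.w) (hK : NV2.Kd D (fun i => X.e i) t)
    (hI : NV2.Imm D (fun i => X.e i) t) (hG : ∀ j : ℕ, Gens D fun i => j * ν i + c' * X.e i)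
    (hl : ∀ i, ν i < c * (X.l i + 1)) (R : NV5.Cn D b {i | ν i < c * X.l i})
    (hN : X.Nf (b - ν)) : DomP D X.l ν X.e := by
  obtain ⟨A, hA, -⟩ := NV5.bAM NV5.bKIT n M ι D r X.e t he hK hI
  obtain ⟨c₁, X', -, -, -, -, -, e, -, h⟩ := bPEAK (bPK1 bPW st_MU st_UPB st_WGT st_POG
    (bLWC bTRF) bBMP (bCUT bPW)) bGEN n M ι D X _ hB hN
  refine domp X hn hC hB ?_
  rw [← hA]
  refine kx (c₀ := c') (c₁ := c₁) hn hc hC hl R (hA ▸ hG) fun j => ?_
  simpa only [e, hA, Nat.cast_mul] using h j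

end Pool.Agent.Lib.S5.P63
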