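import Pool.Agent.Lib.S5.P_TR
import Pool.Agent.Lib.NV5.X_DOM
import Pool.Agent.Lib.NV5.X_CV

/-! Project S5: holomorphic tensors with values in a divisor. -/

open scoped Classical Topology ContDiff ComplexOrder Matrix
open Set Complex Metric Filter

set_option linter.unusedSectionVars false

noncomputable section

namespace Pool.Agent.Lib.S5.P63

open Pool.Agent.Lib.SV (E)
open Pool.Agent.Lib.HS32 Pool.Agent.Lib.HS32.Mf Pool.Agent.Lib.EX Pool.Agent.Lib.EXS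
open Pool.Agent.Lib.ZL Pool.Agent.Lib.DM Pool.Agent.Lib.DM.CRV Pool.Agent.Lib.DM.RAT
open Pool.Agent.Lib.RAA (kp kq hq)

variable {n : ℕ} {M : Mf n} {ι : Type} [Fintype ι] [DecidableEq ι] {D : Ad M ι} {N : ℕ}
  {P : ι → ℤ} {s s₁ s₂ : D.A → E n → (Fin N → Fin n) → ℂ}

variable (D N P s) in
/-- A holomorphic contravariant tensor with values in the divisor `P`. -/
structure Hu : Prop where
  hol : D.All fun d z => HolN (s d) z
  law : D.Ov fun a d x => s a (D.e a x) = D.um P a d x • kp N (D.J a d x) *ᵥ s d (D.e d x)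

theorem rep [M.Cpt] {b : D.A → (Fin N → Fin n) → E n → ℂ} (hT : Tn D N P b) :
    ∃ s, Hu D N P s ∧ OA D fun d z => ∀ I, s d z I = xm (D.c d) P z * b d I z := by
  have hv := fun d I => (st_UPB n M ι D P).2.2.2.2.2.1 (D.c d) (b d I)
    fun z hz => hT.pol d z hz I
  set s : D.A → E n → (Fin N → Fin n) → ℂ := fun d z I => val (D.c d) P (b d I) z with hs
  have h1 : D.All fun d z => DifferentiableAt ℂ (s d) z := fun d z hz =>
    differentiableAt_pi.2 fun I => (hv d I).1.differentiableAt (isOpen_ball.mem_nhds hz)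
  have h2 : OA D fun d z => ∀ I, s d z I = xm (D.c d) P z * b d I z :=
    fun d z hz ho I => (hv d I).2 z hz ho
  refine ⟨s, ⟨fun d z hz => (isOpen_ball.eventually_mem hz).mono fun y hy => h1 d y hy,
    fun a d x ha hd => funext fun I => ?_⟩, h2⟩
  have hJ : ∀ i j, ContinuousAt (fun y => D.J a d y i j) x := fun i j =>
    ContinuousAt.comp (g := fun z => jm (D.e a ∘ (D.e d).symm) z i j)
      ((mCHN n _ _ (TRF.holT D ha hd)).2.1 i j).continuousAt ((D.e d).continuousAt hd)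
  have hc : ∀ c, x ∈ (D.e c).source → ∀ I, ContinuousAt (fun y => s c (D.e c y) I) x :=
    fun c h I => continuousAt_pi.1 (ContinuousAt.comp (g := s c)
      (h1 c _ (GLU.mem_B2 h)).continuousAt ((D.e c).continuousAt h)) I
  have hu : ContinuousAt (fun y => D.rd (D.um P a d) d (D.e d y)) x :=
    ContinuousAt.comp (g := D.rd (D.um P a d) d) (TRF.um_hol D P ha hd).self_of_nhds.continuousAt
      ((D.e d).continuousAt hd)
  have := GLU.neBot D x
  rw [← GLU.rd_e (D.um P a d) hd]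
  refine tendsto_nhds_unique_of_eventuallyEq (l := 𝓝[off D] x) (f := fun y => s a (D.e a y) I)
    (g := fun y => D.rd (D.um P a d) d (D.e d y) *
      ∑ I' : Fin N → Fin n, (∏ p, D.J a d y (I p) (I' p)) * s d (D.e d y) I')
    ((hc a ha I).tendsto.mono_left nhdsWithin_le_nhds)
    ((hu.tendsto.mul (tendsto_finsetSum _ fun I' _ => (tendsto_finsetProd _ fun p _ => hJ _ _).mul
      (hc d hd I'))).mono_left nhdsWithin_le_nhds) ?_
  filter_upwards [self_mem_nhdsWithin, nhdsWithin_le_nhds ((D.e a).open_source.mem_nhds ha),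
    nhdsWithin_le_nhds ((D.e d).open_source.mem_nhds hd)] with y hy y1 y2
  rw [h2 a _ (GLU.mem_B2 y1) (hy a y1), hT.law a d y y1 y2 hy, TRF.xm_eq D y1 y2, GLU.rd_e _ y2,
    mul_assoc, Finset.mul_sum]
  exact congrArg _ (Finset.sum_congr rfl fun I' _ => by
    rw [h2 d _ (GLU.mem_B2 y2) (hy d y2), mul_left_comm])

namespace Hu

theorem chg (h₁ : Hu D N P s₁) (h₂ : Hu D N P s₂) {a d : D.A} {x : M.X}
    (ha : x ∈ (D.e a).source) (hd : x ∈ (D.e d).source) {c : ℂ}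
    (h : s₁ d (D.e d x) = c • s₂ d (D.e d x)) : s₁ a (D.e a x) = c • s₂ a (D.e a x) := by
  rw [h₁.law a d x ha hd, h, Matrix.mulVec_smul, h₂.law a d x ha hd, smul_comm]

theorem zero (h : Hu D N P s) {a d : D.A} {x : M.X} (ha : x ∈ (D.e a).source)
    (hd : x ∈ (D.e d).source) (h0 : s d (D.e d x) = 0) : s a (D.e a x) = 0 := by
  rw [h.law a d x ha hd, h0, Matrix.mulVec_zero, smul_zero]

theorem dif (h : Hu D N P s) (d : D.A) (I : Fin N → Fin n) {z : E n} (hz : z ∈ B2 n) :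
    DifferentiableAt ℂ (fun y => s d y I) z :=
  differentiableAt_pi.1 (h.hol d z hz).self_of_nhds I

theorem nz [M.Cpt] (h : Hu D N P s) (h0 : ∃ d, ∃ z ∈ B2 n, s d z ≠ 0) (d : D.A) :
    ∃ z ∈ B2 n, s d z ≠ 0 := by
  let R : D.A → Prop := fun a => ∃ z ∈ B2 n, s a z ≠ 0
  have hU : ∀ Q : D.A → Prop, IsOpen {x | ∃ a, Q a ∧ x ∈ (D.e a).source} := fun Q => by
    simp only [ofPred_exists, ofPred_and]
    exact isOpen_iUnion fun a => isOpen_const.inter (D.e a).open_source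
  by_contra hd
  obtain ⟨d₀, hd₀⟩ := h0
  have hz : (0 : E n) ∈ B2 n := mem_ball_self two_pos
  obtain ⟨x, -, ⟨a, ⟨z, hz, hz0⟩, ha⟩, b, hb, hb'⟩ := isPreconnected_univ (α := M.X) _ _ (hU R)
    (hU fun a => ¬ R a) (fun x _ => by
      obtain ⟨a, ha⟩ := cov (D := D) x
      by_cases hp : R a
      exacts [.inl ⟨a, hp, ha⟩, .inr ⟨a, hp, ha⟩])
    ⟨_, trivial, d₀, hd₀, (src d₀ hz).1⟩ ⟨_, trivial, d, hd, (src d hz).1⟩
  refine hz0 (SV.H85.eqOn_zero_of_preconnected isOpen_ball (convex_ball _ _).isPreconnected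
    (fun z hz => (h.hol a z hz).self_of_nhds.differentiableWithinAt) (tgt a ha) ?_ hz)
  filter_upwards [((mTR n M).2.1 _ (D.mem b) _ (D.mem a) x hb' ha).2.2.2.1] with w hw
  have := h.zero hw.2.2.1 hw.2.1 (by_contra fun h' => hb ⟨_, tgt b hw.2.1, h'⟩)
  rwa [hw.2.2.2.2.2.1] at this

theorem ext {d : D.A} {z : E n} (hz : z ∈ B2 n) {f g : E n → ℂ}
    (hf : DifferentiableAt ℂ f z) (hg : DifferentiableAt ℂ g z)
    (h : ∀ y ∈ B2 n, Off (D.c d) y → f y = g y) : f z = g z :=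
  tendsto_nhds_unique_of_frequently_eq hf.continuousAt hg.continuousAt
    (((MON.off_freq (D.c d) z).and_eventually (isOpen_ball.mem_nhds hz)).mono
      fun y hy => h y hy.2 hy.1)

theorem rat [M.Cpt] (h₁ : Hu D N P s₁) (h₂ : Hu D N P s₂) (h0 : ∃ d, ∃ z ∈ B2 n, s₂ d z ≠ 0)
    (hp : OA D fun d z => ∀ I I', s₁ d z I * s₂ d z I' = s₁ d z I' * s₂ d z I) :
    ∃ O g, Rat D O g ∧ D.All fun d z => ((D.e d).symm z ∈ O ↔ s₂ d z ≠ 0) ∧
      (s₂ d z ≠ 0 → s₁ d z = D.rd g d z • s₂ d z) := by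
  let O : Set M.X := {x | ∃ d, x ∈ (D.e d).source ∧ s₂ d (D.e d x) ≠ 0}
  let g : M.X → ℂ := fun x => Classical.epsilon fun c : ℂ =>
    ∀ d, x ∈ (D.e d).source → s₁ d (D.e d x) = c • s₂ d (D.e d x)
  have hO : ∀ d, ∀ z ∈ B2 n, ((D.e d).symm z ∈ O ↔ s₂ d z ≠ 0) := fun d z hz => by
    obtain ⟨e1, e2⟩ := src d hz
    refine ⟨?_, fun h => ⟨d, e1, by rwa [e2]⟩⟩
    rintro ⟨a, ha, h⟩ h'
    exact h (h₂.zero ha e1 (by rwa [e2]))
  have hg : ∀ d, ∀ z ∈ B2 n, s₂ d z ≠ 0 → s₁ d z = D.rd g d z • s₂ d z := fun d z hz h => by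
    obtain ⟨e1, e2⟩ := src d hz
    obtain ⟨I, hI⟩ := Function.ne_iff.1 h
    have : s₁ d (D.e d ((D.e d).symm z)) = D.rd g d z • s₂ d (D.e d ((D.e d).symm z)) :=
      Classical.epsilon_spec (p := fun c : ℂ => ∀ a, (D.e d).symm z ∈ (D.e a).source →
        s₁ a (D.e a ((D.e d).symm z)) = c • s₂ a (D.e a ((D.e d).symm z)))
      ⟨s₁ d z I / s₂ d z I, fun a ha => h₁.chg h₂ ha e1 (by
        rw [e2]
        funext I'
        rw [Pi.smul_apply, smul_eq_mul, div_mul_eq_mul_div, eq_div_iff hI]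
        exact ext (d := d) hz ((h₁.dif d I' hz).mul (h₂.dif d I hz))
          ((h₁.dif d I hz).mul (h₂.dif d I' hz)) fun y h1 h2 => hp d y h1 h2 I' I)⟩ d e1
    rwa [e2] at this
  refine ⟨O, g, ⟨?_, fun d z hz hzO => ?_, fun d => ?_⟩, fun d z hz => ⟨hO d z hz, hg d z hz⟩⟩
  · refine isOpen_iff_mem_nhds.2 ?_
    rintro x ⟨d, hd, h⟩
    have hc : ContinuousAt (fun y => s₂ d (D.e d y)) x :=
      ContinuousAt.comp (h₂.hol d _ (tgt d hd)).self_of_nhds.continuousAt ((D.e d).continuousAt hd)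
    filter_upwards [(D.e d).open_source.mem_nhds hd, hc.eventually_ne h] with y h1 h2
    exact ⟨d, h1, h2⟩
  · obtain ⟨I, hI⟩ := Function.ne_iff.1 ((hO d z hz).1 hzO)
    have hev : ∀ᶠ y in 𝓝 z, y ∈ B2 n ∧ s₂ d y I ≠ 0 :=
      (Filter.Eventually.and (isOpen_ball.mem_nhds hz)
        ((h₂.dif d I hz).continuousAt.eventually_ne hI))
    filter_upwards [hev.eventually_nhds] with y hy
    have hq : DifferentiableAt ℂ (fun w => s₁ d w I * (s₂ d w I)⁻¹) y :=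
      (h₁.dif d I hy.self_of_nhds.1).mul ((h₂.dif d I hy.self_of_nhds.1).inv hy.self_of_nhds.2)
    refine hq.congr_of_eventuallyEq (hy.mono fun w hw => ?_)
    have := congrFun (hg d w hw.1 (Function.ne_iff.2 ⟨I, hw.2⟩)) I
    rw [Pi.smul_apply, smul_eq_mul] at this
    show _ = s₁ d w I * (s₂ d w I)⁻¹
    rw [this, mul_inv_cancel_right₀ hw.2]
  · obtain ⟨z₀, hz₀, h⟩ := h₂.nz h0 d
    obtain ⟨I, hI⟩ := Function.ne_iff.1 h
    have hd : DifferentiableOn ℂ (fun y => s₂ d y I) (B2 n) :=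
      fun z hz => (h₂.dif d I hz).differentiableWithinAt
    refine ⟨fun y => s₂ d y I, hd, fun z hz => ⟨fun h' => hI ?_, fun h' => ?_⟩⟩
    · exact SV.H85.eqOn_zero_of_preconnected isOpen_ball (convex_ball _ _).isPreconnected hd hz h'
        hz₀
    · exact (hO d z hz).2 (Function.ne_iff.2 ⟨I, h'⟩)

/-- The norm is a function on the manifold. -/
theorem nrm [M.Cpt] (hs : Hu D N P s) {G : M.Fam (Mat n)} (hG : M.Met G) {φ : M.X → ℝ}
    {ψ : D.A → E n → ℝ} (hψ : Lo D (fun i => P i) φ ψ) : ∃ V, M.Sm V ∧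
      D.All fun d z => D.rd V d z = uw N (G (D.e d)) (s d) z * Real.exp (-ψ d z) := by
  choose a ha using GLU.ex_ch D
  have sm : D.All fun d z => ContDiffAt ℝ ∞
      (fun y => uw N (G (D.e d)) (s d) y * Real.exp (-ψ d y)) z := fun d z hz =>
    (CRV.sm ⟨hG.sm _ (D.mem d) z (GLU.mem_tgt d hz), hG.pos.ev (D.mem d) (GLU.mem_tgt d hz)⟩
      (hs.hol d z hz)).mul (hψ d z hz).1.neg.exp
  have g := fun d z hz => bGLU n M ι D ℝ (fun x => uw N (G (D.e (a x))) (s (a x)) (D.e (a x) x) *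
    Real.exp (-ψ (a x) (D.e (a x) x))) d _ z hz
    ((isOpen_ball.eventually_mem hz).mono fun y hy => (sm d y hy).continuousAt)
    ((isOpen_ball.eventually_mem hz).mono fun y hy ho => by
      obtain ⟨e1, e2⟩ := src d hy
      generalize hx : (D.e d).symm y = x at e1 e2
      subst e2
      have o := (GLU.mem_off e1).2 ho
      have k1 := (hψ d _ hy).2 ho
      have k2 := (hψ (a x) _ (tgt _ (ha x))).2 (o _ (ha x))
      have k3 := congrArg normSq (TRF.xm_eq D (ha x) e1 P)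
      rw [map_mul, K32.xm_exp fun i _ => ho i, K32.xm_exp fun i _ => o _ (ha x) i] at k3
      rw [GLU.rd_e _ e1] at k1 ⊢
      rw [GLU.rd_e _ (ha x), k1] at k2
      rw [uw, uw, hG.cmp _ (D.mem (a x)) _ (D.mem d) x (ha x) e1, NRM.kp_conj, NRM.hq_conj,
        hs.law (a x) d x (ha x) e1, NRM.hq_smul, mul_right_comm, mul_comm,
        eq_div_of_mul_eq (Real.exp_pos _).ne' k3.symm, ← Real.exp_sub, ← Real.exp_add]
      exact congrArg (fun t => _ * Real.exp t) (by linarith))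
  exact ⟨_, (mSUB n M _ (XC.sub D)).2.1 ℝ _ (XC.on fun d z hz =>
    (sm d z hz).congr_of_eventuallyEq (g d z hz)), fun d z hz => (g d z hz).self_of_nhds⟩

end Hu

open MeasureTheory K32 in
/-- The metrics of `Kx` together with a weight of `ν` whose curvature is below the metric. -/
def Kp (D : Ad M ι) (ν : ι → ℤ) (e : ι → ℕ) : Prop := ∃ (a : ℕ) (k : ℝ), 0 ≤ k ∧
  ∀ j : ℕ, 0 < j → ∃ (G Q T : M.Fam (Mat n)) (ρ φ : M.X → ℝ) (C : ℝ), M.Kae G ∧ M.Form Q ∧
    M.Le 0 Q ∧ M.Le 0 (Q + M.ric G) ∧ ∫ x, M.tr G Q x ∂M.mu G ≤ k * (M.mu G).real univ ∧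
    SmO D ρ ∧ (∀ x ∈ off D, |ρ x + lw D (fun i => (j * ν i + a * e i : ℤ)) x| ≤ C) ∧
    (OA D fun d z => ∀ y, j * nq (G (D.e d) z) y ≤ lv (D.rd ρ d) z y) ∧
    Cv D (fun i => ν i) T φ ∧ M.Le T G

end Pool.Agent.Lib.S5.P63
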