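import Pool.Agent.Lib.S5.P_MAE
import Pool.Agent.Lib.S5.P_BAR
import Pool.Agent.Lib.S5.P_RAT
import Pool.Agent.Lib.NV5.X_KX

/-! Project S5: the family of metrics for a pair. -/

open scoped Classical Topology ContDiff ComplexOrder Matrix
open Set MeasureTheory Complex Metric Filter

noncomputable section

namespace Pool.Agent.Lib.S5.P63

open Pool.Agent.Lib.SV (E nsq)
open Pool.Agent.Lib.HS32 Pool.Agent.Lib.HS32.Mf Pool.Agent.Lib.EX Pool.Agent.Lib.EXS
open Pool.Agent.Lib.ZL Pool.Agent.Lib.EXS.K32 Pool.Agent.Lib.EXS.GLU Pool.Agent.Lib.DM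
open Pool.Agent.Lib.DM.K63 Pool.Agent.Lib.DM.KX

variable {n : ℕ} {M : Mf n} [M.Cpt] {ι : Type} [Fintype ι] [DecidableEq ι] {D : Ad M ι}

/-- The boundary. -/
theorem bdy (D : Ad M ι) (a : ι → ℝ) (ha : ∀ i, 0 ≤ a i ∧ a i < 1) : ∃ Θ φ, Cv D a Θ φ ∧
    ∀ G B, M.Kae G → M.Kae B → ∃ χ l W, Bdy M G B Θ χ l W := by
  choose T hT _ using fun i => (XC.sig D i).2.2.2.2
  have sg := fun i => sg_of (hT i) (XC.sig D i).1 (XC.sig D i).2.1 (sg_ne i)
  have key : ∀ S : Finset ι, Cv D (∑ i ∈ S, a i • Pi.single i 1) (∑ i ∈ S, a i • T i)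
      fun x => ∑ i ∈ S, a i * -Real.log (XC.sg D i x) := fun S => by
    induction S using Finset.induction_on with
    | empty =>
      exact XC.congr (XC.smul 0 (XC.sm D (sm_const (0 : ℝ)))) (by simp) (by simp [AllOn]) (by simp)
    | insert i S hi ih =>
      simp only [Finset.sum_insert hi]
      exact XC.add (XC.smul (a i) (hT i)) ih
  refine ⟨_, _, XC.congr (key Finset.univ) (funext fun i => by simp [Pi.single_apply])
    (fun _ _ _ _ => rfl) fun _ _ => rfl, fun G B hG hB => ?_⟩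
  obtain ⟨W, hW⟩ := bar D hG a ha
  choose C C0 _ hC using fun i => (mBD n M B hB.toMet).1 (T i) (sg i).clo.toForm
  choose S S0 hS using fun i => (sg i).sm.exists_bound
  have ss : ∀ f : ι → M.X → ℝ, (∀ i, M.Sm (f i)) → M.Sm fun x => ∑ i, f i x :=
    fun f hf e he z hz => ContDiffAt.sum fun i _ => hf i e he z hz
  have W0 : 0 ≤ ∑ i, a i * S i := Finset.sum_nonneg fun i _ => mul_nonneg (ha i).1 (S0 i).le
  have a0 := fun i => mul_nonneg (ha i).1 (C0 i).le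
  refine ⟨fun δ x => ∑ i, a i * Real.log (XC.sg D i x + δ),
    fun δ x => ∑ i, a i * C i * (δ / (XC.sg D i x + δ)), |W| + ∑ i, a i * S i,
    fun δ δ1 => ?_, fun K η η0 => ?_⟩
  · obtain ⟨v, v1, v2, v3, v4⟩ := hW δ δ1
    refine ⟨ss _ fun i => ((sg i).lsm δ1.1).const_mul _, ss _ fun i => ((sg i).lam δ1.1).const_mul _,
      fun x => ⟨le_add_of_nonneg_of_le (abs_nonneg _) (Finset.sum_le_sum fun i _ =>
        mul_le_mul_of_nonneg_left ?_ (ha i).1), Finset.sum_nonneg fun i _ =>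
        mul_nonneg (a0 i) ((sg i).lam01 δ1.1 x).1⟩, le0.2 fun e he z hz => ?_, v, v1, v2,
      fun x => (v3 x).trans (by linarith [le_abs_self W]), fun x => le_trans
        (Real.exp_le_exp.2 (by linarith [le_abs_self W])) (v4 x)⟩
    · linarith [Real.log_le_sub_one_of_pos ((sg i).pos δ1.1 x), δ1.2, (le_abs_self _).trans (hS i x)]
    have k := Matrix.posSemidef_sum (s := Finset.univ) fun i _ =>
      psd_rsmul (le0.1 ((sg i).qq δ1.1 (hC i)) e he z hz) (ha i).1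
    have s := fun i => (sg i).lsm δ1.1 e he z hz
    have e1 := XC.hr_sum (s := Finset.univ) fun i _ => (contDiffAt_const (c := a i)).mul (s i)
    simp only [fun i => XC.hr_mul (a i) (s i)] at e1
    refine (congrArg Matrix.PosSemidef ?_).mp k
    simp only [Pi.add_apply, Pi.smul_apply, Finset.sum_apply, smul_add, Finset.sum_add_distrib,
      Finset.sum_smul, smul_smul]
    exact congrArg₂ (· + ·) (congrArg₂ (· + ·) e1.symm rfl)
      (Finset.sum_congr rfl fun i _ => congrArg (· • B e z) (by ring))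
  have p : 0 < ∑ i, a i * C i + 1 := by
    have := Finset.sum_nonneg fun i (_ : i ∈ Finset.univ) => a0 i
    positivity
  filter_upwards [eventually_all.2 fun i => small hB hG (sg i) K (div_pos η0 p),
    self_mem_nhdsWithin] with δ h δ0 u u1 u2 u3
  simp only [Finset.sum_mul, mul_assoc]
  rw [integral_finsetSum _ fun i _ => ((int u2 (((sg i).lam δ0).continuous.fun_mul
    (tr_c u2 hB.toTen))).const_mul _).const_mul _]
  simp only [integral_const_mul]
  simp only [← mul_assoc]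
  refine (Finset.sum_le_sum fun i _ => mul_le_mul_of_nonneg_left (h i u u1 u2 u3) (a0 i)).trans ?_
  rw [← Finset.sum_mul, ← mul_div_assoc, div_le_iff₀ p]
  linarith

theorem kx {X : Cx D} {A : Am D} {b ν : ι → ℤ} {c c₀ c₁ : ℕ} (hn : 0 < n) (hc : 0 < c)
    (hC : Can D X.l X.w) (hl : ∀ i, ν i < c * (X.l i + 1)) (R : NV5.Cn D b {i | ν i < c * X.l i})
    (g₀ : ∀ j : ℕ, Gens D fun i => j * ν i + c₀ * A.e i)
    (g₁ : ∀ j : ℕ, Gens D fun i => j * (b - ν) i + c₁ * A.e i) : Kp D ν A.e := by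
  obtain ⟨H, hF⟩ := dKAH n M ι D A
  have hH := hF.1
  obtain ⟨β, b1, b2, b3⟩ := XC.tt R.thol
  obtain ⟨σ, Θ, φ, s1, s2, s3⟩ := all R hH (fun i => (c * X.l i - ν i).toNat) fun i h => by
    have := Int.toNat_eq_zero.not.1 h
    change ν i < c * X.l i
    omega
  have c0' : (0 : ℝ) < c := Nat.cast_pos.2 hc
  obtain ⟨Θ', φ', p1, p2⟩ := bdy D (fun i => ((ν i - c * X.l i).toNat : ℝ) / c) fun i =>
    ⟨by positivity, by
      rw [div_lt_one c0', Nat.cast_lt]
      have := hl i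
      rw [mul_add] at this
      omega⟩
  obtain ⟨d₀, z₀, hz₀, -, im⟩ := R.imm
  have t₀ := lv_lg (R.thol d₀ z₀ hz₀).1 (R.thol d₀ z₀ hz₀).2.1
  have v0 := KL.vol_pos hH.toMet b1.1.toForm b2 (D.mem d₀) (mem_tgt d₀ hz₀) (by
    rw [b3 d₀ z₀ hz₀]
    exact pd_of_lv t₀.1 fun v hv => (t₀.2 v).2 fun t ht => hv (im v t ht))
  obtain ⟨K, K0, hK, -⟩ := (mBD n M H hH.toMet).1 β b1.1.toForm
  obtain ⟨k, hk⟩ := exists_nat_ge K
  have c1 : (1 : ℝ) ≤ c := Nat.one_le_cast.2 hc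
  have c2 : (c : ℝ)⁻¹ ≤ 1 := inv_le_one_of_one_le₀ c1
  have c3 : 0 ≤ (c : ℝ)⁻¹ := by positivity
  refine ⟨k + 2, n + 2, by positivity, fun j hj => ?_⟩
  have j0 : (0 : ℝ) < j := Nat.cast_pos.2 hj
  have e0 : 0 < (j : ℝ)⁻¹ := inv_pos.2 j0
  have η0 := mul_pos (pow_pos e0 n) v0
  have f1 := b1.1.smul (1 + (j : ℝ)⁻¹)
  obtain ⟨ε₃, h3, h4, h5⟩ := ((s3 _ (1 + (j : ℝ)⁻¹) _ f1 (by simpa using b2.smul (by positivity))
    η0 fun d z hz => congrArg ((1 + (j : ℝ)⁻¹) • ·) (b3 d z hz)).and (Ioc_mem_nhdsGT e0)).exists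
  obtain ⟨ε, rfl⟩ : ∃ ε, ε₃ = 3 * ε := ⟨ε₃ / 3, by ring⟩
  have ε0 : 0 < ε := by linarith
  obtain ⟨T, ψ, t1, t2⟩ := XC.nef hF g₀ ε0
  obtain ⟨T', ψ', t3, t4⟩ := XC.nef hF g₁ ε0
  have pH := fun e he z hz => (hH.pos e he z hz).posSemidef
  have cG := (t1.1.add (b1.1.smul (j : ℝ)⁻¹)).add (hH.toClo.smul (2 * ε))
  have l1 : M.Le ((j : ℝ)⁻¹ • β) (T + (j : ℝ)⁻¹ • β + (2 * ε) • H) := fun e he z hz => by
    refine (congrArg Matrix.PosSemidef ?_).mp
      ((le0.1 t2 e he z hz).add (psd_rsmul (pH e he z hz) ε0.le))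
    simp only [Pi.add_apply, Pi.smul_apply]
    module
  have hG : M.Kae (T + (j : ℝ)⁻¹ • β + (2 * ε) • H) :=
    { cG, (hH.toMet.smul ε0).of_le cG.toForm (fun e he z hz => by
      refine (congrArg Matrix.PosSemidef ?_).mp
        ((le0.1 t2 e he z hz).add (psd_rsmul (le0.1 b2 e he z hz) e0.le))
      simp only [Pi.add_apply, Pi.smul_apply]
      module) with }
  obtain ⟨f, f2, f3, -⟩ := XC.diff b1 (XC.congr (XC.add t1 t3) (funext fun i => by simp)
    (fun _ _ _ _ => rfl) fun _ _ => rfl)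
  have c0 := f1.add (hH.toClo.smul (3 * ε))
  have hB₀ : M.Kae ((1 + (j : ℝ)⁻¹) • β + (3 * ε) • H) :=
    { c0, (hH.toMet.smul h4).of_le c0.toForm (fun e he z hz => by
      simpa using psd_rsmul (le0.1 b2 e he z hz) (show 0 ≤ 1 + (j : ℝ)⁻¹ by positivity)) with }
  have cB := c0.add ((mHES n M).1 f f2)
  have l2 : M.Le (T + (j : ℝ)⁻¹ • β + (2 * ε) • H)
      ((1 + (j : ℝ)⁻¹) • β + (3 * ε) • H + M.hs f) := fun e he z hz => by
    refine (congrArg Matrix.PosSemidef ?_).mp (le0.1 t4 e he z hz)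
    have := f3 e he z hz
    simp only [Pi.add_apply, Pi.smul_apply] at this ⊢
    rw [eq_sub_of_add_eq' this]
    module
  have hB : M.Kae ((1 + (j : ℝ)⁻¹) • β + (3 * ε) • H + M.hs f) :=
    { cB, hG.toMet.of_le cB.toForm l2 with }
  obtain ⟨F, F1, F2, -⟩ := XC.diff (XC.can X hC hG.toMet) (XC.congr
    (XC.add (XC.smul (c : ℝ)⁻¹ (XC.add t1 s2)) (XC.smul (-1) p1)) (funext fun i => by
      have : (((c * X.l i - ν i).toNat : ℤ) - ((ν i - c * X.l i).toNat : ℤ) : ℝ) =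
          (c * X.l i - ν i : ℤ) := by
        rw [← Int.cast_sub, ← neg_sub (c * X.l i), Int.toNat_sub_toNat_neg]
      simp only [Pi.smul_apply, Pi.add_apply, smul_eq_mul]
      push_cast at this
      rw [eq_add_of_sub_eq this]
      field_simp
      ring) (fun _ _ _ _ => rfl) fun _ _ => rfl)
  obtain ⟨χ, l, W, hb⟩ := p2 _ _ hG hB
  obtain ⟨u, Q, u1, u2, q1, q2, q3, q4⟩ := kxb HS21.st_AUBIN hn hG hB l2 s1 F1 c3 η0 hb
    fun e he z hz => by
      refine (congrArg Matrix.PosSemidef ?_).mp (((psd_rsmul (le0.1 t2 e he z hz)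
        (sub_nonneg.2 c2)).add (psd_rsmul (le0.1 b2 e he z hz) e0.le)).add
        (psd_rsmul (pH e he z hz) (show 0 ≤ (1 + (c : ℝ)⁻¹) * ε by positivity)))
      have := F2 e he z hz
      simp only [Pi.add_apply, Pi.sub_apply, Pi.smul_apply, Pi.neg_apply] at this ⊢
      rw [sub_eq_neg_add (M.hs F e z), ← this]
      module
  obtain ⟨r1, ⟨C, r2⟩, r3⟩ := XC.bd (XC.congr (XC.add (XC.add (XC.smul j t1)
    (XC.smul (k + 2) (XC.amp hF))) (XC.smul j (XC.sm D u1)))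
    (P' := fun i => ((j * ν i + (k + 2 : ℕ) * A.e i : ℤ) : ℝ)) (funext fun i => by simp)
    (fun _ _ _ _ => rfl) fun _ _ => rfl)
  refine ⟨_, Q, _, _, _, C, u2, q1, q2, q3, ?_, r1, r2, fun d z hz ho y => ?_,
    XC.congr (XC.add t1 (XC.sm D u1)) (add_zero _).symm (fun _ _ _ _ => rfl) fun _ _ => rfl,
    fun e he z hz => ?_⟩
  · have v1 := vol_le hH.toMet hG.toMet (b1.1.toForm.smul _) (by simpa using b2.smul e0.le) l1
    simp only [dq_smul] at v1
    rw [integral_const_mul, ← vol hG u1 u2.toMet] at v1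
    rw [mix hB₀ f2 hB.toMet s1.clo] at q4
    nlinarith [mul_le_mul_of_nonneg_left h3 c3, mul_le_of_le_one_left η0.le c2]
  · rw [r3 d z hz ho, ← RHO.nq_smul30, ← sub_nonneg]
    have m := D.mem d
    have t := mem_tgt d hz
    have j1 : (j : ℝ) * (3 * ε) ≤ 1 := by rwa [← le_inv_mul_iff₀ j0, mul_one]
    have p := (hK _ m z t).add (psd_rsmul (pH _ m z t)
      (show 0 ≤ k + 2 - K - j * (2 * ε) by nlinarith))
    refine (Complex.nonneg_iff.1 (p.dotProduct_mulVec_nonneg y)).1.trans_eq ?_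
    simp only [nq, ← sub_re, ← dotProduct_sub, ← Matrix.sub_mulVec, Pi.add_apply, Pi.smul_apply,
      smul_add, smul_smul, mul_inv_cancel₀ j0.ne']
    congr 3
    module
  · refine (congrArg Matrix.PosSemidef ?_).mp ((psd_rsmul (le0.1 b2 e he z hz) e0.le).add
      (psd_rsmul (pH e he z hz) (show 0 ≤ 2 * ε by positivity)))
    simp only [Pi.add_apply, Pi.smul_apply]
    abel

end Pool.Agent.Lib.S5.P63
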