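import Pool.Agent.Lib.NV5.X_KXA

/-! Project S5: the regularised Monge-Ampère equation with a boundary. -/

open scoped Classical Topology ContDiff ENNReal ComplexOrder Matrix
open Set MeasureTheory Complex Metric Filter

set_option linter.unusedVariables false

noncomputable section

namespace Pool.Agent.Lib.S5.P63

open Pool.Agent.Lib.HS32 Pool.Agent.Lib.DM.K63

variable {n : ℕ} {M : Mf n} [M.Cpt] {G H B Θ Θ' : M.Fam (Mat n)} {σ F : M.X → ℝ}
  {χ l : ℝ → M.X → ℝ} {W : ℝ}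

/-- Bounded potentials put little mass near the zero set. -/
theorem small (hH : M.Kae H) (hG : M.Kae G) (h : Sg M σ Θ) (K : ℝ) {η : ℝ} (η0 : 0 < η) :
    ∀ᶠ δ in 𝓝[>] (0 : ℝ), ∀ u, M.Sm u → M.Met (G + M.hs u) → (∀ x, |u x| ≤ K) →
      ∫ x, δ / (σ x + δ) * M.tr (G + M.hs u) H x ∂M.mu (G + M.hs u) ≤ η := by
  obtain ⟨C, C0, h1, -⟩ := (mBD n M H hH.toMet).1 Θ h.clo.toForm
  have hC := h.low hH.toMet C0.le h1
  obtain ⟨S, S0, hS⟩ := h.sm.exists_bound
  have σ1 : ∀ x, 0 ≤ σ x ∧ σ x ≤ S := fun x => ⟨h.nn x, (le_abs_self _).trans (hS x)⟩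
  have hGH := hG.toClo.add hH.toClo
  obtain ⟨A, A0, h2⟩ := psi_bd hH.toMet h.sm σ1 h.ne hC
    ((mINV n M H hH.toMet).1 _ hGH.toTen).2.2.2.1
  set V := ∫ x, M.dq H (G + H) x ∂M.mu H with hV
  set Z := |A + n * C * (K + K) * V| + 1 with hZ
  have Z0 : 0 < Z := by positivity
  set R := 2 * Z / η with hR
  have R0 : 0 < R := by positivity
  filter_upwards [Ioc_mem_nhdsGT zero_lt_one, Ioc_mem_nhdsGT
    (show 0 < η / (2 * Real.exp R * (|V| + 1)) by positivity)] with δ δ1 δ2 u u1 u2 hK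
  have δ0 := δ1.1
  have hf := h.lsm δ0
  have fS : ∀ x, Real.log (σ x + δ) ≤ S := fun x => by
    linarith [Real.log_le_sub_one_of_pos (h.pos δ0 x), (σ1 x).2, δ1.2]
  have hψ := (Mf.sm_const S).sub hf
  have c1 := cln' hH hG u1 u2 hψ (fun e he z hz => by
    have := hC δ δ0 e he z hz
    simp only [Pi.add_apply, Pi.zero_apply, sub_zero] at this
    simp only [hs_const_sub hf S e he z hz, sub_neg_eq_add]
    exact this) C0.le fun x => abs_le.1 (hK x)
  have hm : M.Met (G + M.hs u + H) := u2.of_le (u2.toForm.add hH.toForm)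
    fun e he z hz => (congrArg Matrix.PosSemidef (add_sub_cancel_left _ _)).mpr
      (hH.pos e he z hz).posSemidef
  have cq := dq_c hH.toMet hm.toTen
  have cl := (h.lam δ0).continuous
  have v1 : ∫ x, M.dq H (G + M.hs u + H) x ∂M.mu H = V := by
    rw [add_right_comm]; exact mCOH n M H _ u hH.toMet hGH u1
  calc _ ≤ _ := tr_le hH.toMet u2 hH.toForm hH.toMet.nonneg cl fun x => (h.lam01 δ0 x).1
    _ ≤ ∫ x, (δ * Real.exp R * M.dq H (G + M.hs u + H) x +
          R⁻¹ * ((S - Real.log (σ x + δ)) * M.dq H (G + M.hs u + H) x)) ∂M.mu H :=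
        integral_mono (int hH.toMet (cl.mul cq)) (int hH.toMet ((continuous_const.mul cq).add
          (continuous_const.mul (hψ.continuous.mul cq)))) fun x =>
          (mul_le_mul_of_nonneg_right (lam_le (h.nn x) δ0 S0.le R0 (fS x))
            (((mINV n M H hH.toMet).2.2.2.2.2.2.2 _ hm).1 x).le).trans_eq (by ring)
    _ ≤ η / 2 + η / 2 := by
        rw [integral_add (int hH.toMet (continuous_const.fun_mul cq))
          (int hH.toMet (continuous_const.fun_mul (hψ.continuous.fun_mul cq))), integral_const_mul,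
          integral_const_mul, v1]
        refine add_le_add ?_ ?_
        · have k := (le_div_iff₀ (by positivity)).1 δ2.2
          have k2 := mul_le_mul_of_nonneg_left ((le_abs_self V).trans
            (le_add_of_nonneg_right zero_le_one)) (mul_pos δ0 (Real.exp_pos R)).le
          linarith
        · have k : R⁻¹ * Z = η / 2 := by rw [hR]; field_simp
          rw [← k]
          refine mul_le_mul_of_nonneg_left ?_ (inv_pos.2 R0).le
          linarith [h2 δ δ1, le_abs_self (A + n * C * (K + K) * V)]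
    _ = η := add_halves η

variable (M G B Θ' χ l W) in
/-- A regularised boundary with a barrier. -/
structure Bdy : Prop where
  loc : ∀ δ ∈ Ioc (0 : ℝ) 1, M.Sm (χ δ) ∧ M.Sm (l δ) ∧ (∀ x, χ δ x ≤ W ∧ 0 ≤ l δ x) ∧
    M.Le 0 (M.hs (χ δ) + Θ' + fun e z => l δ (e.symm z) • B e z) ∧
    ∃ v, M.Sm v ∧ M.Met (G + M.hs v) ∧ (∀ x, |v x| ≤ W) ∧
      ∀ x, Real.exp (-W - χ δ x) ≤ M.dq G (G + M.hs v) x
  lim : ∀ K η : ℝ, 0 < η → ∀ᶠ δ in 𝓝[>] (0 : ℝ), ∀ u, M.Sm u → M.Met (G + M.hs u) →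
    (∀ x, |u x| ≤ K) → ∫ x, l δ x * M.tr (G + M.hs u) B x ∂M.mu (G + M.hs u) ≤ η

/-- The solutions are uniformly bounded. -/
theorem mab (hA : HS.St_AUBIN) (hn : 0 < n) (hG : M.Kae G) (h : Sg M σ Θ) (hF : M.Sm F) {a : ℝ}
    (a0 : 0 ≤ a) (hb : Bdy M G B Θ' χ l W) : ∃ K : ℝ, ∀ δ ∈ Ioc (0 : ℝ) 1, ∃ u, M.Sm u ∧
      M.Kae (G + M.hs u) ∧ (∀ x, |u x| ≤ K) ∧ ∀ x, M.dq G (G + M.hs u) x =
        Real.exp (u x + (F x + a * Real.log (σ x + δ) - χ δ x)) := by
  obtain ⟨C, C0, h1, -⟩ := (mBD n M G hG.toMet).1 Θ h.clo.toForm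
  obtain ⟨S, S0, hS⟩ := h.sm.exists_bound
  have σ1 : ∀ x, 0 ≤ σ x ∧ σ x ≤ S := fun x => ⟨h.nn x, (le_abs_self _).trans (hS x)⟩
  obtain ⟨L, L0, hL⟩ := hF.exists_bound
  obtain ⟨A, A0, h2⟩ := psi_bd hG.toMet h.sm σ1 h.ne (h.low hG.toMet C0.le h1) (Mf.sm_const 1)
  obtain ⟨P, hP⟩ := sup_le hG.toMet 1
  obtain ⟨-, fin, -, v0, -⟩ := mMU n M G hG.toMet
  set V := (M.mu G).real univ with hV
  refine ⟨max (3 * W + L + a * S) ((V * (1 + (L + W)) + a * A + P) / V), fun δ δ1 => ?_⟩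
  obtain ⟨b1, -, b2, -, v, v1, v2, v3, v4⟩ := hb.loc δ δ1
  have hf := h.lsm δ1.1
  have fS : ∀ x, Real.log (σ x + δ) ≤ S := fun x => by
    linarith [Real.log_le_sub_one_of_pos (h.pos δ1.1 x), (σ1 x).2, δ1.2]
  obtain ⟨u, u1, u2, u3⟩ := hA n M G _ 1 hn hG ((hF.add (hf.const_mul a)).sub b1) one_pos
  simp only [one_mul] at u3
  have hψ := (Mf.sm_const S).sub hf
  refine ⟨u, u1, u2, fun x => abs_le.2 ⟨neg_le.1 (le_max_of_le_left ?_), le_max_of_le_right ?_⟩, u3⟩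
  · have w1 := u1.sub v1
    obtain ⟨y, hy⟩ := w1.exists_min
    have k := (((mLAP n M _ _ w1 w1).2.2 G hG.toMet).2.2.1 y 0).2.2.2.2.2.2.2.2.2
      (Eventually.of_forall hy) |>.2.2 _ (Mf.ch_mem y) (Mf.mem_ch y)
    rw [((mLAP n M u v u1 v1).1 0 _ (Mf.ch_mem y) _ (Mf.ch_tgt y)).2.2.1] at k
    have k2 := HS76.det_mono (B := M.ev (G + M.hs u) y) (v2.ev_pos y)
      ((congrArg Matrix.PosSemidef (add_sub_add_left_eq_sub _ _ _)).mpr k)
    have k3 : M.dq G (G + M.hs v) y ≤ M.dq G (G + M.hs u) y := by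
      rw [Mf.dq, Mf.dq, HS76.det_eq_re (hG.toMet.ev_pos y).posSemidef, div_ofReal_re, div_ofReal_re]
      exact div_le_div_of_nonneg_right k2 (HS76.det_re_pos (hG.toMet.ev_pos y)).le
    have k4 := (v4 y).trans k3
    rw [u3, Real.exp_le_exp] at k4
    linarith [hy x, (le_abs_self _).trans (hL y), mul_le_mul_of_nonneg_left (fS y) a0,
      abs_le.1 (v3 x), abs_le.1 (v3 y)]
  · have k1 := hP u u1 (by rw [one_smul]; exact u2.toMet.nonneg) x
    have k2 := mCOH n M G G u hG.toMet hG.toClo u1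
    simp only [hG.toMet.dq_self, integral_const, smul_eq_mul, mul_one] at k2
    have k3 := h2 δ δ1
    simp only [mul_one] at k3
    have k4 : ∫ y, u y ∂M.mu G ≤
        ∫ y, (M.dq G (G + M.hs u) y + (L + W) + a * (S - Real.log (σ y + δ))) ∂M.mu G :=
      integral_mono (int hG.toMet u1.continuous) (int hG.toMet (((dq_c hG.toMet u2.toTen).add
        continuous_const).add (hψ.const_mul a).continuous)) fun y => by
          have := Real.add_one_le_exp (u y + (F y + a * Real.log (σ y + δ) - χ δ y))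
          simp only [u3]
          linarith [(neg_le_abs _).trans (hL y), mul_nonneg a0 S0.le, (b2 y).1]
    rw [integral_add (int hG.toMet ((dq_c hG.toMet u2.toTen).fun_add continuous_const))
      (int hG.toMet (hψ.const_mul a).continuous), integral_add
      (int hG.toMet (dq_c hG.toMet u2.toTen)) (integrable_const _), k2, integral_const,
      integral_const_mul, smul_eq_mul] at k4
    rw [le_div_iff₀ v0]
    linarith [mul_le_mul_of_nonneg_left k3 a0]

/-- The metrics with a mean bound for the Ricci curvature. -/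
theorem kxb (hA : HS.St_AUBIN) (hn : 0 < n) (hG : M.Kae G) (hB : M.Kae B) (hl : M.Le G B)
    (h : Sg M σ Θ) (hF : M.Sm F) {a η : ℝ} (a0 : 0 ≤ a) (η0 : 0 < η)
    (hb : Bdy M G B Θ' χ l W) (hr : M.Le (M.hs F - M.ric G) (G + a • Θ - Θ')) :
    ∃ u Q, M.Sm u ∧ M.Kae (G + M.hs u) ∧ M.Form Q ∧ M.Le 0 Q ∧ M.Le 0 (Q + M.ric (G + M.hs u)) ∧
      ∫ x, M.tr (G + M.hs u) Q x ∂M.mu (G + M.hs u) ≤
        n * (M.mu (G + M.hs u)).real univ + a * ∫ x, M.tr B Θ x ∂M.mu B + η := by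
  obtain ⟨C, C0, h1, h2⟩ := (mBD n M B hB.toMet).1 Θ h.clo.toForm
  obtain ⟨K, hK⟩ := mab hA hn hG h hF a0 hb
  obtain ⟨δ, ⟨d1, d2⟩, δ1⟩ := (((small hB hG h K (η := η / 2 / (a * C + 1)) (by positivity)).and
    (hb.lim K _ (half_pos η0))).and (Ioc_mem_nhdsGT zero_lt_one)).exists
  obtain ⟨u, u1, u2, u0, u3⟩ := hK δ δ1
  obtain ⟨b1, b2, b3, b4, -⟩ := hb.loc δ δ1
  have u4 := d1 u u1 u2.toMet u0
  have u5 := d2 u u1 u2.toMet u0
  have hδ := δ1.1
  have fl := (mHES n M).1 _ (h.lsm hδ)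
  have f := (fl.toForm.add h.clo.toForm).add ((hB.toForm.smul C).fsmul (h.lam hδ))
  have f' := hB.toForm.fsmul b2
  have q := h.qq hδ h2
  refine ⟨u, _, u1, u2, (u2.toForm.add (f.smul a)).add f', ?_, le0.2 fun e he z hz => ?_, ?_⟩
  · simpa using (u2.toMet.nonneg.add (q.smul a0)).add (le0.2 fun e he z hz =>
      Mf.psd_rsmul (hB.pos e he z hz).posSemidef (b3 (e.symm z)).2)
  · have r := ((mHES n M).2.2.2.2.2.2.2.2.2 _ G u2.toMet hG.toMet).2 e he z hz
    simp only [u3, Real.log_exp] at r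
    have s1 := h.lsm hδ
    have s2 := s1.const_mul a
    have e0 := ((mLAP n M _ _ u1 ((hF.add s2).sub b1)).1 0 e he z hz).2.1
    have e1 := ((mLAP n M _ _ (hF.add s2) b1).1 0 e he z hz).2.2.1
    have e2 := ((mLAP n M _ _ hF s2).1 0 e he z hz).2.1
    have e3 := ((mLAP n M _ _ s1 s1).1 a e he z hz).2.2.2.1
    have k := ((hr e he z hz).add (Mf.psd_rsmul (Mf.psd_rsmul (Mf.psd_rsmul
      (hB.pos e he z hz).posSemidef C0.le) (h.lam01 hδ (e.symm z)).1) a0)).add (le0.1 b4 e he z hz)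
    refine (congrArg Matrix.PosSemidef ?_).mp k
    simp only [Pi.add_apply, Pi.sub_apply, Pi.smul_apply, r, e0, e1, e2, e3, smul_add]
    abel
  · have := (mMU n M _ u2.toMet).2.1
    have i1 := (int u2.toMet (tr_c u2.toMet f.toTen)).const_mul a
    simp only [Mf.tr_add (T := fun e z => l δ (e.symm z) • B e z), Mf.tr_add (S := G + M.hs u),
      Mf.tr_smul a, u2.toMet.tr_self, Mf.tr_fsmul (l δ)]
    rw [integral_add ((integrable_const _).fun_add i1)
      (int u2.toMet (b2.continuous.fun_mul (tr_c u2.toMet hB.toTen))),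
      integral_add (integrable_const _) i1, integral_const_mul, h.qint u2 hB.toForm hδ,
      mix hG u1 u2.toMet h.clo, integral_const, smul_eq_mul]
    have k := (le_div_iff₀ (by positivity)).1 u4
    have k2 : 0 ≤ ∫ x, δ / (σ x + δ) * M.tr (G + M.hs u) B x ∂M.mu (G + M.hs u) :=
      integral_nonneg fun x => mul_nonneg (h.lam01 hδ x).1 (u2.toMet.tr_nonneg hB.toMet.nonneg x)
    nlinarith [mul_le_mul_of_nonneg_left (h.deg_le hG hB hl) a0]

end Pool.Agent.Lib.S5.P63
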