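import Pool.Agent.Lib.S5.PDefs
import Pool.Agent.Lib.NV5.D_CRV
import Pool.Agent.Lib.NV5.D_NRM
import Pool.Agent.Lib.HS76.Diag

/-! Project S5: the curvature of tensors that alternate in blocks. -/

open scoped Classical Topology ContDiff ComplexOrder Matrix
open Set Complex Metric Filter

noncomputable section

namespace Pool.Agent.Lib.S5.P63

open Pool.Agent.Lib.SV (E)
open Pool.Agent.Lib.HS32 Pool.Agent.Lib.HS32.Mf Pool.Agent.Lib.DM Pool.Agent.Lib.DM.CRV
open Pool.Agent.Lib.RAA Pool.Agent.Lib.RAA.A4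

variable {n N r : ℕ} {β : Fin N → Fin r} {b : (Fin N → Fin n) → ℂ}

theorem al_mul (hb : Al β b) (S : Mat n) : Al β (kp N S *ᵥ b) := fun I p p' h1 h2 => by
  simp only [Matrix.mulVec, dotProduct, kp, kq, Matrix.of_apply, ← Finset.sum_neg_distrib]
  refine (Fintype.sum_equiv (Equiv.arrowCongr (Equiv.swap p p') (Equiv.refl _)) _ _
    fun K => ?_).symm
  have e : (Equiv.arrowCongr (Equiv.swap p p') (Equiv.refl _)) K = K ∘ Equiv.swap p p' := by
    funext a
    simp
  rw [e, hb K p p' h1 h2, mul_neg]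
  exact congrArg (fun t => -(t * b K))
    (Equiv.prod_comp (Equiv.swap p p') fun a => S (I a) (K a)).symm

theorem al_sum (hb : Al β b) {I : Fin N → Fin n} (hI : b I ≠ 0) {l : Fin n → ℝ}
    (hl : ∀ i, 0 ≤ l i) : ∑ a, l (I a) ≤ r * ∑ i, l i := by
  have inj : Function.Injective fun a => (β a, I a) := fun a a' h => by
    by_contra k
    have := hb I a a' k (congrArg Prod.fst h)
    have e : I a = I a' := congrArg Prod.snd h
    rw [show I ∘ Equiv.swap a a' = I from funext (Equiv.apply_swap_eq_self e)] at this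
    exact hI (self_eq_neg.1 this)
  calc _ = ∑ x ∈ Finset.univ.image fun a => (β a, I a), l x.2 :=
        (Finset.sum_image fun a _ a' _ h => inj h).symm
    _ ≤ ∑ x : Fin r × Fin n, l x.2 :=
        Finset.sum_le_sum_of_subset_of_nonneg (Finset.subset_univ _) fun x _ _ => hl _
    _ = _ := by simp [Fintype.sum_prod_type]

theorem hq_diag (w : Fin N → Fin n → ℝ) (b : (Fin N → Fin n) → ℂ) :
    hq (kq fun a => Matrix.diagonal fun i => (w a i : ℂ)) b =
      ∑ I, (∏ a, w a (I a)) * normSq (b I) := by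
  have e : (kq fun a => Matrix.diagonal fun i => (w a i : ℂ)) =
      Matrix.diagonal fun I => ((∏ a, w a (I a) : ℝ) : ℂ) := by
    ext I K
    by_cases h : I = K
    · simp [h, kq]
    · obtain ⟨a, ha⟩ := Function.ne_iff.1 h
      rw [Matrix.diagonal_apply_ne _ h]
      exact Finset.prod_eq_zero (Finset.mem_univ a) (Matrix.diagonal_apply_ne _ ha)
  rw [e, hq, dotProduct, re_sum]
  refine Finset.sum_congr rfl fun I _ => ?_
  rw [Matrix.mulVec_diagonal, mul_left_comm, re_ofReal_mul, Pi.star_apply, star_def,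
    ← normSq_eq_conj_mul_self, ofReal_re]

theorem alt_le {h P : Mat n} (hh : h.PosDef) (hP : P.PosSemidef) (hb : Al β b) :
    hq (der N h P) b ≤ r * trm h P * hq (kp N h) b := by
  obtain ⟨W, l, h1, h2⟩ := HS76.simul_diag hh hP.1
  obtain ⟨k1, k2, k3, -⟩ := st_KQ N (Fin n) (Fin n) (Fin n)
  have h3 : W * (Wᴴ * h) = 1 := mul_eq_one_comm.mp h1
  have l0 : ∀ i, 0 ≤ l i := fun i => by
    have := Matrix.posSemidef_diagonal_iff.1 (h2 ▸ hP.conjTranspose_mul_mul_same W) i
    exact_mod_cast this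
  have t : trm h P = ∑ i, l i := by
    rw [trm, Matrix.inv_eq_left_inv (B := W * Wᴴ) (by rw [Matrix.mul_assoc, h3]), Matrix.mul_assoc,
      Matrix.trace_mul_comm, h2, Matrix.trace_diagonal, ← ofReal_sum, ofReal_re]
  have hb' := al_mul hb (Wᴴ * h)
  set c := kp N (Wᴴ * h) *ᵥ b with hc
  have e : b = kp N W *ᵥ c := by
    rw [hc, Matrix.mulVec_mulVec, kp, kp, k1, h3, ← kp, k3, Matrix.one_mulVec]
  have key : ∀ (A : Fin N → Mat n) (w : Fin N → Fin n → ℝ),
      (∀ a, Wᴴ * A a * W = Matrix.diagonal fun i => (w a i : ℂ)) →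
      hq (kq A) b = ∑ I, (∏ a, w a (I a)) * normSq (c I) := fun A w hw => by
    rw [e, ← NRM.hq_conj, kp, (k2 _).1, k1, k1, funext hw, hq_diag]
  have h4 : Wᴴ * h * W = Matrix.diagonal fun i => ((1 : ℝ) : ℂ) := by simpa using h1
  rw [der, hq_sum, kp, key _ (fun _ _ => 1) fun _ => h4, t, Finset.mul_sum,
    Finset.sum_congr rfl fun a _ => key _ (Function.update (fun _ _ => 1) a l) fun a' => by
      by_cases k : a' = a
      · simpa [k] using h2
      · simpa [k] using h1, Finset.sum_comm]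
  refine Finset.sum_le_sum fun I _ => ?_
  have p : ∀ a, ∏ a', Function.update (fun _ _ => (1 : ℝ)) a l a' (I a') = l (I a) := fun a => by
    rw [Finset.prod_eq_single a (fun a' _ k => by simp [k]) (by simp), Function.update_self]
  simp only [p, ← Finset.sum_mul, Finset.prod_const_one, one_mul]
  by_cases k : c I = 0
  · simp [k]
  · exact mul_le_mul_of_nonneg_right (al_sum hb' k l0) (normSq_nonneg _)

variable {T : E n → Mat n} {z : E n} {s : E n → (Fin N → Fin n) → ℂ} {Q : Mat n}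

theorem tr_der (h : Ok T z) (hc : ∀ᶠ w in 𝓝 z, ClM T w) (hs : HolN s z) (hz : s z ≠ 0) :
    hq (der N (T z) (hess (ld T) z)) (s z) / uw N T s z ≤ trm (T z) (hl (uw N T s) z) := by
  have p0 := h.pos
  obtain ⟨W, hW⟩ := psd_factor p0.inv.posSemidef
  set Q := hl (uw N T s) z with hQ
  have e1 : trm (T z) Q = ∑ a, nq Q (star (W a)) := by
    rw [trm, hW, Matrix.mul_assoc, Matrix.trace_mul_comm]
    simp only [Matrix.trace, Matrix.diag, re_sum, nq, star_star, dotProduct, Matrix.mulVec,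
      Matrix.mul_apply, Matrix.conjTranspose_apply, Pi.star_apply, Finset.sum_mul, Finset.mul_sum]
    refine Finset.sum_congr rfl fun a _ => ?_
    rw [Finset.sum_comm]
    exact Finset.sum_congr rfl fun i _ => Finset.sum_congr rfl fun j _ => by rw [mul_assoc]
  have e2 : ∑ a, cv T (star (W a)) z = hess (ld T) z := by
    rw [← ric_eq h hc]
    simp only [cv_eq]
    rw [Finset.sum_comm]
    refine Finset.sum_congr rfl fun k _ => ?_
    rw [Finset.sum_comm]
    refine Finset.sum_congr rfl fun l _ => ?_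
    rw [← Finset.sum_smul, hW]
    simp only [Matrix.mul_apply, Matrix.conjTranspose_apply, Pi.star_apply, star_star]
  rw [← e2, (st_KQ N (Fin n) (Fin n) (Fin n)).2.2.2.2.2.2.2.1, hq_sum, Finset.sum_div, e1]
  exact Finset.sum_le_sum fun a _ => gr h hs hz (star (W a))

/-- The trace of the curvature. -/
theorem trace (h : Ok T z) (hc : ∀ᶠ w in 𝓝 z, ClM T w) (hs : HolN s z) (ha : Al β (s z))
    (hQ : Q.PosSemidef) (hr : (Q - hess (ld T) z).PosSemidef) (hz : s z ≠ 0) :
    -(r * trm (T z) (Q - hess (ld T) z)) ≤ trm (T z) (hl (uw N T s) z) := by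
  obtain ⟨-, -, -, -, -, -, k1, k2, -⟩ := st_KQ N (Fin n) (Fin n) (Fin n)
  refine le_trans ?_ (tr_der h hc hs hz)
  have a := alt_le h.pos hr ha
  have b := hq_nonneg (k1 _ Q 0 h.pos (by simpa using hQ)) (s z)
  have c := k2 (T z) (Fin 2) ![hess (ld T) z, Q - hess (ld T) z]
  simp only [Fin.sum_univ_two, Matrix.cons_val_zero, Matrix.cons_val_one, add_sub_cancel] at c
  rw [mul_zero, zero_smul, add_zero, c, hq_add] at b
  rw [le_div_iff₀ (pos h hz), uw]
  linarith

end Pool.Agent.Lib.S5.P63
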