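import Pool.Agent.Lib.S5.R5Defs
import Pool.Agent.Lib.NV6.R_All

/-! Project S5: the lower bound for the reference metric. -/

open scoped Classical Topology ContDiff ENNReal
open Set MeasureTheory Complex Metric Filter

noncomputable section

namespace Pool.Agent.Lib.R6

open Pool.Agent.Lib.SV (E nsq)
open Pool.Agent.Lib.HS32 Pool.Agent.Lib.EX Pool.Agent.Lib.EXS Pool.Agent.Lib.ZL
open Pool.Agent.Lib.ZQ (offz)
open Pool.Agent.Lib.NV2 (Kd)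
open Pool.Agent.Lib.NV5 (Rg FM VF Hg dv)
open Pool.Agent.Lib.NV6.J (Se pv)

namespace R5

section val

variable {n : ℕ} {M : Mf n} [M.Cpt] {ι : Type} [Fintype ι] [DecidableEq ι] {D : Ad M ι} {F : Type}
  [Field F] [Algebra ℂ F] {Φ : FM D F} {V : VF n F} {m : ι → V.P → ℤ} {π : Hg D → V.P}

theorem dva (m : ι → V.P → ℤ) (A B : ι → ℤ) (p : V.P) : dv m (A + B) p = dv m A p + dv m B p := by
  simp only [NV5.dv, Pi.add_apply, add_mul, Finset.sum_add_distrib]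

theorem one (hB : Φ.Br V m π) (q : ℤ) (p : V.P) : ∃ (w : F) (R : ι → ℤ), w ≠ 0 ∧
    V.Sec (dv m R) w ∧ ∀ (Λ : ι → ℤ) f, V.v p f ≤ WithZero.exp (dv m Λ p + q) →
      V.v p (f * w) ≤ WithZero.exp (dv m Λ p + dv m R p) := by
  have m0 : ∀ i p, m i p = 0 ∨ m i p = 1 := fun i p => by
    obtain ⟨h, rfl⟩ := hB.sur p
    exact ((hB.vl h).mul i).1
  by_cases h : ∃ i, m i p = 1
  · obtain ⟨i, hi⟩ := h
    have t0 : ∀ p j, 0 ≤ |q| * m j p := fun p j => by rcases m0 j p with h | h <;> simp [h]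
    refine ⟨1, fun _ => |q|, one_ne_zero, fun p' => ?_, fun Λ f hf => ?_⟩
    · rw [map_one, ← WithZero.exp_zero, WithZero.exp_le_exp]
      exact Finset.sum_nonneg fun j _ => t0 p' j
    · rw [mul_one]
      refine hf.trans (WithZero.exp_le_exp.2 (add_le_add le_rfl ?_))
      have := Finset.single_le_sum (f := fun j => |q| * m j p) (fun j _ => t0 p j) (Finset.mem_univ i)
      rw [hi, mul_one] at this
      exact (le_abs_self q).trans this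
  have z : ∀ Λ : ι → ℤ, dv m Λ p = 0 := fun Λ => Finset.sum_eq_zero fun j _ => by
    rw [(m0 j p).resolve_right fun h' => h ⟨j, h'⟩, mul_zero]
  by_cases h' : ∀ f, V.v p f ≤ 1
  · refine ⟨1, 0, one_ne_zero, fun p' => ?_, fun Λ f _ => ?_⟩
    · simp [NV5.dv]
    · rw [z, z, add_zero, WithZero.exp_zero]; exact h' _
  obtain ⟨f, hf⟩ := not_forall.1 h'
  obtain ⟨⟨s, t⟩, ⟨Qs, hs⟩, ⟨Qt, ht⟩, t0, rfl⟩ := Φ.frac f
  have t1 : Φ.ev t ≠ 0 := fun h => t0 (Φ.inj t ⟨_, ht⟩ h)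
  have st := (hB.sec Qt _).2 ⟨t, ht, rfl⟩
  have s1 := (hB.sec Qs _).2 ⟨s, hs, rfl⟩ p
  rw [z, WithZero.exp_zero] at s1
  have v0 : V.v p (Φ.ev t) ≠ 0 := (Valuation.ne_zero_iff _).2 t1
  have t2 : V.v p (Φ.ev t) ≤ WithZero.exp (-1) := by
    rw [← WithZero.log_le_iff_le_exp v0]
    have : V.v p (Φ.ev t) < WithZero.exp 0 := by
      rw [WithZero.exp_zero]
      by_contra hc
      refine hf ?_
      rw [map_div₀, div_le_one₀ (zero_lt_iff.2 v0)]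
      exact s1.trans (not_lt.1 hc)
    rw [← WithZero.log_lt_iff_lt_exp v0] at this
    omega
  refine ⟨Φ.ev t ^ q.natAbs, fun i => q.natAbs * Qt i, pow_ne_zero _ t1, fun p' => ?_,
    fun Λ f hf => ?_⟩
  · have e : dv m (fun i => q.natAbs * Qt i) p' = q.natAbs • dv m Qt p' := by
      simp only [NV5.dv, nsmul_eq_mul, Finset.mul_sum, mul_assoc]
    rw [map_pow, e, WithZero.exp_nsmul]
    exact pow_le_pow_left₀ zero_le (st p') _
  · rw [map_mul, map_pow]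
    refine (mul_le_mul' hf (pow_le_pow_left₀ zero_le t2 _)).trans ?_
    rw [← WithZero.exp_nsmul, ← WithZero.exp_add, WithZero.exp_le_exp, z, z]
    simp only [nsmul_eq_mul]
    omega

theorem clr (hB : Φ.Br V m π) {Q' : V.P → ℤ} (hQ : V.Fs Q') : ∃ (w : F) (R : ι → ℤ), w ≠ 0 ∧
    ∀ (Λ : ι → ℤ) f, V.Sec (dv m Λ + Q') f → V.Sec (dv m (Λ + R)) (f * w) := by
  have H : ∀ T : Finset V.P, ∃ (w : F) (R : ι → ℤ), w ≠ 0 ∧ V.Sec (dv m R) w ∧ ∀ p ∈ T,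
      ∀ (Λ : ι → ℤ) f, V.v p f ≤ WithZero.exp (dv m Λ p + Q' p) →
        V.v p (f * w) ≤ WithZero.exp (dv m Λ p + dv m R p) := fun T => by
    induction T using Finset.induction_on with
    | empty => exact ⟨1, 0, one_ne_zero, fun p => by simp [NV5.dv], by simp⟩
    | insert p T _ ih =>
      obtain ⟨w, R, w0, hw, h⟩ := ih
      obtain ⟨w', R', w0', hw', h'⟩ := one hB (Q' p) p
      refine ⟨w * w', R + R', mul_ne_zero w0 w0', fun q => ?_, fun q hq Λ f hf => ?_⟩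
      · rw [map_mul, dva, WithZero.exp_add]; exact mul_le_mul' (hw q) (hw' q)
      · rcases Finset.mem_insert.1 hq with rfl | hq
        · rw [mul_comm w, ← mul_assoc, map_mul, dva, add_comm (dv m R q), ← add_assoc,
            WithZero.exp_add]
          exact mul_le_mul' (h' Λ f hf) (hw q)
        · rw [← mul_assoc, map_mul, dva, ← add_assoc, WithZero.exp_add]
          exact mul_le_mul' (h q hq Λ f hf) (hw' q)
  have hf : {p | Q' p ≠ 0}.Finite := Filter.eventually_cofinite.1 hQ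
  obtain ⟨w, R, w0, hw, h⟩ := H hf.toFinset
  refine ⟨w, R, w0, fun Λ f hf' p => ?_⟩
  rw [dva]
  by_cases hp : Q' p = 0
  · have := hf' p
    rw [Pi.add_apply, hp, add_zero] at this
    rw [map_mul, WithZero.exp_add]
    exact mul_le_mul' this (hw p)
  · exact h p (hf.mem_toFinset.2 hp) Λ f (hf' p)

end val

theorem num {α : Type} [Fintype α] {G K : α → ℝ} {g w f p q e₁ e₂ e₃ e₄ e₅ C₁ C₄ : ℝ}
    (h₁ : g * e₁ ≤ C₁) (h₄ : 1 ≤ C₄ * (∑ a, G a) * e₅ * e₄) (C₁0 : 0 ≤ C₁) (C₄0 : 0 ≤ C₄)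
    (e0 : 0 ≤ e₅) (x0 : 0 ≤ w * f * p * e₂ * e₃)
    (h : ∀ a, G a * w * (f * p) * (e₂ * e₄) * e₃ ≤ K a * q) :
    g * w * f * (e₁ * e₂ * e₃) * p ≤ C₁ * C₄ * (∑ a, K a) * (q * e₅) := by
  have h1 : (∑ a, G a) * (w * (f * p) * (e₂ * e₄) * e₃) ≤ (∑ a, K a) * q := by
    rw [Finset.sum_mul, Finset.sum_mul]
    exact Finset.sum_le_sum fun a _ => le_of_eq_of_le (by ring) (h a)
  calc g * w * f * (e₁ * e₂ * e₃) * p = g * e₁ * (w * f * p * e₂ * e₃) * 1 := by ring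
    _ ≤ C₁ * (w * f * p * e₂ * e₃) * (C₄ * (∑ a, G a) * e₅ * e₄) :=
        mul_le_mul (mul_le_mul_of_nonneg_right h₁ x0) h₄ zero_le_one (mul_nonneg C₁0 x0)
    _ = C₁ * C₄ * e₅ * ((∑ a, G a) * (w * (f * p) * (e₂ * e₄) * e₃)) := by ring
    _ ≤ C₁ * C₄ * e₅ * ((∑ a, K a) * q) := mul_le_mul_of_nonneg_left h1 (by positivity)
    _ = _ := by ring

theorem num2 {s : ℕ} {c z : Fin s → ℂ} {K Z : Fin s → ℝ} {y e₂ e₃ q H C₃ : ℝ} (y0 : 0 ≤ y)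
    (e0 : 0 ≤ e₂) (e0' : 0 ≤ e₃) (q0 : 0 ≤ q) (H0 : 0 ≤ H) (K0 : ∀ l, 0 ≤ K l)
    (h : ∀ l, normSq (c l) * y ≤ K l * q * H) (hz : ∀ l, normSq (z l) * e₂ ≤ Z l)
    (h₃ : H * e₃ ≤ C₃) :
    normSq (∑ l, c l * z l) * y * e₂ * e₃ ≤ s * (∑ l, K l * |Z l|) * C₃ * q := by
  have h1 : normSq (∑ l, c l * z l) ≤ s * ∑ l, normSq (c l * z l) := by
    simp only [normSq_eq_norm_sq]
    refine (pow_le_pow_left₀ (norm_nonneg _) (norm_sum_le _ _) 2).trans ?_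
    simpa only [Finset.card_univ, Fintype.card_fin] using
      sq_sum_le_card_mul_sum_sq (s := Finset.univ) (f := fun l => ‖c l * z l‖)
  have h2 : (∑ l, normSq (c l * z l)) * (y * e₂) ≤ (∑ l, K l * |Z l|) * (q * H) := by
    rw [Finset.sum_mul, Finset.sum_mul]
    refine Finset.sum_le_sum fun l _ => ?_
    have := mul_le_mul (h l) ((hz l).trans (le_abs_self _)) (mul_nonneg (normSq_nonneg _) e0)
      (mul_nonneg (mul_nonneg (K0 l) q0) H0)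
    rw [map_mul]
    linarith
  have h3 : 0 ≤ ∑ l, K l * |Z l| := Finset.sum_nonneg fun l _ => mul_nonneg (K0 l) (abs_nonneg _)
  calc normSq (∑ l, c l * z l) * y * e₂ * e₃ = normSq (∑ l, c l * z l) * (y * e₂ * e₃) := by ring
    _ ≤ (s * ∑ l, normSq (c l * z l)) * (y * e₂ * e₃) :=
        mul_le_mul_of_nonneg_right h1 (by positivity)
    _ = s * e₃ * ((∑ l, normSq (c l * z l)) * (y * e₂)) := by ring
    _ ≤ s * e₃ * ((∑ l, K l * |Z l|) * (q * H)) := mul_le_mul_of_nonneg_left h2 (by positivity)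
    _ = s * (∑ l, K l * |Z l|) * q * (H * e₃) := by ring
    _ ≤ s * (∑ l, K l * |Z l|) * q * C₃ := mul_le_mul_of_nonneg_left h₃ (by positivity)
    _ = _ := by ring

/-- The estimate at the points. -/
def Hy5 {n : ℕ} {M : Mf n} {ι : Type} [Fintype ι] [DecidableEq ι] {D : Ad M ι} {F : Type} [Field F]
    [Algebra ℂ F] (Φ : FM D F) (k : IntermediateField ℂ F) (lam : ι → ℤ) (τ : F) (N : ℕ)
    {r₁ r₂ : ℕ} (a : Fin r₁ → M.X → ℂ) (b : Fin r₂ → M.X → ℂ) (pt : M.X → Pt F) (U : Finset F) :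
    Prop := ∀ η (R : ι → ℤ), Rg D η → η ≠ 0 → ∃ W : Finset F, (∀ f ∈ W, f ∈ k ∧ f ≠ 0) ∧
  ∀ (j : ℕ) γ σ, γ ∈ k → Sp D (fun i => (N * j : ℕ) * lam i + R i) σ →
    Φ.ev σ = γ * τ ^ (N * j) * Φ.ev η → ∃ C : ℝ, 0 ≤ C ∧ ∀ x ∈ off D, ∀ t : ℝ, (pt x).Un U →
      (pt x).Un W → γ ∈ (pt x).S → τ ∈ (pt x).S → 0 ≤ t → (∀ f ∈ W, t ≤ normSq ((pt x).v f)) →
      normSq ((pt x).v (γ * τ ^ (N * j))) * nsq (b · x) ^ j * t ≤ C * nsq (a · x) ^ j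

theorem low {n : ℕ} {M : Mf n} [M.Cpt] {ι : Type} [Fintype ι] [DecidableEq ι] {D : Ad M ι}
    (X : Cx D) {F : Type} [Field F] [Algebra ℂ F] {Φ : FM D F} {V : VF n F} {m : ι → V.P → ℤ}
    {π : Hg D → V.P} {k : IntermediateField ℂ F} {lam Q P : ι → ℤ} {τ : F} {N r₁ r₂ : ℕ}
    {a : Fin (r₁ + 1) → M.X → ℂ} {b : Fin (r₂ + 1) → M.X → ℂ} {pt : M.X → Pt F} {U : Finset F}
    (hB : Φ.Br V m π) (hpt : Pts D Φ pt) (τ0 : τ ≠ 0) (hU : ∀ f ∈ U, f ≠ 0)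
    (hAb : Ab D Φ k (τ ^ N) (fun i => N * lam i) P a b)
    (H : Hy5 Φ k lam τ N a b pt U)
    (hW : Wr V m k lam Q τ) (hG : ∀ j : ℕ, Gens D fun i => j * lam i + Q i) :
    Lw D (fun i => N * lam i) a b := by
  obtain ⟨kmono, -, kmul, -⟩ := NV5.st_bKIT n M ι D
  obtain ⟨-, ev0, evi, -⟩ := NV5.st_bFN n M ι D F Φ
  obtain ⟨op, -, -, -⟩ := ZL.bPW n M ι D
  obtain ⟨s, y, η, Q', η0, hQ', hW⟩ := hW
  obtain ⟨w₁, R₁, w₁0, hw₁⟩ := clr hB hQ'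
  obtain ⟨w, ⟨Qw, hw⟩, w0, hz⟩ := (st_PT n M ι D F Φ).2 (insert (η * w₁) (Finset.univ.image y))
  have evne : ∀ u, Rg D u → u ≠ 0 → Φ.ev u ≠ 0 := fun u hu h0 h => h0 (Φ.inj u hu h)
  obtain ⟨ζ, rζ, eζ⟩ := hz _ (Finset.mem_insert_self _ _)
  choose z rz ez using fun l => hz (y l) (by simp)
  choose Qz hz using rz
  have ζ1 : Φ.ev ζ ≠ 0 := eζ ▸ mul_ne_zero (mul_ne_zero η0 w₁0) (evne w ⟨_, hw⟩ w0)
  obtain ⟨W, hW₀, H⟩ := H ζ (R₁ + Qw) rζ fun h => ζ1 (h ▸ ev0)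
  obtain ⟨B₀, hB₀⟩ := (finite_range fun l => Qz l - Q).bddAbove
  have rb : ∀ j, Rg D (b j) := fun j => ⟨_, (hAb.sb j).1⟩
  have nb : ∀ j, Φ.ev (b j) ≠ 0 := fun j => evne _ (rb j) (hAb.sb j).2
  obtain ⟨e, Q₁, C₀, hQ, nQ, hC₀, hd⟩ := (rDEN rKIT F _ (fun j => Φ.ev (b j)) 0 nb).2 W
    fun f hf => ⟨hAb.gen (hW₀ f hf).1, (hW₀ f hf).2⟩
  obtain ⟨⟨C₃, C₃0, h₃⟩, -, hf⟩ := (st_JKIT n M ι D X _ op subset_rfl
    (ZL.st_MU n M ι D X).1).2.2.2.2.2.2.2.2.2.2.2.2.2.2 _ P b fun j => (hAb.sb j).1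
  obtain ⟨f, sf, ef⟩ := hf e Q₁ hQ
  obtain ⟨g, ⟨Qg, sg⟩, ⟨x₀, hx₀, gx₀⟩, hg⟩ := hpt.un (U ∪ W ∪ {τ, Φ.ev ζ, Φ.ev w, Φ.ev (b 0),
      MvPolynomial.aeval (fun j => Φ.ev (b j)) Q₁}) (by
    intro f hf
    simp only [Finset.mem_union, Finset.mem_insert, Finset.mem_singleton] at hf
    rcases hf with (hf | hf) | rfl | rfl | rfl | rfl | rfl
    exacts [hU f hf, (hW₀ f hf).2, τ0, ζ1, evne w ⟨_, hw⟩ w0, nb 0, nQ])
  have vQ : ∀ x ∈ off D, (pt x).v (MvPolynomial.aeval (fun j => Φ.ev (b j)) Q₁) = f x :=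
    fun x hx => by
      rw [((rKIT F (pt x)).2.2.2.2.2.2 _ _ Q₁ fun j => (hpt.ev x hx _ (rb j)).1).2, ef x hx]
      simp only [(hpt.ev x hx _ (rb _)).2]
      rfl
  have up := fun P F h => (ZL.st_UPB n M ι D P).2.2.2.2.1 F h
  have fl : ∀ {u C v : ℝ}, u ≤ C * Real.exp (-v) → u * Real.exp v ≤ C := fun h => by
    rwa [Real.exp_neg, ← div_eq_mul_inv, le_div_iff₀ (Real.exp_pos _)] at h
  obtain ⟨C₁, h₁⟩ := up _ _ sg.1
  choose Z hZ using fun l => up (B₀ ⊔ Qw + Q) (z l) (kmono _ _ _ (fun i => by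
    have h1 : Qz l i - Q i ≤ B₀ i := hB₀ ⟨l, rfl⟩ i
    have h2 : B₀ i ≤ (B₀ ⊔ Qw) i := le_sup_left (a := B₀) (b := Qw) i
    simp only [Pi.add_apply]
    omega) (hz l)).1
  refine ⟨Qg + (B₀ ⊔ Qw) + fun i => e * P i, g * w * f,
    kmul _ _ _ _ (kmul _ _ _ _ sg (kmono _ _ _ le_sup_right hw)) sf, fun h => ?_, fun j => ?_⟩
  · have u := hg x₀ ⟨hx₀, gx₀⟩
    have h1 := (u (Φ.ev w) (by simp)).2
    have h2 := (u (MvPolynomial.aeval (fun j => Φ.ev (b j)) Q₁) (by simp)).2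
    rw [(hpt.ev x₀ hx₀ w ⟨_, hw⟩).2] at h1
    rw [vQ x₀ hx₀] at h2
    exact mul_ne_zero (mul_ne_zero gx₀ h1) h2 (congrFun h x₀)
  obtain ⟨r, G, C₄, sG, h₄⟩ := (ZL.st_UPB n M ι D _).2.2.2.2.2.2 (hG (N * j))
  choose γ hγ eγ using fun α => hW (N * j) _ ((hB.sec _ _).2 ⟨G α, sG α, rfl⟩)
  choose σ sσ eσ using fun α l => (hB.sec _ _).1 (hw₁ _ _ (hγ α l).2)
  have eσ' : ∀ α l, Φ.ev (σ α l * w) = γ α l * τ ^ (N * j) * Φ.ev ζ := fun α l => by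
    rw [Φ.mul _ _ ⟨_, sσ α l⟩ ⟨_, hw⟩, eσ, eζ]; ring
  choose K K0 hK using fun α l => H j (γ α l) (σ α l * w) (hγ α l).1
    (kmono _ _ _ (fun i => by simp only [Pi.add_apply]; omega) (kmul _ _ _ _ (sσ α l) hw)) (eσ' α l)
  refine ⟨|C₁| * |C₄| * ∑ α, s * (∑ l, K α l * C₀ * |Z l|) * C₃ ^ e,
    mul_nonneg (by positivity) (Finset.sum_nonneg fun α _ => mul_nonneg (mul_nonneg s.cast_nonneg
      (Finset.sum_nonneg fun l _ => mul_nonneg (mul_nonneg (K0 α l) hC₀.le) (abs_nonneg _)))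
      (by positivity)), fun x hx => ?_⟩
  have n0 : ∀ {I : Type} [Fintype I] (v : I → ℂ), 0 ≤ nsq v := fun v =>
    Finset.sum_nonneg fun _ _ => normSq_nonneg _
  have N0 := normSq_nonneg
  by_cases gx : g x = 0
  · rw [Pi.mul_apply, Pi.mul_apply, gx, zero_mul, zero_mul, map_zero, zero_mul, zero_mul]
    exact mul_nonneg (mul_nonneg (by positivity) (Finset.sum_nonneg fun α _ => mul_nonneg
      (mul_nonneg s.cast_nonneg (Finset.sum_nonneg fun l _ => mul_nonneg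
        (mul_nonneg (K0 α l) hC₀.le) (abs_nonneg _))) (by positivity)))
      (pow_nonneg (mul_nonneg (n0 _) (Real.exp_pos _).le) _)
  have u := hg x ⟨hx, gx⟩
  obtain ⟨-, -, -, kp, kd, ks, -⟩ := rKIT F (pt x)
  have uτ := u τ (by simp)
  have uζ := u (Φ.ev ζ) (by simp)
  have p0 : 0 < nsq (b · x) := by
    have h1 := (u (Φ.ev (b 0)) (by simp)).2
    rw [(hpt.ev x hx _ (rb 0)).2] at h1
    exact (normSq_pos.2 h1).trans_le (Finset.single_le_sum (f := fun j => normSq (b j x))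
      (fun _ _ => N0 _) (Finset.mem_univ 0))
  have mγ : ∀ α l, γ α l ∈ (pt x).S := fun α l => by
    have d1 : τ ^ (N * j) * Φ.ev ζ ∈ (pt x).S := mul_mem (pow_mem uτ.1 _) uζ.1
    have h1 := (kd _ (hpt.ev x hx _ ⟨_, kmul _ _ _ _ (sσ α l) hw⟩).1 _ d1 (by
      rw [(pt x).mul _ (pow_mem uτ.1 _) _ uζ.1, kp _ uτ.1]
      exact mul_ne_zero (pow_ne_zero _ uτ.2) uζ.2)).1
    rwa [eσ', mul_assoc, mul_div_cancel_right₀ _ (mul_ne_zero (pow_ne_zero _ τ0) ζ1)] at h1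
  have m1 : ∀ α l, γ α l * τ ^ (N * j) ∈ (pt x).S := fun α l => mul_mem (mγ α l) (pow_mem uτ.1 _)
  have eG : ∀ α, G α x * w x = ∑ l, (pt x).v (γ α l * τ ^ (N * j)) * z l x := fun α => by
    have h1 := hpt.ev x hx _ ⟨_, sG α⟩
    have h2 := hpt.ev x hx _ ⟨_, hw⟩
    have h3 := fun l => hpt.ev x hx _ ⟨_, hz l⟩
    rw [← h1.2, ← h2.2, ← (pt x).mul _ h1.1 _ h2.1, eγ α, Finset.sum_mul]
    simp only [mul_assoc _ (y _), ← ez]
    rw [(ks _ _ _ fun l _ => mul_mem (m1 α l) (h3 l).1).1]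
    exact Finset.sum_congr rfl fun l _ => by rw [(pt x).mul _ (m1 α l) _ (h3 l).1, (h3 l).2]
  have nh : (pt x).N (fun j => Φ.ev (b j)) = nsq (b · x) :=
    Finset.sum_congr rfl fun j _ => by rw [(hpt.ev x hx _ (rb j)).2]
  have hK' : ∀ α l, normSq ((pt x).v (γ α l * τ ^ (N * j))) * (normSq (f x) * nsq (b · x) ^ j) ≤
      K α l * C₀ * nsq (a · x) ^ j * nsq (b · x) ^ e := fun α l => by
    have h1 := hK α l x hx (normSq (f x) / (C₀ * nsq (b · x) ^ e)) (fun f hf => u f (by simp [hf]))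
      (fun f hf => u f (by simp [hf])) (mγ α l) uτ.1 (div_nonneg (N0 _) (by positivity))
      fun f' hf => by
        have := hd (pt x) (fun j => (hpt.ev x hx _ (rb j)).1) f' hf (u f' (by simp [hf])).1
        rw [vQ x hx, nh] at this
        rw [div_le_iff₀ (by positivity)]
        linarith
    rw [← mul_div_assoc, div_le_iff₀ (by positivity)] at h1
    linarith
  have x1 : Real.exp (lw D (fun i => ((Qg + (B₀ ⊔ Qw) + fun i => e * P i : ι → ℤ) i : ℝ)) x) =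
      Real.exp (lw D (fun i => Qg i) x) * Real.exp (lw D (fun i => (B₀ ⊔ Qw) i) x) *
        Real.exp (lw D (fun i => P i) x) ^ e := by
    rw [← Real.exp_nat_mul, ← Real.exp_add, ← Real.exp_add]
    refine congrArg Real.exp ?_
    simp only [lw, Finset.mul_sum, ← Finset.sum_add_distrib, Pi.add_apply]
    exact Finset.sum_congr rfl fun i _ => by push_cast; ring
  have x2 : Real.exp (lw D (fun i => ((B₀ ⊔ Qw + Q : ι → ℤ) i : ℝ)) x) =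
      Real.exp (lw D (fun i => (B₀ ⊔ Qw) i) x) * Real.exp (lw D (fun i => Q i) x) := by
    rw [← Real.exp_add]
    refine congrArg Real.exp ?_
    simp only [lw, ← Finset.sum_add_distrib, Pi.add_apply]
    exact Finset.sum_congr rfl fun i _ => by push_cast; ring
  have x3 : Real.exp (lw D (fun i => (((N * j : ℕ) * lam i + Q i : ℤ) : ℝ)) x) =
      Real.exp (lw D (fun i => (N * lam i : ℤ)) x) ^ j * Real.exp (lw D (fun i => Q i) x) := by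
    rw [← Real.exp_nat_mul, ← Real.exp_add]
    refine congrArg Real.exp ?_
    simp only [lw, Finset.mul_sum, ← Finset.sum_add_distrib]
    exact Finset.sum_congr rfl fun i _ => by push_cast; ring
  rw [x1, Pi.mul_apply, Pi.mul_apply, map_mul, map_mul, mul_pow]
  refine num (G := fun α => normSq (G α x)) (e₄ := Real.exp (lw D (fun i => Q i) x))
    ((fl (h₁ x hx)).trans (le_abs_self _)) ?_ (abs_nonneg _) (abs_nonneg _) (by positivity)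
    (by have := N0 (w x); have := N0 (f x); positivity) fun α => ?_
  · have h1 := h₄ x hx
    rw [Real.exp_neg, inv_le_iff_one_le_mul₀ (Real.exp_pos _), x3, ← mul_assoc] at h1
    refine h1.trans (mul_le_mul_of_nonneg_right (mul_le_mul_of_nonneg_right
      (mul_le_mul_of_nonneg_right (le_abs_self _) (Finset.sum_nonneg fun _ _ => N0 _))
      (by positivity)) (by positivity))
  · rw [← map_mul, eG]
    refine num2 (H := nsq (b · x) ^ e) (mul_nonneg (N0 _) (by positivity)) (by positivity)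
      (by positivity) (pow_nonneg (n0 _) _) (by positivity)
      (fun l => mul_nonneg (K0 α l) hC₀.le) (hK' α) (fun l => x2 ▸ fl (hZ l x hx)) ?_
    rw [← mul_pow]
    exact pow_le_pow_left₀ (by positivity) (fl (h₃ x hx)) e

open OUT in
theorem core0 {n : ℕ} {M : Mf n} [M.Cpt] {ι : Type} [Fintype ι] [DecidableEq ι] {D : Ad M ι}
    (X : Cx D) {r : ℕ} {t : Fin r → M.X → ℂ} {F : Type} [Field F] [Algebra ℂ F] {Φ : FM D F}
    {V : VF n F} {m : ι → V.P → ℤ} {π : Hg D → V.P} {k : IntermediateField ℂ F} {lam κ : ι → ℤ}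
    {τ : F} (hP : Prj X t) (hB : Φ.Br V m π) (hF : Fb V m k lam κ τ) :
    ∃ (N r₁ r₂ : ℕ) (P : ι → ℤ) (a : Fin (r₁ + 1) → M.X → ℂ) (b : Fin (r₂ + 1) → M.X → ℂ), 0 < N ∧
      Ab D Φ k (τ ^ N) (fun i => N * lam i) P a b ∧ (∃ (pt : M.X → Pt F) (U : Finset F),
        Pts D Φ pt ∧ (∀ f ∈ U, f ≠ 0) ∧ Hy5 Φ k lam τ N a b pt U) ∧
      ∀ (r' : ℕ) (ε : Fin r' ≃ Fin (r₁ + 1) × Fin (r₂ + 1)),
        ∃ g e Q, Es X (fun i => N * lam i) κ P a b ε g e Q := by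
  obtain ⟨kmono, -, kmul, -⟩ := NV5.st_bKIT n M ι D
  obtain ⟨-, ev0, -⟩ := NV5.st_bFN n M ι D F Φ
  obtain ⟨⟨pt, hpt⟩, -⟩ := st_PT n M ι D F Φ
  obtain ⟨⟨s₀, hs₀, halg⟩, hsec, htau⟩ := st_SET n M ι D X r t F Φ V m π k lam κ τ hP hB hF
  obtain ⟨⟨g₀, hg₀⟩, ⟨q₀, γ, γ0, γne, hk⟩, -⟩ := rFGK F k n V.fg V.tr
  obtain ⟨c₁, s, β, hβ, i₀, hi₀⟩ := st_KD n M ι D X lam hP.big
  have evne : ∀ u, Rg D u → u ≠ 0 → Φ.ev u ≠ 0 := fun u hu h0 h => h0 (Φ.inj u hu h)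
  obtain ⟨N, s₁, s₂, A, B, U, hN, hA, hB', hU, ⟨C₁, hC₁, ha⟩, hb⟩ :=
    st_ALG F k (Fin r) (fun a => Φ.ev (t a)) s₀ g₀ c₁ s (fun i => τ * Φ.ev (β i)) hs₀ halg hg₀
      (fun i => htau c₁ _ (hβ.1 i)) ⟨i₀, mul_ne_zero hF.τ0 (evne _ ⟨_, hβ.1 i₀⟩ hi₀)⟩
  obtain ⟨r₁, r₂, P, a, b, ρ, hAb, hρ⟩ := rFAM st_PT NV5.st_bKIT n M ι D F Φ pt k (τ ^ N) (fun i => N * lam i) q₀ s₁ s₂
    γ A B hpt (pow_ne_zero _ hF.τ0) γ0 γne hk (fun j => ⟨(hA j).1, hU _ (hA j).2⟩)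
    fun j => ⟨(hB' j).1, hU _ (hB' j).2⟩
  have N0 : ∀ (p : Pt F) (σ : Type) [Fintype σ] (y : σ → F), 0 ≤ p.N y := fun p σ _ y =>
    Finset.sum_nonneg fun _ _ => normSq_nonneg _
  refine ⟨N, r₁, r₂, P, a, b, hN, hAb, ⟨pt, U ∪ Finset.univ.image γ, hpt, fun f hf => ?_,
    fun η R rη η0 => ?_⟩, fun r' ε => ?_⟩
  · rcases Finset.mem_union.1 hf with hf | hf
    · exact hU f hf
    · obtain ⟨i, -, rfl⟩ := Finset.mem_image.1 hf
      exact γne i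
  · obtain ⟨Qη, sη⟩ := rη
    obtain ⟨c₂, hc₂⟩ := big X.e hP.epos Qη R
    obtain ⟨W, hW₀, hb⟩ := hb (Φ.ev η) c₂ (evne _ ⟨_, sη⟩ η0)
      (hsec c₂ _ (kmono _ _ _ (fun i => (hc₂ i).1) sη))
    refine ⟨W, hW₀, fun j δ σ hδ sσ eσ => ?_⟩
    obtain ⟨C, hC, hb⟩ := hb j 1 δ hδ fun i => by
      obtain ⟨p1, p2⟩ := pw Φ kmul sσ (hβ.1 i) (N * j)
      have := hsec (c₁ * (N * j) + c₂ * 1) _ (kmono _ _ _ (fun l => by
        have h2 := (hc₂ l).2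
        push_cast
        nlinarith) p1)
      rw [p2, eσ] at this
      rw [mul_pow, pow_one, ← mul_assoc δ, mul_right_comm _ _ (Φ.ev η)]
      exact this
    refine ⟨C, hC, fun x hx u u1 u2 m1 m2 u0 hu => ?_⟩
    have u3 : (pt x).Un U := fun f hf => u1 f (by simp [hf])
    obtain ⟨f1, f2, f3⟩ := hρ x hx (pow_mem m2 _) (fun i => (u1 _ (by simp)).1)
      (fun j => (u3 _ (hA j).2).1) fun j => (u3 _ (hB' j).2).1
    have h1 := mul_le_mul_of_nonneg_right (hb (pt x) u u3 u2 m1 u0 hu)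
      (pow_nonneg (mul_nonneg (normSq_nonneg ((pt x).v (τ ^ N))) f1) j)
    rw [f2, f3, (pt x).mul _ m1 _ (pow_mem m2 _), pow_mul, (rKIT F (pt x)).2.2.2.1 _ (pow_mem m2 _),
      map_mul, map_pow]
    simp only [mul_pow, pow_one] at h1 ⊢
    linarith
  have ra : ∀ i, Rg D (a i) := fun i => ⟨_, (hAb.sa i).1⟩
  have rb : ∀ j, Rg D (b j) := fun j => ⟨_, (hAb.sb j).1⟩
  have na : ∀ i, Φ.ev (a i) ≠ 0 := fun i => evne _ (ra i) (hAb.sa i).2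
  have nb : ∀ j, Φ.ev (b j) ≠ 0 := fun j => evne _ (rb j) (hAb.sb j).2
  obtain ⟨c₂, hc₂⟩ := big X.e hP.epos (fun i => N * lam i + 2 * P i)
    fun i => N * lam i + 2 * P i + κ i
  have s00 : Sp D (fun i => N * lam i + 2 * P i) (a 0 * b 0) :=
    kmono _ _ _ (fun i => by simp only [Pi.add_apply]; omega) (kmul _ _ _ _ (hAb.sa 0).1 (hAb.sb 0).1)
  have e00 : Φ.ev (a 0 * b 0) = Φ.ev (a 0) * Φ.ev (b 0) := Φ.mul _ _ (ra 0) (rb 0)
  obtain ⟨V₀, hV₀, hb⟩ := hb (Φ.ev (a 0) * Φ.ev (b 0)) c₂ (mul_ne_zero (na 0) (nb 0))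
    (e00 ▸ hsec c₂ _ (kmono _ _ _ (fun i => (hc₂ i).1) s00))
  obtain ⟨h, hh⟩ : ∃ h : Fin r' → F, h = fun δ => Φ.ev (a (ε δ).1) * Φ.ev (b (ε δ).2) := ⟨_, rfl⟩
  have hle : k ≤ IntermediateField.adjoin ℂ (range fun δ => h δ / h (ε.symm (0, 0))) := by
    refine hAb.gen.trans (IntermediateField.adjoin.mono _ _ _ ?_)
    rintro _ ⟨j, rfl⟩
    refine ⟨ε.symm (0, j), ?_⟩
    simp only [hh, Equiv.apply_symm_apply]
    exact mul_div_mul_left _ _ (na 0)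
  obtain ⟨e, Q, C₀, hQ, nQ, hC₀, hd⟩ := (rDEN rKIT F (Fin r') h (ε.symm (0, 0))
    fun δ => by rw [hh]; exact mul_ne_zero (na _) (nb _)).2 V₀
    fun f hf => ⟨hle (hV₀ f hf).1, (hV₀ f hf).2⟩
  obtain ⟨g, rg, ng, hg⟩ := hpt.un (U ∪ V₀ ∪ {τ, MvPolynomial.aeval h Q} ∪ Finset.univ.image γ ∪
      Finset.univ.image (fun i => Φ.ev (a i)) ∪ Finset.univ.image fun j => Φ.ev (b j)) (by
    intro f hf
    simp only [Finset.mem_union, Finset.mem_insert, Finset.mem_singleton, Finset.mem_image,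
      Finset.mem_univ, true_and] at hf
    rcases hf with ((((hf | hf) | rfl | rfl) | ⟨i, rfl⟩) | ⟨i, rfl⟩) | ⟨i, rfl⟩
    exacts [hU f hf, (hV₀ f hf).2, hF.τ0, nQ, γne i, na i, nb i])
  have key : ∀ x ∈ offz D g, (pt x).Un U ∧ (pt x).Un V₀ ∧ (τ ∈ (pt x).S ∧ (pt x).v τ ≠ 0) ∧
      (pt x).v (MvPolynomial.aeval h Q) ≠ 0 ∧ (∀ i, γ i ∈ (pt x).S) ∧ (∀ i, a i x ≠ 0) ∧
      ∀ j, b j x ≠ 0 := fun x hx => by
    have u := hg x hx
    refine ⟨fun f hf => u f (by simp [hf]), fun f hf => u f (by simp [hf]), u _ (by simp),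
      (u _ (by simp)).2, fun i => (u _ (by simp)).1, fun i => ?_, fun j => ?_⟩
    · rw [← (hpt.ev x hx.1 _ (ra i)).2]; exact (u _ (by simp)).2
    · rw [← (hpt.ev x hx.1 _ (rb j)).2]; exact (u _ (by simp)).2
  have vh : ∀ x ∈ off D, ∀ δ, h δ ∈ (pt x).S ∧ (pt x).v (h δ) = a (ε δ).1 x * b (ε δ).2 x :=
    fun x hx δ => by
      have h1 := hpt.ev x hx _ (ra (ε δ).1)
      have h2 := hpt.ev x hx _ (rb (ε δ).2)
      rw [hh]
      exact ⟨mul_mem h1.1 h2.1, by rw [(pt x).mul _ h1.1 _ h2.1, h1.2, h2.2]⟩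
  have vQ : ∀ x ∈ off D, (pt x).v (MvPolynomial.aeval h Q) =
      pv (fun δ y => a (ε δ).1 y * b (ε δ).2 y) Q x := fun x hx => by
    rw [((rKIT F (pt x)).2.2.2.2.2.2 _ h Q fun δ => (vh x hx δ).1).2]
    simp only [(vh x hx _).2]
    rfl
  have fam : ∀ x ∈ offz D g, 0 ≤ ρ x ∧
      nsq (a · x) = normSq ((pt x).v (τ ^ N)) * (pt x).N A * ρ x ∧
      nsq (b · x) = (pt x).N B * ρ x := fun x hx => by
    obtain ⟨u1, -, u3, -, u5, -⟩ := key x hx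
    exact hρ x hx.1 (pow_mem u3.1 _) u5 (fun j => (u1 _ (hA j).2).1) fun j => (u1 _ (hB' j).2).1
  refine ⟨g, e, Q, rg, ng, hQ, fun x hx => ?_, ?_, fun j c u hj hu => ?_⟩
  · obtain ⟨-, -, -, u4, -, u6, u7⟩ := key x hx
    exact ⟨u6, u7, vQ x hx.1 ▸ u4⟩
  · obtain ⟨C', hC'⟩ := rLOW rKIT ZL.st_UPB n M ι D F Φ pt (fun i => X.e i) lam r s c₁ N t β τ hpt hP.kd.1 hβ C₁ hC₁
    refine ⟨C', fun x hx => ?_⟩
    obtain ⟨u1, -, u3, -⟩ := key x hx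
    obtain ⟨f1, f2, f3⟩ := fam x hx
    have := hC' x hx.1 u3.1 _ _ (N0 _ _ A) (N0 _ _ B) fun i =>
      ha (pt x) u1 (fun s => (hpt.ev x hx.1 _ ⟨_, hP.kd.1 s⟩).1) i
        (mul_mem u3.1 (hpt.ev x hx.1 _ ⟨_, hβ.1 i⟩).1)
    rw [f2, f3, ← mul_assoc]
    exact mul_le_mul_of_nonneg_right this f1
  · have hγ := (st_ONE n M ι D X F Φ V m π k lam κ P τ N r' r₁ r₂ a b ε hB hF hN hAb).1 j c u hj hu
    obtain ⟨η, hη⟩ : ∃ η, η = Φ.ev (a 0) * Φ.ev (b 0) := ⟨_, rfl⟩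
    have η0 : η ≠ 0 := hη ▸ mul_ne_zero (na 0) (nb 0)
    rw [← hη] at hγ hb e00
    have τ0 := hF.τ0
    obtain ⟨C, hC, hb⟩ := hb j (c + 1) _ hγ fun i => by
      obtain ⟨p1, p2⟩ := pw Φ kmul (kmul _ _ _ _ hu.1 s00) (hβ.1 i) (N * j)
      have := hsec (c₁ * (N * j) + c₂ * (c + 1)) _ (kmono _ _ _ (fun l => by
        have h1 := mul_le_mul_of_nonneg_left (hc₂ l).1 (Int.natCast_nonneg c)
        have h2 := (hc₂ l).2
        simp only [Pi.add_apply]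
        push_cast
        nlinarith) p1)
      rw [p2, Φ.mul _ _ ⟨_, hu.1⟩ ⟨_, s00⟩, e00] at this
      have e1 : Φ.ev u / (τ ^ (N * j) * η ^ c) * (τ * Φ.ev (β i)) ^ (N * j) * η ^ (c + 1) =
          Φ.ev u * η * Φ.ev (β i) ^ (N * j) := by
        rw [mul_pow, pow_succ]; field_simp
      rw [e1]; exact this
    refine ⟨C * C₀ ^ (c + 1), fun x hx => ?_⟩
    obtain ⟨u1, u2, u3, -, -, u6, u7⟩ := key x hx
    obtain ⟨f1, f2, f3⟩ := fam x hx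
    obtain ⟨-, -, -, kp, kd, -⟩ := rKIT F (pt x)
    have hu' := hpt.ev x hx.1 u ⟨_, hu.1⟩
    have hη' := hpt.ev x hx.1 _ ⟨_, s00⟩
    rw [e00] at hη'
    have d1 : τ ^ (N * j) * η ^ c ∈ (pt x).S := mul_mem (pow_mem u3.1 _) (pow_mem hη'.1 _)
    have d2 : (pt x).v (τ ^ (N * j) * η ^ c) = (pt x).v (τ ^ N) ^ j * (a 0 x * b 0 x) ^ c := by
      rw [(pt x).mul _ (pow_mem u3.1 _) _ (pow_mem hη'.1 _), pow_mul, kp _ (pow_mem u3.1 _),
        kp _ hη'.1, hη'.2, Pi.mul_apply]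
    have d3 : (pt x).v (τ ^ (N * j) * η ^ c) ≠ 0 := by
      rw [d2, kp _ u3.1]
      exact mul_ne_zero (pow_ne_zero _ (pow_ne_zero _ u3.2)) (pow_ne_zero _ (mul_ne_zero (u6 0) (u7 0)))
    obtain ⟨d4, d5⟩ := kd _ hu'.1 _ d1 d3
    have nh : (pt x).N h = nsq (a · x) * nsq (b · x) := by
      rw [← nsq_mul ε]
      exact Finset.sum_congr rfl fun δ _ => by rw [(vh x hx.1 δ).2]
    have l0 : normSq (a 0 x * b 0 x) ≤ nsq (a · x) * nsq (b · x) := by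
      rw [← nsq_mul ε]
      have := Finset.single_le_sum (f := fun δ => normSq (a (ε δ).1 x * b (ε δ).2 x))
        (fun _ _ => normSq_nonneg _) (Finset.mem_univ (ε.symm (0, 0)))
      simpa only [Equiv.apply_symm_apply] using this
    have p0 : 0 < nsq (a · x) * nsq (b · x) :=
      (normSq_pos.2 (mul_ne_zero (u6 0) (u7 0))).trans_le l0
    have h1 := hb (pt x) (normSq (pv (fun δ y => a (ε δ).1 y * b (ε δ).2 y) Q x) /
      (C₀ * (nsq (a · x) * nsq (b · x)) ^ e)) u1 u2 d4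
      (div_nonneg (normSq_nonneg _) (by positivity)) fun f hf => by
        have := hd (pt x) (fun δ => (vh x hx.1 δ).1) f hf (u2 f hf).1
        rw [vQ x hx.1, nh] at this
        rw [div_le_iff₀ (by positivity)]
        linarith
    have h2 := fin (s := normSq (u x)) (T := normSq ((pt x).v (τ ^ N))) p0 hC₀ (normSq_nonneg _) f1
      (normSq_nonneg _) l0 hC (N0 _ _ A) (by
        rw [← map_pow, ← map_pow, mul_assoc, ← map_mul, ← map_mul, ← d2, d5, hu'.2,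
          div_mul_cancel₀ _ d3]) h1
    rw [← f2, ← f3] at h2
    exact h2

theorem core {n : ℕ} {M : Mf n} [M.Cpt] {ι : Type} [Fintype ι] [DecidableEq ι] {D : Ad M ι}
    (X : Cx D) {r : ℕ} {t : Fin r → M.X → ℂ} {F : Type} [Field F] [Algebra ℂ F] {Φ : FM D F}
    {V : VF n F} {m : ι → V.P → ℤ} {π : Hg D → V.P} {k : IntermediateField ℂ F} {lam κ Q' : ι → ℤ}
    {τ : F} (hP : Prj X t) (hB : Φ.Br V m π) (hF : Fb V m k lam κ τ) (hW : Wr V m k lam Q' τ)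
    (hG : ∀ j : ℕ, Gens D fun i => j * lam i + Q' i) :
    ∃ (N r₁ r₂ : ℕ) (P : ι → ℤ) (a : Fin (r₁ + 1) → M.X → ℂ) (b : Fin (r₂ + 1) → M.X → ℂ), 0 < N ∧
      Ab D Φ k (τ ^ N) (fun i => N * lam i) P a b ∧ Lw D (fun i => N * lam i) a b ∧
      ∀ (r' : ℕ) (ε : Fin r' ≃ Fin (r₁ + 1) × Fin (r₂ + 1)),
        ∃ g e Q, Es X (fun i => N * lam i) κ P a b ε g e Q := by
  obtain ⟨N, r₁, r₂, P, a, b, hN, hA, ⟨pt, U, hpt, hU, H⟩, h⟩ := core0 X hP hB hF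
  exact ⟨N, r₁, r₂, P, a, b, hN, hA, low X hB hpt hF.τ0 hU hA H hW hG, h⟩

end R5

/-- The theorem of block R with the lower bound. -/
theorem st_R5 : St_R5 := by
  intro n M _ ι _ _ D X r t F _ _ Φ V m π k a₀ lam κ Q' τ hP hZ hB hF hW hG
  obtain ⟨N, r₁, r₂, P, a, b, hN, hA, hL, h⟩ := R5.core X hP hB hF hW hG
  refine ⟨N, r₁, r₂, P, a, b, hN, hA, hL, fun r' ε => ?_⟩
  obtain ⟨g, e, Q, hE⟩ := h r' ε
  obtain ⟨b₀, hM⟩ := rMD st_JKIT NV6.J.jFRM ZL.st_UPB NV5.st_bKIT n M ι D X a₀ N r' r₁ r₂ e lam κ P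
    a b ε g Q hP.hall hZ hN (fun i => (hA.sa i).1) (fun j => (hA.sb j).1) hE
  exact ⟨g, e, b₀, hE.r1, hM,
    (st_ONE n M ι D X F Φ V m π k lam κ P τ N r' r₁ r₂ a b ε hB hF hN hA).2 g hE.rg hE.ne⟩

end Pool.Agent.Lib.R6
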