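import Pool.Agent.Lib.S5.R5

/-! Project S5: the bound for the multiples of one section. -/

open scoped Classical
open Set Complex

noncomputable section

namespace Pool.Agent.Lib.R6

open Pool.Agent.Lib.SV (nsq)
open Pool.Agent.Lib.HS32 Pool.Agent.Lib.EX Pool.Agent.Lib.EXS Pool.Agent.Lib.ZL
open Pool.Agent.Lib.ZQ (offz)
open Pool.Agent.Lib.NV5 (Rg FM VF Hg dv)
open Pool.Agent.Lib.NV6.J (Md Rk pv)

/-- The multiples of `T ^ j η` over `k` are bounded by the reference metric. -/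
def Lu {n : ℕ} {M : Mf n} {ι : Type} [Fintype ι] [DecidableEq ι] (D : Ad M ι) {F : Type} [Field F]
    [Algebra ℂ F] (Φ : FM D F) (k : IntermediateField ℂ F) (T : F) (L : ι → ℤ) {I J : Type}
    [Fintype I] [Fintype J] (a : I → M.X → ℂ) (b : J → M.X → ℂ) : Prop :=
  ∀ (η : F) (R : ι → ℤ), η ≠ 0 → ∃ (R₀ : ι → ℤ) (c : M.X → ℂ), Sp D R₀ c ∧ c ≠ 0 ∧
    ∀ (j : ℕ) u, Sp D (fun i => j * L i + R i) u → Φ.ev u / (T ^ j * η) ∈ k → ∃ C : ℝ, 0 ≤ C ∧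
      ∀ x ∈ off D, normSq (u x) * Real.exp (lw D (fun i => R i) x) *
        (normSq (c x) * Real.exp (lw D (fun i => R₀ i) x)) * nsq (b · x) ^ j ≤ C * nsq (a · x) ^ j

/-- The theorem of block R with both bounds. -/
def St_R5b : Prop := ∀ (n : ℕ) (M : Mf n) [M.Cpt] (ι : Type) [Fintype ι] [DecidableEq ι]
  (D : Ad M ι) (X : Cx D) (r : ℕ) (t : Fin r → M.X → ℂ) (F : Type) [Field F] [Algebra ℂ F]
  (Φ : FM D F) (V : VF n F) (m : ι → V.P → ℤ) (π : Hg D → V.P) (k : IntermediateField ℂ F)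
  (a₀ : ℕ) (lam κ : ι → ℤ) (τ : F), Prj X t → Zw X a₀ lam κ → Φ.Br V m π → Fb V m k lam κ τ →
  ∃ (N r₁ r₂ : ℕ) (P : ι → ℤ) (a : Fin (r₁ + 1) → M.X → ℂ) (b : Fin (r₂ + 1) → M.X → ℂ), 0 < N ∧
    Ab D Φ k (τ ^ N) (fun i => N * lam i) P a b ∧ Lu D Φ k (τ ^ N) (fun i => N * lam i) a b ∧
    (∀ Q, Wr V m k lam Q τ → (∀ j : ℕ, Gens D fun i => j * lam i + Q i) →
      Lw D (fun i => N * lam i) a b) ∧
    ∀ (r' : ℕ) (ε : Fin r' ≃ Fin (r₁ + 1) × Fin (r₂ + 1)), ∃ g e b₀,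
      (∃ C, ∀ x ∈ offz D g,
        nsq (a · x) ≤ C * Real.exp (-lw D (fun i => (N * lam i : ℤ)) x) * nsq (b · x)) ∧
      Md X (N * a₀) e (fun i => N * lam i) κ g (fun i => N * lam i + 2 * P i)
        (fun β y => a (ε β).1 y * b (ε β).2 y) (fun β y => a (ε β).1 y ^ 2) b₀ ∧
      Rk X g (fun i => N * lam i + 2 * P i) (fun β y => a (ε β).1 y * b (ε β).2 y)
        fun i => N * lam i + κ i

namespace R5

theorem lu {n : ℕ} {M : Mf n} [M.Cpt] {ι : Type} [Fintype ι] [DecidableEq ι] {D : Ad M ι}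
    (X : Cx D) {F : Type} [Field F] [Algebra ℂ F] {Φ : FM D F} {k : IntermediateField ℂ F}
    {lam P : ι → ℤ} {τ : F} {N r₁ r₂ : ℕ} {a : Fin (r₁ + 1) → M.X → ℂ}
    {b : Fin (r₂ + 1) → M.X → ℂ} {pt : M.X → Pt F} {U : Finset F} (hpt : Pts D Φ pt) (τ0 : τ ≠ 0)
    (hU : ∀ f ∈ U, f ≠ 0) (hAb : Ab D Φ k (τ ^ N) (fun i => N * lam i) P a b)
    (H : Hy5 Φ k lam τ N a b pt U) : Lu D Φ k (τ ^ N) (fun i => N * lam i) a b := by
  intro η R η0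
  obtain ⟨kmono, -, kmul, -⟩ := NV5.st_bKIT n M ι D
  obtain ⟨-, ev0, -⟩ := NV5.st_bFN n M ι D F Φ
  obtain ⟨op, -⟩ := ZL.bPW n M ι D
  obtain ⟨w, ⟨Qw, hw⟩, w0, hz⟩ := (st_PT n M ι D F Φ).2 {η}
  have evne : ∀ u, Rg D u → u ≠ 0 → Φ.ev u ≠ 0 := fun u hu h0 h => h0 (Φ.inj u hu h)
  obtain ⟨ζ, ⟨Qζ, sζ⟩, eζ⟩ := hz _ (Finset.mem_singleton_self _)
  have ζ1 : Φ.ev ζ ≠ 0 := eζ ▸ mul_ne_zero η0 (evne w ⟨_, hw⟩ w0)
  obtain ⟨W, hW₀, H⟩ := H ζ (R + Qw) ⟨_, sζ⟩ fun h => ζ1 (h ▸ ev0)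
  have rb : ∀ j, Rg D (b j) := fun j => ⟨_, (hAb.sb j).1⟩
  have nb : ∀ j, Φ.ev (b j) ≠ 0 := fun j => evne _ (rb j) (hAb.sb j).2
  obtain ⟨e, Q₁, C₀, hQ, nQ, hC₀, hd⟩ := (rDEN rKIT F _ (fun j => Φ.ev (b j)) 0 nb).2 W
    fun f hf => ⟨hAb.gen (hW₀ f hf).1, (hW₀ f hf).2⟩
  obtain ⟨⟨C₃, C₃0, h₃⟩, -, hf⟩ := (st_JKIT n M ι D X _ op subset_rfl
    (ZL.st_MU n M ι D X).1).2.2.2.2.2.2.2.2.2.2.2.2.2.2 _ P b fun j => (hAb.sb j).1
  obtain ⟨f, sf, ef⟩ := hf e Q₁ hQ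
  obtain ⟨g, ⟨Qg, sg⟩, ⟨x₀, hx₀, gx₀⟩, hg⟩ := hpt.un (U ∪ W ∪ {τ, η, Φ.ev w, Φ.ev (b 0),
      MvPolynomial.aeval (fun j => Φ.ev (b j)) Q₁}) (by
    intro f hf
    simp only [Finset.mem_union, Finset.mem_insert, Finset.mem_singleton] at hf
    rcases hf with (hf | hf) | rfl | rfl | rfl | rfl | rfl
    exacts [hU f hf, (hW₀ f hf).2, τ0, η0, evne w ⟨_, hw⟩ w0, nb 0, nQ])
  have vQ : ∀ x ∈ off D, (pt x).v (MvPolynomial.aeval (fun j => Φ.ev (b j)) Q₁) = f x :=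
    fun x hx => by
      rw [((rKIT F (pt x)).2.2.2.2.2.2 _ _ Q₁ fun j => (hpt.ev x hx _ (rb j)).1).2, ef x hx]
      simp only [(hpt.ev x hx _ (rb _)).2]
      rfl
  have up := fun P F h => (ZL.st_UPB n M ι D P).2.2.2.2.1 F h
  have fl : ∀ {u C v : ℝ}, u ≤ C * Real.exp (-v) → u * Real.exp v ≤ C := fun h => by
    rwa [Real.exp_neg, ← div_eq_mul_inv, le_div_iff₀ (Real.exp_pos _)] at h
  obtain ⟨C₁, h₁⟩ := up _ _ sg.1
  obtain ⟨C₂, h₂⟩ := up ((Qζ - R) ⊔ Qw + R) ζ (kmono _ _ _ (fun i => by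
    have h2 : Qζ i - R i ≤ ((Qζ - R) ⊔ Qw) i := le_sup_left (a := Qζ - R) (b := Qw) i
    simp only [Pi.add_apply]
    omega) sζ).1
  obtain ⟨B, hB⟩ : ∃ B, B = (Qζ - R) ⊔ Qw := ⟨_, rfl⟩
  have hw' := kmono _ _ _ (le_sup_right (a := Qζ - R)) hw
  rw [← hB] at hw' h₂
  refine ⟨Qg + B + fun i => e * P i, g * w * f, kmul _ _ _ _ (kmul _ _ _ _ sg hw') sf,
    fun h => ?_, fun j u su ku => ?_⟩
  · have u := hg x₀ ⟨hx₀, gx₀⟩
    have h1 := (u (Φ.ev w) (by simp)).2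
    have h2 := (u (MvPolynomial.aeval (fun j => Φ.ev (b j)) Q₁) (by simp)).2
    rw [(hpt.ev x₀ hx₀ w ⟨_, hw⟩).2] at h1
    rw [vQ x₀ hx₀] at h2
    exact mul_ne_zero (mul_ne_zero gx₀ h1) h2 (congrFun h x₀)
  rw [← pow_mul] at ku
  obtain ⟨γ, hγ⟩ : ∃ γ, γ = Φ.ev u / (τ ^ (N * j) * η) := ⟨_, rfl⟩
  have eσ : Φ.ev (u * w) = γ * τ ^ (N * j) * Φ.ev ζ := by
    rw [Φ.mul _ _ ⟨_, su⟩ ⟨_, hw⟩, eζ, hγ]; field_simp
  obtain ⟨K, K0, hK⟩ := H j γ (u * w) (hγ ▸ ku) (kmono _ _ _ (fun i => by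
    simp only [Pi.add_apply]; push_cast; linarith) (kmul _ _ _ _ su hw)) eσ
  refine ⟨|C₁| * (K * C₀ * |C₂| * C₃ ^ e), by positivity, fun x hx => ?_⟩
  have n0 : 0 ≤ nsq (a · x) := Finset.sum_nonneg fun _ _ => normSq_nonneg _
  have N0 := normSq_nonneg
  by_cases gx : g x = 0
  · rw [Pi.mul_apply, Pi.mul_apply, gx, zero_mul, zero_mul, map_zero, zero_mul, mul_zero, zero_mul]
    positivity
  have u1 := hg x ⟨hx, gx⟩
  obtain ⟨-, -, -, kp, kd, -⟩ := rKIT F (pt x)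
  have uτ := u1 τ (by simp)
  have uη := u1 η (by simp)
  have p0 : 0 < nsq (b · x) := by
    have h1 := (u1 (Φ.ev (b 0)) (by simp)).2
    rw [(hpt.ev x hx _ (rb 0)).2] at h1
    exact (normSq_pos.2 h1).trans_le (Finset.single_le_sum (f := fun j => normSq (b j x))
      (fun _ _ => N0 _) (Finset.mem_univ 0))
  have mγ : γ ∈ (pt x).S := hγ ▸ (kd _ (hpt.ev x hx _ ⟨_, su⟩).1 _
    (mul_mem (pow_mem uτ.1 _) uη.1) (by
      rw [(pt x).mul _ (pow_mem uτ.1 _) _ uη.1, kp _ uτ.1]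
      exact mul_ne_zero (pow_ne_zero _ uτ.2) uη.2)).1
  have eG : u x * w x = (pt x).v (γ * τ ^ (N * j)) * ζ x := by
    have h1 := (hpt.ev x hx _ ⟨_, kmul _ _ _ _ su hw⟩).2
    have h3 := hpt.ev x hx _ ⟨_, sζ⟩
    rw [eσ, (pt x).mul _ (mul_mem mγ (pow_mem uτ.1 _)) _ h3.1, h3.2] at h1
    exact h1.symm
  have nh : (pt x).N (fun j => Φ.ev (b j)) = nsq (b · x) :=
    Finset.sum_congr rfl fun j _ => by rw [(hpt.ev x hx _ (rb j)).2]
  have h1 := hK x hx (normSq (f x) / (C₀ * nsq (b · x) ^ e)) (fun f hf => u1 f (by simp [hf]))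
    (fun f hf => u1 f (by simp [hf])) mγ uτ.1 (div_nonneg (N0 _) (by positivity))
    fun f' hf => by
      have := hd (pt x) (fun j => (hpt.ev x hx _ (rb j)).1) f' hf (u1 f' (by simp [hf])).1
      rw [vQ x hx, nh] at this
      rw [div_le_iff₀ (by positivity)]
      linarith
  rw [← mul_div_assoc, div_le_iff₀ (by positivity)] at h1
  have x1 : Real.exp (lw D (fun i => ((Qg + B + fun i => e * P i : ι → ℤ) i : ℝ)) x) =
      Real.exp (lw D (fun i => Qg i) x) * Real.exp (lw D (fun i => B i) x) *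
        Real.exp (lw D (fun i => P i) x) ^ e := by
    rw [← Real.exp_nat_mul, ← Real.exp_add, ← Real.exp_add]
    refine congrArg Real.exp ?_
    simp only [lw, Finset.mul_sum, ← Finset.sum_add_distrib, Pi.add_apply]
    exact Finset.sum_congr rfl fun i _ => by push_cast; ring
  have x2 : Real.exp (lw D (fun i => ((B + R : ι → ℤ) i : ℝ)) x) =
      Real.exp (lw D (fun i => B i) x) * Real.exp (lw D (fun i => R i) x) := by
    rw [← Real.exp_add]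
    refine congrArg Real.exp ?_
    simp only [lw, ← Finset.sum_add_distrib, Pi.add_apply]
    exact Finset.sum_congr rfl fun i _ => by push_cast; ring
  have g1 := (fl (h₁ x hx)).trans (le_abs_self _)
  have g2 := (x2 ▸ fl (h₂ x hx)).trans (le_abs_self _)
  have g3 := pow_le_pow_left₀ (by positivity) (fl (h₃ x hx)) e
  have g4 := congrArg normSq eG
  have := N0 (ζ x)
  have := N0 (g x)
  have g5 := mul_le_mul g1 (mul_le_mul h1 g2 (by positivity) (by positivity))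
    (mul_nonneg (mul_nonneg (mul_nonneg (N0 _) (by positivity)) (N0 _)) (by positivity))
    (abs_nonneg _)
  have g6 := mul_le_mul_of_nonneg_left g3
    (show 0 ≤ |C₁| * (K * C₀ * |C₂|) * nsq (a · x) ^ j by positivity)
  have g7 := mul_le_mul_of_nonneg_right g5
    (show 0 ≤ Real.exp (lw D (fun i => P i) x) ^ e by positivity)
  rw [map_mul, map_mul] at g4
  rw [x1, Pi.mul_apply, Pi.mul_apply, map_mul, map_mul]
  rw [mul_pow] at g6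
  calc _ = normSq (u x) * normSq (w x) * (normSq (g x) * normSq (f x) *
        Real.exp (lw D (fun i => Qg i) x) * Real.exp (lw D (fun i => B i) x) *
        Real.exp (lw D (fun i => R i) x) * Real.exp (lw D (fun i => P i) x) ^ e *
        nsq (b · x) ^ j) := by ring
    _ ≤ _ := by rw [g4]; linarith

end R5

/-- The theorem of block R with both bounds. -/
theorem st_R5b : St_R5b := by
  intro n M _ ι _ _ D X r t F _ _ Φ V m π k a₀ lam κ τ hP hZ hB hF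
  obtain ⟨N, r₁, r₂, P, a, b, hN, hA, ⟨pt, U, hpt, hU, H⟩, h⟩ := R5.core0 X hP hB hF
  refine ⟨N, r₁, r₂, P, a, b, hN, hA, R5.lu X hpt hF.τ0 hU hA H,
    fun Q hW hG => R5.low X hB hpt hF.τ0 hU hA H hW hG, fun r' ε => ?_⟩
  obtain ⟨g, e, Q, hE⟩ := h r' ε
  obtain ⟨b₀, hM⟩ := rMD st_JKIT NV6.J.jFRM ZL.st_UPB NV5.st_bKIT n M ι D X a₀ N r' r₁ r₂ e lam κ P
    a b ε g Q hP.hall hZ hN (fun i => (hA.sa i).1) (fun j => (hA.sb j).1) hE
  exact ⟨g, e, b₀, hE.r1, hM,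
    (st_ONE n M ι D X F Φ V m π k lam κ P τ N r' r₁ r₂ a b ε hB hF hN hA).2 g hE.rg hE.ne⟩

end Pool.Agent.Lib.R6
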