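import Pool.Agent.Lib.S5.Top0
import Pool.Agent.Lib.S5.PCTX
import Pool.Agent.Lib.S5.PS
import Pool.Agent.Lib.S5.P_DOM
import Pool.Agent.Lib.S5.B_VMQ
import Pool.Agent.Lib.S5.B_MID
import Pool.Agent.Lib.S5.B_FIX
import Pool.Agent.Lib.S5.B_INA

/-! Project S5: abundance for pairs with many twisted forms. -/

open scoped Classical Topology ContDiff Manifold
open Set Filter

noncomputable section

namespace Pool.Agent.Lib.S5

open Pool.Agent.Lib.SV (E)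
open Pool.Agent.Lib.GH (Hermitian)
open Pool.Agent.Lib.HS32 Pool.Agent.Lib.EX Pool.Agent.Lib.EXS Pool.Agent.Lib.ZL Pool.Agent.Lib.NV2
open Pool.Agent.Lib.NV5 (Contr)
open Pool.Agent.Lib.HS.BBR (mf)

/-- Abundance for `c (K + Δ) = N + E` when the twisted forms have the top order of growth. -/
def St_S5F : Prop := ∀ (n : ℕ) (Y I : Type) [TopologicalSpace Y] [ChartedSpace (E n) Y]
  [IsManifold 𝓘(ℂ, E n) ω Y] [CompactSpace Y] [T2Space Y] [ConnectedSpace Y] [Fintype I]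
  (G : Y → HS.Mat n) (D : I → Set Y) (c q d C : ℕ) (e : I → ℕ) (l p ν b : I → ℤ) (η : Y → ℂ),
  Hermitian G → (∀ y, Ord n 1 D l η y) → AmpBy n D e → 0 < c →
  (∀ i, c * l i ≤ p i ∧ p i < c * (l i + 1)) → Nef n G D ν → Zar n D p ν e →
  Contr n D b {i | ν i < p i} → Nef n G D (b - ν) →
  (∀ k : ℕ, ∃ B : ℕ, ∀ j : ℕ, hz n D (fun i => j * ν i + k * e i) ≤ B * (j + 1) ^ d) →
  {a : ℕ | ∃ (k : ℕ) (v : Fin k → Y → (E n →L[ℂ] ℂ) [⋀^Fin q]→ₗ[ℂ] ℂ), (a + 1) ^ d ≤ C * k ∧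
    ∀ z : Fin k → ℂ, z ≠ 0 → MVec n q D (fun i => l i + a * ν i) (∑ β, z β • v β)}.Infinite →
  ∃ m : ℕ, 0 < m ∧ GenD n D fun i => m * ν i

namespace F5

/-- The theorem on the manifold layer. -/
theorem gen {n : ℕ} {M : Mf n} [M.Cpt] {ι : Type} [Fintype ι] [DecidableEq ι] {D : Ad M ι}
    {X : Cx D} {r c' c q d C₀ : ℕ} {t : Fin r → M.X → ℂ} {p ν : ι → ℤ} (C : Ctx5 X t c' c p ν)
    (hD : DomQ D X.l ν X.e)
    (up : ∀ b : ℕ, ∃ B : ℕ, ∀ j : ℕ, h0 D (fun i => j * ν i + b * X.e i) ≤ B * (j + 1) ^ d)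
    (hM : {a : ℕ | ∃ (s : ℕ) (b : Fin s → D.A → (Fin q → Fin n) → E n → ℂ), (a + 1) ^ d ≤ C₀ * s ∧
      Fam D q (fun i => X.l i + a * ν i) b ∧ ∀ s, Alt D 1 (b s)}.Infinite) :
    ∃ m : ℕ, 0 < m ∧ Gens D fun i => m * ν i := by
  obtain ⟨F, i1, i2, ⟨Φ⟩⟩ := NV5.st_bFLD n M ι D
  obtain ⟨V, m, π, br⟩ := NV5.st_bVF n M ι D F Φ r (fun i => X.e i) t
    (fun i => Int.natCast_pos.2 (C.epos i)) C.kd C.imm
  obtain ⟨Q, C', S, U, inq⟩ := bINA NV5.st_bTNS NV5.st_bKIT NV5.st_bFN n M ι D F Φ V m π r X.e t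
    X.l ν q d C₀ C.epos C.kd C.imm br hD hM
  obtain ⟨k, a, τ, a0, fb, dm, -, wr⟩ :=
    bMID n M ι D F Φ V m π X.e p ν Q d C' S U C.epos br C.zar inq
  obtain ⟨pr, zw⟩ := z5 a0 C
  obtain ⟨N, r₁, r₂, P, A, B, N0, ab, -, lo, h⟩ :=
    R6.P.st_R5b n M ι D X r t F Φ V m π k _ _ _ _ pr zw br fb
  obtain ⟨g, e, b₀, r1, md, rk⟩ := h _ finProdFinEquiv.symm
  obtain ⟨N₁, r₀, σ, g₁, y, th, sig⟩ := S5.P.st_SIG n M ι D X r t F Φ k _ N _ e _ r₁ r₂ _ _ P g b₀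
    _ A B pr (pow_ne_zero N fb.τ0) N0 ab r1 md rk dm fun j j0 s hs => by
      simpa only [Nat.cast_mul, mul_assoc] using bFIX n M ι D F Φ V m π X.e p ν br C.zar
        (j * N * a) (Nat.mul_pos (Nat.mul_pos j0 N0) a0) s
        (by simpa only [Nat.cast_mul, mul_assoc] using hs)
  exact ⟨N₁ * N * a, Nat.mul_pos (Nat.mul_pos sig.N0 N0) a0,
    by simpa only [Nat.cast_mul, mul_assoc] using sig.gens (lo _ (wr up c') fun j => by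
      simpa only [Nat.cast_mul, mul_assoc] using C.gen (j * a))⟩

/-- The data on the manifold. -/
theorem ctx {n : ℕ} {Y I : Type} [TopologicalSpace Y] [ChartedSpace (E n) Y]
    [IsManifold 𝓘(ℂ, E n) ω Y] [CompactSpace Y] [T2Space Y] [ConnectedSpace Y] [(mf n Y).Cpt]
    [Fintype I] {G : Y → HS.Mat n} {S : I → Set Y} {c : ℕ} {e : I → ℕ} {l p ν β : I → ℤ}
    {η : Y → ℂ} (hG : Hermitian G) (hO : ∀ y, Ord n 1 S l η y) (hA : AmpBy n S e) (hc : 0 < c)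
    (hp : ∀ i, c * l i ≤ p i ∧ p i < c * (l i + 1)) (hN : Nef n G S ν) (hZa : Zar n S p ν e)
    (hCo : Contr n S β {i | ν i < p i}) (hNb : Nef n G S (β - ν)) :
    ∃ (D : Ad (mf n Y) I) (X : Cx D) (r c' : ℕ) (t : Fin r → Y → ℂ), D.Fit S ∧ X.l = l ∧ X.e = e ∧
      Ctx5 X t c' c p ν ∧ (0 < n → DomQ D X.l ν X.e) := by
  have c0 : (0 : ℝ) < c := Nat.cast_pos.2 hc
  obtain ⟨D, X, r, c', t, hF, rfl, rfl, C⟩ := st_CT5 n Y I G S c e l p ν η hG hO hA hc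
    (fun i => ⟨by rw [le_div_iff₀' c0]; exact_mod_cast (hp i).1,
      by rw [div_lt_iff₀' c0]; exact_mod_cast (hp i).2⟩) hN hZa
  obtain ⟨cn⟩ := NV5.bCN n Y I S D β _ hF hCo
  exact ⟨D, X, r, c', t, hF, rfl, rfl, C, fun hn N r k b₁ b₂ _ =>
    P63.pair X hn hc C.epos C.big C.can C.kd C.imm C.gen (fun i => (hZa.1 i).trans_lt (hp i).2)
      ⟨cn.r, cn.τ, cn.t, cn.thol, cn.imm, fun d z hz i hi =>
        cn.deg d z hz i (lt_of_lt_of_le hi (hp i).1)⟩ (ZL.bNFB n Y I G S _ D X hG hF hNb)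
      N r k b₁ b₂⟩

end F5

theorem st_S5F : St_S5F := by
  intro n Y I _ _ _ _ _ _ _ G S c q d C₀ e l p ν β η hG hO hA hc hp hN hZa hCo hNb up hM
  have : (mf n Y).Cpt := ⟨‹_›, ‹_›, ‹_›⟩
  have hE : ∀ y, ∃ h, Eqs n S y h := fun y => (hO y).imp fun h ⟨w, hw⟩ => hw.1
  obtain ⟨D, X, r, c', t, hF, rfl, rfl, C, hD⟩ := F5.ctx hG hO hA hc hp hN hZa hCo hNb
  rcases Nat.eq_zero_or_pos n with rfl | hn
  · exact ⟨1, one_pos, genD EX.bUNI hF hE (T0.gz D _)⟩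
  obtain ⟨-, -, -, hz'⟩ := NV2.st_SEC n Y I S D hF hE
  exact (F5.gen (q := q) (C₀ := C₀) C (hD hn)
    (fun b => (up b).imp fun B h j => hz' _ ▸ h j) (hM.mono fun a ha => by
      obtain ⟨k, v, h1, h2⟩ := ha
      obtain ⟨b₁, h3⟩ := vmq hF hE h2
      exact ⟨k, b₁, h1, h3⟩)).imp fun m h => ⟨h.1, genD EX.bUNI hF hE h.2⟩

end Pool.Agent.Lib.S5
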