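import Pool.Agent.Lib.S5.B_WR
import Pool.Agent.Lib.NV5.Kit

/-! Project S5: the sections of the canonical class are the sections of its positive part. -/

open scoped Classical Topology ContDiff Manifold
open Set Filter WithZero

set_option linter.unusedSectionVars false

noncomputable section

namespace Pool.Agent.Lib.S5

open Pool.Agent.Lib.SV (E Pluri)
open Pool.Agent.Lib.HS32 Pool.Agent.Lib.EX Pool.Agent.Lib.ZL Pool.Agent.Lib.NV2
open Pool.Agent.Lib.NV5 (FM VF Hg dv Ctx4)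

section zar

variable {n : ℕ} {M : Mf n} [M.Cpt] {ι : Type} [Fintype ι] [DecidableEq ι] {D : Ad M ι}
  {F : Type} [Field F] [Algebra ℂ F] {Φ : FM D F} {V : VF n F} {m : ι → V.P → ℤ} {π : Hg D → V.P}

theorem zar0 (br : Φ.Br V m π) {P ν R : ι → ℤ}
    (zar : ∀ (j : ℕ) U, Sp D (fun i => j * P i) U → Sp D (fun i => j * ν i + R i) U) (J : ℕ)
    (s : M.X → ℂ) (hs : Sp D (fun i => J * P i) s) : Sp D (fun i => J * ν i) s := by
  have h1 := (br.sec _ _).2 ⟨s, hs, rfl⟩
  obtain ⟨s', h2, h3⟩ := (br.sec (fun i => J * ν i) (Φ.ev s)).1 fun p => by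
    rcases eq_or_ne (V.v p (Φ.ev s)) 0 with v0 | v0
    · rw [v0]; exact zero_le
    rw [← exp_log v0, exp_le_exp]
    refine NV5.PRE.slope infinite_univ (w := 0) (N := dv m R p) fun i _ => ?_
    obtain ⟨U, u1, u2⟩ := (br.sec (fun l => (i * J : ℕ) * P l) (Φ.ev s ^ i)).1 fun q => by
      rw [NV5.S1b.dv_smul, mul_smul, ← NV5.S1b.dv_smul m J, Pi.smul_apply, exp_nsmul, map_pow]
      exact pow_le_pow_left' (h1 q) i
    have h4 := (br.sec _ _).2 ⟨U, zar _ U u1, u2⟩ p
    rw [← dv_add, NV5.S1b.dv_smul, mul_smul, ← NV5.S1b.dv_smul m J, map_pow, ← exp_log v0,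
      ← exp_nsmul, exp_le_exp, Pi.add_apply, Pi.smul_apply, nsmul_eq_mul, nsmul_eq_mul] at h4
    rwa [add_zero]
  rwa [← (NV5.st_bFN n M ι D F Φ).2.2.1 s' s ⟨_, h2⟩ ⟨_, hs⟩ h3]

/-- The fixed part can be dropped. -/
theorem zar4 {X : Cx D} {r c' c : ℕ} {t : Fin r → M.X → ℂ} {ν : ι → ℤ} (C : Ctx4 X t c' c ν)
    (br : Φ.Br V m π) {a N : ℕ} (a0 : 0 < a) (N0 : 0 < N) (j : ℕ) (j0 : 0 < j) (s : M.X → ℂ)
    (hs : Sp D (fun i => j * (N * (a * ν i)) + (c * X.l i - ν i)) s) :
    Sp D (fun i => j * (N * (a * ν i))) s := by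
  obtain ⟨R, hR⟩ := C.zar 0
  have h3 : (1 : ℤ) ≤ j * N * a := by exact_mod_cast Nat.mul_pos (Nat.mul_pos j0 N0) a0
  simpa only [Nat.cast_mul, mul_assoc] using zar0 br (P := fun i => c * X.l i) (R := R)
    (fun j U h => hR j U (by simpa using h)) (j * N * a) s
    ((NV5.st_bKIT n M ι D).1 _ _ _ (fun i => by
      push_cast
      nlinarith [mul_nonneg (sub_nonneg.2 h3) (sub_nonneg.2 (C.le i))]) hs)

end zar

open NV5.PLUb in
/-- Independent sections give independent pluricanonical forms. -/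
theorem plu {n m k : ℕ} {Y I : Type} [TopologicalSpace Y] [ChartedSpace (E n) Y]
    [IsManifold 𝓘(ℂ, E n) ω Y] [Fintype I] {S : I → Set Y} {l : I → ℤ} {η : Y → ℂ}
    {s : Fin k → Y → ℂ} (hη : ∀ y, Ord n 1 S l η y) (hs : ∀ β, Sec n S (fun i => m * l i) (s β))
    (li : LinearIndependent ℂ s) :
    ∃ s' : Fin k → Y → ℂ, LinearIndependent ℂ s' ∧ ∀ β, s' β ∈ Pluri n Y m := by
  refine ⟨fun β => ex n m S fun x => s β x * η x ^ m, Fintype.linearIndependent_iff.2 fun z hz =>
    Fintype.linearIndependent_iff.1 li z (funext fun y => ?_), fun β y => ?_⟩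
  · rw [Finset.sum_apply]
    by_cases o : ∀ i, y ∉ S i
    · have k0 : ∀ β, ex n m S (fun x => s β x * η x ^ m) y = s β y * η y ^ m := fun β => by
        obtain ⟨e, c, g, he, hy, hO, hg, k⟩ := loc y (hη y) ((hs β).2 y)
        have k1 := ex_eq (φ := fun x => s β x * η x ^ m) he hy hO hg.self_of_nhds.continuousAt k
        have k2 := k.self_of_nhds ((hO y hy).1 o)
        rw [← k2, e.left_inv hy] at k1
        exact mul_right_cancel₀ (pow_ne_zero m (K1.jd_ne he hy)) k1
      have k3 := congrFun hz y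
      simp only [Finset.sum_apply, Pi.smul_apply, k0, ← smul_mul_assoc, ← Finset.sum_mul,
        Pi.zero_apply] at k3
      refine (mul_eq_zero.1 k3).resolve_right (pow_ne_zero m ?_)
      obtain ⟨f, w, f1, f2⟩ := hη y
      rw [f2.self_of_nhds.2.2]
      exact mul_ne_zero f2.self_of_nhds.2.1 (Finset.prod_ne_zero_iff.2 fun i _ =>
        zpow_ne_zero _ fun h => o i ((f1.1.self_of_nhds i).2.2 h))
    · obtain ⟨i, hi⟩ := not_forall.1 o
      exact Finset.sum_eq_zero fun β _ => by simp [(hs β).1 i y (not_not.1 hi)]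
  · obtain ⟨e, c, g, he, hy, hO, hg, h⟩ := loc y (hη y) ((hs β).2 y)
    refine (K1.hol_iff he hy).2 (hg.self_of_nhds.congr_of_eventuallyEq ?_)
    filter_upwards [hg, h.eventually_nhds, e.open_target.eventually_mem (e.map_source hy)]
      with w p q r
    rw [← e.right_inv r] at p q
    exact (ex_eq he (e.map_target r) hO p.continuousAt q).trans (congrArg g (e.right_inv r))

end Pool.Agent.Lib.S5
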