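import Pool.Agent.Lib.S5.K6
import Pool.Agent.Lib.S5.Z0
import Pool.Agent.Lib.S5.SigDefs
import Pool.Agent.Lib.S5.B_PRE
import Pool.Agent.Lib.S5.B_INQ
import Pool.Agent.Lib.S5.B_NVQ
import Pool.Agent.Lib.NV5.Top4

/-! Project S5: the Kodaira dimension is at least the degree of the Euler characteristic. -/

open scoped Classical Topology ContDiff Manifold
open Set Filter Polynomial

set_option linter.unusedSectionVars false
set_option linter.unusedVariables false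

noncomputable section

namespace Pool.Agent.Lib.S5

open Pool.Agent.Lib.SV (E nsq Pluri)
open Pool.Agent.Lib.GH (Hermitian)
open Pool.Agent.Lib.HS32 Pool.Agent.Lib.EX Pool.Agent.Lib.EXS Pool.Agent.Lib.ZL Pool.Agent.Lib.NV2
open Pool.Agent.Lib.ZQ (offz)
open Pool.Agent.Lib.NV5 (FM VF Hg dv Ctx4 Contr DomH)
open Pool.Agent.Lib.HS.BBR (mf)

/-- The Kodaira dimension is at least `d`. -/
def Kod (n : ℕ) (Y : Type) [TopologicalSpace Y] [ChartedSpace (E n) Y] (d : ℕ) : Prop :=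
  ∃ C : ℕ, {m : ℕ | ∃ (k : ℕ) (s : Fin k → Y → ℂ),
    (m + 1) ^ d ≤ C * k ∧ LinearIndependent ℂ s ∧ ∀ β, s β ∈ Pluri n Y m}.Infinite

/-- The theorem for the Euler characteristic. -/
def St_S6 : Prop := ∀ (n : ℕ) (Y I : Type) [TopologicalSpace Y] [ChartedSpace (E n) Y]
  [IsManifold 𝓘(ℂ, E n) ω Y] [CompactSpace Y] [T2Space Y] [ConnectedSpace Y] [Fintype I]
  (G : Y → HS.Mat n) (D : I → Set Y) (c : ℕ) (e : I → ℕ) (l ν b : I → ℤ) (η : Y → ℂ), 0 < n →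
  Hermitian G → (∀ y, Ord n 1 D l η y) → AmpBy n D e → 0 < c → Nef n G D ν →
  Zar n D (fun i => c * l i) ν e → Contr n D b {i | ν i < c * l i} → Nef n G D (b - ν) →
  ∃ χ : ℚ[X], (∀ a : ℕ, ∃ P : ℚ[X], (∀ j : ℕ, 0 < j →
      (hz n D (fun i => l i + a * ν i + j * e i) : ℚ) = P.eval (j : ℚ)) ∧
      P.eval 0 = χ.eval (a : ℚ)) ∧ (χ ≠ 0 → Kod n Y χ.natDegree)

section core

variable {n : ℕ} {M : Mf n} [M.Cpt] {ι : Type} [Fintype ι] [DecidableEq ι] {D : Ad M ι}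
  {F : Type} [Field F] [Algebra ℂ F] {Φ : FM D F} {V : VF n F} {m : ι → V.P → ℤ} {π : Hg D → V.P}

theorem Sig.sg6 {X : Cx D} {L κ Q : ι → ℤ} {I J : Type} [Fintype I] [Fintype J]
    {a : I → M.X → ℂ} {b : J → M.X → ℂ} {N r : ℕ} {σ : Fin r → M.X → ℂ} {g g₁ : M.X → ℂ} {x C : ℝ}
    {th : ι → ℝ} (h : Sig X L κ a b N σ g₁ x th) (sg : Sp D Q g) (g0 : ∃ y ∈ off D, g y ≠ 0)
    (r1 : ∀ y ∈ offz D g, nsq (a · y) ≤ C * Real.exp (-lw D (fun i => L i) y) * nsq (b · y)) :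
    Sg6 X L fun y => nsq (a · y) / nsq (b · y) := by
  obtain ⟨-, -, -, -, -, -, -, -, krg, -⟩ := NV5.st_bKIT n M ι D
  obtain ⟨-, ⟨R, hR⟩, h0⟩ := krg g₁ g h.rg ⟨Q, sg⟩
  refine ⟨N, r, σ, g₁ * g, x, C, th, h.N0, h.x0, h.sp, ((ZL.st_UPB n M ι D R).1 _ hR.1).1, ?_,
    fun y hy => ?_, h.int⟩
  · by_contra hn
    rcases h0 (funext fun y => by_contra fun hy => hn ⟨y, by_contra fun ho => hy (hR.2 y ho), hy⟩)
      with h1 | h1
    · obtain ⟨y, -, hy⟩ := h.ne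
      exact hy (congrFun h1 y)
    · obtain ⟨y, -, hy⟩ := g0
      exact hy (congrFun h1 y)
  · obtain ⟨p1, p2, p3⟩ := h.pos y ⟨hy.1, left_ne_zero_of_mul hy.2⟩
    exact ⟨div_pos p1 p2, (div_le_iff₀ p2).2 (r1 y ⟨hy.1, right_ne_zero_of_mul hy.2⟩), p3⟩

/-- Many dominated sections give many pluricanonical sections. -/
theorem kod4 (hS : St_SIG) {X : Cx D} {r c' c d C₀ : ℕ} {t : Fin r → M.X → ℂ} {ν Q : ι → ℤ}
    {S : Set ℕ} {U : ℕ → Submodule ℂ F} (C : Ctx4 X t c' c ν) (br : Φ.Br V m π)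
    (I : Inq V (dv m X.l) (dv m fun i => X.e i) (dv m Q) d C₀ S U) :
    ∃ C : ℕ, {j : ℕ | ∃ (k : ℕ) (s : Fin k → M.X → ℂ), (j + 1) ^ d ≤ C * k ∧
      LinearIndependent ℂ s ∧ ∀ β, Sp D (fun i => j * X.l i) (s β)}.Infinite := by
  obtain ⟨d₀, z, k, a, c₁, b, τ, hP, hO, -, x, hQ⟩ := fiq (br.fs _) I
  obtain ⟨R, hR⟩ := hQ.zar br C.epos C.cpos C.zar hP.τ0
  obtain ⟨pr, zw⟩ := NV6.gZ4 ZL.bPW ZL.st_MU R6.rHQA n M ι D X r c' c a t ν hP.a0 C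
  have fb := NV6.gR4 n M ι D X r c' c t ν F Φ V m π Q d₀ z k a c₁ b τ C br hP hO
  obtain ⟨N, r₁, r₂, P, A, B, N0, ab, lu, -, h⟩ :=
    R6.st_R5b n M ι D X r t F Φ V m π k _ _ _ _ pr zw br fb
  obtain ⟨g, e, b₀, ⟨C₁, r1⟩, md, rk⟩ := h _ finProdFinEquiv.symm
  obtain ⟨N₁, r₀, σ, g₁, y, th, sig⟩ := hS n M ι D X r t F Φ k _ N _ e _ r₁ r₂ _ _ P g b₀ _ A B pr
    (pow_ne_zero N fb.τ0) N0 ab ⟨C₁, r1⟩ md rk
    (NV6.gD4 NV5.st_bKIT NV5.st_bFN n M ι D X r c' c t ν F Φ V m π Q d₀ z k a c₁ b τ C br hP)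
    (zar4 C br hP.a0 N0)
  obtain ⟨Qg, sg⟩ := md.rg
  obtain ⟨C₂, h₂⟩ := kap pr br fb.τ0 N0 lu (sig.sg6 sg md.ne r1) hR
  have p0 : 0 < N * a * c := Nat.mul_pos (Nat.mul_pos N0 hP.a0) C.cpos
  refine ⟨(N * a * c) ^ d * C₂, (h₂.image (f := fun j => j * (N * a * c)) fun _ _ _ _ h =>
    Nat.eq_of_mul_eq_mul_right p0 h).mono ?_⟩
  rintro _ ⟨j, hj, rfl⟩
  obtain ⟨fd, sp⟩ := K6.fd (D := D) fun i => j * (N * (a * ν i))
  let w := Module.finBasis ℂ (Submodule.span ℂ {F | Sp D (fun i => j * (N * (a * ν i))) F})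
  refine ⟨_, fun β => w β, ?_, w.linearIndependent.map' (Submodule.subtype _)
    (Submodule.ker_subtype _), fun β => (NV5.st_bKIT n M ι D).1 _ _ _ (fun i => ?_) (sp _ (w β).2)⟩
  · have h6 := Nat.pow_le_pow_left (show j * (N * a * c) + 1 ≤ N * a * c * (j + 1) by nlinarith) d
    rw [mul_pow] at h6
    exact h6.trans ((Nat.mul_le_mul_left _ hj).trans_eq (mul_assoc _ _ _).symm)
  · have := mul_le_mul_of_nonneg_left (C.le i) (Int.natCast_nonneg (j * N * a))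
    push_cast at this ⊢
    linarith

end core

/-- The data on the manifold. -/
theorem ctx6 {n : ℕ} {Y I : Type} [TopologicalSpace Y] [ChartedSpace (E n) Y]
    [IsManifold 𝓘(ℂ, E n) ω Y] [CompactSpace Y] [T2Space Y] [ConnectedSpace Y] [(mf n Y).Cpt]
    [Fintype I] {G : Y → HS.Mat n} {S : I → Set Y} {c : ℕ} {e : I → ℕ} {l ν β : I → ℤ} {η : Y → ℂ}
    (hn : 0 < n) (hG : Hermitian G) (hO : ∀ y, Ord n 1 S l η y) (hA : AmpBy n S e) (hc : 0 < c)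
    (hN : Nef n G S ν) (hZa : Zar n S (fun i => c * l i) ν e)
    (hCo : Contr n S β {i | ν i < c * l i}) (hNb : Nef n G S (β - ν)) :
    ∃ (D : Ad (mf n Y) I) (X : Cx D) (r c' : ℕ) (t : Fin r → Y → ℂ), D.Fit S ∧ X.l = l ∧ X.e = e ∧
      Ctx4 X t c' c ν ∧ DomH D X.l X.e := by
  have hE : ∀ y, ∃ h, Eqs n S y h := fun y => (hO y).imp fun h ⟨w, hw⟩ => hw.1
  obtain ⟨D, X, r, c', t, hF, h1, hl, he, hB, hnf, hw, hH, hK, hI, hα, hZ, hGe⟩ :=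
    NV2.st_CTX n Y I G S c e l ν η hG hO hA hc hN hZa
  obtain ⟨-, -, hS, -⟩ := NV2.st_SEC n Y I S D hF hE
  subst hl he
  have hC : DM.Can D X.l X.w := fun b d x h1 h2 => by simpa using hw b d x h1 h2
  have C : Ctx4 X t c' c ν := ⟨hn, h1, hA.1, hB, hnf, hC, hH, hK, hI, hα, hZ, hGe, hc, hZa.1,
    fun k => (hZa.2 k).imp fun a ha j U hU => (hS _ _).1 (ha j U ((hS _ _).2 hU))⟩
  obtain ⟨cn⟩ := NV5.bCN n Y I S D β _ hF hCo
  exact ⟨D, X, r, c', t, hF, rfl, rfl, C, NV5.st_bDOMX n (mf n Y) I D X r c' c t ν β C cn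
    (ZL.bNFB n Y I G S _ D X hG hF hNb)⟩

theorem bS6 (hSIG : St_SIG) : St_S6 := by
  intro n Y I _ _ _ _ _ _ _ G S c e l ν β η hn hG hO hA hc hN hZa hCo hNb
  have : (mf n Y).Cpt := ⟨‹_›, ‹_›, ‹_›⟩
  obtain ⟨D, X, r, c', t, hF, rfl, rfl, C, hD⟩ := ctx6 hn hG hO hA hc hN hZa hCo hNb
  obtain ⟨-, -, hS, hz'⟩ :=
    NV2.st_SEC n Y I S D hF fun y => (hO y).imp fun h ⟨w, hw⟩ => hw.1
  obtain ⟨R, hR, -⟩ := NV2.st_HIL n (mf n Y) I D X r c' X.l ν t C.hq C.kd C.alp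
    (by simpa using C.zo 0) (by simpa using C.gen 1)
  simp only [POL0.ev_swap] at hR
  refine ⟨R.eval (Polynomial.C 0), fun a => ⟨_, fun j hj => hz' _ ▸ hR a j hj,
    (POL0.ev_swap _ _ _).symm⟩, fun h0 => ?_⟩
  obtain ⟨F, i1, i2, ⟨Φ⟩⟩ := NV5.st_bFLD n (mf n Y) I D
  obtain ⟨V, m, π, br⟩ := NV5.st_bVF n (mf n Y) I D F Φ r (fun i => X.e i) t
    (fun i => Int.natCast_pos.2 (hA.1 i)) C.kd C.imm
  obtain ⟨Q, C', T, U, inq⟩ := inq5 st_NVQ (bINQ NV5.st_bTNS NV5.st_bKIT NV5.st_bFN) C hD br _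
    (fun a => (eventually_ge_atTop 1).mono (hR a))
    ((POLY.low h0).imp fun _ h => by simpa only [POL0.ev_swap] using h.frequently)
  obtain ⟨C₁, h⟩ := kod4 hSIG C br inq
  refine ⟨C₁, h.mono ?_⟩
  rintro j ⟨k, s, h1, h2, h3⟩
  obtain ⟨s', h4⟩ := plu hO (fun β => (hS _ _).2 (h3 β)) h2
  exact ⟨k, s', h1, h4⟩

end Pool.Agent.Lib.S5
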