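import Pool.Agent.Lib.S5.S6
import Pool.Agent.Lib.S5.B_VMQ

/-! Project S5: the Kodaira dimension is at least the order of growth of twisted forms. -/

open scoped Classical Topology ContDiff Manifold
open Set Filter

set_option linter.unusedVariables false

noncomputable section

namespace Pool.Agent.Lib.S5

open Pool.Agent.Lib.SV (E)
open Pool.Agent.Lib.GH (Hermitian)
open Pool.Agent.Lib.HS32 Pool.Agent.Lib.EX Pool.Agent.Lib.EXS Pool.Agent.Lib.ZL Pool.Agent.Lib.NV2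
open Pool.Agent.Lib.NV5 (Contr)
open Pool.Agent.Lib.HS.BBR (mf)

/-- The theorem for twisted multivector fields. -/
def St_S6F : Prop := ∀ (n : ℕ) (Y I : Type) [TopologicalSpace Y] [ChartedSpace (E n) Y]
  [IsManifold 𝓘(ℂ, E n) ω Y] [CompactSpace Y] [T2Space Y] [ConnectedSpace Y] [Fintype I]
  (G : Y → HS.Mat n) (D : I → Set Y) (c q d C : ℕ) (e : I → ℕ) (l ν b : I → ℤ) (η : Y → ℂ),
  0 < n → Hermitian G → (∀ y, Ord n 1 D l η y) → AmpBy n D e → 0 < c → Nef n G D ν →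
  Zar n D (fun i => c * l i) ν e → Contr n D b {i | ν i < c * l i} → Nef n G D (b - ν) →
  {a : ℕ | ∃ (k : ℕ) (v : Fin k → Y → (E n →L[ℂ] ℂ) [⋀^Fin q]→ₗ[ℂ] ℂ), (a + 1) ^ d ≤ C * k ∧
    ∀ z : Fin k → ℂ, z ≠ 0 → MVec n q D (fun i => a * l i) (∑ β, z β • v β)}.Infinite → Kod n Y d

theorem bS6F (hSIG : St_SIG) : St_S6F := by
  intro n Y I _ _ _ _ _ _ _ G S c q d C₀ e l ν β η hn hG hO hA hc hN hZa hCo hNb hM
  have : (mf n Y).Cpt := ⟨‹_›, ‹_›, ‹_›⟩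
  obtain ⟨D, X, r, c', t, hF, rfl, rfl, C, hD⟩ := ctx6 hn hG hO hA hc hN hZa hCo hNb
  have hE : ∀ y, ∃ h, Eqs n S y h := fun y => (hO y).imp fun h ⟨w, hw⟩ => hw.1
  obtain ⟨-, -, hS, -⟩ := NV2.st_SEC n Y I S D hF hE
  obtain ⟨F, i1, i2, ⟨Φ⟩⟩ := NV5.st_bFLD n (mf n Y) I D
  obtain ⟨V, m, π, br⟩ := NV5.st_bVF n (mf n Y) I D F Φ r (fun i => X.e i) t
    (fun i => Int.natCast_pos.2 (hA.1 i)) C.kd C.imm
  obtain ⟨Q, C', T, U, inq⟩ := bINQ NV5.st_bTNS NV5.st_bKIT NV5.st_bFN n (mf n Y) I D F Φ V m π r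
    X.e t X.l q d C₀ C.epos C.kd C.imm br hD (hM.mono fun a ha => by
      obtain ⟨k, v, h1, h2⟩ := ha
      obtain ⟨b₁, h3, -⟩ := vmq hF hE h2
      exact ⟨k, b₁, h1, h3⟩)
  obtain ⟨C₁, h⟩ := kod4 hSIG C br inq
  refine ⟨C₁, h.mono ?_⟩
  rintro j ⟨k, s, h1, h2, h3⟩
  obtain ⟨s', h4⟩ := plu hO (fun β => (hS _ _).2 (h3 β)) h2
  exact ⟨k, s', h1, h4⟩

end Pool.Agent.Lib.S5
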