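import Pool.Agent.Lib.S5.All
import Pool.Agent.Lib.S5.K6

/-! Project S5: the Kodaira dimension of a pair is at least the degree of the Euler
characteristic. -/

open scoped Classical Topology ContDiff Manifold
open Set Filter Polynomial

set_option linter.unusedSectionVars false

noncomputable section

namespace Pool.Agent.Lib.S5

open Pool.Agent.Lib.SV (E nsq)
open Pool.Agent.Lib.GH (Hermitian)
open Pool.Agent.Lib.HS32 Pool.Agent.Lib.EX Pool.Agent.Lib.EXS Pool.Agent.Lib.ZL Pool.Agent.Lib.NV2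
open Pool.Agent.Lib.ZQ (offz)
open Pool.Agent.Lib.NV5 (FM VF Hg dv Contr)
open Pool.Agent.Lib.HS.BBR (mf)

/-- The theorem for a pair `c (K + Δ) = N + E`. -/
def St_S6P : Prop := ∀ (n : ℕ) (Y I : Type) [TopologicalSpace Y] [ChartedSpace (E n) Y]
  [IsManifold 𝓘(ℂ, E n) ω Y] [CompactSpace Y] [T2Space Y] [ConnectedSpace Y] [Fintype I]
  (G : Y → HS.Mat n) (D : I → Set Y) (c : ℕ) (e : I → ℕ) (l p ν b : I → ℤ) (η : Y → ℂ), 0 < n →
  Hermitian G → (∀ y, Ord n 1 D l η y) → AmpBy n D e → 0 < c →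
  (∀ i, c * l i ≤ p i ∧ p i < c * (l i + 1)) → Nef n G D ν → Zar n D p ν e →
  Contr n D b {i | ν i < p i} → Nef n G D (b - ν) →
  ∃ χ : ℚ[X], (∀ a : ℕ, ∃ P : ℚ[X], (∀ j : ℕ, 0 < j →
      (hz n D (fun i => l i + a * ν i + j * e i) : ℚ) = P.eval (j : ℚ)) ∧
      P.eval 0 = χ.eval (a : ℚ)) ∧ (χ ≠ 0 → ∃ C : ℕ,
    {m : ℕ | (m + 1) ^ χ.natDegree ≤ C * hz n D fun i => m * ν i}.Infinite)

section core

variable {n : ℕ} {M : Mf n} [M.Cpt] {ι : Type} [Fintype ι] [DecidableEq ι] {D : Ad M ι}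
  {F : Type} [Field F] [Algebra ℂ F] {Φ : FM D F} {V : VF n F} {m : ι → V.P → ℤ} {π : Hg D → V.P}

theorem P.Sig.sg6 {X : Cx D} {L κ Q : ι → ℤ} {I J : Type} [Fintype I] [Fintype J]
    {a : I → M.X → ℂ} {b : J → M.X → ℂ} {N r : ℕ} {σ : Fin r → M.X → ℂ} {g g₁ : M.X → ℂ} {x C : ℝ}
    {th : ι → ℝ} (h : P.Sig X L κ a b N σ g₁ x th) (sg : Sp D Q g) (g0 : ∃ y ∈ off D, g y ≠ 0)
    (r1 : ∀ y ∈ offz D g, nsq (a · y) ≤ C * Real.exp (-lw D (fun i => L i) y) * nsq (b · y)) :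
    Sg6 X L fun y => nsq (a · y) / nsq (b · y) := by
  obtain ⟨-, -, -, -, -, -, -, -, krg, -⟩ := NV5.st_bKIT n M ι D
  obtain ⟨-, ⟨R, hR⟩, h0⟩ := krg g₁ g h.rg ⟨Q, sg⟩
  refine ⟨N, r, σ, g₁ * g, x, C, th, h.N0, h.x0, h.sp, ((ZL.st_UPB n M ι D R).1 _ hR.1).1, ?_,
    fun y hy => ?_, h.int⟩
  · by_contra hn
    rcases h0 (funext fun y => by_contra fun hy => hn ⟨y, by_contra fun ho => hy (hR.2 y ho), hy⟩)
      with h1 | h1
    · obtain ⟨y, -, hy⟩ := h.ne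
      exact hy (congrFun h1 y)
    · obtain ⟨y, -, hy⟩ := g0
      exact hy (congrFun h1 y)
  · obtain ⟨p1, p2, p3⟩ := h.pos y ⟨hy.1, left_ne_zero_of_mul hy.2⟩
    exact ⟨div_pos p1 p2, (div_le_iff₀ p2).2 (r1 y ⟨hy.1, right_ne_zero_of_mul hy.2⟩), p3⟩

/-- Many dominated sections give many sections of the nef part. -/
theorem kod5 {X : Cx D} {r c' c d C₀ : ℕ} {t : Fin r → M.X → ℂ} {p ν Q : ι → ℤ} {S : Set ℕ}
    {U : ℕ → Submodule ℂ F} (C : Ctx5 X t c' c p ν) (br : Φ.Br V m π)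
    (I : Inq V (dv m ν) (dv m fun i => X.e i) (dv m Q) d C₀ S U) :
    ∃ C : ℕ, {j : ℕ | (j + 1) ^ d ≤ C * h0 D fun i => j * ν i}.Infinite := by
  obtain ⟨k, a, τ, a0, fb, dm, ⟨R, hR⟩, -⟩ :=
    bMID n M ι D F Φ V m π X.e p ν Q d C₀ S U C.epos br C.zar I
  obtain ⟨pr, zw⟩ := z5 a0 C
  obtain ⟨N, r₁, r₂, W, A, B, N0, ab, lu, -, h⟩ :=
    R6.P.st_R5b n M ι D X r t F Φ V m π k _ _ _ _ pr zw br fb
  obtain ⟨g, e, b₀, ⟨C₁, r1⟩, md, rk⟩ := h _ finProdFinEquiv.symm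
  obtain ⟨N₁, r₀, σ, g₁, y, th, sig⟩ := P.st_SIG n M ι D X r t F Φ k _ N _ e _ r₁ r₂ _ _ W g b₀ _
    A B pr (pow_ne_zero N fb.τ0) N0 ab ⟨C₁, r1⟩ md rk dm fun j j0 s hs => by
      simpa only [Nat.cast_mul, mul_assoc] using bFIX n M ι D F Φ V m π X.e p ν br C.zar
        (j * N * a) (by positivity) s (by simpa only [Nat.cast_mul, mul_assoc] using hs)
  obtain ⟨Qg, sg⟩ := md.rg
  obtain ⟨C₂, h₂⟩ := kap pr br fb.τ0 N0 lu (sig.sg6 sg md.ne r1) hR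
  have p0 : 0 < N * a := Nat.mul_pos N0 a0
  refine ⟨(N * a) ^ d * C₂, (h₂.image (f := fun j => j * (N * a)) fun _ _ _ _ h =>
    Nat.eq_of_mul_eq_mul_right p0 h).mono ?_⟩
  rintro _ ⟨j, hj, rfl⟩
  have h6 := Nat.pow_le_pow_left (show j * (N * a) + 1 ≤ N * a * (j + 1) by nlinarith) d
  rw [mul_pow] at h6
  simpa only [mem_ofPred_eq, Nat.cast_mul, mul_assoc] using h6.trans (Nat.mul_le_mul_left _ hj)

end core

theorem tS6P : St_S6P := by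
  intro n Y I _ _ _ _ _ _ _ G S c e l p ν β η hn hG hO hA hc hp hN hZ hCo hNb
  have : (mf n Y).Cpt := ⟨‹_›, ‹_›, ‹_›⟩
  have hE : ∀ y, ∃ h, Eqs n S y h := fun y => (hO y).imp fun h ⟨w, hw⟩ => hw.1
  have c0 : (0 : ℝ) < c := Nat.cast_pos.2 hc
  obtain ⟨D, X, r, c', t, hF, rfl, rfl, C⟩ := st_CT5 n Y I G S c e l p ν η hG hO hA hc (fun i => ⟨by
      rw [le_div_iff₀' c0]; exact_mod_cast (hp i).1, by
      rw [div_lt_iff₀' c0]; exact_mod_cast (hp i).2⟩) hN hZ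
  obtain ⟨-, -, -, hz'⟩ := st_SEC n Y I S D hF hE
  obtain ⟨cn⟩ := NV5.bCN n Y I S D β _ hF hCo
  have hD := P63.pair X hn hc C.epos C.big C.can C.kd C.imm C.gen
    (fun i => (hZ.1 i).trans_lt (hp i).2)
    { cn with deg := fun d z hz i hi => cn.deg d z hz i (lt_of_lt_of_le hi (hp i).1) }
    (bNFB n Y I G S _ D X hG hF hNb)
  obtain ⟨R, hR, -⟩ := st_HIL n (mf n Y) I D X r c' X.l ν t C.hq C.kd C.alp C.zo
    (by simpa using C.gen 1)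
  simp only [POL0.ev_swap] at hR
  refine ⟨R.eval (Polynomial.C 0), fun a => ⟨_, fun j hj => hz' _ ▸ hR a j hj,
    (POL0.ev_swap _ _ _).symm⟩, fun h0 => ?_⟩
  obtain ⟨F, i1, i2, ⟨Φ⟩⟩ := NV5.st_bFLD n (mf n Y) I D
  obtain ⟨V, m, π, br⟩ := NV5.st_bVF n (mf n Y) I D F Φ r (fun i => X.e i) t
    (fun i => Int.natCast_pos.2 (hA.1 i)) C.kd C.imm
  obtain ⟨Q, C', T, U, inq⟩ := inq_chi C (fun N r k b₁ b₂ _ => hD N r k b₁ b₂) br _
    (fun a => (eventually_ge_atTop 1).mono (hR a))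
    ((POLY.low h0).imp fun _ h => by simpa only [POL0.ev_swap] using h.frequently)
  simpa only [hz'] using kod5 C br inq

end Pool.Agent.Lib.S5
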