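import Pool.Agent.Lib.NV6.J_All
import Pool.Agent.Lib.NV6.G_NEW
import Pool.Agent.Lib.NV6.C_EXT
import Pool.Agent.Lib.NV6.C_HOM
import Pool.Agent.Lib.NV6.G_DIC

/-! Project S5, step seven: sections of the manifold are regular sections of the final model. -/

open scoped Classical Topology ContDiff ENNReal
open Set MeasureTheory Complex Metric Filter

noncomputable section

namespace Pool.Agent.Lib.S5

open Pool.Agent.Lib.SV (E nsq)
open Pool.Agent.Lib.HS32 Pool.Agent.Lib.EX Pool.Agent.Lib.EXS Pool.Agent.Lib.ZL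
open Pool.Agent.Lib.ZQ (offz)
open Pool.Agent.Lib.NV5 (FM Rg)
open Pool.Agent.Lib.NV6 Pool.Agent.Lib.NV6.J
open Pool.Agent.Lib.R6 (Ab)

namespace S7

theorem root {y B C u C2 : ℝ} {i : ℕ} (hy : 0 ≤ y) (hB : 0 < B) (h2 : B ≤ C2) (hi : 0 < i)
    (hu : (i : ℝ)⁻¹ ≤ u) (h : y ^ i * B ≤ C) :
    y ≤ max C 0 ^ (i : ℝ)⁻¹ * C2 ^ (u - (i : ℝ)⁻¹) * B ^ (-u) := by
  have h1 : y ^ i ≤ max C 0 * B⁻¹ := by
    rw [← div_eq_mul_inv, le_div_iff₀ hB]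
    exact h.trans (le_max_left _ _)
  have h3 := Real.rpow_le_rpow (pow_nonneg hy i) h1 (inv_nonneg.2 (Nat.cast_nonneg i))
  rw [Real.pow_rpow_inv_natCast hy hi.ne', Real.mul_rpow (le_max_right _ _) (inv_pos.2 hB).le,
    Real.inv_rpow hB.le, ← Real.rpow_neg hB.le] at h3
  rw [mul_assoc]
  exact h3.trans (mul_le_mul_of_nonneg_left (IDLk.mono hB h2 hu)
    (Real.rpow_nonneg (le_max_right _ _) _))

variable {n : ℕ} {M : Mf n} [M.Cpt] {ι : Type} [Fintype ι] [DecidableEq ι] {D : Ad M ι}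
  {X : Cx D} {r d k : ℕ} {g : M.X → ℂ} {L κ P : ι → ℤ} {h W : Fin r → M.X → ℂ} {b : M.X → ℂ}

theorem sp_pow {Q : ι → ℤ} {s : M.X → ℂ} (hs : Sp D Q s) (i : ℕ) :
    Sp D (fun a => (i + 1 : ℕ) * Q a) (s ^ (i + 1)) := by
  induction i with
  | zero => simpa using hs
  | succ i ih =>
    have := (NV5.st_bKIT n M ι D).2.2.1 _ _ _ _ ih hs
    rw [← pow_succ] at this
    refine (NV5.st_bKIT n M ι D).1 _ _ _ (fun a => le_of_eq ?_) this
    simp only [Pi.add_apply]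
    push_cast
    ring

/-- Multiplication by a section raises the level. -/
theorem mul (md : Md X d k L κ g P h W b) {j c : ℕ} (hj : 0 < j) {s F : M.X → ℂ}
    (hs : Sp D (fun i => j * L i) s) (hF : F ∈ Id X d k L κ P h W b 1 c) :
    s * F ∈ Id X d k L κ P h W b (j + 1) c := by
  obtain ⟨h1, u, hu, h2⟩ := hF
  obtain ⟨k1, -, k3, -⟩ := NV5.st_bKIT n M ι D
  have hO : IsOpen (offz D g) := ZQ.HO.offz_open (oa_iff.1 md.hol)
  obtain ⟨-, -, -, -, -, -, -, -, -, -, -, -, -, kI, -⟩ :=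
    J.st_KIT n M ι D X (offz D g) hO (fun x hx => hx.1) md.ae
  obtain ⟨i1, -, -⟩ := J.st_IDL n M ι D X r d k g L κ P h W b md
  have κ0 : ∀ i, 0 ≤ κ i := fun i => by
    have : (0 : ℝ) ≤ κ i := by linarith [md.lo i, md.hi i]
    exact_mod_cast this
  obtain ⟨i, hi⟩ := exists_nat_one_div_lt (half_pos hu.1)
  have p1 : Sp D (fun a => ((i + 1) * j : ℕ) * L a + κ a) (s ^ (i + 1)) :=
    k1 _ _ _ (fun a => by
      have := κ0 a
      push_cast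
      nlinarith) (sp_pow hs i)
  obtain ⟨C0, hC0⟩ := (ZL.st_UPB n M ι D _).2.2.2.2.1 _ p1.1
  obtain ⟨-, -, w1, w2, -, w3, -⟩ := ZL.bPW n M ι D
  obtain ⟨C, hC⟩ := md.r2 ((i + 1) * j) 0 (s ^ (i + 1)) (Nat.mul_pos i.succ_pos hj)
    ⟨by simpa using p1, (kI _ (fun x => Real.exp (lw D (-X.o) x)) C0 fun x hx =>
      ⟨(Real.exp_pos _).le, by
        have e := w2 (fun a => ((((i + 1) * j : ℕ) * L a + κ a : ℤ) : ℝ)) X.o x
        rw [pow_zero, div_one, neg_neg, w3]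
        refine (mul_le_mul_of_nonneg_right (hC0 x hx.1) (Real.exp_pos _).le).trans (le_of_eq ?_)
        rw [mul_assoc, ← Real.exp_add]
        exact congrArg (C0 * Real.exp ·) (by rw [show (fun a => ((((i + 1) * j : ℕ) * L a +
          κ a : ℤ) : ℝ) - X.o a) = _ - X.o from rfl, e]; ring)⟩).2
      ((ZL.st_MU n M ι D X).2.2.2.1 _ fun a => by simp)⟩
  obtain ⟨C2, hC2⟩ := md.rb
  refine ⟨k1 _ _ _ (fun a => le_of_eq ?_) (k3 _ _ _ _ hs h1), u / 2,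
    ⟨half_pos hu.1, (half_le_self hu.1.le).trans hu.2⟩, (kI _ _ (max C 0 ^ ((i + 1 : ℕ) : ℝ)⁻¹ *
      C2 ^ (u / 2 - ((i + 1 : ℕ) : ℝ)⁻¹)) fun x hx =>
        ⟨mul_nonneg (normSq_nonneg _) ((i1 x hx).2.2 1 u c).le, ?_⟩).2 h2⟩
  · simp only [Pi.add_apply]
    push_cast
    ring
  obtain ⟨hT, hB, -⟩ := i1 x hx
  have h3 := root (y := normSq (s x) / qt W h x ^ j) (C := C)
    (div_nonneg (normSq_nonneg _) (pow_pos hT j).le) hB (hC2 x hx) i.succ_pos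
    (u := u / 2) (by rw [← one_div]; exact_mod_cast hi.le) (by
      have := hC x hx
      rw [pow_zero, mul_one, zero_add, pow_one, Pi.pow_apply, map_pow] at this
      rwa [div_pow, div_mul_eq_mul_div, div_le_iff₀ (pow_pos (pow_pos hT j) _), ← pow_mul,
        mul_comm j])
  have e1 : bt h k b x ^ (-u) = bt h k b x ^ (-(u / 2)) * bt h k b x ^ (-(u / 2)) := by
    rw [← Real.rpow_add hB]
    exact congrArg _ (by ring)
  have h4 := mul_le_mul_of_nonneg_right h3 (mul_nonneg (normSq_nonneg (F x)) (div_pos (mul_pos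
    (Real.rpow_pos_of_pos hT ((1 : ℝ) / d - (1 : ℕ))) (Real.rpow_pos_of_pos hB (-(u / 2))))
    (pow_pos (md.pos x hx) c)).le)
  have h5 := (pow_pos hT j).ne'
  unfold om
  rw [e1, Pi.mul_apply, map_mul]
  refine le_trans (le_of_eq ?_) (h4.trans (le_of_eq (by ring)))
  rw [LEVk.lev hT _ j]
  field_simp

/-- The generators, with the multiples of the sections. -/
theorem gen (md : Md X d k L κ g P h W b) : ∃ (c m : ℕ) (C : Fin m → M.X → ℂ), 0 < m ∧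
    (∀ i, Se X P h (fun i => L i + κ i) c (C i) ∧ C i ≠ 0) ∧ Gq (D := D) g h W C ∧
    ∀ j : ℕ, 0 < j → ∀ s, Sp D (fun i => j * L i) s → ∀ a l,
      Cb (offz D g) h j C fun x => s x * C l x * h a x ^ (2 * j) / W a x ^ j := by
  obtain ⟨-, -, hI⟩ := J.st_IDL n M ι D X r d k g L κ P h W b md
  have hc : 4 * r + k + 1 < 4 * r + 1 + (k + 1) := by omega
  have key : ∀ N : ℕ, 0 < N → ∃ (m : ℕ) (s : Fin m → M.X → ℂ),
      (∀ j, s j ∈ Id X d k L κ P h W b N (4 * r + 1 + (k + 1)) ∧ s j ≠ 0) ∧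
      ∀ q, ∀ F ∈ Id X d k L κ P h W b N (4 * r + 1 + (k + 1) + q), ∀ f : M.X → ℂ,
        (∀ x ∈ offz D g, F x = f x) → Cb (offz D g) h q s f := fun N hN => by
    obtain ⟨S, hS, e⟩ := (hI N (4 * r + 1 + (k + 1)) hN).2.2
    obtain ⟨m, s, h1, h2⟩ := (jFRM M.X r (offz D g) h).1 S hS
    refine ⟨m, s, fun j => ⟨e ▸ (h1 j).1, (h1 j).2⟩, fun q F hF f hf => ?_⟩
    obtain ⟨R, r1, r2⟩ := h2 q F (e ▸ J.st_IDV n M ι D X r d k g L κ P h W b N _ q md hN hc F hF)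
    exact ⟨R, r1, fun x hx => (hf x hx).symm.trans (r2 x hx)⟩
  have hL := J.st_LEV n M ι D X r d k g L κ P h W b md
  obtain ⟨m, C, c1, c2⟩ := key 1 one_pos
  refine ⟨4 * r + 1 + (k + 1), m, C, ?_, fun i => ⟨?_, (c1 i).2⟩, fun q => ?_,
    fun j hj s hs a l => ?_⟩
  · obtain ⟨F, hF, x, hx, h0⟩ := (hL (4 * r + 1) 0).2.2
    obtain ⟨R, -, hR⟩ := c2 0 F hF F fun _ _ => rfl
    rcases Nat.eq_zero_or_pos m with rfl | hm
    · exact (h0 (by simpa using hR x hx)).elim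
    · exact hm
  · simpa using (hI 1 _ one_pos).2.1 _ (c1 i).1
  · obtain ⟨m', s, s1, s2⟩ := key (q + 1) q.succ_pos
    refine ⟨m', s, fun j => ((ZL.st_UPB n M ι D _).1 _ (s1 j).1.1.1).1,
      fun a => ⟨fun j => ?_, fun i => ?_⟩⟩
    · obtain ⟨F, hF, e⟩ := (hL _ q).2.1 a _ (s1 j).1
      exact c2 q F hF _ e
    · obtain ⟨F, hF, e⟩ := (hL _ q).1 a _ (c1 i).1
      exact s2 q F hF _ e
  · obtain ⟨F, hF, e⟩ := (hL _ j).2.1 a _ (mul md hj hs (c1 l).1)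
    exact c2 j F hF _ e

/-- The theorem of block J, with the multiples of the sections. -/
theorem jj (hM : Md X d k L κ g P h W b) (hR : Rk X g P h fun i => L i + κ i) :
    ∃ (m e : ℕ) (Q : Fin m → MvPolynomial (Fin r) ℂ) (g' : M.X → ℂ), 0 < m ∧
    (∀ i, (Q i).IsHomogeneous e) ∧ (∃ R, Sp D R g') ∧ (∃ x ∈ off D, g' x ≠ 0) ∧
    offz D g' ⊆ offz D g ∧ (∀ x ∈ offz D g', ∀ i, pv h (Q i) x ≠ 0) ∧
    (∀ (r' : ℕ) (ε : Fin r' ≃ Fin r × Fin m), Nf (D := D) (offz D g')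
      (fun β y => h (ε β).1 y * pv h (Q (ε β).2) y) fun β y => W (ε β).1 y * pv h (Q (ε β).2) y) ∧
    ∀ j : ℕ, 0 < j → ∀ s, Sp D (fun i => j * L i) s → ∀ a l, Cb (offz D g') h j (fun i => pv h (Q i))
      fun x => s x * pv h (Q l) x * h a x ^ (2 * j) / W a x ^ j := by
  obtain ⟨c, m, C, m0, hC, hq, hs⟩ := gen hM
  obtain ⟨e, Q, g', τ, hQ, ⟨R, hg'⟩, g0, sub, hτ, hx⟩ :=
    J.st_DEN n M ι D X r c m g P _ h C hM.toFr hM.rg hR m0 hC
  refine ⟨m, e, Q, g', m0, hQ, ⟨R, hg'⟩, g0, sub, fun x h' i => ((hx x h').2 i).1,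
    fun r' ε q => ?_, fun j hj s h1 a l => ?_⟩
  · obtain ⟨m', s, hs, hq⟩ := hq q
    obtain ⟨o1, o2, o3⟩ := ae_offz X ((ZL.st_UPB n M ι D R).1 g' hg'.1).1 g0
    obtain ⟨k1, k2, -, k4, -⟩ := J.st_KIT n M ι D X _ o1 o2 o3
    have cb : ∀ {m : ℕ} {s : Fin m → M.X → ℂ} {f},
        Cb (offz D g) h q s f → Cb (offz D g') h q s f :=
      fun ⟨R, h1, h2⟩ => ⟨R, h1, fun x h' => h2 x (sub h')⟩
    refine ⟨m' * r,
      fun j y => s (finProdFinEquiv.symm j).1 y * h (finProdFinEquiv.symm j).2 y / τ y,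
      fun j => (k4 _ _ (k4 _ _ (k1 _ (hs _)) (k2 _ _ (hM.sp _)).1).2.2.1 hτ).2.2.2.2
        fun x h' => (hx x h').1, ?_⟩
    exact jSGA jFRM M.X r m _ h W C (fun i => pv h (Q i)) τ q m' s r' _ ε finProdFinEquiv.symm
      (fun x h' => ⟨(hx x h').1, (hM.hne x (sub h')).2.1, fun i => ((hx x h').2 i).2⟩)
      fun a => ⟨fun j => cb ((hq a).1 j), fun i => cb ((hq a).2 i)⟩
  · obtain ⟨R, r1, r2⟩ := hs j hj s h1 a l
    refine ⟨R, r1, fun x h' => mul_left_cancel₀ (hx x h').1 ?_⟩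
    have := r2 x (sub h')
    simp only [fun i => ((hx x h').2 i).2] at this
    rw [Finset.mul_sum]
    refine Eq.trans (by ring) (this.trans (Finset.sum_congr rfl fun i _ => by ring))

open MvPolynomial in
/-- The extension of one section to the closure. -/
theorem ext {Y I K : Type} [Fintype I] [Fintype K] {r m q : ℕ} {O : Set Y} (e₀ : Fin r ≃ I × K)
    (i₀ : I × Fin m) (j₀ : K × Fin m) {a : I → Y → ℂ} {b : K → Y → ℂ} {Q : Fin m → Y → ℂ}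
    {s : Y → ℂ} (ha : ∀ x ∈ O, ∀ i, a i x ≠ 0) (hb : ∀ x ∈ O, ∀ j, b j x ≠ 0)
    (hQ : ∀ x ∈ O, ∀ i, Q i x ≠ 0)
    (hs : ∀ α l, Cb O (fun β y => a (e₀ β).1 y * b (e₀ β).2 y) q Q fun x =>
      s x * Q l x * (a (e₀ α).1 x * b (e₀ α).2 x) ^ (2 * q) / (a (e₀ α).1 x ^ 2) ^ q) :
    ∃ S, Sec (Clo fun x : O => sg (fun p : I × Fin m => a p.1 x * Q p.2 x,
      fun p : K × Fin m => b p.1 x * Q p.2 x)) q 0 S ∧ ∀ x ∈ O,
      S (fun p => a p.1 x * Q p.2 x, fun p => b p.1 x * Q p.2 x) = s x := by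
  choose R r1 r2 using hs
  let ρ : Fin m → Fin r → (I × Fin m) × K × Fin m := fun μ β => (((e₀ β).1, μ), ((e₀ β).2, μ))
  have ren : ∀ (μ : Fin m) (R : MvPolynomial (Fin r) ℂ), R.IsHomogeneous q → ∀ x : O,
      eval (sg (fun p : I × Fin m => a p.1 x * Q p.2 x, fun p : K × Fin m => b p.1 x * Q p.2 x))
        (rename (ρ μ) R) = pv (fun β y => a (e₀ β).1 y * b (e₀ β).2 y) R x * (Q μ x ^ 2) ^ q := by
    intro μ R hR x
    rw [eval_rename, pv, ← FRMk.scal hR]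
    refine congrArg (fun f => eval f R) (funext fun β => ?_)
    simp only [Function.comp_apply, sg, ρ]
    ring
  have key : ∀ (i : I × Fin m) (j : K × Fin m) (x : O),
      s x * (b j.1 x * Q j.2 x) ^ (2 * q) * (a i.1 x * Q i.2 x * (b j.1 x * Q j.2 x)) ^ 1 =
      eval (sg (fun p : I × Fin m => a p.1 x * Q p.2 x, fun p : K × Fin m => b p.1 x * Q p.2 x))
        (∑ l, rename (ρ j.2) (R (e₀.symm (i.1, j.1)) j.2 l) * X (i, (j.1, l))) := fun i j x => by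
    have h1 := r2 (e₀.symm (i.1, j.1)) j.2 x x.2
    simp only [Equiv.apply_symm_apply] at h1
    rw [mul_pow, ← pow_mul, mul_div_assoc, mul_div_cancel_left₀ _ (pow_ne_zero _ (ha x x.2 _))] at h1
    rw [map_sum, Finset.sum_congr rfl fun l _ => by rw [map_mul, ren _ _ (r1 _ _ l), eval_X]]
    have h2 := congrArg (· * ((Q j.2 x ^ 2) ^ q * (a i.1 x * Q i.2 x * b j.1 x))) h1
    simp only [Finset.sum_mul] at h2
    refine Eq.trans (by ring) (h2.trans (Finset.sum_congr rfl fun l _ => ?_))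
    simp only [sg]
    ring
  obtain ⟨S, hS⟩ := CEXT.one cHOM (O := O) (fun x (p : I × Fin m) => a p.1 x * Q p.2 x)
    (fun x (p : K × Fin m) => b p.1 x * Q p.2 x) (q := q) (e := 0) (fun x => s x) (fun _ _ => 1)
    (fun i j => ∑ l, rename (ρ j.2) (R (e₀.symm (i.1, j.1)) j.2 l) * X (i, (j.1, l)))
    (fun i j => IsHomogeneous.sum _ _ _ fun l _ => by
      rw [zero_add]
      exact (r1 _ _ l).rename_isHomogeneous.mul (isHomogeneous_X ℂ _)) key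
  refine ⟨S, fun i j => ⟨1, _, hS i j⟩, fun x hx => ?_⟩
  have a0 := mul_ne_zero (ha x hx i₀.1) (hQ x hx i₀.2)
  have b0 := mul_ne_zero (hb x hx j₀.1) (hQ x hx j₀.2)
  have h1 := (hS i₀ j₀).2 (fun p => a p.1 x * Q p.2 x, fun p => b p.1 x * Q p.2 x)
    ⟨(cHOM.clo fun x : O => sg (fun p : I × Fin m => a p.1 x * Q p.2 x,
      fun p : K × Fin m => b p.1 x * Q p.2 x)).2.1 ⟨x, hx⟩, fun h => a0 (congrFun h i₀),
      fun h => b0 (congrFun h j₀)⟩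
  rw [← key i₀ j₀ ⟨x, hx⟩] at h1
  exact mul_right_cancel₀ (pow_ne_zero _ b0)
    (mul_right_cancel₀ (pow_ne_zero _ (mul_ne_zero a0 b0)) h1)

end S7

/-- The final model, with the sections of the manifold as regular sections. -/
def St_NEW : Prop := ∀ (n : ℕ) (M : Mf n) [M.Cpt] (ι : Type) [Fintype ι] [DecidableEq ι]
  (D : Ad M ι) (X : Cx D) (F : Type) [Field F] [Algebra ℂ F] (Φ : FM D F)
  (k : IntermediateField ℂ F) (T : F) (r r₁ r₂ d e : ℕ) (L κ P : ι → ℤ) (g b₀ : M.X → ℂ)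
  (ε : Fin r ≃ Fin (r₁ + 1) × Fin (r₂ + 1)) (a : Fin (r₁ + 1) → M.X → ℂ)
  (b : Fin (r₂ + 1) → M.X → ℂ), T ≠ 0 → Ab D Φ k T L P a b →
  Md X d e L κ g (fun i => L i + 2 * P i) (fun β y => a (ε β).1 y * b (ε β).2 y)
    (fun β y => a (ε β).1 y ^ 2) b₀ →
  Rk X g (fun i => L i + 2 * P i) (fun β y => a (ε β).1 y * b (ε β).2 y) (fun i => L i + κ i) →
  ∃ (I J : Type) (_ : Fintype I) (_ : Fintype J) (_ : Nonempty I) (_ : Nonempty J)
    (g' : M.X → ℂ) (a' : I → M.X → ℂ) (b' : J → M.X → ℂ) (Z : Set (I × J → ℂ)) (P' : ι → ℤ)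
    (u : M.X → ℝ), Rg D g' ∧ HoO D g' ∧ (∃ x ∈ off D, g' x ≠ 0) ∧ offz D g' ⊆ offz D g ∧
    (∀ i, Ho D (offz D g') (a' i)) ∧ (∀ j, Ho D (offz D g') (b' j)) ∧
    (∀ x ∈ offz D g', (∀ i, a' i x ≠ 0) ∧ ∀ j, b' j x ≠ 0) ∧
    (∀ x ∈ offz D g', 0 < u x ∧ nsq (a' · x) = nsq (a · x) * u x ∧
      nsq (b' · x) = nsq (b · x) * u x) ∧
    Mdl Z 1 ∧ (∀ x ∈ offz D g', sg ((a' · x), (b' · x)) ∈ Z) ∧
    (∀ α : I × J, Sp D P' (fun y => a' α.1 y * b' α.2 y) ∧ ∀ β : I × J,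
      Φ.ev (fun y => a' α.1 y * b' α.2 y) / Φ.ev (fun y => a' β.1 y * b' β.2 y) ∈ k) ∧
    ∀ j : ℕ, 0 < j → ∀ s, Sp D (fun i => j * L i) s →
      ∃ S, Sec Z j 0 S ∧ ∀ x ∈ offz D g', s x = S ((a' · x), (b' · x))

theorem new_of (hE : NV6.St_EXT) (hD : St_DIC) : St_NEW := by
  intro n M _ ι _ _ D X F _ _ Φ k T r r₁ r₂ d e L κ P g b₀ ε a b T0 ab md rk
  obtain ⟨m, e', Q, g', m0, hQ, ⟨R, hg'⟩, ⟨x₀, x1, x2⟩, sub, hne, hN, hs⟩ := S7.jj md rk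
  have hg := ((ZL.st_UPB n M ι D R).1 g' hg'.1).1
  obtain ⟨o1, o2, o3⟩ := J.ae_offz X hg ⟨x₀, x1, x2⟩
  obtain ⟨-, k2, -, k4, -, k6, -⟩ := J.st_KIT n M ι D X _ o1 o2 o3
  have nz : ∀ x ∈ offz D g', ∀ i j, a i x ≠ 0 ∧ b j x ≠ 0 := fun x hx i j => by
    have := (md.hne x (sub hx)).1 (ε.symm (i, j))
    rwa [Equiv.apply_symm_apply, mul_ne_zero_iff] at this
  have hp := (k6 r _ fun β => (k2 _ _ (md.sp β)).1).1
  replace hN := hN _ (finProdFinEquiv (m := r) (n := m)).symm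
  obtain ⟨u, hu⟩ : ∃ u : Fin m → M.X → ℂ,
    ∀ l, u l = pv (fun β y => a (ε β).1 y * b (ε β).2 y) (Q l) := ⟨_, fun _ => rfl⟩
  have hu' : ∀ l, Ho D (offz D g') (u l) := fun l => hu l ▸ hp _
  obtain ⟨P', hP'⟩ := hD n M ι D F Φ k T L P r r₁ r₂ m e' a b ε Q u T0 ab hQ hu
  simp only [← hu] at hN hne hs
  let l : Fin m := ⟨0, m0⟩
  have mdl := J.brg hE (a := a) (b := b) (Q := u) (h := fun β y => a (ε β).1 y * b (ε β).2 y)
    (W := fun β y => a (ε β).1 y ^ 2) ε _ (fun _ _ _ => ⟨rfl, rfl⟩)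
    (fun x hx i => (nz x hx i 0).1) (fun x hx j => (nz x hx 0 j).2) hne hN
  have mem := (cHOM.clo fun x : offz D g' => sg (fun p : Fin (r₁ + 1) × Fin m => a p.1 x * u p.2 x,
    fun p : Fin (r₂ + 1) × Fin m => b p.1 x * u p.2 x)).2.1
  have ex := fun (j : ℕ) (hj : 0 < j) s (h1 : Sp D (fun i => j * L i) s) =>
    S7.ext ε (0, l) (0, l) (fun x hx i => (nz x hx i 0).1) (fun x hx j => (nz x hx 0 j).2) hne
      (hs j hj s h1)
  generalize Clo (O := offz D g') _ = Z at mdl mem ex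
  exact ⟨Fin (r₁ + 1) × Fin m, Fin (r₂ + 1) × Fin m, inferInstance, inferInstance, ⟨(0, l)⟩,
    ⟨(0, l)⟩, g', fun p y => a p.1 y * u p.2 y, fun p y => b p.1 y * u p.2 y, Z, P',
    fun x => nsq (u · x), ⟨R, hg'⟩, hg, ⟨x₀, x1, x2⟩, sub,
    fun p => (k4 _ _ (k2 _ _ (ab.sa _).1).1 (hu' _)).2.2.1,
    fun p => (k4 _ _ (k2 _ _ (ab.sb _).1).1 (hu' _)).2.2.1,
    fun x hx => ⟨fun p => mul_ne_zero (nz x hx _ 0).1 (hne x hx _),
      fun p => mul_ne_zero (nz x hx 0 _).2 (hne x hx _)⟩,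
    fun x hx => ⟨Finset.sum_pos (fun i _ => normSq_pos.2 (hne x hx i)) ⟨l, Finset.mem_univ _⟩,
      GNEW.nsq_prod (a · x) (u · x), GNEW.nsq_prod (b · x) (u · x)⟩, mdl,
    fun x hx => mem ⟨x, hx⟩, hP', fun j hj s h1 =>
      (ex j hj s h1).imp fun S h => ⟨h.1, fun x hx => (h.2 x hx).symm⟩⟩

theorem st_NEW : St_NEW := new_of (cEXT cHOM) (gDIC NV5.st_bKIT NV5.st_bFN)

end Pool.Agent.Lib.S5
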