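import Pool.Agent.Lib.NV5.SDefs4

/-! Definition used in the statement: a divisor generated by its sections. -/

open scoped Topology

namespace Pool.Agent.Lib.S5

open Pool.Agent.Lib.SV Pool.Agent.Lib.KP Pool.Agent.Lib.EX Pool.Agent.Lib.NV2

variable (n : ℕ) {Y I : Type} [TopologicalSpace Y] [ChartedSpace (E n) Y] [Fintype I]

/-- The sections of `∑ P i D i` have no common zero: at each point `y`, some section `f` has poles
exactly `∑ P i D i` near `y` and no other zero at `y`. -/
def GenD (D : I → Set Y) (P : I → ℤ) : Prop :=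
  ∀ y, ∃ f h s, Sec n D P f ∧ Eqs n D y h ∧ s y ≠ 0 ∧
    ∀ᶠ x in 𝓝 y, HolAt n 0 s x ∧ ((∀ i, x ∉ D i) → f x = s x * ∏ i, h i x ^ (-P i))

end Pool.Agent.Lib.S5
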