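import Pool.Agent.Lib.S5.SigDefs
import Pool.Agent.Lib.S5.S7
import Pool.Agent.Lib.S5.G8
import Pool.Agent.Lib.S5.T9
import Pool.Agent.Lib.NV6.G_GAP
import Pool.Agent.Lib.NV6.G_MP
import Pool.Agent.Lib.NV6.G_PUL
import Pool.Agent.Lib.NV5.D_KAH
import Pool.Agent.Lib.NV2.Core

/-! Project S5: the sections with all negative moments, on the manifold. -/

open scoped Classical Topology ContDiff ENNReal
open Set MeasureTheory Complex Metric Filter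

noncomputable section

namespace Pool.Agent.Lib.S5

open Pool.Agent.Lib.SV (E nsq nsq_nonneg)
open Pool.Agent.Lib.HS32 Pool.Agent.Lib.EX Pool.Agent.Lib.EXS Pool.Agent.Lib.ZL
open Pool.Agent.Lib.ZQ (HqO offz)
open Pool.Agent.Lib.NV6
open Pool.Agent.Lib.NV6.J (Ho)

namespace SIG

variable {Y S : Type} [MeasurableSpace Y] [MeasurableSpace S] {μ : Measure Y} {ν : Measure S}
  {O : Set Y} {p : Y → S} {ρ : Y → ℝ≥0∞} {c : ℝ≥0∞}

/-- A property that holds almost everywhere on the model holds at the image of a point. -/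
theorem pt [IsProbabilityMeasure ν] (ae : ∀ᵐ y ∂μ, y ∈ O) (c0 : c ≠ 0)
    (li : ∀ f : S → ℝ≥0∞, Measurable f → ∫⁻ y, ρ y * f (p y) ∂μ = c * ∫⁻ u, f u ∂ν)
    {T : Set S} (hT : MeasurableSet T) (h : ∀ᵐ u ∂ν, u ∈ T) : ∃ y ∈ O, p y ∈ T := by
  by_contra hc
  have h1 := li (T.indicator 1) (measurable_one.indicator hT)
  rw [lintegral_indicator_one hT, (prob_compl_eq_zero_iff hT).1 h, mul_one,
    lintegral_congr_ae (g := fun _ => 0) (ae.mono fun y hy => by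
      beta_reduce
      rw [indicator_of_notMem fun h => hc ⟨y, hy, h⟩, mul_zero]), lintegral_zero] at h1
  exact c0 h1.symm

/-- Integrability on the model gives integrability on the manifold. -/
theorem fin (ae : ∀ᵐ y ∂μ, y ∈ O) (c1 : c ≠ ⊤)
    (li : ∀ f : S → ℝ≥0∞, Measurable f → ∫⁻ y, ρ y * f (p y) ∂μ = c * ∫⁻ u, f u ∂ν)
    {c₀ : ℝ} (h0 : 0 < c₀) {w G : Y → ℝ} (lo : ∀ y ∈ O, ENNReal.ofReal (c₀ * w y) ≤ ρ y)
    {f : S → ℝ} (mf : Measurable f) (f0 : ∀ u, 0 ≤ f u) (hi : Integrable f ν)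
    (hG : ∀ y ∈ O, G y = w y * f (p y)) : ∫⁻ y, ENNReal.ofReal (G y) ∂μ ≠ ⊤ := by
  have h1 := li _ mf.ennreal_ofReal
  refine ne_top_of_le_ne_top (ENNReal.mul_ne_top (ENNReal.ofReal_ne_top (r := c₀⁻¹))
    (h1 ▸ ENNReal.mul_ne_top c1 hi.lintegral_lt_top.ne)) ?_
  rw [← lintegral_const_mul' _ _ ENNReal.ofReal_ne_top]
  refine lintegral_mono_ae (ae.mono fun y hy => ?_)
  rw [hG y hy, ← inv_mul_cancel_left₀ h0.ne' (w y), mul_assoc,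
    ENNReal.ofReal_mul (inv_pos.2 h0).le, ENNReal.ofReal_mul' (f0 _)]
  exact mul_le_mul_right (mul_le_mul_left (lo y hy) _) _

end SIG

theorem st_SIG : St_SIG := by
  intro n M _ ι _ _ D X r t F _ _ Φ k T N d e r' r₁ r₂ lam κ P g b₀ ε a b pr T0 N0 ab ⟨C, r1⟩ md
    rk dm z0
  obtain ⟨I, J, _, _, _, _, g', a', b', Z, P', u, rg, hg, g0, sub, ha, hb, nz, hu, mdl, mem, hP,
    sec⟩ := st_NEW n M ι D X F Φ k T r' r₁ r₂ d e _ κ P g b₀ ε a b T0 ab md rk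
  obtain ⟨hO, hs, -⟩ := NV6.J.ae_offz X hg g0
  obtain ⟨ae, hq⟩ := pr.hall g' hg g0
  obtain ⟨-, k2, -⟩ := NV6.J.st_KIT n M ι D X _ hO hs ae
  obtain ⟨x₀, h₀⟩ : (offz D g').Nonempty := g0
  obtain ⟨p, mp⟩ := gMP n M ι D (offz D g') _ _ Z _ _ hO hs ⟨x₀, h₀⟩ mdl.cone ha hb nz mem
  obtain ⟨α₀⟩ : Nonempty (I × J) := inferInstance
  have n0 : ∀ x ∈ offz D g', a' α₀.1 x * b' α₀.2 x ≠ 0 :=
    fun x hx => mul_ne_zero ((nz x hx).1 α₀.1) ((nz x hx).2 α₀.2)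
  obtain ⟨γ, Λ, B, γ0, hΛ, B0, dom⟩ := dm _ P' _ α₀ (fun α => (hP α).1)
    (fun c => n0 x₀ h₀ (congrFun c x₀)) fun α => (hP α).2 α₀
  obtain ⟨A, -⟩ := NV5.st_bAM n M ι D r X.e t pr.epos pr.kd pr.imm
  obtain ⟨H, hH⟩ := DM.dKAH n M ι D A
  obtain ⟨θ, θ0, hθ⟩ := gRHO NV6.J.st_KIT X hH.1.toMet one_ne_zero ENNReal.one_ne_top hO hs ae hq
    (fun α => (k2 _ _ (hP α).1).1) α₀ n0 B0 fun j =>
      (dom j).imp fun s hs => ⟨hs.1, hs.2.1, fun α x _ => hs.2.2 α x⟩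
  obtain ⟨ρ, ρ1, ρ2, ρ3, ρ4⟩ := hθ θ ⟨θ0, le_rfl⟩
  have en : ∀ x, nsq (fun α : I × J => a' α.1 x * b' α.2 x) = _ := fun x =>
    GAP.nsq_mul (a' · x) (b' · x)
  simp only [en] at ρ3 ρ4
  have N1 : (0 : ℝ) < N := Nat.cast_pos.2 N0
  obtain ⟨x, hx⟩ : ∃ x : ℝ, x = 1 / (d : ℝ) + θ * (γ / N) := ⟨_, rfl⟩
  have x0 : 0 ≤ x := by rw [hx]; positivity
  have ex : ∀ i, x * ((N * lam i : ℤ) : ℝ) = θ * Λ i + ((N * lam i : ℤ) : ℝ) / d := fun i => by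
    rw [hx, hΛ, add_mul, one_div_mul_eq_div, Int.cast_mul, Int.cast_natCast, mul_assoc θ,
      ← mul_assoc (γ / N), div_mul_cancel₀ _ N1.ne', add_comm]
  have lo : ∀ i, x * ((N * lam i : ℤ) : ℝ) ≤ θ * Λ i + X.o i := fun i => by
    rw [ex]; linarith [md.lo i]
  have hi : ∀ i, θ * Λ i + X.o i ≤ x * ((N * lam i : ℤ) : ℝ) + κ i := fun i => by
    rw [ex]; linarith [md.hi i]
  obtain ⟨ν, gd, vs, ⟨c, c0, c1, li⟩, pl⟩ := gGDV bPW ZL.st_MU st_UPB st_POG NV2.st_CHN st_SEC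
    st_SPH st_ADM (gPUL st_SEC st_SPH) n M ι D X I J Z g' a' b' p ρ (fun i => N * lam i) κ
    (fun i => Λ i) x θ hg ⟨x₀, h₀⟩ ae mp x0 ρ1 ρ2 ρ3 ρ4
    ⟨C, fun y hy => by
      rw [(hu y hy).2.1, (hu y hy).2.2, ← mul_assoc]
      exact mul_le_mul_of_nonneg_right (r1 y (sub hy)) (hu y hy).1.le⟩ lo hi
    fun j j0 s hs => sec j j0 s (z0 j j0 s hs)
  obtain ⟨N₁, N2, r₀, S, s1, s2, s3⟩ := st_THV I J Z 1 x θ ν 1 _ mdl x0 θ0 vs gd
  choose σ σ1 σ2 using fun l => pl N₁ (S l) (s1 l)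
  obtain ⟨f, hf⟩ : ∃ f : Sph Z → ℝ, ∀ v, ∑ l, normSq (S l v.1) = f v := ⟨_, fun _ => rfl⟩
  have cf : Continuous f := (funext hf : _ = f) ▸ continuous_finsetSum _ fun l _ =>
    continuous_normSq.comp (st_SPH.cont (s1 l))
  have f0 : ∀ v, 0 ≤ f v := fun v => hf v ▸ Finset.sum_nonneg fun _ _ => normSq_nonneg _
  simp only [hf] at s2
  have pa := fun y hy => (mp.eq y hy).1
  have pb := fun y hy => (mp.eq y hy).2.1
  have eT : ∀ y ∈ offz D g', nsq (a' · y) / nsq (b' · y) = nsq (a · y) / nsq (b · y) :=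
    fun y hy => by rw [(hu y hy).2.1, (hu y hy).2.2, mul_div_mul_right _ _ (hu y hy).1.ne']
  have eσ : ∀ y ∈ offz D g', nsq (σ · y) = f (p y) * (nsq (a · y) / nsq (b · y)) ^ N₁ :=
    fun y hy => by
    rw [← hf, Finset.sum_mul, ← eT y hy]
    refine Finset.sum_congr rfl fun l _ => ?_
    beta_reduce
    rw [σ2 l y hy, (((gPUL st_SEC st_SPH) n M ι D _ I J Z a' b' p mp).1 _ _ _ (s1 l)).2 y hy,
      Nat.cast_zero, zero_mul, add_zero, Real.exp_nat_mul,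
      Real.exp_log (div_pos (pa y hy) (pb y hy))]
  have pT : ∀ y ∈ offz D g', 0 < nsq (a · y) / nsq (b · y) := fun y hy =>
    eT y hy ▸ div_pos (pa y hy) (pb y hy)
  obtain ⟨y₀, y1, y2⟩ := SIG.pt ae c0 li (T := {v | 0 < f v})
    (measurableSet_lt measurable_const cf.measurable) s2
  obtain ⟨l₀, -, hl⟩ := Finset.exists_ne_zero_of_sum_ne_zero
    (eσ y₀ y1 ▸ (mul_pos y2 (pow_pos (pT y₀ y1) _)).ne' : nsq (σ · y₀) ≠ 0)
  obtain ⟨R, rg'⟩ := NV5.KITb.rmul rg ⟨_, σ1 l₀⟩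
  have hg₁ := ((st_UPB n M ι D R).1 _ rg'.1).1
  have ne₁ : ∃ y ∈ off D, (g' * σ l₀) y ≠ 0 := ⟨y₀, y1.1, mul_ne_zero y1.2 (normSq_eq_zero.not.1 hl)⟩
  obtain ⟨-, -, ae₁⟩ := NV6.J.ae_offz X hg₁ ne₁
  have sb : offz D (g' * σ l₀) ⊆ offz D g' := fun y hy => ⟨hy.1, left_ne_zero_of_mul hy.2⟩
  have pσ : ∀ y ∈ offz D (g' * σ l₀), 0 < nsq (σ · y) := fun y hy =>
    (normSq_pos.2 (right_ne_zero_of_mul hy.2)).trans_le (Finset.single_le_sum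
      (f := fun l => normSq (σ l y)) (fun _ _ => normSq_nonneg _) (Finset.mem_univ l₀))
  obtain ⟨c₀, c2, c3⟩ := ρ3
  refine ⟨N₁, r₀, σ, g' * σ l₀, x, θ • fun i => (Λ i : ℝ), N2, x0, σ1, ⟨R, rg'⟩, hg₁, ne₁,
    fun y hy => ⟨pos_of_mul_pos_left ((hu y (sb hy)).2.1 ▸ pa y (sb hy)) (hu y (sb hy)).1.le,
      pos_of_mul_pos_left ((hu y (sb hy)).2.2 ▸ pb y (sb hy)) (hu y (sb hy)).1.le, pσ y hy⟩, lo, hi,
    fun t => ?_⟩
  refine SIG.fin ae₁ c1 li c2 (w := fun y => Real.exp (θ * lw D (fun i => Λ i) y) *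
    (nsq (a · y) / nsq (b · y)) ^ x) (fun y hy => ?_) (f := fun v => f v ^ (-(t : ℝ)))
    (cf.measurable.pow_const _) (fun v => Real.rpow_nonneg (f0 v) _) ?_ fun y hy => ?_
  · have h1 := mul_pos (pa y (sb hy)) (pb y (sb hy))
    refine le_trans (le_of_eq ?_) (mul_le_mul_left (c3 y (sb hy)) _)
    rw [← ENNReal.ofReal_mul (by positivity), eT y (sb hy), Real.rpow_neg h1.le]
    have := (Real.rpow_pos_of_pos h1 θ).ne'
    congr 1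
    field_simp
  · rcases t.eq_zero_or_pos with rfl | t0
    · exact (integrable_const (1 : ℝ)).congr (ae_of_all _ fun v => by simp)
    · exact (s3 t (Nat.cast_pos.2 t0)).congr (ae_of_all _ fun v => congrArg (· ^ _) (hf v))
  · rw [(bPW n M ι D).2.2.2.2.1, eσ y (sb hy), div_mul_cancel_right₀ (pow_pos (pT y (sb hy)) _).ne',
      Real.rpow_neg (f0 _), Real.rpow_natCast, inv_pow]

end Pool.Agent.Lib.S5
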