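import Pool.Agent.Lib.S5.GBlue
import Pool.Agent.Lib.S5.Sig

/-! Project S5, the core. -/

open scoped Classical

noncomputable section

namespace Pool.Agent.Lib.S5

open Pool.Agent.Lib.SV (nsq)
open Pool.Agent.Lib.HS32 Pool.Agent.Lib.EX Pool.Agent.Lib.EXS Pool.Agent.Lib.ZL

theorem Sig.mom {n : ℕ} {M : Mf n} {ι : Type} [Fintype ι] [DecidableEq ι] {D : Ad M ι} {X : Cx D}
    {L κ : ι → ℤ} {I J : Type} [Fintype I] [Fintype J] {a : I → M.X → ℂ} {b : J → M.X → ℂ}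
    {N r : ℕ} {σ : Fin r → M.X → ℂ} {g : M.X → ℂ} {x : ℝ} {th : ι → ℝ}
    (h : Sig X L κ a b N σ g x th) : Mom X L fun y => nsq (a · y) / nsq (b · y) :=
  ⟨N, r, σ, g, x, th, h.N0, h.x0, h.sp, h.hol, h.ne, fun y hy =>
    ⟨div_pos (h.pos y hy).1 (h.pos y hy).2.1, (h.pos y hy).2.2⟩, h.int⟩

theorem sigCOR : St_COR := by
  intro n M _ ι _ _ D X r t F _ _ Φ k a₀ N r₁ r₂ lam κ P T a b pr dm N0 T0 _ z0 ab h
  obtain ⟨g, e, b₀, r1, md, rk⟩ := h _ finProdFinEquiv.symm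
  obtain ⟨_, _, _, _, _, _, hs⟩ := st_SIG n M ι D X r t F Φ k T N _ e _ r₁ r₂ lam κ P g b₀ _ a b pr
    T0 N0 ab r1 md rk dm fun j j0 s hs => by
      simpa only [Nat.cast_mul, mul_assoc] using z0 (j * N) (Nat.mul_pos j0 N0) s
        (by simpa only [Nat.cast_mul, mul_assoc] using hs)
  exact hs.mom

end Pool.Agent.Lib.S5
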