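import Pool.Agent.Lib.S5.SDefs

/-! Project S5: the statement. -/

open scoped Manifold ContDiff Topology Polynomial

namespace Pool.Agent.Lib.S5

open Pool.Agent.Lib.SV Pool.Agent.Lib.HS Pool.Agent.Lib.GH Pool.Agent.Lib.EX Pool.Agent.Lib.ZL
  Pool.Agent.Lib.NV2 Pool.Agent.Lib.NV5

/-- Abundance for `c (K + Δ) = N + E` when the Euler characteristic has the top degree. -/
def St_S5 : Prop := ∀ (n : ℕ) (Y I : Type) [TopologicalSpace Y] [ChartedSpace (E n) Y]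
  [IsManifold 𝓘(ℂ, E n) ω Y] [CompactSpace Y] [T2Space Y] [ConnectedSpace Y] [Fintype I]
  (G : Y → Mat n) (D : I → Set Y) (c : ℕ) (e : I → ℕ) (l p ν b : I → ℤ) (η : Y → ℂ)
  (R : ℚ[X][X]), Hermitian G → (∀ y, Ord n 1 D l η y) → AmpBy n D e → 0 < c →
  (∀ i, c * l i ≤ p i ∧ p i < c * (l i + 1)) → Nef n G D ν → Zar n D p ν e →
  Contr n D b {i | ν i < p i} → Nef n G D (b - ν) →
  (∀ a : ℕ, ∀ᶠ j : ℕ in Filter.atTop,
    (hz n D (fun i => l i + a * ν i + j * e i) : ℚ) = (R.eval (Polynomial.C (a : ℚ))).eval (j : ℚ)) →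
  R.leadingCoeff.eval 0 ≠ 0 → ∃ m : ℕ, 0 < m ∧ GenD n D fun i => m * ν i

/-- The case without boundary. -/
def St_S50 : Prop := ∀ (n : ℕ) (Y I : Type) [TopologicalSpace Y] [ChartedSpace (E n) Y]
  [IsManifold 𝓘(ℂ, E n) ω Y] [CompactSpace Y] [T2Space Y] [ConnectedSpace Y] [Fintype I]
  (G : Y → Mat n) (D : I → Set Y) (c : ℕ) (e : I → ℕ) (l ν b : I → ℤ) (η : Y → ℂ)
  (R : ℚ[X][X]), Hermitian G → (∀ y, Ord n 1 D l η y) → AmpBy n D e → 0 < c →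
  Nef n G D ν → Zar n D (fun i => c * l i) ν e →
  Contr n D b {i | ν i < c * l i} → Nef n G D (b - ν) →
  (∀ a : ℕ, ∀ᶠ j : ℕ in Filter.atTop,
    (hz n D (fun i => l i + a * ν i + j * e i) : ℚ) = (R.eval (Polynomial.C (a : ℚ))).eval (j : ℚ)) →
  R.leadingCoeff.eval 0 ≠ 0 → ∃ m : ℕ, 0 < m ∧ GenD n D fun i => m * ν i

theorem s50_of (h : St_S5) : St_S50 := fun n Y I _ _ _ _ _ _ _ G D c e l ν b η R hG hη hA hc =>
  h n Y I G D c e l (fun i => c * l i) ν b η R hG hη hA hc fun _ =>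
    ⟨le_rfl, mul_lt_mul_of_pos_left (lt_add_one _) (Int.natCast_pos.2 hc)⟩

end Pool.Agent.Lib.S5
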