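import Pool.Agent.Lib.S5.T9Defs

/-! Project S5, step nine: the coefficients and the domination by finitely many sections. -/

open scoped Classical Topology ENNReal ComplexConjugate
open Set MeasureTheory Complex Metric Filter MvPolynomial

noncomputable section

namespace Pool.Agent.Lib.S5

open Pool.Agent.Lib.NV6
open Pool.Agent.Lib.SV (nsq)

theorem tFDV : St_FDV := by
  intro Ω _ _ _ _ ν _ r B hB
  let G : (Fin r → ℂ) →ₗ[ℂ] C(Ω, ℂ) := Fintype.linearCombination ℂ fun l => (⟨B l, hB l⟩ : C(Ω, ℂ))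
  have hG : ∀ c p, G c p = ∑ l, c l * B l p := fun c p => by
    simp only [G, Fintype.linearCombination_apply, ContinuousMap.coe_sum, ContinuousMap.coe_smul,
      Finset.sum_apply, Pi.smul_apply, smul_eq_mul, ContinuousMap.coe_mk]
  let T : (Fin r → ℂ) →ₗ[ℂ] Lp ℂ 1 ν := (ContinuousMap.toLp 1 ν ℂ).toLinearMap ∘ₗ G
  have hT : ∀ c, T c =ᵐ[ν] fun p => ∑ l, c l * B l p := fun c =>
    (ContinuousMap.coeFn_toLp (p := 1) (𝕜 := ℂ) ν (G c)).trans (Eventually.of_forall (hG c))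
  obtain ⟨g, hg⟩ := T.rangeRestrict.exists_rightInverse_of_surjective T.range_rangeRestrict
  obtain ⟨C, hC, h1⟩ := (LinearMap.toContinuousLinearMap g).bound
  refine ⟨C, hC.le, fun c => ⟨g (T.rangeRestrict c), ?_, fun l => ?_⟩⟩
  · have h2 : T (g (T.rangeRestrict c)) = T c :=
      congrArg Subtype.val (LinearMap.congr_fun hg (T.rangeRestrict c))
    have h3 := hT (g (T.rangeRestrict c))
    rw [h2] at h3
    exact (hT c).symm.trans h3
  · refine (norm_le_pi_norm _ l).trans ((h1 (T.rangeRestrict c)).trans_eq ?_)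
    have h2 : ‖T.rangeRestrict c‖ = ‖T c‖ := rfl
    rw [h2, L1.norm_eq_integral_norm]
    exact congrArg _ (integral_congr_ae ((hT c).mono fun p hp => congrArg norm hp))

variable {ι κ : Type} [Fintype ι] [Fintype κ] {Z : Set (ι × κ → ℂ)}

theorem bdd {Ω : Type} [TopologicalSpace Ω] [CompactSpace Ω] {g : Ω → ℝ} (hg : Continuous g) :
    ∃ C > (0 : ℝ), ∀ p, g p ≤ C := by
  obtain ⟨B, h⟩ := (isCompact_range hg).bddAbove
  exact ⟨max B 1, lt_max_of_lt_right one_pos, fun p => le_max_of_le_left (h ⟨p, rfl⟩)⟩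

theorem big {σ : Type} [Fintype σ] {a : σ → ℂ} (ha : nsq a = 1) :
    ∃ i, ((Fintype.card σ : ℝ) + 1)⁻¹ ≤ ‖a i‖ := by
  by_contra h
  push Not at h
  have h0 : (0 : ℝ) < (Fintype.card σ : ℝ) + 1 := by positivity
  have h1 : ((Fintype.card σ : ℝ) + 1)⁻¹ ≤ 1 :=
    inv_le_one_of_one_le₀ (le_add_of_nonneg_left (Nat.cast_nonneg _))
  have h2 : ∑ i, normSq (a i) ≤ ∑ _i : σ, ((Fintype.card σ : ℝ) + 1)⁻¹ :=
    Finset.sum_le_sum fun i _ => by
      rw [normSq_eq_norm_sq]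
      nlinarith [h i, norm_nonneg (a i)]
  have h3 : ∑ i, normSq (a i) = 1 := ha
  rw [h3, Finset.sum_const, Finset.card_univ, nsmul_eq_mul, ← div_eq_mul_inv, le_div_iff₀ h0] at h2
  linarith

/-- One chart. -/
theorem chart (hS : St_SPH) (hZ : Cone Z) {V : ℕ → Set (Fn ι κ)}
    (hV : ∀ n, 0 < n → ∀ F ∈ V n, Sec Z n 0 F) (i : ι) (j : κ) {δ : ℝ} (hδ : 0 < δ) :
    ∃ (T : Type) (_ : Fintype T) (m : T → ℕ) (G : T → Fn ι κ), (∀ l, 0 < m l ∧ G l ∈ V (m l)) ∧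
      ∀ n, 0 < n → ∀ F ∈ V n, ∃ C ≥ (0 : ℝ), ∀ p : Sph Z, δ ≤ ‖p.1.1 i‖ → δ ≤ ‖p.1.2 j‖ →
        ‖F p.1‖ ≤ C * ∑ l, ‖G l p.1‖ := by
  have := hS.cpt hZ
  obtain ⟨s, h1, h2⟩ := (Submodule.fg_span_iff_fg_span_finset_subset (R := MvPolynomial (ι × κ) ℂ)
    {A : MvPolynomial (ι × κ) ℂ | ∃ n, 0 < n ∧ ∃ F ∈ V n, ∃ k, Ch Z i j n 0 k F A}).1
    (IsNoetherian.noetherian _)
  choose m hm G hG k hk using fun l : s => h1 l.2
  refine ⟨s, inferInstance, m, G, fun l => ⟨hm l, hG l⟩, fun n hn F hF => ?_⟩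
  obtain ⟨k', A, hA⟩ := hV n hn F hF i j
  have h3 : A ∈ Submodule.span (MvPolynomial (ι × κ) ℂ) (s : Set (MvPolynomial (ι × κ) ℂ)) :=
    h2 ▸ Submodule.subset_span ⟨n, hn, F, hF, k', hA⟩
  obtain ⟨R, hR⟩ := (Submodule.mem_span_finset' ..).1 h3
  obtain ⟨C, hC, h4⟩ := bdd (g := fun p : Sph Z => ∑ l, ‖eval (sg p.1) (R l)‖)
    (continuous_finsetSum _ fun l _ => ((continuous_eval (R l)).comp hS.csg).norm)
  have hd : 0 < δ ^ (2 * n) * (δ * δ) ^ k' := by positivity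
  refine ⟨C / (δ ^ (2 * n) * (δ * δ) ^ k'), by positivity, fun p hi hj => ?_⟩
  obtain ⟨hb, -, -, b1, b2⟩ := hS.bc p
  rw [div_mul_eq_mul_div, le_div_iff₀ hd]
  have h5 : ‖F p.1‖ * (δ ^ (2 * n) * (δ * δ) ^ k') ≤ ‖eval (sg p.1) A‖ := by
    rw [← hA.2 _ hb, norm_mul, norm_mul, norm_pow, norm_pow, norm_mul, mul_assoc]
    gcongr
  refine h5.trans ?_
  rw [← hR, map_sum, Finset.mul_sum]
  refine (norm_sum_le _ _).trans (Finset.sum_le_sum fun l _ => ?_)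
  rw [smul_eq_mul, map_mul, norm_mul, ← (hk l).2 _ hb, norm_mul, norm_mul, norm_pow, norm_pow,
    norm_mul]
  refine mul_le_mul ((Finset.single_le_sum (f := fun l => ‖eval (sg p.1) (R l)‖)
    (fun _ _ => norm_nonneg _) (Finset.mem_univ l)).trans (h4 p)) ?_ (by positivity) hC.le
  rw [mul_assoc]
  exact mul_le_of_le_one_right (norm_nonneg _) (mul_le_one₀ (pow_le_one₀ (norm_nonneg _) (b2 j))
    (by positivity) (pow_le_one₀ (by positivity) (mul_le_one₀ (b1 i) (norm_nonneg _) (b2 j))))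

theorem tNOV (hS : St_SPH) : St_NOV := by
  intro ι κ _ _ Z ν V hZ hV
  have := hS.cpt hZ
  have hδ : (0 : ℝ) < min ((Fintype.card ι : ℝ) + 1)⁻¹ ((Fintype.card κ : ℝ) + 1)⁻¹ := by positivity
  choose T hT m G h1 h2 using fun α : ι × κ => chart hS hZ hV.sec α.1 α.2 hδ
  have E := (Fintype.equivFin (Σ α, T α)).symm
  obtain ⟨N, hN, hd⟩ : ∃ N > 0, ∀ τ : Σ α, T α, m τ.1 τ.2 ∣ N :=
    ⟨∏ τ : Σ α, T α, m τ.1 τ.2, Finset.prod_pos fun τ _ => (h1 _ _).1,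
      fun τ => Finset.dvd_prod_of_mem _ (Finset.mem_univ τ)⟩
  choose u hu using hd
  have u0 : ∀ τ, 0 < u τ := fun τ => Nat.pos_of_mul_pos_left (hu τ ▸ hN)
  have u1 : ∀ τ, u τ ≤ N := fun τ => (Nat.le_mul_of_pos_left _ (h1 τ.1 τ.2).1).trans (hu τ).ge
  refine ⟨N, hN, _, fun l x => G (E l).1 (E l).2 x ^ u (E l), fun l => ?_, fun n hn F hF => ?_⟩
  · have h3 := hV.pow _ _ (h1 _ _).1 (u0 (E l)) _ (h1 (E l).1 (E l).2).2
    rwa [mul_comm, ← hu] at h3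
  have h3 : ∀ τ : Σ α, T α, ∃ D ≥ (0 : ℝ), ∀ p : Sph Z, ‖G τ.1 τ.2 p.1‖ ≤
      D * (∑ l, normSq (G (E l).1 (E l).2 p.1 ^ u (E l))) ^ (2 * (N : ℝ))⁻¹ := fun τ => by
    obtain ⟨D, hD, h4⟩ := bdd (hS.cont (hV.sec _ (h1 _ _).1 _ (h1 τ.1 τ.2).2)).norm
    refine ⟨(D ^ (2 * (N - u τ))) ^ (2 * (N : ℝ))⁻¹, by positivity, fun p => ?_⟩
    have h5 : (0 : ℝ) ≤ ∑ l, normSq (G (E l).1 (E l).2 p.1 ^ u (E l)) :=
      Finset.sum_nonneg fun _ _ => normSq_nonneg _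
    have h6 : normSq (G τ.1 τ.2 p.1 ^ u τ) ≤ ∑ l, normSq (G (E l).1 (E l).2 p.1 ^ u (E l)) := by
      rw [Equiv.sum_comp E fun τ => normSq (G τ.1 τ.2 p.1 ^ u τ)]
      exact Finset.single_le_sum (f := fun τ : Σ α, T α => normSq (G τ.1 τ.2 p.1 ^ u τ))
        (fun _ _ => normSq_nonneg _) (Finset.mem_univ τ)
    rw [← Real.mul_rpow (by positivity) h5,
      Real.le_rpow_inv_iff_of_pos (norm_nonneg _) (by positivity) (by positivity),
      show 2 * (N : ℝ) = ((2 * (N - u τ) + u τ * 2 : ℕ) : ℝ) by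
        rw [show 2 * (N - u τ) + u τ * 2 = 2 * N by have := u1 τ; omega]; push_cast; rfl,
      Real.rpow_natCast, pow_add]
    refine mul_le_mul (pow_le_pow_left₀ (norm_nonneg _) (h4 p) _) (le_of_eq_of_le ?_ h6)
      (by positivity) (by positivity)
    rw [normSq_eq_norm_sq, norm_pow, pow_mul]
  choose D D0 hD using h3
  choose C C0 hC using fun α => h2 α n hn F hF
  refine ⟨∑ α, C α * ∑ l, D ⟨α, l⟩, Finset.sum_nonneg fun α _ => mul_nonneg (C0 α)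
    (Finset.sum_nonneg fun l _ => D0 _), fun p => ?_⟩
  obtain ⟨i, hi⟩ := big p.2.2.1
  obtain ⟨j, hj⟩ := big p.2.2.2
  refine (hC (i, j) p (min_le_of_left_le hi) (min_le_of_right_le hj)).trans ?_
  refine le_trans ?_ (mul_le_mul_of_nonneg_right (Finset.single_le_sum
    (f := fun α => C α * ∑ l, D ⟨α, l⟩) (fun α _ => mul_nonneg (C0 α)
      (Finset.sum_nonneg fun l _ => D0 _)) (Finset.mem_univ (i, j)))
    (Real.rpow_nonneg (Finset.sum_nonneg fun _ _ => normSq_nonneg _) _))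
  rw [mul_assoc, Finset.sum_mul]
  exact mul_le_mul_of_nonneg_left (Finset.sum_le_sum fun l _ => hD ⟨(i, j), l⟩ p) (C0 _)

end Pool.Agent.Lib.S5
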