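import Pool.Agent.Lib.S5.T9A

/-! Project S5, step nine: the limit of the tilted measures. -/

open scoped Classical Topology ENNReal ComplexConjugate
open Set MeasureTheory Complex Metric Filter MvPolynomial

noncomputable section

namespace Pool.Agent.Lib.S5

open Pool.Agent.Lib.NV6 Pool.Agent.Lib.S3K

/-- The estimate for one weight `W`. -/
theorem one {Ω : Type} [MetricSpace Ω] [CompactSpace Ω] [MeasurableSpace Ω] [BorelSpace Ω]
    (ν : Measure Ω) [IsProbabilityMeasure ν] {u F : Ω → ℂ} {w W : Ω → ℝ} {a C A A' M P : ℝ}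
    (hu : Continuous u) (hF : Continuous F) (hw : Continuous w) (hW : Continuous W) (ha : 0 < a)
    (hM : 1 ≤ M) (w0 : ∀ p, 0 ≤ w p) (W0 : ∀ p, 0 ≤ W p) (h1 : ∀ p, a ≤ w p * W p)
    (h2 : ∀ p, ‖u p‖ * w p ≤ C) (h3 : ∀ p, normSq (u p) * w p ≤ C) (hm : ∫ p, W p ∂ν = M ^ 2)
    (hA : ∫ p, normSq (u p - F p) * (w p * W p) ∂ν ≤ A) (hA' : A ≤ A' * M ^ 2) (hP : 0 ≤ P)
    (hC : 0 ≤ C) (h4 : ∫ p, ‖F p‖ * W p ∂ν ≤ P * ∫ p, ‖F p‖ ∂ν) :
    ∫ p, W p * (normSq (u p) * w p) ∂ν ≤ A + 2 * C * P * (2 * (C + A') / a + 1) * M := by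
  have M0 : 0 < M := one_pos.trans_le hM
  have c1 : Continuous fun p => normSq (u p - F p) * (w p * W p) :=
    (continuous_normSq.comp (hu.sub hF)).mul (hw.mul hW)
  have c2 : Continuous fun p => W p * (normSq (u p) * w p) :=
    hW.mul ((continuous_normSq.comp hu).mul hw)
  have k1 : ∫ p, W p * (normSq (u p) * w p) ∂ν ≤ C * M ^ 2 := by
    rw [← hm, ← integral_const_mul]
    exact integral_mono (intc c2 _) (intc (continuous_const.mul hW) _) fun p =>
      (mul_le_mul_of_nonneg_left (h3 p) (W0 p)).trans_eq (mul_comm _ _)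
  have k2 : ∫ p, ‖F p‖ ∂ν ≤ ∫ p, (2 / (a * M) * (W p * (normSq (u p) * w p) +
      normSq (u p - F p) * (w p * W p)) + M) ∂ν := by
    refine integral_mono (intc hF.norm _)
      (intc ((continuous_const.mul (c2.add c1)).add continuous_const) _) fun p => ?_
    have e1 : ‖F p‖ ≤ ‖u p‖ + ‖u p - F p‖ := by
      simpa only [sub_sub_cancel] using norm_sub_le (u p) (u p - F p)
    have e2 : ‖F p‖ ^ 2 ≤ 2 * (‖u p‖ ^ 2 + ‖u p - F p‖ ^ 2) := by
      nlinarith [norm_nonneg (F p), norm_nonneg (u p), norm_nonneg (u p - F p),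
        sq_nonneg (‖u p‖ - ‖u p - F p‖)]
    have e3 : a * ‖F p‖ ^ 2 ≤ w p * W p * (2 * (‖u p‖ ^ 2 + ‖u p - F p‖ ^ 2)) :=
      mul_le_mul (h1 p) e2 (sq_nonneg _) (mul_nonneg (w0 p) (W0 p))
    change _ ≤ 2 / (a * M) * (W p * (normSq (u p) * w p) + normSq (u p - F p) * (w p * W p)) + M
    rw [normSq_eq_norm_sq, normSq_eq_norm_sq, div_mul_eq_mul_div, ← sub_le_iff_le_add,
      le_div_iff₀ (mul_pos ha M0)]
    nlinarith [mul_nonneg ha.le (sq_nonneg (‖F p‖ - M)), mul_pos ha M0, norm_nonneg (F p),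
      mul_nonneg (mul_pos ha M0).le (norm_nonneg (F p))]
  have c3 : Continuous fun p => 2 / (a * M) * (W p * (normSq (u p) * w p) +
      normSq (u p - F p) * (w p * W p)) := continuous_const.mul (c2.add c1)
  rw [integral_add (intc c3 _) (integrable_const _),
    integral_const_mul, integral_add (intc c2 _) (intc c1 _), integral_const, probReal_univ,
    one_smul] at k2
  have k3 : ∫ p, ‖F p‖ ∂ν ≤ (2 * (C + A') / a + 1) * M := by
    refine k2.trans (le_of_le_of_eq (add_le_add (mul_le_mul_of_nonneg_left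
      (add_le_add k1 (hA.trans hA')) (by positivity)) le_rfl) ?_)
    field_simp
  have k4 : ∫ p, W p * (normSq (u p) * w p) ∂ν ≤
      ∫ p, (normSq (u p - F p) * (w p * W p) + 2 * C * (‖F p‖ * W p)) ∂ν := by
    refine integral_mono (intc c2 _) (intc (c1.add (continuous_const.mul (hF.norm.mul hW))) _)
      fun p => ?_
    have e1 : ‖u p‖ ≤ ‖u p - F p‖ + ‖F p‖ := by
      simpa only [sub_add_cancel] using norm_add_le (u p - F p) (F p)
    have e2 : ‖u p‖ ^ 2 ≤ ‖u p - F p‖ ^ 2 + 2 * (‖u p‖ * ‖F p‖) := by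
      rcases le_total ‖u p‖ ‖F p‖ with h | h
      · nlinarith [norm_nonneg (F p), norm_nonneg (u p), sq_nonneg ‖u p - F p‖]
      · nlinarith [norm_nonneg (F p), mul_self_le_mul_self (sub_nonneg.2 h)
          (sub_le_iff_le_add.2 e1)]
    have e3 := mul_le_mul_of_nonneg_left e2 (mul_nonneg (w0 p) (W0 p))
    have e4 := mul_le_mul_of_nonneg_right (h2 p) (mul_nonneg (norm_nonneg (F p)) (W0 p))
    change W p * (normSq (u p) * w p) ≤ normSq (u p - F p) * (w p * W p) + 2 * C * (‖F p‖ * W p)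
    rw [normSq_eq_norm_sq, normSq_eq_norm_sq]
    nlinarith
  have c4 : Continuous fun p => 2 * C * (‖F p‖ * W p) := continuous_const.mul (hF.norm.mul hW)
  rw [integral_add (intc c1 _) (intc c4 _), integral_const_mul] at k4
  refine k4.trans (add_le_add hA ?_)
  rw [mul_assoc (2 * C), mul_assoc (2 * C), mul_assoc P]
  exact mul_le_mul_of_nonneg_left (h4.trans (mul_le_mul_of_nonneg_left k3 hP)) (by positivity)

theorem tLMV (hS : St_SPH) (hA : St_ADM) (hFD : St_FDV) : St_LMV := by
  intro ι κ _ _ Z _ K x ε y c B ν V β hV hG hβ hB hm hP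
  have cβ : ∀ k, Continuous fun p => -β k p := fun k => (hA.cadm (hβ k)).1.neg
  obtain ⟨ν', -, h3⟩ := isCompact_univ.ultrafilter_le_nhds
    ((hyperfilter ℕ).map fun k => tl (fun p => -β k p) ν) (by simp)
  have h4 : Tendsto (fun k => tl (fun p => -β k p) ν) (hyperfilter ℕ) (𝓝 ν') := h3
  refine ⟨ν', fun q n e θ c' s s' γ β' hn hθ hs hs' hγ hβ' hc => ?_⟩
  have c1 : Continuous fun p : Sph Z => normSq (s p.1) := continuous_normSq.comp (hS.cont hs)
  have c2 : Continuous fun p => Real.exp (γ p) := Real.continuous_exp.comp (hA.cadm hγ).1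
  have p0 : ∀ p : Sph Z, 0 < normSq (s p.1) + Real.exp (γ p) := fun p =>
    add_pos_of_nonneg_of_pos (normSq_nonneg _) (Real.exp_pos _)
  have c3 : Continuous (den s s' γ β' θ) :=
    ((continuous_normSq.comp (hS.cont hs')).mul ((c1.add c2).rpow_const fun p =>
      Or.inl (p0 p).ne')).mul (Real.continuous_exp.comp (hA.cadm hβ').1.neg)
  have cw : Continuous (ww s γ β' θ) := ((c1.add c2).rpow_const fun p => Or.inl (p0 p).ne').mul
    (Real.continuous_exp.comp (hA.cadm hβ').1.neg)
  have cu : Continuous (uu s s' γ) := ((hS.cont hs').mul (continuous_conj.comp (hS.cont hs))).div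
    (continuous_ofReal.comp (c1.add c2)) fun p => ofReal_ne_zero.2 (p0 p).ne'
  have w0 : ∀ p, 0 < ww s γ β' θ p := fun p =>
    mul_pos (Real.rpow_pos_of_pos (p0 p) _) (Real.exp_pos _)
  have e0 : ∀ p : Sph Z, normSq (s p.1) * den s s' γ β' θ p =
      normSq (uu s s' γ p) * ww s γ β' θ p := fun p => by
    have := (p0 p).ne'
    rw [uu, ww, den, map_div₀, map_mul, normSq_conj, normSq_ofReal, neg_add,
      Real.rpow_add (p0 p), Real.rpow_neg (p0 p).le 2, Real.rpow_two]
    field_simp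
  obtain ⟨a, ha, a1⟩ := bdd (cw.inv₀ fun p => (w0 p).ne')
  obtain ⟨C, hC, C1⟩ := bdd ((cu.norm.mul cw).max ((continuous_normSq.comp cu).mul cw))
  obtain ⟨A, -, A1⟩ := bdd (continuous_const (y := K / θ).mul (c2.mul c3))
  obtain ⟨r, E, E1, E2⟩ := hV.fin n hn
  have cE : ∀ l, Continuous fun p : Sph Z => E l p.1 := fun l => hS.cont (hV.sec n hn _ (E1 l))
  obtain ⟨D, hD, D1⟩ := hFD _ (ν : Measure (Sph Z)) r _ cE
  choose P P1 using fun l => hP n hn _ (E1 l)
  have P0 : ∀ l, 0 ≤ P l := fun l => le_trans (integral_nonneg fun p => by positivity) (P1 l 0)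
  have PP : 0 ≤ D * ∑ l, P l := mul_nonneg hD (Finset.sum_nonneg fun l _ => P0 l)
  have key : ∀ k : ℕ, 1 ≤ k → ∫ p, normSq (s p.1) * den s s' γ β' θ p
      ∂(tl (fun p => -β k p) ν : Measure (Sph Z)) ≤ K / θ * ∫ p, Real.exp (γ p) *
        den s s' γ β' θ p ∂(tl (fun p => -β k p) ν : Measure (Sph Z)) +
      |2 * C * (D * ∑ l, P l) * (2 * (C + A) / (a⁻¹ * Real.exp (-B)) + 1)| / √k := fun k hk => by
    have k1 : (1 : ℝ) ≤ k := by exact_mod_cast hk
    have cW : Continuous fun p => Real.exp (-β k p) := Real.continuous_exp.comp (cβ k)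
    have m0 := exp_pos' (cβ k) ν
    have h1 := hA.plus hβ' (hβ k)
    rw [show n - (x + y) - θ * q + y = n - x - θ * q by ring] at h1
    obtain ⟨F, hF, h2⟩ := hG q n e θ _ s s' γ _ hn hθ hs hs' hγ h1 (by linarith)
    have e1 : ∀ p, ww s γ (fun p => β' p + β k p) θ p = ww s γ β' θ p * Real.exp (-β k p) :=
      fun p => by simp only [ww, neg_add, Real.exp_add, mul_assoc]
    have e2 : ∀ p, Real.exp (γ p) * den s s' γ (fun p => β' p + β k p) θ p =
        Real.exp (-β k p) * (Real.exp (γ p) * den s s' γ β' θ p) := fun p => by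
      simp only [den, neg_add, Real.exp_add]
      ring
    simp only [e1, e2] at h2
    obtain ⟨d, hd⟩ := E2 F hF
    obtain ⟨d', d1, d2⟩ := D1 d
    have cF := hS.cont (hV.sec n hn F hF)
    rw [integral_congr_ae (hd.mono fun p hp => congrArg norm hp.symm)] at d2
    have h5 := one (ν : Measure (Sph Z)) (a := a⁻¹ * Real.exp (-B)) (A' := A)
      (M := √(∫ p, Real.exp (-β k p) ∂(ν : Measure (Sph Z)))) cu cF cw cW (by positivity)
      (Real.one_le_sqrt.2 (k1.trans (hm k))) (fun p => (w0 p).le) (fun p => (Real.exp_pos _).le)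
      (fun p => mul_le_mul (inv_le_of_inv_le₀ (w0 p) (a1 p))
        (Real.exp_le_exp.2 (neg_le_neg (hB k p))) (Real.exp_pos _).le (w0 p).le)
      (fun p => (le_max_left _ _).trans (C1 p)) (fun p => (le_max_right _ _).trans (C1 p))
      (Real.sq_sqrt m0.le).symm h2 ?_ PP hC.le ?_
    · rw [tl_int (cβ k), tl_int (cβ k), ← mul_div_assoc, div_le_iff₀ m0, add_mul,
        div_mul_cancel₀ _ m0.ne']
      simp only [e0]
      refine h5.trans (add_le_add le_rfl ?_)
      rw [div_mul_comm, mul_comm (_ / √(k : ℝ))]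
      refine mul_le_mul (le_abs_self _) ?_ (Real.sqrt_nonneg _) (abs_nonneg _)
      rw [le_div_iff₀ (Real.sqrt_pos.2 (one_pos.trans_le k1))]
      exact (mul_le_mul_of_nonneg_left (Real.sqrt_le_sqrt (hm k)) (Real.sqrt_nonneg _)).trans_eq
        (Real.mul_self_sqrt m0.le)
    · rw [Real.sq_sqrt m0.le, ← integral_const_mul, ← integral_const_mul]
      refine integral_mono (intc (continuous_const.mul (cW.mul (c2.mul c3))) _)
        (intc (continuous_const.mul cW) _) fun p => ?_
      have := mul_le_mul_of_nonneg_right (A1 p) (Real.exp_pos (-β k p)).le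
      exact le_of_eq_of_le (by simp only [Pi.mul_apply]; ring) this
    · calc ∫ p, ‖F p.1‖ * Real.exp (-β k p) ∂(ν : Measure (Sph Z))
          ≤ ∫ p, ∑ l, ‖d' l‖ * (‖E l p.1‖ * Real.exp (-β k p)) ∂(ν : Measure (Sph Z)) := by
            refine integral_mono_ae (intc (cF.norm.mul cW) _) (intc (continuous_finsetSum _
              fun l _ => continuous_const.mul ((cE l).norm.mul cW)) _) ?_
            filter_upwards [hd, d1] with p g1 g2
            simp only [← mul_assoc, ← norm_mul]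
            rw [g1, g2, ← Finset.sum_mul]
            exact mul_le_mul_of_nonneg_right (norm_sum_le _ _) (Real.exp_pos _).le
        _ ≤ _ := by
            have c5 : ∀ l, Continuous fun p : Sph Z =>
                ‖d' l‖ * (‖E l p.1‖ * Real.exp (-β k p)) := fun l =>
              continuous_const.mul ((cE l).norm.mul cW)
            rw [integral_finsetSum _ fun l _ => intc (c5 l) _, mul_right_comm, Finset.mul_sum]
            refine Finset.sum_le_sum fun l _ => ?_
            rw [integral_const_mul]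
            exact mul_le_mul (d2 l) (P1 l k) (integral_nonneg fun p => by positivity)
              ((norm_nonneg _).trans (d2 l))
  have hat : (hyperfilter ℕ : Filter ℕ) ≤ atTop := Nat.hyperfilter_le_atTop
  have t1 := ((cont_int (c1.mul c3)).tendsto ν').comp h4
  have t2 := (((cont_int (c2.mul c3)).tendsto ν').comp h4).const_mul (K / θ)
  have t3 := (Tendsto.const_div_atTop (Real.tendsto_sqrt_atTop.comp
    tendsto_natCast_atTop_atTop) |2 * C * (D * ∑ l, P l) *
      (2 * (C + A) / (a⁻¹ * Real.exp (-B)) + 1)|).mono_left hat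
  have t4 := t2.add t3
  rw [add_zero] at t4
  exact le_of_tendsto_of_tendsto t1 t4 (((eventually_ge_atTop 1).filter_mono hat).mono key)

end Pool.Agent.Lib.S5
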