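import Pool.Agent.Lib.S5.S6
import Pool.Agent.Lib.S5.Sig
import Pool.Agent.Lib.S5.B_END
import Pool.Agent.Lib.S5.B_GB
import Pool.Agent.Lib.S5.Stmt

/-! Project S5: the theorem without boundary. -/

open scoped Classical Topology ContDiff Manifold
open Set Filter Polynomial

noncomputable section

namespace Pool.Agent.Lib.S5

open Pool.Agent.Lib.SV (E)
open Pool.Agent.Lib.HS32 Pool.Agent.Lib.EX Pool.Agent.Lib.EXS Pool.Agent.Lib.ZL Pool.Agent.Lib.NV2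
open Pool.Agent.Lib.NV5 (Ctx4 DomH)
open Pool.Agent.Lib.HS.BBR (mf)

namespace T0

theorem gz {M : Mf 0} [M.Cpt] {ι : Type} [Fintype ι] [DecidableEq ι] (D : Ad M ι) (P : ι → ℤ) :
    Gens D P := by
  refine ⟨1, fun _ _ => 1, fun _ => (NV5.S1b.zero D P).1, fun d z _ => ⟨0, fun _ => 1,
    Eventually.of_forall fun _ => differentiableAt_const _, one_ne_zero,
    Eventually.of_forall fun y _ => ?_⟩⟩
  rw [mul_one, xm, Finset.prod_eq_one fun i _ => ?_]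
  · rfl
  · unfold xi
    cases D.c d i with
    | none => exact one_zpow _
    | some j => exact j.elim0

/-- The theorem on the manifold layer. -/
theorem gen4 {n : ℕ} {M : Mf n} [M.Cpt] {ι : Type} [Fintype ι] [DecidableEq ι] {D : Ad M ι}
    {X : Cx D} {r c' c : ℕ} {t : Fin r → M.X → ℂ} {ν : ι → ℤ} (C : Ctx4 X t c' c ν)
    (hD : DomH D X.l X.e) (R : ℚ[X][X]) (hR : ∀ a : ℕ, ∀ᶠ j : ℕ in atTop,
      (h0 D (fun i => X.l i + a * ν i + j * X.e i) : ℚ) =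
        (R.eval (Polynomial.C (a : ℚ))).eval (j : ℚ))
    (h0' : R.leadingCoeff.eval 0 ≠ 0) : ∃ m : ℕ, 0 < m ∧ Gens D fun i => m * ν i := by
  obtain ⟨F, i1, i2, ⟨Φ⟩⟩ := NV5.st_bFLD n M ι D
  obtain ⟨V, m, π, br⟩ := NV5.st_bVF n M ι D F Φ r (fun i => X.e i) t
    (fun i => Int.natCast_pos.2 (C.epos i)) C.kd C.imm
  obtain ⟨Q, d, z, k, a, c₁, b, τ, hP, hO, wr, ge⟩ := pre5 st_HIL st_NVQ
    (bINQ NV5.st_bTNS NV5.st_bKIT NV5.st_bFN) C hD br R hR h0'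
  obtain ⟨pr, zw⟩ := NV6.gZ4 ZL.bPW ZL.st_MU R6.rHQA n M ι D X r c' c a t ν hP.a0 C
  have fb := NV6.gR4 n M ι D X r c' c t ν F Φ V m π Q d z k a c₁ b τ C br hP hO
  obtain ⟨N, r₁, r₂, P, A, B, N0, ab, -, lo, h⟩ :=
    R6.st_R5b n M ι D X r t F Φ V m π k _ _ _ _ pr zw br fb
  obtain ⟨g, e, b₀, r1, md, rk⟩ := h _ finProdFinEquiv.symm
  obtain ⟨N₁, r₀, σ, g₁, y, th, sig⟩ := st_SIG n M ι D X r t F Φ k _ N _ e _ r₁ r₂ _ _ P g b₀ _ A B
    pr (pow_ne_zero N fb.τ0) N0 ab r1 md rk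
    (NV6.gD4 NV5.st_bKIT NV5.st_bFN n M ι D X r c' c t ν F Φ V m π Q d z k a c₁ b τ C br hP)
    (zar4 C br hP.a0 N0)
  exact ⟨N₁ * N * a, Nat.mul_pos (Nat.mul_pos sig.N0 N0) hP.a0,
    by simpa only [Nat.cast_mul, mul_assoc] using sig.gens (lo _ wr ge)⟩

end T0

/-- Abundance without boundary when the Euler characteristic has the top degree. -/
theorem tS50 : St_S50 := by
  intro n Y I _ _ _ _ _ _ _ G S c e l ν β η R hG hO hA hc hN hZa hCo hNb hR h0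
  have : (mf n Y).Cpt := ⟨‹_›, ‹_›, ‹_›⟩
  have hE : ∀ y, ∃ h, Eqs n S y h := fun y => (hO y).imp fun h ⟨w, hw⟩ => hw.1
  rcases Nat.eq_zero_or_pos n with rfl | hn
  · obtain ⟨D, -, -, -, -, hF, -⟩ := NV2.st_CTX 0 Y I G S c e l ν η hG hO hA hc hN hZa
    exact ⟨1, one_pos, genD EX.bUNI hF hE (T0.gz D _)⟩
  obtain ⟨D, X, r, c', t, hF, rfl, rfl, C, hD⟩ := ctx6 hn hG hO hA hc hN hZa hCo hNb
  obtain ⟨-, -, -, hz'⟩ := NV2.st_SEC n Y I S D hF hE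
  exact (T0.gen4 C hD R (fun a => (hR a).mono fun j hj => hz' _ ▸ hj) h0).imp fun m h =>
    ⟨h.1, genD EX.bUNI hF hE h.2⟩

end Pool.Agent.Lib.S5
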