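import Pool.Agent.Lib.S5.Stmt
import Pool.Agent.Lib.S5.B_GB
import Pool.Agent.Lib.S5.Ctx5
import Pool.Agent.Lib.S5.P_DOM
import Pool.Agent.Lib.NV5.Fin

/-! Project S5: the statement layer. -/

open scoped Classical Topology ContDiff Manifold Polynomial
open Set Filter

noncomputable section

namespace Pool.Agent.Lib.S5

open Pool.Agent.Lib.SV (E)
open Pool.Agent.Lib.HS32 Pool.Agent.Lib.EX Pool.Agent.Lib.EXS Pool.Agent.Lib.ZL Pool.Agent.Lib.NV2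
open Pool.Agent.Lib.HS.BBR (mf)

/-- The theorem on the manifold layer. -/
def St_G5 : Prop := ∀ (n : ℕ) (M : Mf n) [M.Cpt] (ι : Type) [Fintype ι] [DecidableEq ι]
  (D : Ad M ι) (X : Cx D) (r c' c : ℕ) (t : Fin r → M.X → ℂ) (p ν : ι → ℤ) (R : ℚ[X][X]), 0 < n →
  Ctx5 X t c' c p ν → DomQ D X.l ν X.e → (∀ a : ℕ, ∀ᶠ j : ℕ in atTop,
    (h0 D (fun i => X.l i + a * ν i + j * X.e i) : ℚ) =
      (R.eval (Polynomial.C (a : ℚ))).eval (j : ℚ)) →
  R.leadingCoeff.eval 0 ≠ 0 → ∃ N : ℕ, 0 < N ∧ Gens D fun i => N * ν i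

theorem gens0 {M : Mf 0} {ι : Type} [Fintype ι] [DecidableEq ι] (D : Ad M ι) (P : ι → ℤ) :
    Gens D P := by
  have hx : ∀ (d : D.A) i (z : E 0), xi (D.c d) i z = 1 := fun d i z => by
    unfold xi
    cases h : D.c d i with
    | none => rfl
    | some j => exact j.elim0
  have h : ∀ (d : D.A) (z : E 0), HolN (fun _ : E 0 => (1 : ℂ)) z ∧ ∀ᶠ y in 𝓝 z, Off (D.c d) y →
      D.rd (fun _ => (1 : ℂ)) d y = xm (D.c d) (-P) y * 1 := fun d z =>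
    ⟨.of_forall fun _ => differentiableAt_const _, .of_forall fun y _ => by simp [xm, hx, Ad.rd]⟩
  exact ⟨1, fun _ _ => 1, fun _ d z _ => ⟨_, h d z⟩,
    fun d z _ => ⟨0, _, (h d z).1, one_ne_zero, (h d z).2⟩⟩

theorem tS5_of (h5 : St_G5) : St_S5 := by
  intro n Y I _ _ _ _ _ _ _ G S c e l p ν β η R hG hO hA hc hp hN hZ hCo hNb hR h0'
  have : (mf n Y).Cpt := ⟨‹_›, ‹_›, ‹_›⟩
  have hE : ∀ y, ∃ h, Eqs n S y h := fun y => (hO y).imp fun h ⟨w, hw⟩ => hw.1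
  have c0 : (0 : ℝ) < c := Nat.cast_pos.2 hc
  obtain ⟨D, X, r, c', t, hF, hl, he, C⟩ := bCT5 st_SEC st_KD st_ZOX bNFB st_CX st_PEAK EX.bUNI
    (EX.bADA EX.bUNI) n Y I G S c e l p ν η hG hO hA hc (fun i => ⟨by
      rw [le_div_iff₀' c0]; exact_mod_cast (hp i).1, by
      rw [div_lt_iff₀' c0]; exact_mod_cast (hp i).2⟩) hN hZ
  suffices H : ∃ N : ℕ, 0 < N ∧ Gens D fun i => N * ν i from
    H.imp fun N h => ⟨h.1, genD EX.bUNI hF hE h.2⟩
  rcases Nat.eq_zero_or_pos n with rfl | hn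
  · exact ⟨1, one_pos, gens0 D _⟩
  subst hl he
  obtain ⟨-, -, -, hz'⟩ := st_SEC n Y I S D hF hE
  obtain ⟨cn⟩ := NV5.bCN n Y I S D β _ hF hCo
  have hD := P63.pair X hn hc C.epos C.big C.can C.kd C.imm C.gen
    (fun i => (hZ.1 i).trans_lt (hp i).2)
    { cn with deg := fun d z hz i hi => cn.deg d z hz i (lt_of_lt_of_le hi (hp i).1) }
    (bNFB n Y I G S _ D X hG hF hNb)
  exact h5 n (mf n Y) I D X r c' c t p ν R hn C (fun N r k b₁ b₂ _ => hD N r k b₁ b₂)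
    (fun a => (hR a).mono fun j hj => by rw [← hz']; exact hj) h0'

end Pool.Agent.Lib.S5
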